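import Pool.Agent.H1.StackProg

/-!
# A satisfiability program
-/

namespace Pool.Agent.H1.MP

open Pool.Agent.H1.SP
open Pool.Agent.H1.SP.Prog

/-- Cells: does the variable occur, does its negation occur. -/
abbrev Cell := Bool × Bool

/-- Work cells: value, counter, tentative mark, mark. -/
structure WC (δ : ℕ) where
  v : Option Bool
  n : Fin (δ + 1)
  t : Bool
  m : Bool

/-- Stack symbols. -/
inductive Sym (δ : ℕ)
  | sep
  | cell (x : Cell)
  | fl (b : Bool)
  | v (o : Option Bool)
  | wc (w : WC δ)

/-- Registers. -/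
structure Reg (κ δ : ℕ) where
  x : Option (Sym δ)
  z : Option (Sym δ)
  f : Bool
  g : Bool
  u : Bool
  a : Bool
  p : Bool
  e : Bool
  c : Fin (κ + 2)

instance (δ : ℕ) : Finite (WC δ) :=
  Finite.of_injective (fun w : WC δ => (w.v, w.n, w.t, w.m)) (by
    intro a b h
    cases a; cases b
    simp only [Prod.mk.injEq] at h
    obtain ⟨h1, h2, h3, h4⟩ := h
    subst h1 h2 h3 h4
    rfl)

/-- Decoding of symbols. -/
def symDec (δ : ℕ) : Unit ⊕ Cell ⊕ Bool ⊕ Option Bool ⊕ WC δ → Sym δ
  | .inl _ => .sep
  | .inr (.inl x) => .cell x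
  | .inr (.inr (.inl b)) => .fl b
  | .inr (.inr (.inr (.inl o))) => .v o
  | .inr (.inr (.inr (.inr w))) => .wc w

instance (δ : ℕ) : Finite (Sym δ) :=
  Finite.of_surjective (symDec δ) (by
    intro s
    cases s with
    | sep => exact ⟨.inl (), rfl⟩
    | cell x => exact ⟨.inr (.inl x), rfl⟩
    | fl b => exact ⟨.inr (.inr (.inl b)), rfl⟩
    | v o => exact ⟨.inr (.inr (.inr (.inl o))), rfl⟩
    | wc w => exact ⟨.inr (.inr (.inr (.inr w))), rfl⟩)

instance (κ δ : ℕ) : Finite (Reg κ δ) :=
  Finite.of_injective (fun r : Reg κ δ => (r.x, r.z, r.f, r.g, r.u, r.a, r.p, r.e, r.c)) (by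
    intro a b h
    cases a; cases b
    simp only [Prod.mk.injEq] at h
    obtain ⟨h1, h2, h3, h4, h5, h6, h7, h8, h9⟩ := h
    subst h1 h2 h3 h4 h5 h6 h7 h8 h9
    rfl)

noncomputable instance (κ δ : ℕ) : Fintype (Reg κ δ) := Fintype.ofFinite _

variable {κ δ : ℕ}

/-- Input symbols. -/
abbrev Inp := Option Cell

/-- Operations. -/
abbrev O (κ δ : ℕ) := Op Inp Bool (Sym δ) (Reg κ δ)

/-- Programs. -/
abbrev P (κ δ : ℕ) := Prog Inp Bool (Sym δ) (Reg κ δ)

/-- Saturating successor. -/
def inc {k : ℕ} (i : Fin (k + 1)) : Fin (k + 1) := ⟨min ((i : ℕ) + 1) k, by omega⟩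

theorem inc_val {k : ℕ} (i : Fin (k + 1)) : (inc i : ℕ) = min ((i : ℕ) + 1) k := rfl

def isCell : Option (Sym δ) → Bool
  | some (.cell _) => true
  | _ => false

def isV : Option (Sym δ) → Bool
  | some (.v _) => true
  | _ => false

def isSome : Option (Sym δ) → Bool
  | some _ => true
  | none => false

def cellOf : Option (Sym δ) → Cell
  | some (.cell x) => x
  | _ => (false, false)

def flOf : Option (Sym δ) → Bool
  | some (.fl b) => b
  | _ => false

def vOf : Option (Sym δ) → Option Bool
  | some (.v o) => o
  | _ => none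

def wcOf : Option (Sym δ) → WC δ
  | some (.wc w) => w
  | _ => ⟨none, 0, false, false⟩

/-- The symbol itself, with a default. -/
def sy (o : Option (Sym δ)) : Sym δ := o.getD .sep

/-- From input symbols to stack symbols. -/
def conv : Inp → Sym δ
  | none => .sep
  | some c => .cell c

/-- Read an input symbol into `x`. -/
abbrev pin : O κ δ := .pop .inp fun r o => { r with x := o.map conv }

/-- Pop into `x`. -/
abbrev px (k : KS) : O κ δ := .pop (.s k) fun r o => { r with x := o }

/-- Pop into `z`. -/
abbrev pz (k : KS) : O κ δ := .pop (.s k) fun r o => { r with z := o }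

/-- Push on a work stack. -/
abbrev pu (k : KS) (f : Reg κ δ → Sym δ) : O κ δ := .push (.s k) f

/-- Change the registers. -/
abbrev ld (f : Reg κ δ → Reg κ δ) : O κ δ := .load f

/-- Sequence of programs. -/
def seqs : List (P κ δ) → P κ δ
  | [] => .blk []
  | [p] => p
  | p :: q :: l => .seq p (seqs (q :: l))

/-- Move everything from `a` to `b`. -/
def moveAll (a b : KS) : P κ δ :=
  .seq (.blk [px a]) (.loop (fun r => isSome r.x) (.blk [pu b fun r => sy r.x, px a]))

/-- Empty a stack. -/
def clear (a : KS) : P κ δ :=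
  .seq (.blk [px a]) (.loop (fun r => isSome r.x) (.blk [px a]))

/-! ### Preparation -/

/-- Read the blank row. -/
def pre1 : P κ δ :=
  .seq (.blk [pu .ta fun _ => .sep, pin])
    (.loop (fun r => isCell r.x) (.blk [pu .ta fun _ => .v none, pin]))

/-- Read the rest of the input. -/
def pre2 : P κ δ :=
  .loop (fun r => isSome r.x) (.blk [pu .mb fun r => sy r.x, pin])

/-- Move the work row back from `wb` to `wa`. -/
def backZ : P κ δ :=
  .seq (.blk [pz .wb]) (.loop (fun r => isSome r.z) (.blk [pu .wa fun r => sy r.z, pz .wb]))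

/-- Compare the work row with one row of the matrix. -/
def cmpRow : P κ δ :=
  seqs [.blk [ld fun r => { r with f := true }],
    .loop (fun r => isCell r.x)
      (.blk [pz .wa, pu .tb fun r => sy r.x, pu .wb fun r => sy r.z,
        ld fun r => { r with f := r.f && ((cellOf r.x).1 == (cellOf r.z).1) }, px .ma]),
    .blk [pu .tb fun r => sy r.x, ld fun r => { r with p := r.p && !r.f }],
    backZ]

/-- Append one row to the matrix. -/
def addRow : P κ δ :=
  seqs [.loop (fun r => isCell r.x) (.blk [pu .wa fun r => sy r.x, px .mb]),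
    .blk [ld fun r => { r with p := true }, px .ma],
    .loop (fun r => isSome r.x) (.seq cmpRow (.blk [px .ma])),
    moveAll .tb .ma,
    .blk [pu .ma fun r => .fl r.p],
    moveAll .wa .wb,
    moveAll .wb .ma]

/-- Build the matrix. -/
def pre3 : P κ δ :=
  .seq (.blk [px .mb]) (.loop (fun r => isSome r.x) (.seq addRow (.blk [px .mb])))

/-! ### Treatment of one node -/

/-- Does the positive literal occur while the variable is unassigned. -/
def unC (c : Cell) (w : WC δ) : Bool := c.1 && w.v.isNone

/-- Does the positive literal occur and is it true. -/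
def hitC (c : Cell) (w : WC δ) : Bool := c.1 && w.v == some true

/-- If the negative literal occurs then it is false. -/
def negC (c : Cell) (w : WC δ) : Bool := !c.2 || w.v == some true

/-- Update of the registers at one cell. -/
def updR (r : Reg κ δ) : Reg κ δ :=
  { r with
    f := r.f || hitC (cellOf r.x) (wcOf r.z)
    g := r.g && negC (cellOf r.x) (wcOf r.z)
    c := if unC (cellOf r.x) (wcOf r.z) then inc r.c else r.c }

/-- Update of the registers at the end of a row. -/
def endR (r : Reg κ δ) : Reg κ δ :=
  { r with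
    a := flOf r.x && !r.f && decide (κ < (r.c : ℕ))
    p := !r.u && !r.f && r.g
    u := r.u || (!r.f && r.g) }

/-- Commitment. -/
def commit (a p : Bool) (w : WC δ) : WC δ :=
  { w with
    n := if a && w.t then inc w.n else w.n
    m := if p then w.t else w.m
    t := false }

/-- One row against the work row. -/
def nodeRow : P κ δ :=
  seqs [.blk [ld fun r => { r with f := false, g := true, c := 0 }],
    .loop (fun r => isCell r.x)
      (.blk [pz .wa, pu .mb fun r => sy r.x,
        pu .wb fun r => .wc { wcOf r.z with t := unC (cellOf r.x) (wcOf r.z) },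
        ld updR, px .ma]),
    .blk [pu .mb fun r => sy r.x, ld endR, pz .wb],
    .loop (fun r => isSome r.z) (.blk [pu .wa fun r => .wc (commit r.a r.p (wcOf r.z)), pz .wb])]

/-- All rows. -/
def nodePass : P κ δ :=
  seqs [.blk [px .ma],
    .loop (fun r => isSome r.x) (.seq nodeRow (.blk [px .ma])),
    moveAll .mb .ma]

/-- Load a state. -/
def loadN : P κ δ :=
  seqs [.blk [ld fun r => { r with u := false }],
    .loop (fun r => isV r.x) (.blk [pu .wb fun r => .wc ⟨vOf r.x, 0, false, false⟩, px .ta]),
    moveAll .wb .wa]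

/-- Look for candidates. -/
def look : P κ δ :=
  seqs [.blk [ld fun r => { r with a := false, p := false }, pz .wa],
    .loop (fun r => isSome r.z)
      (.blk [pu .wb fun r => sy r.z,
        ld fun r => { r with
          a := r.a || decide (δ ≤ ((wcOf r.z).n : ℕ))
          p := r.p || (wcOf r.z).m },
        pz .wa])]

/-- Selection of the branching variable. -/
def selC (a p : Bool) (w : WC δ) : Bool :=
  !p && (if a then decide (δ ≤ (w.n : ℕ)) else w.m)

/-- Write the two children. -/
def branchP : P κ δ :=
  seqs [.blk [pu .ta fun _ => .sep, pu .tb fun _ => .sep, ld fun r => { r with p := false }, pz .wb],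
    .loop (fun r => isSome r.z)
      (.blk [pu .ta fun r => .v (if selC r.a r.p (wcOf r.z) then some true else (wcOf r.z).v),
        pu .tb fun r => .v (if selC r.a r.p (wcOf r.z) then some false else (wcOf r.z).v),
        ld fun r => { r with p := r.p || selC r.a r.p (wcOf r.z) },
        pz .wb]),
    moveAll .tb .va, moveAll .va .ta]

/-- Treat one state. -/
def node : P κ δ :=
  seqs [loadN, nodePass, look,
    .ite (fun r => r.a || r.p) branchP
      (.seq (.blk [ld fun r => { r with e := !r.u }]) (clear .wb))]

/-- The main loop. -/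
def mainLoop : P κ δ :=
  .seq (.blk [px .ta]) (.loop (fun r => isSome r.x && !r.e) (.seq node (.blk [px .ta])))

/-- Initial registers. -/
def reg0 : Reg κ δ := ⟨none, none, false, false, false, false, false, false, 0⟩

/-- Output. -/
def fin : P κ δ :=
  seqs [clear .ta, clear .ma, .blk [.push .out fun r => r.e, ld fun _ => reg0]]

/-- The whole program. -/
def prog : P κ δ := seqs [pre1, pre2, pre3, mainLoop, fin]

end Pool.Agent.H1.MP
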