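import Pool.Agent.H1.MpTree

/-!
# The first rule and the counting
-/

namespace Pool.Agent.H1.MP

variable {κ δ n : ℕ}

/-- Number of long representatives. -/
def gc (κ : ℕ) (D : List (Rf n)) (R : Sf n) : ℕ :=
  D.countP fun A => A.2 && decide (long κ A.1 R)

theorem wc_self (D : List (Rf n)) (R : Sf n) : wc κ D R R = gc κ D R := by
  unfold wc gc
  congr 1
  funext A
  rw [Bool.eq_iff_iff]
  simp only [Bool.and_eq_true, Bool.not_eq_true', decide_eq_true_eq, decide_eq_false_iff_not]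
  exact ⟨fun h => h.1, fun h => ⟨h, h.2.1⟩⟩

theorem gc_mul_le (D : List (Rf n)) (R : Sf n) :
    (κ + 1) * gc κ D R ≤ ∑ i, occ κ D R i := by
  induction D with
  | nil => simp [gc]
  | cons A D ih =>
    have h1 : ∀ i, occ κ (A :: D) R i = occ κ D R i +
        (if (A.2 && decide (long κ A.1 R) && decide (un A.1 R i)) = true then 1 else 0) := by
      intro i; rw [occ, List.countP_cons]; rfl
    have h2 : gc κ (A :: D) R = gc κ D R +
        (if (A.2 && decide (long κ A.1 R)) = true then 1 else 0) := by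
      rw [gc, List.countP_cons]; rfl
    simp only [h1, h2, Finset.sum_add_distrib]
    rw [mul_add]
    refine add_le_add ih ?_
    by_cases hl : (A.2 && decide (long κ A.1 R)) = true
    · rw [if_pos hl]
      simp only [hl, Bool.true_and, decide_eq_true_eq]
      rw [Finset.sum_boole]
      rw [Bool.and_eq_true, decide_eq_true_eq] at hl
      have := hl.2.2
      simp only [ucount] at this
      simp only [Nat.cast_id]
      omega
    · rw [if_neg hl]; simp

theorem un_of_occ {D : List (Rf n)} {R : Sf n} {i : Fin n} (h : 0 < occ κ D R i) :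
    R i = none := by
  rw [occ, List.countP_pos_iff] at h
  obtain ⟨A, -, hA⟩ := h
  simp only [Bool.and_eq_true, decide_eq_true_eq] at hA
  exact hA.2.2

theorem four_gc_le {D : List (Rf n)} {R : Sf n} (hκ : 4 * δ ≤ κ + 1) (hδ : 0 < δ)
    (h : ∀ i, occ κ D R i < δ) : 4 * gc κ D R ≤ nn R := by
  have h1 : ∑ i, occ κ D R i ≤ ∑ i, if R i = none then δ else 0 := by
    refine Finset.sum_le_sum fun i _ => ?_
    by_cases hi : R i = none
    · rw [if_pos hi]; exact (h i).le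
    · rw [if_neg hi, nonpos_iff_eq_zero]
      by_contra h0
      exact hi (un_of_occ (Nat.pos_of_ne_zero h0))
  have h2 : (∑ i, if R i = none then δ else 0) = nn R * δ := by
    rw [← Finset.sum_filter, Finset.sum_const, smul_eq_mul]
    rfl
  rw [h2] at h1
  have h3 := (gc_mul_le D R).trans h1
  have h4 : 4 * δ * gc κ D R ≤ (κ + 1) * gc κ D R := Nat.mul_le_mul_right _ hκ
  have h5 : (4 * gc κ D R) * δ ≤ nn R * δ := by
    calc (4 * gc κ D R) * δ = 4 * δ * gc κ D R := by ring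
      _ ≤ nn R * δ := h4.trans h3
  exact Nat.le_of_mul_le_mul_right h5 hδ

theorem countP_add_le {α : Type} {p q r : α → Bool} {l : List α}
    (h : ∀ a ∈ l, (p a = true → q a = true) ∧ (r a = true → q a = true) ∧
      ¬ (p a = true ∧ r a = true)) :
    l.countP p + l.countP r ≤ l.countP q := by
  induction l with
  | nil => simp
  | cons b l ih =>
    have hl := ih fun x hx => h x (by simp [hx])
    obtain ⟨h1, h2, h3⟩ := h b (by simp)
    rw [List.countP_cons, List.countP_cons, List.countP_cons]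
    by_cases hp : p b = true
    · by_cases hr : r b = true
      · exact absurd ⟨hp, hr⟩ h3
      · rw [if_pos hp, if_neg hr, if_pos (h1 hp)]; omega
    · by_cases hr : r b = true
      · rw [if_neg hp, if_pos hr, if_pos (h2 hr)]; omega
      · rw [if_neg hp, if_neg hr]; split_ifs <;> omega

theorem gc_false {R : Sf n} {i : Fin n} (hi : R i = none) (D : List (Rf n)) (c : Bool) :
    gc κ D (Function.update R i (some c)) ≤ gc κ D R := by
  refine List.countP_mono_left ?_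
  intro A _ hA
  simp only [Bool.and_eq_true, decide_eq_true_eq] at hA ⊢
  exact ⟨hA.1, long_anti (le_update (le_refl' R) hi c) hA.2⟩

theorem gc_true {R : Sf n} {i : Fin n} (hi : R i = none) (D : List (Rf n)) :
    gc κ D (Function.update R i (some true)) + occ κ D R i ≤ gc κ D R := by
  refine countP_add_le ?_
  intro A _
  simp only [Bool.and_eq_true, decide_eq_true_eq]
  refine ⟨fun hA => ⟨hA.1, long_anti (le_update (le_refl' R) hi true) hA.2⟩,
    fun hA => hA.1, ?_⟩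
  rintro ⟨h1, h2⟩
  exact h1.2.1 (hit_update h2.2.1)

theorem phaseA (C : Cst κ) {D : List (Rf n)} (hD : Repr D) (hκ : 4 * δ ≤ κ + 1) (hδ : 0 < δ)
    {A0 b β : ℝ} (hb : 1 ≤ b) (hbB : C.B ≤ b ^ 4) (hA0 : C.A * b ≤ A0) (hβ : 1 ≤ β)
    (hβδ : 1 ≤ (A0 - 1) * β ^ δ) :
    ∀ (m : ℕ) (R : Sf n) (_hm : nn R = m),
      ∃ a N, SV κ δ D R a N ∧ (N : ℝ) ≤ (2 * m + 1) * A0 ^ m * β ^ gc κ D R := by
  intro m
  induction m with
  | zero =>
    intro R hm
    have hA : ¬ ∃ i, δ ≤ occ κ D R i := by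
      rintro ⟨i, hi⟩
      have h0 := un_of_occ (lt_of_lt_of_le hδ hi)
      rw [nn, Finset.card_eq_zero, Finset.filter_eq_empty_iff] at hm
      exact hm (Finset.mem_univ i) h0
    have hM : ¬ ∃ A, fv D R = some A ∧ ∃ i, un A.1 R i := by
      rintro ⟨A, -, i, hi⟩
      rw [nn, Finset.card_eq_zero, Finset.filter_eq_empty_iff] at hm
      exact hm (Finset.mem_univ i) hi.2
    refine ⟨_, 1, SV_stop hA hM, ?_⟩
    have : (1 : ℝ) ≤ β ^ gc κ D R := one_le_pow₀ hβ
    simpa using this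
  | succ m ih =>
    intro R hm
    have hA01 : 1 ≤ A0 := by
      have := C.hA
      nlinarith
    by_cases hA : ∃ i, δ ≤ occ κ D R i
    swap
    · have hA' : ∀ i, occ κ D R i < δ := by
        intro i
        by_contra h
        exact hA ⟨i, not_lt.1 h⟩
      obtain ⟨a, N, h1, h2, -⟩ := phaseB C hD hA' (m + 1) R (le_refl' R) hm
      refine ⟨a, N, h1, h2.trans ?_⟩
      rw [wc_self, Cst.G]
      have hg := four_gc_le hκ hδ hA'
      rw [hm] at hg
      have hCA := C.hA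
      have hCB := C.hB
      have hBg : C.B ^ gc κ D R ≤ b ^ (m + 1) := by
        calc C.B ^ gc κ D R ≤ (b ^ 4) ^ gc κ D R :=
              pow_le_pow_left₀ (by linarith) hbB _
          _ = b ^ (4 * gc κ D R) := by rw [← pow_mul]
          _ ≤ b ^ (m + 1) := pow_le_pow_right₀ hb hg
      have hβg : (1 : ℝ) ≤ β ^ gc κ D R := one_le_pow₀ hβ
      have h3 : C.A ^ (m + 1) * C.B ^ gc κ D R ≤ A0 ^ (m + 1) := by
        calc C.A ^ (m + 1) * C.B ^ gc κ D R ≤ C.A ^ (m + 1) * b ^ (m + 1) := by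
              gcongr
          _ = (C.A * b) ^ (m + 1) := by rw [mul_pow]
          _ ≤ A0 ^ (m + 1) := by
              refine pow_le_pow_left₀ ?_ hA0 _
              positivity
      have h4 : (0 : ℝ) ≤ A0 ^ (m + 1) := by positivity
      have h5 : (0 : ℝ) ≤ 2 * ((m + 1 : ℕ) : ℝ) + 1 := by positivity
      calc (2 * ((m + 1 : ℕ) : ℝ) + 1) * C.A ^ (m + 1) * C.B ^ gc κ D R
          = (2 * ((m + 1 : ℕ) : ℝ) + 1) * (C.A ^ (m + 1) * C.B ^ gc κ D R) := by ring
        _ ≤ (2 * ((m + 1 : ℕ) : ℝ) + 1) * A0 ^ (m + 1) := mul_le_mul_of_nonneg_left h3 h5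
        _ = (2 * ((m + 1 : ℕ) : ℝ) + 1) * A0 ^ (m + 1) * 1 := by ring
        _ ≤ (2 * ((m + 1 : ℕ) : ℝ) + 1) * A0 ^ (m + 1) * β ^ gc κ D R :=
            mul_le_mul_of_nonneg_left hβg (mul_nonneg h5 h4)
    · have hbr : (hasA (endW κ δ (D.map toRow) (List.ofFn R)).1 ||
          hasM (endW κ δ (D.map toRow) (List.ofFn R)).1) = true := by
        rw [hasA_iff, hasM_iff, decide_eq_true hA, Bool.true_or]
      obtain ⟨i, hi, hk⟩ := kid_spec D R hbr
      rw [if_pos hA] at hi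
      have hi0 : R i = none := un_of_occ (lt_of_lt_of_le hδ hi)
      have hn0 := nn_update hi0 false
      have hn1 := nn_update hi0 true
      obtain ⟨b0, N0, s0, t0⟩ := ih (Function.update R i (some false)) (by omega)
      obtain ⟨b1, N1, s1, t1⟩ := ih (Function.update R i (some true)) (by omega)
      obtain ⟨a, N, hSV, hN⟩ := SV_branch hi0 hbr hk s0 s1
      refine ⟨a, N, hSV, ?_⟩
      have g0 := gc_false (κ := κ) hi0 D false
      have g1 := gc_true (κ := κ) hi0 D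
      obtain ⟨g', hg'⟩ : ∃ g', gc κ D R = g' + δ := ⟨gc κ D R - δ, by omega⟩
      have hNr : (N : ℝ) ≤ N0 + N1 + 1 := by exact_mod_cast hN
      have hm1 : (0 : ℝ) ≤ (2 * (m : ℝ) + 1) * A0 ^ m := by positivity
      have hA0m : (1 : ℝ) ≤ A0 ^ m := one_le_pow₀ hA01
      have t0' : (N0 : ℝ) ≤ (2 * m + 1) * A0 ^ m * (β ^ g' * β ^ δ) := by
        refine t0.trans ?_
        rw [← pow_add, ← hg']
        exact mul_le_mul_of_nonneg_left (pow_le_pow_right₀ hβ g0) hm1
      have t1' : (N1 : ℝ) ≤ (2 * m + 1) * A0 ^ m * β ^ g' := by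
        refine t1.trans ?_
        exact mul_le_mul_of_nonneg_left (pow_le_pow_right₀ hβ (by omega)) hm1
      have hβg : (1 : ℝ) ≤ β ^ g' := one_le_pow₀ hβ
      have hβd : (1 : ℝ) ≤ β ^ δ := one_le_pow₀ hβ
      rw [hg', pow_succ A0 m, pow_add β g' δ]
      have e1 : (2 * (m : ℝ) + 1) * A0 ^ m * (β ^ g' * β ^ δ) +
          (2 * m + 1) * A0 ^ m * β ^ g' ≤
          (2 * (m : ℝ) + 1) * A0 ^ m * (β ^ g' * β ^ δ) * A0 := by
        have e2 : 1 + β ^ δ ≤ A0 * β ^ δ := by linarith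
        have e3 : (0 : ℝ) ≤ (2 * (m : ℝ) + 1) * A0 ^ m * β ^ g' := by positivity
        have := mul_le_mul_of_nonneg_left e2 e3
        calc _ = (2 * (m : ℝ) + 1) * A0 ^ m * β ^ g' * (1 + β ^ δ) := by ring
          _ ≤ (2 * (m : ℝ) + 1) * A0 ^ m * β ^ g' * (A0 * β ^ δ) := this
          _ = _ := by ring
      have e4 : (1 : ℝ) ≤ A0 ^ m * A0 * (β ^ g' * β ^ δ) := by
        calc (1 : ℝ) = 1 * 1 * (1 * 1) := by norm_num
          _ ≤ A0 ^ m * A0 * (β ^ g' * β ^ δ) := by gcongr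
      push_cast
      have e5 : (2 * ((m : ℝ) + 1) + 1) * (A0 ^ m * A0) * (β ^ g' * β ^ δ) =
          (2 * (m : ℝ) + 1) * A0 ^ m * (β ^ g' * β ^ δ) * A0 +
            2 * (A0 ^ m * A0 * (β ^ g' * β ^ δ)) := by ring
      rw [e5]
      linarith

/-! ### The constants -/

/-- The constants with `d = 2 ^ (-κ)`. -/
noncomputable def cst (κ : ℕ) (hκ : 1 ≤ κ) : Cst κ where
  A := 2 - (1 / 2) ^ κ
  B := 1 / (1 - (1 / 2) ^ κ)
  h := fun p => 1 / (1 - (1 / 2) ^ κ) * (1 - (1 / (2 - (1 / 2) ^ κ)) ^ p)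
  hA := by
    have : ((1 : ℝ) / 2) ^ κ ≤ 1 := pow_le_one₀ (by norm_num) (by norm_num)
    linarith
  hB := by
    have h1 : ((1 : ℝ) / 2) ^ κ ≤ (1 / 2) ^ 1 :=
      pow_le_pow_of_le_one (by norm_num) (by norm_num) hκ
    have h2 : (0 : ℝ) < (1 / 2) ^ κ := by positivity
    rw [pow_one] at h1
    rw [le_div_iff₀ (by linarith)]
    linarith
  h0 := by simp
  hs := by
    intro p
    have h1 : ((1 : ℝ) / 2) ^ κ ≤ (1 / 2) ^ 1 :=
      pow_le_pow_of_le_one (by norm_num) (by norm_num) hκ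
    rw [pow_one] at h1
    set d : ℝ := (1 / 2) ^ κ with hd
    have h3 : (1 - d) ≠ 0 := by linarith
    have h4 : (2 - d) ≠ 0 := by linarith
    have h5 : (2 - d) * (1 / (2 - d)) ^ (p + 1) = (1 / (2 - d)) ^ p := by
      rw [pow_succ]
      field_simp
    calc (2 - d) * (1 / (1 - d) * (1 - (1 / (2 - d)) ^ (p + 1)))
        = 1 / (1 - d) * ((2 - d) - (2 - d) * (1 / (2 - d)) ^ (p + 1)) := by ring
      _ = 1 / (1 - d) * ((2 - d) - (1 / (2 - d)) ^ p) := by rw [h5]
      _ = 1 + 1 / (1 - d) * (1 - (1 / (2 - d)) ^ p) := by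
        field_simp
        ring
  hnn := by
    intro p
    have h1 : ((1 : ℝ) / 2) ^ κ ≤ (1 / 2) ^ 1 :=
      pow_le_pow_of_le_one (by norm_num) (by norm_num) hκ
    rw [pow_one] at h1
    set d : ℝ := (1 / 2) ^ κ with hd
    have h2 : (1 / (2 - d)) ^ p ≤ 1 := by
      refine pow_le_one₀ ?_ ?_
      · apply div_nonneg <;> linarith
      · rw [div_le_one (by linarith)]; linarith
    have h3 : 0 ≤ 1 / (1 - d) := by apply div_nonneg <;> linarith
    exact mul_nonneg h3 (by linarith)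
  h1 := by
    intro p hp
    have h1 : ((1 : ℝ) / 2) ^ κ ≤ (1 / 2) ^ 1 :=
      pow_le_pow_of_le_one (by norm_num) (by norm_num) hκ
    rw [pow_one] at h1
    have h2 : (0 : ℝ) < (1 / 2) ^ κ := by positivity
    set d : ℝ := (1 / 2) ^ κ with hd
    have h3 : d ≤ (1 / (2 - d)) ^ p := by
      calc d ≤ (1 / 2) ^ p := pow_le_pow_of_le_one (by norm_num) (by norm_num) hp
        _ ≤ (1 / (2 - d)) ^ p := by
          refine pow_le_pow_left₀ (by norm_num) ?_ _
          rw [div_le_div_iff₀ (by norm_num) (by linarith)]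
          linarith
    rw [one_div_mul_eq_div, div_le_one (by linarith)]
    linarith
  h2 := by
    intro p
    have h1 : ((1 : ℝ) / 2) ^ κ ≤ (1 / 2) ^ 1 :=
      pow_le_pow_of_le_one (by norm_num) (by norm_num) hκ
    rw [pow_one] at h1
    set d : ℝ := (1 / 2) ^ κ with hd
    have h3 : (0 : ℝ) ≤ (1 / (2 - d)) ^ p := by
      apply pow_nonneg
      apply div_nonneg <;> linarith
    have h4 : 0 ≤ 1 / (1 - d) := by apply div_nonneg <;> linarith
    calc 1 / (1 - d) * (1 - (1 / (2 - d)) ^ p) ≤ 1 / (1 - d) * 1 :=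
          mul_le_mul_of_nonneg_left (by linarith) h4
      _ = 1 / (1 - d) := mul_one _

/-- The elementary inequality used twice. -/
theorem four_ineq {d : ℝ} (h0 : 0 ≤ d) (h1 : d ≤ 1 / 4) : 1 / (1 - d) ≤ (1 + d / 3) ^ 4 := by
  rw [div_le_iff₀ (by linarith)]
  have h2 : (1 + d / 3) ^ 4 = 1 + 4 * d / 3 + 2 * d ^ 2 / 3 + 4 * d ^ 3 / 27 + d ^ 4 / 81 := by
    ring
  rw [h2]
  have h3 : 0 ≤ d ^ 3 := by positivity
  have h4 : 0 ≤ d ^ 4 := by positivity
  have h5 : 0 ≤ d ^ 2 := by positivity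
  nlinarith [mul_nonneg h0 (by linarith : 0 ≤ 1 / 4 - d), mul_nonneg h5 (by linarith : 0 ≤ 1 / 4 - d),
    mul_nonneg h3 (by linarith : 0 ≤ 1 / 4 - d), mul_nonneg h4 (by linarith : 0 ≤ 1 / 4 - d)]

/-- The search tree from the empty assignment. -/
theorem tree_bound (c : ℕ) {D : List (Rf n)} (hD : Repr D)
    (hκ : 16 * (c + 1) ≤ κ) :
    ∃ a N, SV κ (4 * (c + 1)) D (fun _ => none) a N ∧ (gc κ D (fun _ => none) ≤ c * n →
      (N : ℝ) ≤ (2 * n + 1) * (2 - (1 / 2) ^ κ / 9) ^ n) := by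
  have hκ1 : 1 ≤ κ := by omega
  set d : ℝ := (1 / 2) ^ κ with hd
  have hd0 : 0 < d := by positivity
  have hd1 : d ≤ 1 / 4 := by
    calc d ≤ (1 / 2) ^ 2 := pow_le_pow_of_le_one (by norm_num) (by norm_num) (by omega)
      _ = 1 / 4 := by norm_num
  set e : ℝ := d / 3 with he
  have he0 : 0 < e := by positivity
  have he1 : e ≤ 1 / 4 := by rw [he]; linarith
  have hc : (0 : ℝ) < c + 1 := by positivity
  set β : ℝ := (1 + e / 3) ^ ((1 : ℝ) / (c + 1)) with hβ
  have hβ1 : 1 ≤ β := Real.one_le_rpow (by linarith) (by positivity)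
  have hβc : β ^ (c + 1) = 1 + e / 3 := by
    rw [hβ, ← Real.rpow_natCast, ← Real.rpow_mul (by linarith)]
    push_cast
    rw [one_div_mul_cancel hc.ne', Real.rpow_one]
  have hβδ : 1 ≤ ((2 - e) - 1) * β ^ (4 * (c + 1)) := by
    have h1 : β ^ (4 * (c + 1)) = (1 + e / 3) ^ 4 := by
      rw [mul_comm, pow_mul, hβc]
    rw [h1]
    have h2 := four_ineq he0.le he1
    rw [div_le_iff₀ (by linarith)] at h2
    linarith
  have hnn : nn (fun _ : Fin n => (none : Option Bool)) = n := by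
    simp [nn]
  obtain ⟨a, N, h1, h2⟩ := phaseA (κ := κ) (δ := 4 * (c + 1)) (cst κ hκ1) hD (by omega)
    (by omega) (A0 := 2 - e) (b := 1 + d / 3) (β := β) (by linarith)
    (four_ineq hd0.le hd1) (by
      show (2 - (1 / 2) ^ κ) * (1 + d / 3) ≤ 2 - e
      rw [← hd, he]
      nlinarith) hβ1 hβδ n (fun _ => none) hnn
  refine ⟨a, N, h1, fun hg => h2.trans ?_⟩
  have h3 : β ^ gc κ D (fun _ => none) ≤ (1 + e / 3) ^ n := by
    calc β ^ gc κ D (fun _ => none) ≤ β ^ ((c + 1) * n) :=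
          pow_le_pow_right₀ hβ1 (hg.trans (Nat.mul_le_mul_right _ (by omega)))
      _ = (1 + e / 3) ^ n := by rw [pow_mul, hβc]
  have h4 : (0 : ℝ) ≤ (2 * (n : ℝ) + 1) * (2 - e) ^ n := by
    have : (0 : ℝ) ≤ 2 - e := by linarith
    positivity
  calc (2 * (n : ℝ) + 1) * (2 - e) ^ n * β ^ gc κ D (fun _ => none)
      ≤ (2 * (n : ℝ) + 1) * (2 - e) ^ n * (1 + e / 3) ^ n := mul_le_mul_of_nonneg_left h3 h4
    _ = (2 * (n : ℝ) + 1) * ((2 - e) * (1 + e / 3)) ^ n := by rw [mul_pow]; ring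
    _ ≤ (2 * (n : ℝ) + 1) * (2 - d / 9) ^ n := by
      refine mul_le_mul_of_nonneg_left ?_ (by positivity)
      refine pow_le_pow_left₀ ?_ ?_ _
      · have : (0 : ℝ) ≤ 2 - e := by linarith
        positivity
      · rw [he]
        nlinarith

end Pool.Agent.H1.MP
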