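import Pool.Agent.H1.MpCode

/-!
# Execution of the treatment of one node
-/

namespace Pool.Agent.H1.MP

open Pool.Agent.H1.SP
open Pool.Agent.H1.SP.Prog

variable {κ δ : ℕ}

theorem moveAll_loop (a b : KS) (hab : a ≠ b) : ∀ (L : List (Sym δ)) (r : Reg κ δ)
    (s : St Inp Bool (Sym δ)), r.x = L.head? → s.gs a = L.tail →
    Runs (.loop (fun r => isSome r.x) (.blk [pu b fun r => sy r.x, px a])) (r, s)
      ({ r with x := none }, (s.ss a []).ss b (L.reverse ++ s.gs b)) (2 * L.length + 1) := by
  intro L
  induction L with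
  | nil =>
    intro r s h1 h2
    have e1 : ({ r with x := none } : Reg κ δ) = r := by
      cases r; simp only [List.head?_nil] at h1; subst h1; rfl
    have e2 : (s.ss a []).ss b (([] : List (Sym δ)).reverse ++ s.gs b) = s := by
      have : s.gs a = [] := h2
      have h3 : s.ss a [] = s := by rw [← this]; exact s.ss_gs a
      rw [h3]
      simp only [List.reverse_nil, List.nil_append]
      exact s.ss_gs b
    rw [e1, e2]
    refine (Runs.loop_false ?_).mono (by simp)
    simp [h1, isSome]
  | cons y L ih =>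
    intro r s h1 h2
    have h1' : r.x = some y := h1
    have h2' : s.gs a = L := h2
    have hstep : runOps [pu b fun r => sy r.x, px a] (r, s) =
        ({ r with x := L.head? }, (s.ss b (y :: s.gs b)).ss a L.tail) := by
      have e1 : (s.ss b (y :: s.gs b)).gs a = L := by rw [St.gs_ss_ne _ _ hab, h2']
      simp only [runOps, Op.run, St.get, St.set, h1', sy, Option.getD_some]
      rw [e1]
    have hr := ih { r with x := L.head? } ((s.ss b (y :: s.gs b)).ss a L.tail) rfl
      (St.gs_ss _ _ _)
    have := Runs.loop_true (c := fun r => isSome r.x) (s := (r, s)) (by simp [h1', isSome])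
      (Runs.blk hstep) hr
    have e3 : ((((s.ss b (y :: s.gs b)).ss a L.tail).ss a []).ss b
        (L.reverse ++ ((s.ss b (y :: s.gs b)).ss a L.tail).gs b)) =
        (s.ss a []).ss b ((y :: L).reverse ++ s.gs b) := by
      rw [St.gs_ss_ne _ _ hab.symm, St.gs_ss, St.ss_ss, St.ss_comm s _ _ hab, St.ss_ss]
      simp
    rw [e3] at this
    refine this.mono ?_
    simp only [List.length_cons]
    omega

theorem runs_moveAll (a b : KS) (hab : a ≠ b) (r : Reg κ δ) (s : St Inp Bool (Sym δ)) :
    Runs (moveAll a b) (r, s)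
      ({ r with x := none }, (s.ss a []).ss b ((s.gs a).reverse ++ s.gs b))
      (2 * (s.gs a).length + 2) := by
  have h1 : runOps [px a] (r, s) = ({ r with x := (s.gs a).head? }, s.ss a (s.gs a).tail) := rfl
  have h2 := moveAll_loop a b hab (s.gs a) { r with x := (s.gs a).head? } (s.ss a (s.gs a).tail) rfl
    (St.gs_ss _ _ _)
  have h3 := Runs.seq (Runs.blk h1) h2
  rw [St.ss_ss, St.gs_ss_ne _ _ hab.symm] at h3
  exact h3.mono (by omega)

theorem runs_mv (a b : KS) (hab : a ≠ b) {r r' : Reg κ δ} {s s' : St Inp Bool (Sym δ)} {n : ℕ}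
    (hr : { r with x := none } = r') (hs : (s.ss a []).ss b ((s.gs a).reverse ++ s.gs b) = s')
    (hn : 2 * (s.gs a).length + 2 ≤ n) : Runs (moveAll a b) (r, s) (r', s') n := by
  subst hr hs
  exact (runs_moveAll a b hab r s).mono hn

theorem clear_loop (a : KS) : ∀ (L : List (Sym δ)) (r : Reg κ δ)
    (s : St Inp Bool (Sym δ)), r.x = L.head? → s.gs a = L.tail →
    Runs (.loop (fun r => isSome r.x) (.blk [px a])) (r, s)
      ({ r with x := none }, s.ss a []) (2 * L.length + 1) := by
  intro L
  induction L with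
  | nil =>
    intro r s h1 h2
    have e1 : ({ r with x := none } : Reg κ δ) = r := by
      cases r; simp only [List.head?_nil] at h1; subst h1; rfl
    have e2 : s.ss a [] = s := by
      have : s.gs a = [] := h2
      rw [← this]; exact s.ss_gs a
    rw [e1, e2]
    refine (Runs.loop_false ?_).mono (by simp)
    simp [h1, isSome]
  | cons y L ih =>
    intro r s h1 h2
    have h1' : r.x = some y := h1
    have h2' : s.gs a = L := h2
    have hstep : runOps [px a] (r, s) = ({ r with x := L.head? }, s.ss a L.tail) := by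
      simp only [runOps, Op.run, St.get, St.set, h2']
    have hr := ih { r with x := L.head? } (s.ss a L.tail) rfl (St.gs_ss _ _ _)
    have := Runs.loop_true (c := fun r => isSome r.x) (s := (r, s)) (by simp [h1', isSome])
      (Runs.blk hstep) hr
    rw [St.ss_ss] at this
    refine this.mono ?_
    simp only [List.length_cons]
    omega

theorem runs_clear (a : KS) (r : Reg κ δ) (s : St Inp Bool (Sym δ)) :
    Runs (clear a) (r, s) ({ r with x := none }, s.ss a []) (2 * (s.gs a).length + 2) := by
  have h1 : runOps [px a] (r, s) = ({ r with x := (s.gs a).head? }, s.ss a (s.gs a).tail) := rfl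
  have h2 := clear_loop a (s.gs a) { r with x := (s.gs a).head? } (s.ss a (s.gs a).tail) rfl
    (St.gs_ss _ _ _)
  have h3 := Runs.seq (Runs.blk h1) h2
  rw [St.ss_ss] at h3
  exact h3.mono (by omega)

/-! ### Encodings -/

/-- Rows of the matrix. -/
abbrev Row := List Cell × Bool

/-- States. -/
abbrev Sta := List (Option Bool)

def encRow (A : Row) : List (Sym δ) := A.1.map Sym.cell ++ [Sym.fl A.2]

def encMat (M : List Row) : List (Sym δ) := M.flatMap encRow

def encSta (R : Sta) : List (Sym δ) := R.map Sym.v ++ [Sym.sep]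

def encPend (T : List Sta) : List (Sym δ) := T.flatMap encSta

theorem encMat_cons (A : Row) (T : List Row) :
    (encMat (A :: T) : List (Sym δ)) = encRow A ++ encMat T := rfl

theorem encPend_cons (A : Sta) (T : List Sta) :
    (encPend (A :: T) : List (Sym δ)) = encSta A ++ encPend T := rfl

/-! ### Loading a state -/

/-- Initial work cell. -/
def wc0 (o : Option Bool) : WC δ := ⟨o, 0, false, false⟩

theorem loadN_loop : ∀ (R : Sta) (rest : List (Sym δ)) (_hrest : isV rest.head? = false)
    (z : Option (Sym δ)) (f g u a p e : Bool) (c : Fin (κ + 2)) (I O ma mb tb wa wb va),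
    Runs (.loop (fun r => isV r.x)
      (.blk [pu .wb fun r => .wc ⟨vOf r.x, 0, false, false⟩, px .ta]))
      (⟨(R.map Sym.v ++ rest).head?, z, f, g, u, a, p, e, c⟩,
        ⟨I, O, ma, mb, (R.map Sym.v ++ rest).tail, tb, wa, wb, va⟩)
      (⟨rest.head?, z, f, g, u, a, p, e, c⟩,
        ⟨I, O, ma, mb, rest.tail, tb, wa, (R.map fun o => Sym.wc (wc0 o)).reverse ++ wb, va⟩)
      (2 * R.length + 1) := by
  intro R
  induction R with
  | nil =>
    intro rest hrest z f g u a p e c I O ma mb tb wa wb va
    exact (Runs.loop_false (by simpa using hrest)).mono (by simp)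
  | cons o R ih =>
    intro rest hrest z f g u a p e c I O ma mb tb wa wb va
    have h1 := ih rest hrest z f g u a p e c I O ma mb tb wa (Sym.wc (wc0 o) :: wb) va
    have := Runs.loop_true (c := fun r : Reg κ δ => isV r.x) (b := 1)
      (s := (⟨((o :: R).map Sym.v ++ rest).head?, z, f, g, u, a, p, e, c⟩,
        ⟨I, O, ma, mb, ((o :: R).map Sym.v ++ rest).tail, tb, wa, wb, va⟩))
      rfl (Runs.blk rfl) h1
    have e1 : (R.map fun o => Sym.wc (wc0 o)).reverse ++ (Sym.wc (wc0 o) :: wb) =
        ((o :: R).map fun o => Sym.wc (wc0 (δ := δ) o)).reverse ++ wb := by simp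
    rw [e1] at this
    refine this.mono ?_
    simp only [List.length_cons]
    omega

theorem runs_loadN (R : Sta) (rest : List (Sym δ))
    (z : Option (Sym δ)) (f g u a p e : Bool) (c : Fin (κ + 2)) (I O ma mb tb va) :
    Runs loadN
      (⟨(encSta R ++ rest).head?, z, f, g, u, a, p, e, c⟩,
        ⟨I, O, ma, mb, (encSta R ++ rest).tail, tb, [], [], va⟩)
      (⟨none, z, f, g, false, a, p, e, c⟩,
        ⟨I, O, ma, mb, rest, tb, (R.map wc0).map Sym.wc, [], va⟩)
      (4 * R.length + 4) := by
  have h0 : Runs (.blk [ld fun r => { r with u := false }])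
      (⟨(encSta R ++ rest).head?, z, f, g, u, a, p, e, c⟩,
        ⟨I, O, ma, mb, (encSta R ++ rest).tail, tb, [], [], va⟩)
      (⟨(encSta R ++ rest).head?, z, f, g, false, a, p, e, c⟩,
        ⟨I, O, ma, mb, (encSta R ++ rest).tail, tb, [], [], va⟩) 1 := Runs.blk rfl
  have e1 : encSta R ++ rest = R.map Sym.v ++ (Sym.sep :: rest) := by simp [encSta]
  rw [e1] at h0 ⊢
  have h1 := loadN_loop R (Sym.sep :: rest) rfl z f g false a p e c I O ma mb tb [] [] va
  have h2 : Runs (moveAll .wb .wa) ((⟨some .sep, z, f, g, false, a, p, e, c⟩ : Reg κ δ),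
      (⟨I, O, ma, mb, rest, tb, [], (R.map fun o => Sym.wc (wc0 o)).reverse ++ [], va⟩ :
      St Inp Bool (Sym δ))) (⟨none, z, f, g, false, a, p, e, c⟩,
        ⟨I, O, ma, mb, rest, tb, (R.map wc0).map Sym.wc, [], va⟩) (2 * R.length + 2) :=
    runs_mv .wb .wa (by decide) rfl (by simp [St.ss, St.gs]) (by simp [St.gs])
  exact (h0.seq (h1.seq h2)).mono (by omega)

end Pool.Agent.H1.MP
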