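import Pool.Agent.H1.MpExecA

/-!
# Execution of the treatment of one node, continued
-/

namespace Pool.Agent.H1.MP

open Pool.Agent.H1.SP
open Pool.Agent.H1.SP.Prog

variable {κ δ : ℕ}

/-! ### Semantics of one row -/

/-- Some positive literal of the row is true. -/
def hitL : List Cell → List (WC δ) → Bool
  | c :: L, w :: W => hitC c w || hitL L W
  | _, _ => false

/-- All negative literals of the row are false. -/
def negL : List Cell → List (WC δ) → Bool
  | c :: L, w :: W => negC c w && negL L W
  | _, _ => true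

/-- Saturated number of unassigned positive literals. -/
def cntL (i : Fin (κ + 2)) : List Cell → List (WC δ) → Fin (κ + 2)
  | c :: L, w :: W => cntL (if unC c w then inc i else i) L W
  | _, _ => i

/-- Tentative marks. -/
def tentL (L : List Cell) (W : List (WC δ)) : List (WC δ) :=
  List.zipWith (fun c w => { w with t := unC c w }) L W

theorem tentL_length (L : List Cell) (W : List (WC δ)) (h : L.length = W.length) :
    (tentL L W).length = W.length := by
  rw [tentL, List.length_zipWith, h, min_self]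

theorem scan_loop : ∀ (L : List Cell) (W : List (WC δ)) (_h : L.length = W.length)
    (rest : List (Sym δ)) (_hrest : isCell rest.head? = false)
    (z : Option (Sym δ)) (f g u a p e : Bool) (c : Fin (κ + 2)) (I O mb ta tb wa wb va),
    ∃ z', Runs (.loop (fun r => isCell r.x)
      (.blk [pz .wa, pu .mb fun r => sy r.x,
        pu .wb fun r => .wc { wcOf r.z with t := unC (cellOf r.x) (wcOf r.z) },
        ld updR, px .ma]))
      (⟨(L.map Sym.cell ++ rest).head?, z, f, g, u, a, p, e, c⟩,
        ⟨I, O, (L.map Sym.cell ++ rest).tail, mb, ta, tb, W.map Sym.wc ++ wa, wb, va⟩)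
      (⟨rest.head?, z', f || hitL L W, g && negL L W, u, a, p, e, cntL c L W⟩,
        ⟨I, O, rest.tail, (L.map Sym.cell).reverse ++ mb, ta, tb, wa,
          ((tentL L W).map Sym.wc).reverse ++ wb, va⟩)
      (2 * L.length + 1) := by
  intro L
  induction L with
  | nil =>
    intro W h rest hrest z f g u a p e c I O mb ta tb wa wb va
    obtain rfl : W = [] := List.eq_nil_of_length_eq_zero h.symm
    refine ⟨z, ?_⟩
    have e1 : (f || hitL ([] : List Cell) ([] : List (WC δ))) = f := by cases f <;> rfl
    have e2 : (g && negL ([] : List Cell) ([] : List (WC δ))) = g := by cases g <;> rfl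
    rw [e1, e2]
    exact (Runs.loop_false (by simpa using hrest)).mono (by simp)
  | cons x L ih =>
    intro W h rest hrest z f g u a p e c I O mb ta tb wa wb va
    obtain ⟨w, W, rfl⟩ : ∃ w W', W = w :: W' := by
      cases W with
      | nil => simp at h
      | cons w W => exact ⟨w, W, rfl⟩
    obtain ⟨z', hz⟩ := ih W (by simpa using h) rest hrest (some (.wc w)) (f || hitC x w)
      (g && negC x w) u a p e (if unC x w then inc c else c) I O (.cell x :: mb) ta tb wa
      (.wc { w with t := unC x w } :: wb) va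
    refine ⟨z', ?_⟩
    have := Runs.loop_true (c := fun r : Reg κ δ => isCell r.x) (b := 1)
      (s := (⟨((x :: L).map Sym.cell ++ rest).head?, z, f, g, u, a, p, e, c⟩,
        ⟨I, O, ((x :: L).map Sym.cell ++ rest).tail, mb, ta, tb, (w :: W).map Sym.wc ++ wa, wb,
          va⟩))
      rfl (Runs.blk rfl) hz
    have e1 : (f || hitC x w || hitL L W) = (f || hitL (x :: L) (w :: W)) := by
      rw [hitL, Bool.or_assoc]
    have e2 : (g && negC x w && negL L W) = (g && negL (x :: L) (w :: W)) := by
      rw [negL, Bool.and_assoc]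
    have e3 : (L.map Sym.cell).reverse ++ (Sym.cell x :: mb) =
        ((x :: L).map Sym.cell).reverse ++ mb := by simp
    have e4 : ((tentL L W).map Sym.wc).reverse ++ (Sym.wc { w with t := unC x w } :: wb) =
        ((tentL (x :: L) (w :: W)).map Sym.wc).reverse ++ wb := by simp [tentL]
    rw [e1, e2, e3, e4] at this
    refine this.mono ?_
    simp only [List.length_cons]
    omega

theorem back_loop : ∀ (W : List (WC δ)) (x : Option (Sym δ)) (f g u a p e : Bool)
    (c : Fin (κ + 2)) (I O ma mb ta tb wa va),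
    Runs (.loop (fun r => isSome r.z)
      (.blk [pu .wa fun r => .wc (commit r.a r.p (wcOf r.z)), pz .wb]))
      (⟨x, (W.map Sym.wc).head?, f, g, u, a, p, e, c⟩,
        ⟨I, O, ma, mb, ta, tb, wa, (W.map Sym.wc).tail, va⟩)
      (⟨x, none, f, g, u, a, p, e, c⟩,
        ⟨I, O, ma, mb, ta, tb, ((W.map (commit a p)).map Sym.wc).reverse ++ wa, [], va⟩)
      (2 * W.length + 1) := by
  intro W
  induction W with
  | nil =>
    intro x f g u a p e c I O ma mb ta tb wa va
    exact (Runs.loop_false rfl).mono (by simp)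
  | cons w W ih =>
    intro x f g u a p e c I O ma mb ta tb wa va
    have h1 := ih x f g u a p e c I O ma mb ta tb (.wc (commit a p w) :: wa) va
    have := Runs.loop_true (c := fun r : Reg κ δ => isSome r.z) (b := 1)
      (s := (⟨x, ((w :: W).map Sym.wc).head?, f, g, u, a, p, e, c⟩,
        ⟨I, O, ma, mb, ta, tb, wa, ((w :: W).map Sym.wc).tail, va⟩))
      rfl (Runs.blk rfl) h1
    have e1 : ((W.map (commit a p)).map Sym.wc).reverse ++ (Sym.wc (commit a p w) :: wa) =
        (((w :: W).map (commit a p)).map Sym.wc).reverse ++ wa := by simp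
    rw [e1] at this
    refine this.mono ?_
    simp only [List.length_cons]
    omega

/-- Effect of one row on the work row and on the flag. -/
def rowF (κ : ℕ) (S : List (WC δ) × Bool) (A : Row) : List (WC δ) × Bool :=
  ((tentL A.1 S.1).map (commit
      (A.2 && !hitL A.1 S.1 && decide (κ < (cntL (κ := κ) 0 A.1 S.1 : ℕ)))
      (!S.2 && !hitL A.1 S.1 && negL A.1 S.1)),
    S.2 || (!hitL A.1 S.1 && negL A.1 S.1))

theorem rowF_length (S : List (WC δ) × Bool) (A : Row) (h : A.1.length = S.1.length) :
    (rowF κ S A).1.length = S.1.length := by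
  rw [rowF, List.length_map, tentL_length _ _ h]

theorem runs_nodeRow (A : Row) (W : List (WC δ)) (u : Bool) (h : A.1.length = W.length)
    (rest : List (Sym δ)) (z : Option (Sym δ)) (f g a p e : Bool) (c : Fin (κ + 2))
    (I O mb ta tb va) :
    ∃ x' f' g' a' p' c', Runs nodeRow
      (⟨(encRow A ++ rest).head?, z, f, g, u, a, p, e, c⟩,
        ⟨I, O, (encRow A ++ rest).tail, mb, ta, tb, W.map Sym.wc, [], va⟩)
      (⟨x', none, f', g', (rowF κ (W, u) A).2, a', p', e, c'⟩,
        ⟨I, O, rest, (encRow A).reverse ++ mb, ta, tb, (rowF κ (W, u) A).1.map Sym.wc, [], va⟩)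
      (4 * A.1.length + 4) := by
  have e1 : encRow A ++ rest = A.1.map Sym.cell ++ (Sym.fl A.2 :: rest) := by simp [encRow]
  rw [e1]
  have h0 : Runs (.blk [ld fun r => { r with f := false, g := true, c := 0 }])
      ((⟨(A.1.map Sym.cell ++ (Sym.fl A.2 :: rest)).head?, z, f, g, u, a, p, e, c⟩ : Reg κ δ),
        (⟨I, O, (A.1.map Sym.cell ++ (Sym.fl A.2 :: rest)).tail, mb, ta, tb, W.map Sym.wc, [], va⟩ :
          St Inp Bool (Sym δ)))
      (⟨(A.1.map Sym.cell ++ (Sym.fl A.2 :: rest)).head?, z, false, true, u, a, p, e, 0⟩,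
        ⟨I, O, (A.1.map Sym.cell ++ (Sym.fl A.2 :: rest)).tail, mb, ta, tb, W.map Sym.wc, [], va⟩)
      1 := Runs.blk rfl
  obtain ⟨z', h1⟩ := scan_loop A.1 W h (Sym.fl A.2 :: rest) rfl z false true u a p e
    (0 : Fin (κ + 2)) I O mb ta tb [] [] va
  rw [List.append_nil, List.append_nil, Bool.false_or, Bool.true_and] at h1
  have h2 : Runs (.blk [pu .mb fun r => sy r.x, ld endR, pz .wb])
      ((⟨some (.fl A.2), z', hitL A.1 W, negL A.1 W, u, a, p, e, cntL 0 A.1 W⟩ : Reg κ δ),
        (⟨I, O, rest, (A.1.map Sym.cell).reverse ++ mb, ta, tb, [],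
          ((tentL A.1 W).map Sym.wc).reverse, va⟩ : St Inp Bool (Sym δ)))
      (⟨some (.fl A.2), (((tentL A.1 W).reverse).map Sym.wc).head?, hitL A.1 W, negL A.1 W,
        u || (!hitL A.1 W && negL A.1 W),
        A.2 && !hitL A.1 W && decide (κ < (cntL (κ := κ) 0 A.1 W : ℕ)),
        !u && !hitL A.1 W && negL A.1 W, e, cntL 0 A.1 W⟩,
        ⟨I, O, rest, .fl A.2 :: ((A.1.map Sym.cell).reverse ++ mb), ta, tb, [],
          (((tentL A.1 W).reverse).map Sym.wc).tail, va⟩) 1 := by
    rw [List.map_reverse (f := Sym.wc) (l := tentL A.1 W)]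
    exact Runs.blk rfl
  have h3 := back_loop (tentL A.1 W).reverse (some (.fl A.2)) (hitL A.1 W) (negL A.1 W)
    (u || (!hitL A.1 W && negL A.1 W))
    (A.2 && !hitL A.1 W && decide (κ < (cntL (κ := κ) 0 A.1 W : ℕ)))
    (!u && !hitL A.1 W && negL A.1 W) e (cntL (κ := κ) 0 A.1 W) I O rest
    (.fl A.2 :: ((A.1.map Sym.cell).reverse ++ mb)) ta tb [] va
  have h4 := h0.seq (h1.seq (h2.seq h3))
  have e2 : ((((tentL A.1 W).reverse.map (commit
      (A.2 && !hitL A.1 W && decide (κ < (cntL (κ := κ) 0 A.1 W : ℕ)))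
      (!u && !hitL A.1 W && negL A.1 W))).map Sym.wc).reverse ++ [] : List (Sym δ)) =
      (rowF κ (W, u) A).1.map Sym.wc := by
    rw [rowF]
    simp [List.map_reverse]
  have e3 : (Sym.fl A.2 :: ((A.1.map Sym.cell).reverse ++ mb) : List (Sym δ)) =
      (encRow A).reverse ++ mb := by simp [encRow]
  rw [e2, e3] at h4
  refine ⟨_, _, _, _, _, _, Runs.mono h4 ?_⟩
  rw [List.length_reverse, tentL_length _ _ h, h]
  omega

/-- Effect of all rows. -/
def passF (κ : ℕ) (M : List Row) (S : List (WC δ) × Bool) : List (WC δ) × Bool :=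
  M.foldl (rowF κ) S

theorem passF_length (M : List Row) (n : ℕ) (hM : ∀ A ∈ M, A.1.length = n)
    (S : List (WC δ) × Bool) (h : S.1.length = n) : (passF κ M S).1.length = n := by
  induction M generalizing S with
  | nil => exact h
  | cons A M ih =>
    rw [passF, List.foldl_cons]
    refine ih (fun B hB => hM B (by simp [hB])) _ ?_
    rw [rowF_length _ _ (by rw [hM A (by simp), h]), h]

theorem rows_loop (n : ℕ) : ∀ (M : List Row) (_hM : ∀ A ∈ M, A.1.length = n)
    (W : List (WC δ)) (u : Bool) (_h : W.length = n)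
    (z : Option (Sym δ)) (f g a p e : Bool) (c : Fin (κ + 2)) (I O mb ta tb va),
    ∃ z' f' g' a' p' c', Runs (.loop (fun r => isSome r.x) (.seq nodeRow (.blk [px .ma])))
      (⟨(encMat M).head?, z, f, g, u, a, p, e, c⟩,
        ⟨I, O, (encMat M).tail, mb, ta, tb, W.map Sym.wc, [], va⟩)
      (⟨none, z', f', g', (passF κ M (W, u)).2, a', p', e, c'⟩,
        ⟨I, O, [], (encMat M).reverse ++ mb, ta, tb, (passF κ M (W, u)).1.map Sym.wc, [], va⟩)
      (M.length * (4 * n + 6) + 1) := by
  intro M
  induction M with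
  | nil =>
    intro hM W u h z f g a p e c I O mb ta tb va
    exact ⟨z, f, g, a, p, c, (Runs.loop_false rfl).mono (by simp)⟩
  | cons A M ih =>
    intro hM W u h z f g a p e c I O mb ta tb va
    have hA := hM A (by simp)
    obtain ⟨x1, f1, g1, a1, p1, c1, h1⟩ := runs_nodeRow A W u (by rw [hA, h]) (encMat M) z f g a p
      e c I O mb ta tb va
    obtain ⟨z2, f2, g2, a2, p2, c2, h2⟩ := ih (fun B hB => hM B (by simp [hB]))
      (rowF κ (W, u) A).1 (rowF κ (W, u) A).2 (by
        rw [rowF_length _ _ (by rw [hA, h])]; exact h) none f1 g1 a1 p1 e c1 I O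
      ((encRow A).reverse ++ mb) ta tb va
    refine ⟨z2, f2, g2, a2, p2, c2, ?_⟩
    have hb := h1.seq (Runs.blk (ops := [px .ma])
      (s' := ((⟨(encMat M).head?, none, f1, g1, (rowF κ (W, u) A).2, a1, p1, e, c1⟩ : Reg κ δ),
        (⟨I, O, (encMat M).tail, (encRow A).reverse ++ mb, ta, tb,
          (rowF κ (W, u) A).1.map Sym.wc, [], va⟩ : St Inp Bool (Sym δ)))) rfl)
    have := Runs.loop_true (c := fun r : Reg κ δ => isSome r.x)
      (s := (⟨(encMat (A :: M)).head?, z, f, g, u, a, p, e, c⟩,
        ⟨I, O, (encMat (A :: M)).tail, mb, ta, tb, W.map Sym.wc, [], va⟩))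
      (by
        obtain ⟨L, b⟩ := A
        cases L <;> rfl) hb h2
    have e1 : (encMat M).reverse ++ ((encRow A).reverse ++ mb) =
        (encMat (A :: M) : List (Sym δ)).reverse ++ mb := by
      rw [encMat_cons]; simp
    rw [e1] at this
    refine this.mono ?_
    rw [hA]
    simp only [List.length_cons, Nat.add_mul]
    omega

theorem encMat_length (n : ℕ) (M : List Row) (hM : ∀ A ∈ M, A.1.length = n) :
    (encMat M : List (Sym δ)).length = M.length * (n + 1) := by
  induction M with
  | nil => simp [encMat]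
  | cons A M ih =>
    rw [encMat_cons, List.length_append, ih (fun B hB => hM B (by simp [hB])), encRow,
      List.length_append, List.length_map, hM A (by simp), List.length_cons, List.length_cons,
      List.length_nil]
    ring

theorem runs_nodePass (n : ℕ) (M : List Row) (hM : ∀ A ∈ M, A.1.length = n)
    (W : List (WC δ)) (u : Bool) (h : W.length = n)
    (x z : Option (Sym δ)) (f g a p e : Bool) (c : Fin (κ + 2)) (I O ta tb va) :
    ∃ z' f' g' a' p' c', Runs nodePass
      (⟨x, z, f, g, u, a, p, e, c⟩,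
        ⟨I, O, encMat M, [], ta, tb, W.map Sym.wc, [], va⟩)
      (⟨none, z', f', g', (passF κ M (W, u)).2, a', p', e, c'⟩,
        ⟨I, O, encMat M, [], ta, tb, (passF κ M (W, u)).1.map Sym.wc, [], va⟩)
      (M.length * (6 * n + 8) + 4) := by
  obtain ⟨z1, f1, g1, a1, p1, c1, h1⟩ := rows_loop (κ := κ) n M hM W u h z f g a p e c I O [] ta tb
    va
  refine ⟨z1, f1, g1, a1, p1, c1, ?_⟩
  have h0 : Runs (.blk [px .ma]) ((⟨x, z, f, g, u, a, p, e, c⟩ : Reg κ δ),
      (⟨I, O, encMat M, [], ta, tb, W.map Sym.wc, [], va⟩ : St Inp Bool (Sym δ)))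
      (⟨(encMat M).head?, z, f, g, u, a, p, e, c⟩,
        ⟨I, O, (encMat M).tail, [], ta, tb, W.map Sym.wc, [], va⟩) 1 := Runs.blk rfl
  have h2 : Runs (moveAll .mb .ma)
      ((⟨none, z1, f1, g1, (passF κ M (W, u)).2, a1, p1, e, c1⟩ : Reg κ δ),
        (⟨I, O, [], (encMat M).reverse ++ [], ta, tb, (passF κ M (W, u)).1.map Sym.wc, [], va⟩ :
          St Inp Bool (Sym δ)))
      (⟨none, z1, f1, g1, (passF κ M (W, u)).2, a1, p1, e, c1⟩,
        ⟨I, O, encMat M, [], ta, tb, (passF κ M (W, u)).1.map Sym.wc, [], va⟩)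
      (2 * (M.length * (n + 1)) + 2) :=
    runs_mv .mb .ma (by decide) rfl (by simp [St.ss, St.gs])
      (by simp [St.gs, encMat_length n M hM])
  refine (h0.seq (h1.seq h2)).mono ?_
  have : M.length * (6 * n + 8) = M.length * (4 * n + 6) + 2 * (M.length * (n + 1)) := by ring
  omega

/-! ### Decision -/

theorem look_loop : ∀ (W : List (WC δ)) (x : Option (Sym δ)) (f g u a p e : Bool)
    (c : Fin (κ + 2)) (I O ma mb ta tb wb va),
    Runs (.loop (fun r => isSome r.z)
      (.blk [pu .wb fun r => sy r.z,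
        ld fun r => { r with
          a := r.a || decide (δ ≤ ((wcOf r.z).n : ℕ))
          p := r.p || (wcOf r.z).m },
        pz .wa]))
      (⟨x, (W.map Sym.wc).head?, f, g, u, a, p, e, c⟩,
        ⟨I, O, ma, mb, ta, tb, (W.map Sym.wc).tail, wb, va⟩)
      (⟨x, none, f, g, u, a || W.any (fun w => decide (δ ≤ (w.n : ℕ))), p || W.any WC.m, e, c⟩,
        ⟨I, O, ma, mb, ta, tb, [], (W.map Sym.wc).reverse ++ wb, va⟩)
      (2 * W.length + 1) := by
  intro W
  induction W with
  | nil =>
    intro x f g u a p e c I O ma mb ta tb wb va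
    have e1 : (a || ([] : List (WC δ)).any (fun w => decide (δ ≤ (w.n : ℕ)))) = a := by
      cases a <;> rfl
    have e2 : (p || ([] : List (WC δ)).any WC.m) = p := by cases p <;> rfl
    rw [e1, e2]
    exact (Runs.loop_false rfl).mono (by simp)
  | cons w W ih =>
    intro x f g u a p e c I O ma mb ta tb wb va
    have h1 := ih x f g u (a || decide (δ ≤ (w.n : ℕ))) (p || w.m) e c I O ma mb ta tb
      (.wc w :: wb) va
    have := Runs.loop_true (c := fun r : Reg κ δ => isSome r.z) (b := 1)
      (s := (⟨x, ((w :: W).map Sym.wc).head?, f, g, u, a, p, e, c⟩,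
        ⟨I, O, ma, mb, ta, tb, ((w :: W).map Sym.wc).tail, wb, va⟩))
      rfl (Runs.blk rfl) h1
    have e1 : (W.map Sym.wc).reverse ++ (Sym.wc w :: wb) =
        ((w :: W).map Sym.wc).reverse ++ wb := by simp
    have e2 : (a || decide (δ ≤ (w.n : ℕ)) || W.any (fun w => decide (δ ≤ (w.n : ℕ)))) =
        (a || (w :: W).any (fun w => decide (δ ≤ (w.n : ℕ)))) := by
      rw [List.any_cons, Bool.or_assoc]
    have e3 : (p || w.m || W.any WC.m) = (p || (w :: W).any WC.m) := by
      rw [List.any_cons, Bool.or_assoc]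
    rw [e1, e2, e3] at this
    refine this.mono ?_
    simp only [List.length_cons]
    omega

theorem runs_look (W : List (WC δ)) (x z : Option (Sym δ)) (f g u a p e : Bool)
    (c : Fin (κ + 2)) (I O ma mb ta tb va) :
    Runs look
      (⟨x, z, f, g, u, a, p, e, c⟩,
        ⟨I, O, ma, mb, ta, tb, W.map Sym.wc, [], va⟩)
      (⟨x, none, f, g, u, W.any (fun w => decide (δ ≤ (w.n : ℕ))), W.any WC.m, e, c⟩,
        ⟨I, O, ma, mb, ta, tb, [], (W.reverse).map Sym.wc, va⟩)
      (2 * W.length + 2) := by
  have h0 : Runs (.blk [ld fun r => { r with a := false, p := false }, pz .wa])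
      ((⟨x, z, f, g, u, a, p, e, c⟩ : Reg κ δ),
        (⟨I, O, ma, mb, ta, tb, W.map Sym.wc, [], va⟩ : St Inp Bool (Sym δ)))
      (⟨x, (W.map Sym.wc).head?, f, g, u, false, false, e, c⟩,
        ⟨I, O, ma, mb, ta, tb, (W.map Sym.wc).tail, [], va⟩) 1 := Runs.blk rfl
  have h1 := look_loop W x f g u false false e c I O ma mb ta tb [] va
  rw [Bool.false_or, Bool.false_or, List.append_nil, ← List.map_reverse] at h1
  exact (h0.seq h1).mono (by omega)

/-- The children, written from the last cell to the first one. -/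
def brL (b a : Bool) : Bool → List (WC δ) → List (Option Bool)
  | _, [] => []
  | p, w :: U => (if selC a p w then some b else w.v) :: brL b a (p || selC a p w) U

theorem brL_length (b a : Bool) (p : Bool) (U : List (WC δ)) : (brL b a p U).length = U.length := by
  induction U generalizing p with
  | nil => rfl
  | cons w U ih => rw [brL, List.length_cons, List.length_cons, ih]

theorem branch_loop : ∀ (U : List (WC δ)) (x : Option (Sym δ)) (f g u a p e : Bool)
    (c : Fin (κ + 2)) (I O ma mb ta tb wa va),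
    ∃ p', Runs (.loop (fun r => isSome r.z)
      (.blk [pu .ta fun r => .v (if selC r.a r.p (wcOf r.z) then some true else (wcOf r.z).v),
        pu .tb fun r => .v (if selC r.a r.p (wcOf r.z) then some false else (wcOf r.z).v),
        ld fun r => { r with p := r.p || selC r.a r.p (wcOf r.z) },
        pz .wb]))
      (⟨x, (U.map Sym.wc).head?, f, g, u, a, p, e, c⟩,
        ⟨I, O, ma, mb, ta, tb, wa, (U.map Sym.wc).tail, va⟩)
      (⟨x, none, f, g, u, a, p', e, c⟩,
        ⟨I, O, ma, mb, ((brL true a p U).map Sym.v).reverse ++ ta,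
          ((brL false a p U).map Sym.v).reverse ++ tb, wa, [], va⟩)
      (2 * U.length + 1) := by
  intro U
  induction U with
  | nil =>
    intro x f g u a p e c I O ma mb ta tb wa va
    exact ⟨p, (Runs.loop_false rfl).mono (by simp)⟩
  | cons w U ih =>
    intro x f g u a p e c I O ma mb ta tb wa va
    obtain ⟨p', h1⟩ := ih x f g u a (p || selC a p w) e c I O ma mb
      (.v (if selC a p w then some true else w.v) :: ta)
      (.v (if selC a p w then some false else w.v) :: tb) wa va
    refine ⟨p', ?_⟩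
    have := Runs.loop_true (c := fun r : Reg κ δ => isSome r.z) (b := 1)
      (s := (⟨x, ((w :: U).map Sym.wc).head?, f, g, u, a, p, e, c⟩,
        ⟨I, O, ma, mb, ta, tb, wa, ((w :: U).map Sym.wc).tail, va⟩))
      rfl (Runs.blk rfl) h1
    have e1 : ∀ (b : Bool) (t : List (Sym δ)),
        ((brL b a (p || selC a p w) U).map Sym.v).reverse ++
        (Sym.v (if selC a p w then some b else w.v) :: t) =
        ((brL b a p (w :: U)).map Sym.v).reverse ++ t := by
      intro b t
      simp [brL]
    rw [e1, e1] at this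
    refine this.mono ?_
    simp only [List.length_cons]
    omega

theorem runs_branchP (U : List (WC δ)) (x z : Option (Sym δ)) (f g u a p e : Bool)
    (c : Fin (κ + 2)) (I O ma mb ta) :
    ∃ p', Runs branchP
      (⟨x, z, f, g, u, a, p, e, c⟩,
        ⟨I, O, ma, mb, ta, [], [], U.map Sym.wc, []⟩)
      (⟨none, none, f, g, u, a, p', e, c⟩,
        ⟨I, O, ma, mb, encSta (brL false a false U).reverse ++
          (encSta (brL true a false U).reverse ++ ta), [], [], [], []⟩)
      (6 * U.length + 10) := by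
  obtain ⟨p', h1⟩ := branch_loop U x f g u a false e c I O ma mb (.sep :: ta) [.sep] [] []
  refine ⟨p', ?_⟩
  have h0 : Runs (.blk [pu .ta fun _ => .sep, pu .tb fun _ => .sep,
      ld fun r => { r with p := false }, pz .wb])
      ((⟨x, z, f, g, u, a, p, e, c⟩ : Reg κ δ),
        (⟨I, O, ma, mb, ta, [], [], U.map Sym.wc, []⟩ : St Inp Bool (Sym δ)))
      (⟨x, (U.map Sym.wc).head?, f, g, u, a, false, e, c⟩,
        ⟨I, O, ma, mb, .sep :: ta, [.sep], [], (U.map Sym.wc).tail, []⟩) 1 := Runs.blk rfl
  have e1 : ∀ (b : Bool) (t : List (Sym δ)),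
      ((brL b a false U).map Sym.v).reverse ++ (.sep :: t) =
        encSta (brL b a false U).reverse ++ t := by
    intro b t
    simp [encSta]
  rw [e1, e1, List.append_nil] at h1
  have h2 : Runs (moveAll .tb .va)
      ((⟨x, none, f, g, u, a, p', e, c⟩ : Reg κ δ),
        (⟨I, O, ma, mb, encSta (brL true a false U).reverse ++ ta,
          encSta (brL false a false U).reverse, [], [], []⟩ : St Inp Bool (Sym δ)))
      (⟨none, none, f, g, u, a, p', e, c⟩,
        ⟨I, O, ma, mb, encSta (brL true a false U).reverse ++ ta,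
          [], [], [], (encSta (brL false a false U).reverse).reverse⟩) (2 * U.length + 4) :=
    runs_mv .tb .va (by decide) rfl (by simp [St.ss, St.gs])
      (by simp [St.gs, encSta, brL_length]; omega)
  have h3 : Runs (moveAll .va .ta)
      ((⟨none, none, f, g, u, a, p', e, c⟩ : Reg κ δ),
        (⟨I, O, ma, mb, encSta (brL true a false U).reverse ++ ta,
          [], [], [], (encSta (brL false a false U).reverse).reverse⟩ : St Inp Bool (Sym δ)))
      (⟨none, none, f, g, u, a, p', e, c⟩,
        ⟨I, O, ma, mb, encSta (brL false a false U).reverse ++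
          (encSta (brL true a false U).reverse ++ ta), [], [], [], []⟩) (2 * U.length + 4) :=
    runs_mv .va .ta (by decide) rfl (by simp [St.ss, St.gs])
      (by simp [St.gs, encSta, brL_length]; omega)
  exact (h0.seq (h1.seq (h2.seq h3))).mono (by omega)

end Pool.Agent.H1.MP
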