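import Pool.Agent.H1.MpExecB

/-!
# Execution of the main loop
-/

namespace Pool.Agent.H1.MP

open Pool.Agent.H1.SP
open Pool.Agent.H1.SP.Prog

variable {κ δ : ℕ}

/-- The work row and the flag after the pass. -/
def endW (κ δ : ℕ) (M : List Row) (R : Sta) : List (WC δ) × Bool := passF κ M (R.map wc0, false)

/-- There is a variable in many long parts. -/
def hasA (W : List (WC δ)) : Bool := W.any (fun w => decide (δ ≤ (w.n : ℕ)))

/-- There is a marked variable. -/
def hasM (W : List (WC δ)) : Bool := W.any WC.m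

/-- The children. -/
def kid (κ δ : ℕ) (b : Bool) (M : List Row) (R : Sta) : Sta :=
  (brL b (hasA (endW κ δ M R).1) false (endW κ δ M R).1.reverse).reverse

theorem endW_length (M : List Row) (n : ℕ) (hM : ∀ A ∈ M, A.1.length = n) (R : Sta)
    (hR : R.length = n) : (endW κ δ M R).1.length = n :=
  passF_length M n hM _ (by simpa using hR)

theorem kid_length (b : Bool) (M : List Row) (n : ℕ) (hM : ∀ A ∈ M, A.1.length = n) (R : Sta)
    (hR : R.length = n) : (kid κ δ b M R).length = n := by
  rw [kid, List.length_reverse, brL_length, List.length_reverse, endW_length M n hM R hR]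

/-- Cost of one iteration of the main loop. -/
def costN (n m : ℕ) : ℕ := m * (6 * n + 8) + 12 * n + 25

theorem runs_node_br (n : ℕ) (M : List Row) (hM : ∀ A ∈ M, A.1.length = n) (R : Sta)
    (hR : R.length = n) (rest : List (Sym δ))
    (hbr : (hasA (endW κ δ M R).1 || hasM (endW κ δ M R).1) = true)
    (z : Option (Sym δ)) (f g u a p e : Bool) (c : Fin (κ + 2)) (I O) :
    ∃ z' f' g' u' a' p' c', Runs node
      (⟨(encSta R ++ rest).head?, z, f, g, u, a, p, e, c⟩,
        ⟨I, O, encMat M, [], (encSta R ++ rest).tail, [], [], [], []⟩)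
      (⟨none, z', f', g', u', a', p', e, c'⟩,
        ⟨I, O, encMat M, [], encSta (kid κ δ false M R) ++ (encSta (kid κ δ true M R) ++ rest), [],
          [], [], []⟩)
      (M.length * (6 * n + 8) + 12 * n + 22) := by
  have h0 := runs_loadN R rest z f g u a p e c I O (encMat M) [] [] []
  obtain ⟨z1, f1, g1, a1, p1, c1, h1⟩ := runs_nodePass (κ := κ) n M hM (R.map wc0) false
    (by simpa using hR) none z f g a p e c I O rest [] []
  have hl := endW_length (κ := κ) (δ := δ) M n hM R hR
  have h2 := runs_look (endW κ δ M R).1 none z1 f1 g1 (endW κ δ M R).2 a1 p1 e c1 I O (encMat M) []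
    rest [] []
  obtain ⟨p3, h3⟩ := runs_branchP (endW κ δ M R).1.reverse none none f1 g1 (endW κ δ M R).2
    (hasA (endW κ δ M R).1) (hasM (endW κ δ M R).1) e c1 I O (encMat M) [] rest
  have h4 := Runs.ite_true (c := fun r : Reg κ δ => r.a || r.p)
    (q := (.seq (.blk [ld fun r => { r with e := !r.u }]) (clear .wb))) hbr h3
  refine ⟨_, _, _, _, _, _, _, (h0.seq (h1.seq (h2.seq h4))).mono ?_⟩
  rw [hl, List.length_reverse, hl, hR]
  omega

theorem runs_node_stop (n : ℕ) (M : List Row) (hM : ∀ A ∈ M, A.1.length = n) (R : Sta)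
    (hR : R.length = n) (rest : List (Sym δ))
    (hbr : (hasA (endW κ δ M R).1 || hasM (endW κ δ M R).1) = false)
    (z : Option (Sym δ)) (f g u a p e : Bool) (c : Fin (κ + 2)) (I O) :
    ∃ z' f' g' u' a' p' c', Runs node
      (⟨(encSta R ++ rest).head?, z, f, g, u, a, p, e, c⟩,
        ⟨I, O, encMat M, [], (encSta R ++ rest).tail, [], [], [], []⟩)
      (⟨none, z', f', g', u', a', p', !(endW κ δ M R).2, c'⟩,
        ⟨I, O, encMat M, [], rest, [], [], [], []⟩)
      (M.length * (6 * n + 8) + 12 * n + 22) := by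
  have h0 := runs_loadN R rest z f g u a p e c I O (encMat M) [] [] []
  obtain ⟨z1, f1, g1, a1, p1, c1, h1⟩ := runs_nodePass (κ := κ) n M hM (R.map wc0) false
    (by simpa using hR) none z f g a p e c I O rest [] []
  have hl := endW_length (κ := κ) (δ := δ) M n hM R hR
  have h2 := runs_look (endW κ δ M R).1 none z1 f1 g1 (endW κ δ M R).2 a1 p1 e c1 I O (encMat M) []
    rest [] []
  have h3 : Runs (.blk [ld fun r => { r with e := !r.u }])
      ((⟨none, none, f1, g1, (endW κ δ M R).2, hasA (endW κ δ M R).1, hasM (endW κ δ M R).1, e,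
        c1⟩ : Reg κ δ), (⟨I, O, encMat M, [], rest, [], [],
          ((endW κ δ M R).1.reverse).map Sym.wc, []⟩ : St Inp Bool (Sym δ)))
      (⟨none, none, f1, g1, (endW κ δ M R).2, hasA (endW κ δ M R).1, hasM (endW κ δ M R).1,
        !(endW κ δ M R).2, c1⟩, ⟨I, O, encMat M, [], rest, [], [],
          ((endW κ δ M R).1.reverse).map Sym.wc, []⟩) 1 := Runs.blk rfl
  have h4 := runs_clear .wb ((⟨none, none, f1, g1, (endW κ δ M R).2, hasA (endW κ δ M R).1,
    hasM (endW κ δ M R).1, !(endW κ δ M R).2, c1⟩ : Reg κ δ))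
    (⟨I, O, encMat M, [], rest, [], [],
          ((endW κ δ M R).1.reverse).map Sym.wc, []⟩ : St Inp Bool (Sym δ))
  have h5 := Runs.ite_false (c := fun r : Reg κ δ => r.a || r.p) (p := branchP) hbr (h3.seq h4)
  refine ⟨_, _, _, _, _, _, _, (h0.seq (h1.seq (h2.seq h5))).mono ?_⟩
  change _ + (_ + (_ + (1 + (1 + (2 * (((endW κ δ M R).1.reverse).map Sym.wc).length + 2))))) ≤ _
  rw [List.length_map, List.length_reverse, hl, hR]
  omega

/-- The search tree. -/
inductive Solve (κ δ : ℕ) (M : List Row) : Sta → Bool → ℕ → Prop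
  | stop {R : Sta} (h : (hasA (endW κ δ M R).1 || hasM (endW κ δ M R).1) = false) :
      Solve κ δ M R (!(endW κ δ M R).2) 1
  | brT {R : Sta} {N : ℕ} (h : (hasA (endW κ δ M R).1 || hasM (endW κ δ M R).1) = true)
      (h0 : Solve κ δ M (kid κ δ false M R) true N) : Solve κ δ M R true (N + 1)
  | brF {R : Sta} {b : Bool} {N N' : ℕ}
      (h : (hasA (endW κ δ M R).1 || hasM (endW κ δ M R).1) = true)
      (h0 : Solve κ δ M (kid κ δ false M R) false N)
      (h1 : Solve κ δ M (kid κ δ true M R) b N') : Solve κ δ M R b (N + N' + 1)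

/-- Body of the main loop. -/
def body : P κ δ := .seq node (.blk [px .ta])

/-- From the head of the main loop, with contents `ta` of the stack of states, an end state
satisfying `Q` is reached in at most `B` steps. -/
def LoopTo (M : List Row) (I : List Inp) (O : List Bool) (ta : List (Sym δ)) (B : ℕ)
    (Q : Reg κ δ × St Inp Bool (Sym δ) → Prop) : Prop :=
  ∀ z f g u a p c, ∃ s'', Runs (.loop (fun r => isSome r.x && !r.e) body)
    (⟨ta.head?, z, f, g, u, a, p, false, c⟩, ⟨I, O, encMat M, [], ta.tail, [], [], [], []⟩) s'' B ∧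
    Q s''

theorem head_encSta (R : Sta) (rest : List (Sym δ)) :
    isSome (encSta R ++ rest).head? = true := by
  cases R <;> rfl

theorem LoopTo.br {n : ℕ} {M : List Row} (hM : ∀ A ∈ M, A.1.length = n) {R : Sta}
    (hR : R.length = n) {rest : List (Sym δ)}
    (hbr : (hasA (endW κ δ M R).1 || hasM (endW κ δ M R).1) = true)
    {I : List Inp} {O : List Bool} {B : ℕ} {Q : Reg κ δ × St Inp Bool (Sym δ) → Prop}
    (h : LoopTo M I O (encSta (kid κ δ false M R) ++ (encSta (kid κ δ true M R) ++ rest)) B Q) :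
    LoopTo M I O (encSta R ++ rest) (costN n M.length + B) Q := by
  intro z f g u a p c
  obtain ⟨z1, f1, g1, u1, a1, p1, c1, h1⟩ := runs_node_br n M hM R hR rest hbr z f g u a p false c
    I O
  obtain ⟨s'', h2, hQ⟩ := h z1 f1 g1 u1 a1 p1 c1
  refine ⟨s'', ?_, hQ⟩
  have hb := h1.seq (Runs.blk (ops := [px .ta])
    (s' := ((⟨(encSta (kid κ δ false M R) ++ (encSta (kid κ δ true M R) ++ rest)).head?, z1, f1,
      g1, u1, a1, p1, false, c1⟩ : Reg κ δ),
      (⟨I, O, encMat M, [], (encSta (kid κ δ false M R) ++ (encSta (kid κ δ true M R) ++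
        rest)).tail, [], [], [], []⟩ : St Inp Bool (Sym δ)))) rfl)
  have := Runs.loop_true (c := fun r : Reg κ δ => isSome r.x && !r.e)
    (s := ((⟨(encSta R ++ rest).head?, z, f, g, u, a, p, false, c⟩ : Reg κ δ),
      (⟨I, O, encMat M, [], (encSta R ++ rest).tail, [], [], [], []⟩ : St Inp Bool (Sym δ))))
    (by
      change (isSome (encSta R ++ rest).head? && !false) = true
      rw [head_encSta]; rfl) hb h2
  refine this.mono ?_
  unfold costN
  omega

theorem LoopTo.dead {n : ℕ} {M : List Row} (hM : ∀ A ∈ M, A.1.length = n) {R : Sta}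
    (hR : R.length = n) {rest : List (Sym δ)}
    (hbr : (hasA (endW κ δ M R).1 || hasM (endW κ δ M R).1) = false)
    (hu : (endW κ δ M R).2 = true)
    {I : List Inp} {O : List Bool} {B : ℕ} {Q : Reg κ δ × St Inp Bool (Sym δ) → Prop}
    (h : LoopTo M I O rest B Q) :
    LoopTo M I O (encSta R ++ rest) (costN n M.length + B) Q := by
  intro z f g u a p c
  obtain ⟨z1, f1, g1, u1, a1, p1, c1, h1⟩ := runs_node_stop n M hM R hR rest hbr z f g u a p false
    c I O
  rw [hu] at h1
  obtain ⟨s'', h2, hQ⟩ := h z1 f1 g1 u1 a1 p1 c1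
  refine ⟨s'', ?_, hQ⟩
  have hb := h1.seq (Runs.blk (ops := [px .ta])
    (s' := ((⟨rest.head?, z1, f1, g1, u1, a1, p1, false, c1⟩ : Reg κ δ),
      (⟨I, O, encMat M, [], rest.tail, [], [], [], []⟩ : St Inp Bool (Sym δ)))) rfl)
  have := Runs.loop_true (c := fun r : Reg κ δ => isSome r.x && !r.e)
    (s := ((⟨(encSta R ++ rest).head?, z, f, g, u, a, p, false, c⟩ : Reg κ δ),
      (⟨I, O, encMat M, [], (encSta R ++ rest).tail, [], [], [], []⟩ : St Inp Bool (Sym δ))))
    (by
      change (isSome (encSta R ++ rest).head? && !false) = true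
      rw [head_encSta]; rfl) hb h2
  refine this.mono ?_
  unfold costN
  omega

/-- End states after success. -/
def QT (M : List Row) (I : List Inp) (O : List Bool) (L : ℕ) (s : Reg κ δ × St Inp Bool (Sym δ)) :
    Prop :=
  ∃ x z f g u a p c ta, s = (⟨x, z, f, g, u, a, p, true, c⟩,
    ⟨I, O, encMat M, [], ta, [], [], [], []⟩) ∧ ta.length ≤ L

theorem LoopTo.sat {n : ℕ} {M : List Row} (hM : ∀ A ∈ M, A.1.length = n) {R : Sta}
    (hR : R.length = n) {rest : List (Sym δ)}
    (hbr : (hasA (endW κ δ M R).1 || hasM (endW κ δ M R).1) = false)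
    (hu : (endW κ δ M R).2 = false)
    {I : List Inp} {O : List Bool} {L : ℕ} (hL : rest.length ≤ L) :
    LoopTo (κ := κ) M I O (encSta R ++ rest) (costN n M.length) (QT M I O L) := by
  intro z f g u a p c
  obtain ⟨z1, f1, g1, u1, a1, p1, c1, h1⟩ := runs_node_stop n M hM R hR rest hbr z f g u a p false
    c I O
  rw [hu] at h1
  have hb := h1.seq (Runs.blk (ops := [px .ta])
    (s' := ((⟨rest.head?, z1, f1, g1, u1, a1, p1, true, c1⟩ : Reg κ δ),
      (⟨I, O, encMat M, [], rest.tail, [], [], [], []⟩ : St Inp Bool (Sym δ)))) rfl)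
  have := Runs.loop_true (c := fun r : Reg κ δ => isSome r.x && !r.e)
    (s := ((⟨(encSta R ++ rest).head?, z, f, g, u, a, p, false, c⟩ : Reg κ δ),
      (⟨I, O, encMat M, [], (encSta R ++ rest).tail, [], [], [], []⟩ : St Inp Bool (Sym δ))))
    (by
      change (isSome (encSta R ++ rest).head? && !false) = true
      rw [head_encSta]; rfl) hb (Runs.loop_false (by
        change (isSome rest.head? && !true) = false
        simp))
  refine ⟨_, this.mono ?_, _, _, _, _, _, _, _, _, rest.tail, rfl, ?_⟩
  · unfold costN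
    omega
  · rw [List.length_tail]
    omega

theorem encSta_length (R : Sta) : (encSta R : List (Sym δ)).length = R.length + 1 := by
  simp [encSta]

theorem solve_loop {n : ℕ} {M : List Row} (hM : ∀ A ∈ M, A.1.length = n) (I : List Inp)
    (O : List Bool) {R : Sta} {b : Bool} {N : ℕ} (hS : Solve κ δ M R b N) :
    R.length = n → ∀ rest : List (Sym δ),
    (b = false → ∀ (B : ℕ) (Q : Reg κ δ × St Inp Bool (Sym δ) → Prop), LoopTo M I O rest B Q →
      LoopTo M I O (encSta R ++ rest) (N * costN n M.length + B) Q) ∧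
    (b = true → ∀ L, rest.length + N * (n + 1) ≤ L →
      LoopTo (κ := κ) M I O (encSta R ++ rest) (N * costN n M.length) (QT M I O L)) := by
  induction hS with
  | @stop R h =>
    intro hR rest
    constructor
    · intro hb B Q hQ
      have hu : (endW κ δ M R).2 = true := by simpa using hb
      rw [one_mul]
      exact LoopTo.dead hM hR h hu hQ
    · intro hb L hL
      have hu : (endW κ δ M R).2 = false := by simpa using hb
      rw [one_mul]
      exact LoopTo.sat hM hR h hu (by omega)
  | @brT R N h h0 ih0 =>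
    intro hR rest
    refine ⟨fun hb => absurd hb (by simp), fun _ L hL => ?_⟩
    have hk := kid_length (κ := κ) (δ := δ) false M n hM R hR
    have hk' := kid_length (κ := κ) (δ := δ) true M n hM R hR
    have h1 := (ih0 hk (encSta (kid κ δ true M R) ++ rest)).2 rfl L (by
      rw [List.length_append, encSta_length, hk']
      have : (N + 1) * (n + 1) = N * (n + 1) + (n + 1) := by ring
      omega)
    have h2 := LoopTo.br hM hR h h1
    have e : costN n M.length + N * costN n M.length = (N + 1) * costN n M.length := by ring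
    rw [e] at h2
    exact h2
  | @brF R b N N' h h0 h1 ih0 ih1 =>
    intro hR rest
    have hk := kid_length (κ := κ) (δ := δ) false M n hM R hR
    have hk' := kid_length (κ := κ) (δ := δ) true M n hM R hR
    constructor
    · intro hb B Q hQ
      have h2 := (ih1 hk' rest).1 hb B Q hQ
      have h3 := (ih0 hk (encSta (kid κ δ true M R) ++ rest)).1 rfl _ Q h2
      have h4 := LoopTo.br hM hR h h3
      have e : costN n M.length + (N * costN n M.length + (N' * costN n M.length + B)) =
        (N + N' + 1) * costN n M.length + B := by ring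
      rw [e] at h4
      exact h4
    · intro hb L hL
      have h2 := (ih1 hk' rest).2 hb L (by
        have : (N + N' + 1) * (n + 1) = N * (n + 1) + N' * (n + 1) + (n + 1) := by ring
        omega)
      have h3 := (ih0 hk (encSta (kid κ δ true M R) ++ rest)).1 rfl _ _ h2
      have h4 := LoopTo.br hM hR h h3
      have e : costN n M.length + (N * costN n M.length + N' * costN n M.length) =
        (N + N' + 1) * costN n M.length := by ring
      rw [e] at h4
      exact h4

/-- Cost of the main loop and of the output. -/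
def costG (n m N : ℕ) : ℕ := N * costN n m + 2 * (N * (n + 1)) + 2 * (m * (n + 1)) + 8

theorem runs_main {n : ℕ} {M : List Row} (hM : ∀ A ∈ M, A.1.length = n)
    {R : Sta} (hR : R.length = n) {b : Bool} {N : ℕ} (hS : Solve κ δ M R b N)
    (x z : Option (Sym δ)) (f g u a p : Bool) (c : Fin (κ + 2)) :
    Runs (.seq mainLoop fin)
      (⟨x, z, f, g, u, a, p, false, c⟩, ⟨[], [], encMat M, [], encSta R, [], [], [], []⟩)
      (reg0, ⟨[], [b], [], [], [], [], [], [], []⟩) (costG n M.length N) := by
  have h0 : Runs (.blk [px .ta])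
      ((⟨x, z, f, g, u, a, p, false, c⟩ : Reg κ δ),
        (⟨[], [], encMat M, [], encSta R, [], [], [], []⟩ : St Inp Bool (Sym δ)))
      (⟨(encSta R).head?, z, f, g, u, a, p, false, c⟩,
        ⟨[], [], encMat M, [], (encSta R).tail, [], [], [], []⟩) 1 := Runs.blk rfl
  have hfin : ∀ (x z : Option (Sym δ)) (f g u a p e : Bool) (c : Fin (κ + 2))
      (ta : List (Sym δ)) (_hl : ta.length ≤ N * (n + 1)),
      Runs fin (⟨x, z, f, g, u, a, p, e, c⟩, ⟨[], [], encMat M, [], ta, [], [], [], []⟩)
      (reg0, ⟨[], [e], [], [], [], [], [], [], []⟩)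
      (2 * (N * (n + 1)) + 2 * (M.length * (n + 1)) + 5) := by
    intro x z f g u a p e c ta hl
    have h1 := runs_clear .ta ((⟨x, z, f, g, u, a, p, e, c⟩ : Reg κ δ))
      ((⟨[], [], encMat M, [], ta, [], [], [], []⟩ : St Inp Bool (Sym δ)))
    have h2 := runs_clear .ma ((⟨none, z, f, g, u, a, p, e, c⟩ : Reg κ δ))
      ((⟨[], [], encMat M, [], [], [], [], [], []⟩ : St Inp Bool (Sym δ)))
    have h3 : Runs (.blk [.push .out fun r => r.e, ld fun _ => reg0])
      ((⟨none, z, f, g, u, a, p, e, c⟩ : Reg κ δ),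
        (⟨[], [], [], [], [], [], [], [], []⟩ : St Inp Bool (Sym δ)))
      (reg0, ⟨[], [e], [], [], [], [], [], [], []⟩) 1 := Runs.blk rfl
    refine (h1.seq (h2.seq h3)).mono ?_
    change 2 * ta.length + 2 + (2 * (encMat M : List (Sym δ)).length + 2 + 1) ≤ _
    rw [encMat_length n M hM]
    omega
  have e0 : (encSta R : List (Sym δ)) = encSta R ++ [] := by simp
  cases b
  · have h1 := (solve_loop hM [] [] hS hR []).1 rfl 1
      (fun s => ∃ z f g u a p c, s = ((⟨none, z, f, g, u, a, p, false, c⟩ : Reg κ δ),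
        (⟨[], [], encMat M, [], [], [], [], [], []⟩ : St Inp Bool (Sym δ))))
      (fun z f g u a p c => ⟨_, Runs.loop_false rfl, z, f, g, u, a, p, c, rfl⟩)
    rw [← e0] at h1
    obtain ⟨s'', h2, z1, f1, g1, u1, a1, p1, c1, rfl⟩ := h1 z f g u a p c
    have h3 := (h0.seq h2).seq (hfin none z1 f1 g1 u1 a1 p1 false c1 [] (by simp))
    refine h3.mono ?_
    unfold costG
    omega
  · have h1 := (solve_loop hM [] [] hS hR []).2 rfl (N * (n + 1)) (by simp)
    rw [← e0] at h1
    obtain ⟨s'', h2, x1, z1, f1, g1, u1, a1, p1, c1, ta, rfl, hta⟩ := h1 z f g u a p c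
    have h3 := (h0.seq h2).seq (hfin x1 z1 f1 g1 u1 a1 p1 true c1 ta hta)
    refine h3.mono ?_
    unfold costG
    omega

end Pool.Agent.H1.MP
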