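import Pool.Agent.H1.MpExecC

/-!
# Execution of the preparation, and of the whole program
-/

namespace Pool.Agent.H1.MP

open Pool.Agent.H1.SP
open Pool.Agent.H1.SP.Prog

variable {κ δ : ℕ}

theorem rep_app {α : Type} (k : ℕ) (a : α) (l : List α) :
    List.replicate k a ++ (a :: l) = List.replicate (k + 1) a ++ l := by
  rw [List.replicate_succ', List.append_assoc]
  rfl

theorem pre1_loop : ∀ (k : ℕ) (rest : List Inp)
    (_hrest : isCell (δ := δ) (rest.head?.map conv) = false)
    (z : Option (Sym δ)) (f g u a p e : Bool) (c : Fin (κ + 2)) (O ma mb ta tb wa wb va),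
    Runs (.loop (fun r => isCell r.x) (.blk [pu .ta fun _ => .v none, pin]))
      (⟨(List.replicate k (some (false, false)) ++ rest).head?.map conv, z, f, g, u, a, p, e, c⟩,
        ⟨(List.replicate k (some (false, false)) ++ rest).tail, O, ma, mb, ta, tb, wa, wb, va⟩)
      (⟨rest.head?.map conv, z, f, g, u, a, p, e, c⟩,
        ⟨rest.tail, O, ma, mb, List.replicate k (.v none) ++ ta, tb, wa, wb, va⟩)
      (2 * k + 1) := by
  intro k
  induction k with
  | zero =>
    intro rest hrest z f g u a p e c O ma mb ta tb wa wb va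
    exact (Runs.loop_false (by simpa using hrest)).mono (by simp)
  | succ k ih =>
    intro rest hrest z f g u a p e c O ma mb ta tb wa wb va
    have := Runs.loop_true (c := fun r : Reg κ δ => isCell r.x) (b := 1)
      (s := (⟨(List.replicate (k + 1) (some (false, false)) ++ rest).head?.map conv, z, f, g, u, a,
        p, e, c⟩,
        ⟨(List.replicate (k + 1) (some (false, false)) ++ rest).tail, O, ma, mb, ta, tb, wa, wb,
          va⟩))
      rfl (Runs.blk rfl) (ih rest hrest z f g u a p e c O ma mb (.v none :: ta) tb wa wb va)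
    rw [rep_app] at this
    exact this.mono (by omega)

theorem runs_pre1 (n : ℕ) (rest : List Inp)
    (hrest : isCell (δ := δ) (rest.head?.map conv) = false)
    (x z : Option (Sym δ)) (f g u a p e : Bool) (c : Fin (κ + 2)) (O ma mb tb wa wb va) :
    Runs pre1
      (⟨x, z, f, g, u, a, p, e, c⟩,
        ⟨List.replicate n (some (false, false)) ++ rest, O, ma, mb, [], tb, wa, wb, va⟩)
      (⟨rest.head?.map conv, z, f, g, u, a, p, e, c⟩,
        ⟨rest.tail, O, ma, mb, encSta (List.replicate n none), tb, wa, wb, va⟩)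
      (2 * n + 2) := by
  have h0 : Runs (.blk [pu .ta fun _ => .sep, pin])
      ((⟨x, z, f, g, u, a, p, e, c⟩ : Reg κ δ),
        (⟨List.replicate n (some (false, false)) ++ rest, O, ma, mb, [], tb, wa, wb, va⟩ :
          St Inp Bool (Sym δ)))
      (⟨(List.replicate n (some (false, false)) ++ rest).head?.map conv, z, f, g, u, a, p, e, c⟩,
        ⟨(List.replicate n (some (false, false)) ++ rest).tail, O, ma, mb, [.sep], tb, wa, wb,
          va⟩) 1 := Runs.blk rfl
  have h1 := pre1_loop n rest hrest z f g u a p e c O ma mb [.sep] tb wa wb va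
  have e1 : (List.replicate n (Sym.v none) ++ [Sym.sep] : List (Sym δ)) =
      encSta (List.replicate n none) := by simp [encSta]
  rw [e1] at h1
  exact (h0.seq h1).mono (by omega)

theorem pre2_loop : ∀ (rest : List Inp)
    (z : Option (Sym δ)) (f g u a p e : Bool) (c : Fin (κ + 2)) (O ma mb ta tb wa wb va),
    Runs pre2
      (⟨rest.head?.map conv, z, f, g, u, a, p, e, c⟩,
        ⟨rest.tail, O, ma, mb, ta, tb, wa, wb, va⟩)
      (⟨none, z, f, g, u, a, p, e, c⟩,
        ⟨[], O, ma, (rest.map conv).reverse ++ mb, ta, tb, wa, wb, va⟩)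
      (2 * rest.length + 1) := by
  intro rest
  induction rest with
  | nil =>
    intro z f g u a p e c O ma mb ta tb wa wb va
    exact (Runs.loop_false rfl).mono (by simp)
  | cons i rest ih =>
    intro z f g u a p e c O ma mb ta tb wa wb va
    have := Runs.loop_true (c := fun r : Reg κ δ => isSome r.x) (b := 1)
      (s := (⟨(i :: rest).head?.map conv, z, f, g, u, a, p, e, c⟩,
        ⟨(i :: rest).tail, O, ma, mb, ta, tb, wa, wb, va⟩))
      rfl (Runs.blk rfl) (ih z f g u a p e c O ma (conv i :: mb) ta tb wa wb va)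
    have e1 : (rest.map conv).reverse ++ (conv i :: mb) =
        ((i :: rest).map conv).reverse ++ mb := by simp
    rw [e1] at this
    refine this.mono ?_
    simp only [List.length_cons]
    omega

/-- Equality of positive parts. -/
def eqP : List Cell → List Cell → Bool
  | x :: L, w :: W => (x.1 == w.1) && eqP L W
  | _, _ => true

theorem cmp_loop : ∀ (L W : List Cell) (_h : L.length = W.length)
    (rest : List (Sym δ)) (_hrest : isCell rest.head? = false)
    (z : Option (Sym δ)) (f g u a p e : Bool) (c : Fin (κ + 2)) (I O mb ta tb wa wb va),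
    ∃ z', Runs (.loop (fun r => isCell r.x)
      (.blk [pz .wa, pu .tb fun r => sy r.x, pu .wb fun r => sy r.z,
        ld fun r => { r with f := r.f && ((cellOf r.x).1 == (cellOf r.z).1) }, px .ma]))
      (⟨(L.map Sym.cell ++ rest).head?, z, f, g, u, a, p, e, c⟩,
        ⟨I, O, (L.map Sym.cell ++ rest).tail, mb, ta, tb, W.map Sym.cell ++ wa, wb, va⟩)
      (⟨rest.head?, z', f && eqP L W, g, u, a, p, e, c⟩,
        ⟨I, O, rest.tail, mb, ta, (L.map Sym.cell).reverse ++ tb, wa,
          (W.map Sym.cell).reverse ++ wb, va⟩)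
      (2 * L.length + 1) := by
  intro L
  induction L with
  | nil =>
    intro W h rest hrest z f g u a p e c I O mb ta tb wa wb va
    obtain rfl : W = [] := List.eq_nil_of_length_eq_zero h.symm
    refine ⟨z, ?_⟩
    have e1 : (f && eqP [] []) = f := by cases f <;> rfl
    rw [e1]
    exact (Runs.loop_false (by simpa using hrest)).mono (by simp)
  | cons x L ih =>
    intro W h rest hrest z f g u a p e c I O mb ta tb wa wb va
    obtain ⟨w, W, rfl⟩ : ∃ w W', W = w :: W' := by
      cases W with
      | nil => simp at h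
      | cons w W => exact ⟨w, W, rfl⟩
    obtain ⟨z', hz⟩ := ih W (by simpa using h) rest hrest (some (.cell w)) (f && (x.1 == w.1))
      g u a p e c I O mb ta (.cell x :: tb) wa (.cell w :: wb) va
    refine ⟨z', ?_⟩
    have := Runs.loop_true (c := fun r : Reg κ δ => isCell r.x) (b := 1)
      (s := (⟨((x :: L).map Sym.cell ++ rest).head?, z, f, g, u, a, p, e, c⟩,
        ⟨I, O, ((x :: L).map Sym.cell ++ rest).tail, mb, ta, tb, (w :: W).map Sym.cell ++ wa, wb,
          va⟩))
      rfl (Runs.blk rfl) hz
    have e1 : (f && (x.1 == w.1) && eqP L W) = (f && eqP (x :: L) (w :: W)) := by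
      rw [eqP, Bool.and_assoc]
    have e2 : (L.map Sym.cell).reverse ++ (Sym.cell x :: tb) =
        ((x :: L).map Sym.cell).reverse ++ tb := by simp
    have e3 : (W.map Sym.cell).reverse ++ (Sym.cell w :: wb) =
        ((w :: W).map Sym.cell).reverse ++ wb := by simp
    rw [e1, e2, e3] at this
    refine this.mono ?_
    simp only [List.length_cons]
    omega

theorem backZ_loop : ∀ (L : List (Sym δ)) (x : Option (Sym δ)) (f g u a p e : Bool)
    (c : Fin (κ + 2)) (I O ma mb ta tb wa va),
    Runs (.loop (fun r => isSome r.z) (.blk [pu .wa fun r => sy r.z, pz .wb]))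
      (⟨x, L.head?, f, g, u, a, p, e, c⟩, ⟨I, O, ma, mb, ta, tb, wa, L.tail, va⟩)
      (⟨x, none, f, g, u, a, p, e, c⟩, ⟨I, O, ma, mb, ta, tb, L.reverse ++ wa, [], va⟩)
      (2 * L.length + 1) := by
  intro L
  induction L with
  | nil =>
    intro x f g u a p e c I O ma mb ta tb wa va
    exact (Runs.loop_false rfl).mono (by simp)
  | cons y L ih =>
    intro x f g u a p e c I O ma mb ta tb wa va
    have := Runs.loop_true (c := fun r : Reg κ δ => isSome r.z) (b := 1)
      (s := (⟨x, (y :: L).head?, f, g, u, a, p, e, c⟩, ⟨I, O, ma, mb, ta, tb, wa, (y :: L).tail,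
        va⟩))
      rfl (Runs.blk rfl) (ih x f g u a p e c I O ma mb ta tb (y :: wa) va)
    have e1 : L.reverse ++ (y :: wa) = (y :: L).reverse ++ wa := by simp
    rw [e1] at this
    refine this.mono ?_
    simp only [List.length_cons]
    omega

theorem runs_cmpRow (B : Row) (W : List Cell) (h : B.1.length = W.length)
    (rest : List (Sym δ)) (z : Option (Sym δ)) (f g u a p e : Bool) (c : Fin (κ + 2))
    (I O mb ta tb va) :
    ∃ f', Runs cmpRow
      (⟨(encRow B ++ rest).head?, z, f, g, u, a, p, e, c⟩,
        ⟨I, O, (encRow B ++ rest).tail, mb, ta, tb, W.map Sym.cell, [], va⟩)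
      (⟨some (.fl B.2), none, f', g, u, a, p && !eqP B.1 W, e, c⟩,
        ⟨I, O, rest, mb, ta, (encRow B).reverse ++ tb, W.map Sym.cell, [], va⟩)
      (4 * W.length + 5) := by
  have e1 : encRow B ++ rest = B.1.map Sym.cell ++ (Sym.fl B.2 :: rest) := by simp [encRow]
  rw [e1]
  have h0 : Runs (.blk [ld fun r => { r with f := true }])
      ((⟨(B.1.map Sym.cell ++ (Sym.fl B.2 :: rest)).head?, z, f, g, u, a, p, e, c⟩ : Reg κ δ),
        (⟨I, O, (B.1.map Sym.cell ++ (Sym.fl B.2 :: rest)).tail, mb, ta, tb, W.map Sym.cell, [],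
          va⟩ : St Inp Bool (Sym δ)))
      (⟨(B.1.map Sym.cell ++ (Sym.fl B.2 :: rest)).head?, z, true, g, u, a, p, e, c⟩,
        ⟨I, O, (B.1.map Sym.cell ++ (Sym.fl B.2 :: rest)).tail, mb, ta, tb, W.map Sym.cell, [],
          va⟩) 1 := Runs.blk rfl
  obtain ⟨z', h1⟩ := cmp_loop B.1 W h (Sym.fl B.2 :: rest) rfl z true g u a p e c I O mb ta tb []
    [] va
  rw [List.append_nil, List.append_nil, Bool.true_and] at h1
  have h2 : Runs (.blk [pu .tb fun r => sy r.x, ld fun r => { r with p := r.p && !r.f }])
      ((⟨some (.fl B.2), z', eqP B.1 W, g, u, a, p, e, c⟩ : Reg κ δ),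
        (⟨I, O, rest, mb, ta, (B.1.map Sym.cell).reverse ++ tb, [], (W.map Sym.cell).reverse,
          va⟩ : St Inp Bool (Sym δ)))
      (⟨some (.fl B.2), z', eqP B.1 W, g, u, a, p && !eqP B.1 W, e, c⟩,
        ⟨I, O, rest, mb, ta, .fl B.2 :: ((B.1.map Sym.cell).reverse ++ tb), [],
          (W.map Sym.cell).reverse, va⟩) 1 := Runs.blk rfl
  have h3 : Runs (.blk [pz .wb])
      ((⟨some (.fl B.2), z', eqP B.1 W, g, u, a, p && !eqP B.1 W, e, c⟩ : Reg κ δ),
        (⟨I, O, rest, mb, ta, .fl B.2 :: ((B.1.map Sym.cell).reverse ++ tb), [],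
          (W.map Sym.cell).reverse, va⟩ : St Inp Bool (Sym δ)))
      (⟨some (.fl B.2), (W.map Sym.cell).reverse.head?, eqP B.1 W, g, u, a, p && !eqP B.1 W, e,
        c⟩,
        ⟨I, O, rest, mb, ta, .fl B.2 :: ((B.1.map Sym.cell).reverse ++ tb), [],
          (W.map Sym.cell).reverse.tail, va⟩) 1 := Runs.blk rfl
  have h4 := backZ_loop ((W.map Sym.cell).reverse : List (Sym δ)) (some (.fl B.2)) (eqP B.1 W) g u
    a (p && !eqP B.1 W) e c I O rest mb ta (.fl B.2 :: ((B.1.map Sym.cell).reverse ++ tb)) [] va
  have e2 : ((W.map Sym.cell).reverse.reverse ++ [] : List (Sym δ)) = W.map Sym.cell := by simp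
  have e3 : (Sym.fl B.2 :: ((B.1.map Sym.cell).reverse ++ tb) : List (Sym δ)) =
      (encRow B).reverse ++ tb := by simp [encRow]
  rw [e2] at h4
  have h5 := h0.seq (h1.seq (h2.seq (h3.seq h4)))
  rw [e3] at h5
  refine ⟨_, h5.mono ?_⟩
  rw [List.length_reverse, List.length_map, h]
  omega

/-- Flag of a new row. -/
def newP (W : List Cell) (D : List Row) (p : Bool) : Bool :=
  D.foldl (fun p B => p && !eqP B.1 W) p

theorem cmps_loop (n : ℕ) (W : List Cell) (hW : W.length = n) : ∀ (D : List Row)
    (_hD : ∀ B ∈ D, B.1.length = n)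
    (z : Option (Sym δ)) (f g u a p e : Bool) (c : Fin (κ + 2)) (I O mb ta tb va),
    ∃ z' f', Runs (.loop (fun r => isSome r.x) (.seq cmpRow (.blk [px .ma])))
      (⟨(encMat D).head?, z, f, g, u, a, p, e, c⟩,
        ⟨I, O, (encMat D).tail, mb, ta, tb, W.map Sym.cell, [], va⟩)
      (⟨none, z', f', g, u, a, newP W D p, e, c⟩,
        ⟨I, O, [], mb, ta, (encMat D).reverse ++ tb, W.map Sym.cell, [], va⟩)
      (D.length * (4 * n + 7) + 1) := by
  intro D
  induction D with
  | nil =>
    intro hD z f g u a p e c I O mb ta tb va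
    exact ⟨z, f, (Runs.loop_false rfl).mono (by simp)⟩
  | cons B D ih =>
    intro hD z f g u a p e c I O mb ta tb va
    have hB := hD B (by simp)
    obtain ⟨f1, h1⟩ := runs_cmpRow B W (by rw [hB, hW]) (encMat D) z f g u a p e c I O mb ta tb va
    obtain ⟨z2, f2, h2⟩ := ih (fun B hB => hD B (by simp [hB])) none f1 g u a (p && !eqP B.1 W) e
      c I O mb ta ((encRow B).reverse ++ tb) va
    refine ⟨z2, f2, ?_⟩
    have hb := h1.seq (Runs.blk (ops := [px .ma])
      (s' := ((⟨(encMat D).head?, none, f1, g, u, a, p && !eqP B.1 W, e, c⟩ : Reg κ δ),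
        (⟨I, O, (encMat D).tail, mb, ta, (encRow B).reverse ++ tb, W.map Sym.cell, [], va⟩ :
          St Inp Bool (Sym δ)))) rfl)
    have := Runs.loop_true (c := fun r : Reg κ δ => isSome r.x)
      (s := (⟨(encMat (B :: D)).head?, z, f, g, u, a, p, e, c⟩,
        ⟨I, O, (encMat (B :: D)).tail, mb, ta, tb, W.map Sym.cell, [], va⟩))
      (by
        obtain ⟨L, b⟩ := B
        cases L <;> rfl) hb h2
    have e1 : (encMat D).reverse ++ ((encRow B).reverse ++ tb) =
        (encMat (B :: D) : List (Sym δ)).reverse ++ tb := by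
      rw [encMat_cons]; simp
    rw [e1] at this
    refine this.mono ?_
    rw [hW]
    simp only [List.length_cons, Nat.add_mul]
    omega

theorem load_loop : ∀ (L : List Cell) (rest : List (Sym δ)) (_hrest : isCell rest.head? = false)
    (z : Option (Sym δ)) (f g u a p e : Bool) (c : Fin (κ + 2)) (I O ma ta tb wa wb va),
    Runs (.loop (fun r => isCell r.x) (.blk [pu .wa fun r => sy r.x, px .mb]))
      (⟨(L.map Sym.cell ++ rest).head?, z, f, g, u, a, p, e, c⟩,
        ⟨I, O, ma, (L.map Sym.cell ++ rest).tail, ta, tb, wa, wb, va⟩)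
      (⟨rest.head?, z, f, g, u, a, p, e, c⟩,
        ⟨I, O, ma, rest.tail, ta, tb, (L.map Sym.cell).reverse ++ wa, wb, va⟩)
      (2 * L.length + 1) := by
  intro L
  induction L with
  | nil =>
    intro rest hrest z f g u a p e c I O ma ta tb wa wb va
    exact (Runs.loop_false (by simpa using hrest)).mono (by simp)
  | cons x L ih =>
    intro rest hrest z f g u a p e c I O ma ta tb wa wb va
    have := Runs.loop_true (c := fun r : Reg κ δ => isCell r.x) (b := 1)
      (s := (⟨((x :: L).map Sym.cell ++ rest).head?, z, f, g, u, a, p, e, c⟩,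
        ⟨I, O, ma, ((x :: L).map Sym.cell ++ rest).tail, ta, tb, wa, wb, va⟩))
      rfl (Runs.blk rfl) (ih rest hrest z f g u a p e c I O ma ta tb (.cell x :: wa) wb va)
    have e1 : (L.map Sym.cell).reverse ++ (Sym.cell x :: wa) =
        ((x :: L).map Sym.cell).reverse ++ wa := by simp
    rw [e1] at this
    refine this.mono ?_
    simp only [List.length_cons]
    omega

theorem runs_addRow (n : ℕ) (W : List Cell) (hW : W.length = n) (D : List Row)
    (hD : ∀ B ∈ D, B.1.length = n) (rest : List (Sym δ))
    (z : Option (Sym δ)) (f g u a p e : Bool) (c : Fin (κ + 2)) (I O ta) :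
    ∃ z' f', Runs addRow
      (⟨((W.map Sym.cell).reverse ++ (Sym.sep :: rest)).head?, z, f, g, u, a, p, e, c⟩,
        ⟨I, O, encMat D, ((W.map Sym.cell).reverse ++ (Sym.sep :: rest)).tail, ta, [], [], [], []⟩)
      (⟨none, z', f', g, u, a, newP W D true, e, c⟩,
        ⟨I, O, encMat ((W, newP W D true) :: D), rest, ta, [], [], [], []⟩)
      (D.length * (6 * n + 9) + 6 * n + 12) := by
  have h0 := load_loop W.reverse (.sep :: rest : List (Sym δ)) rfl z f g u a p e c I O (encMat D)
    ta [] [] [] []
  rw [List.map_reverse, List.reverse_reverse, List.append_nil] at h0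
  have h1 : Runs (.blk [ld fun r => { r with p := true }, px .ma])
      ((⟨some .sep, z, f, g, u, a, p, e, c⟩ : Reg κ δ),
        (⟨I, O, encMat D, rest, ta, [], W.map Sym.cell, [], []⟩ : St Inp Bool (Sym δ)))
      (⟨(encMat D).head?, z, f, g, u, a, true, e, c⟩,
        ⟨I, O, (encMat D).tail, rest, ta, [], W.map Sym.cell, [], []⟩) 1 := Runs.blk rfl
  obtain ⟨z', f', h2⟩ := cmps_loop (κ := κ) (δ := δ) n W hW D hD z f g u a true e c I O rest ta []
    []
  have h3 : Runs (moveAll .tb .ma)
      ((⟨none, z', f', g, u, a, newP W D true, e, c⟩ : Reg κ δ),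
        (⟨I, O, [], rest, ta, (encMat D).reverse ++ [], W.map Sym.cell, [], []⟩ :
          St Inp Bool (Sym δ)))
      (⟨none, z', f', g, u, a, newP W D true, e, c⟩,
        ⟨I, O, encMat D, rest, ta, [], W.map Sym.cell, [], []⟩) (2 * (D.length * (n + 1)) + 2) :=
    runs_mv .tb .ma (by decide) rfl (by simp [St.ss, St.gs])
      (by simp [St.gs, encMat_length n D hD])
  have h4 : Runs (.blk [pu .ma fun r => .fl r.p])
      ((⟨none, z', f', g, u, a, newP W D true, e, c⟩ : Reg κ δ),
        (⟨I, O, encMat D, rest, ta, [], W.map Sym.cell, [], []⟩ : St Inp Bool (Sym δ)))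
      (⟨none, z', f', g, u, a, newP W D true, e, c⟩,
        ⟨I, O, .fl (newP W D true) :: encMat D, rest, ta, [], W.map Sym.cell, [], []⟩) 1 :=
    Runs.blk rfl
  have h5 : Runs (moveAll .wa .wb)
      ((⟨none, z', f', g, u, a, newP W D true, e, c⟩ : Reg κ δ),
        (⟨I, O, .fl (newP W D true) :: encMat D, rest, ta, [], W.map Sym.cell, [], []⟩ :
          St Inp Bool (Sym δ)))
      (⟨none, z', f', g, u, a, newP W D true, e, c⟩,
        ⟨I, O, .fl (newP W D true) :: encMat D, rest, ta, [], [], (W.map Sym.cell).reverse, []⟩)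
      (2 * n + 2) :=
    runs_mv .wa .wb (by decide) rfl (by simp [St.ss, St.gs])
      (by simp [St.gs, hW])
  have h6 : Runs (moveAll .wb .ma)
      ((⟨none, z', f', g, u, a, newP W D true, e, c⟩ : Reg κ δ),
        (⟨I, O, .fl (newP W D true) :: encMat D, rest, ta, [], [], (W.map Sym.cell).reverse, []⟩ :
          St Inp Bool (Sym δ)))
      (⟨none, z', f', g, u, a, newP W D true, e, c⟩,
        ⟨I, O, encMat ((W, newP W D true) :: D), rest, ta, [], [], [], []⟩)
      (2 * n + 2) :=
    runs_mv .wb .ma (by decide) rfl (by simp [St.ss, St.gs, encMat_cons, encRow])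
      (by simp [St.gs, hW])
  refine ⟨z', f', (h0.seq (h1.seq (h2.seq (h3.seq (h4.seq (h5.seq h6)))))).mono ?_⟩
  rw [List.length_reverse, hW]
  have : D.length * (6 * n + 9) = D.length * (4 * n + 7) + 2 * (D.length * (n + 1)) := by ring
  omega

/-- The matrix with flags. -/
def dd : List (List Cell) → List Row
  | [] => []
  | W :: M => (W, newP W (dd M) true) :: dd M

theorem dd_length (M : List (List Cell)) : (dd M).length = M.length := by
  induction M with
  | nil => rfl
  | cons W M ih => rw [dd, List.length_cons, List.length_cons, ih]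

theorem dd_mem (n : ℕ) (M : List (List Cell)) (hM : ∀ A ∈ M, A.length = n) :
    ∀ B ∈ dd M, B.1.length = n := by
  induction M with
  | nil => intro B hB; simp [dd] at hB
  | cons W M ih =>
    intro B hB
    rw [dd, List.mem_cons] at hB
    rcases hB with rfl | hB
    · exact hM W (by simp)
    · exact ih (fun A hA => hM A (by simp [hA])) B hB

/-- The rows of the input, as stack symbols. -/
def symRows (M : List (List Cell)) : List (Sym δ) := M.flatMap fun A => .sep :: A.map Sym.cell

theorem pre3_loop (n : ℕ) : ∀ (M' M : List (List Cell)) (_hM : ∀ A ∈ M' ++ M, A.length = n)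
    (z : Option (Sym δ)) (f g u a p e : Bool) (c : Fin (κ + 2)) (I O ta),
    ∃ z' f' p', Runs (.loop (fun r => isSome r.x) (.seq addRow (.blk [px .mb])))
      (⟨(symRows M'.reverse).reverse.head?, z, f, g, u, a, p, e, c⟩,
        ⟨I, O, encMat (dd M), (symRows M'.reverse).reverse.tail, ta, [], [], [], []⟩)
      (⟨none, z', f', g, u, a, p', e, c⟩,
        ⟨I, O, encMat (dd (M'.reverse ++ M)), [], ta, [], [], [], []⟩)
      (M'.length * ((M'.length + M.length) * (6 * n + 9) + 6 * n + 14) + 1) := by
  intro M'
  induction M' with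
  | nil =>
    intro M hM z f g u a p e c I O ta
    exact ⟨z, f, p, (Runs.loop_false rfl).mono (by simp)⟩
  | cons W M' ih =>
    intro M hM z f g u a p e c I O ta
    have hW := hM W (by simp)
    have hMM : ∀ A ∈ M, A.length = n := fun A hA => hM A (by simp [hA])
    obtain ⟨z1, f1, h1⟩ := runs_addRow (κ := κ) (δ := δ) n W hW (dd M) (dd_mem n M hMM)
      (symRows M'.reverse).reverse z f g u a p e c I O ta
    obtain ⟨z2, f2, p2, h2⟩ := ih (W :: M) (by
      intro A hA
      apply hM A
      simp only [List.mem_append, List.mem_cons] at hA ⊢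
      tauto) z1 f1 g u a (newP W (dd M) true) e c I O ta
    refine ⟨z2, f2, p2, ?_⟩
    have es : (symRows (W :: M').reverse).reverse =
        (W.map Sym.cell).reverse ++ (Sym.sep :: (symRows M'.reverse).reverse : List (Sym δ)) := by
      simp [symRows]
    rw [es]
    have hb := h1.seq (Runs.blk (ops := [px .mb])
      (s' := ((⟨(symRows M'.reverse).reverse.head?, z1, f1, g, u, a, newP W (dd M) true, e, c⟩ :
        Reg κ δ),
        (⟨I, O, encMat ((W, newP W (dd M) true) :: dd M), (symRows M'.reverse).reverse.tail, ta,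
          [], [], [], []⟩ : St Inp Bool (Sym δ)))) rfl)
    have := Runs.loop_true (c := fun r : Reg κ δ => isSome r.x)
      (s := (⟨((W.map Sym.cell).reverse ++ (Sym.sep :: (symRows M'.reverse).reverse)).head?, z, f,
        g, u, a, p, e, c⟩,
        ⟨I, O, encMat (dd M), ((W.map Sym.cell).reverse ++ (Sym.sep ::
          (symRows M'.reverse).reverse)).tail, ta, [], [], [], []⟩))
      (by
        change isSome ((W.map Sym.cell).reverse ++ (Sym.sep :: _)).head? = true
        generalize (W.map Sym.cell).reverse = l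
        cases l <;> rfl) hb h2
    have e1 : M'.reverse ++ W :: M = (W :: M').reverse ++ M := by simp
    rw [e1] at this
    refine this.mono ?_
    rw [dd_length]
    simp only [List.length_cons]
    have h3 : M.length * (6 * n + 9) ≤ (M'.length + 1 + M.length) * (6 * n + 9) :=
      Nat.mul_le_mul_right _ (by omega)
    have h4 : M'.length + (M.length + 1) = M'.length + 1 + M.length := by omega
    rw [h4]
    have h5 : (M'.length + 1) * ((M'.length + 1 + M.length) * (6 * n + 9) + 6 * n + 14) =
      M'.length * ((M'.length + 1 + M.length) * (6 * n + 9) + 6 * n + 14) +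
      ((M'.length + 1 + M.length) * (6 * n + 9) + 6 * n + 14) := by ring
    rw [h5]
    omega

/-- The input word. -/
def inputOf (n : ℕ) (M : List (List Cell)) : List Inp :=
  List.replicate n (some (false, false)) ++ M.flatMap fun A => none :: A.map some

theorem map_conv_rows (M : List (List Cell)) :
    (M.flatMap fun A => (none : Inp) :: A.map some).map conv = (symRows M : List (Sym δ)) := by
  induction M with
  | nil => rfl
  | cons A M ih =>
    rw [List.flatMap_cons, List.map_append, ih]
    simp [symRows, conv]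

theorem rows_length (n : ℕ) (M : List (List Cell)) (hM : ∀ A ∈ M, A.length = n) :
    (M.flatMap fun A => (none : Inp) :: A.map some).length = M.length * (n + 1) := by
  induction M with
  | nil => simp
  | cons A M ih =>
    rw [List.flatMap_cons, List.length_append, ih (fun B hB => hM B (by simp [hB])),
      List.length_cons, List.length_map, hM A (by simp), List.length_cons]
    ring

/-- Total cost. -/
def costP (n m N : ℕ) : ℕ :=
  2 * n + 4 + 2 * (m * (n + 1)) + (m * (m * (6 * n + 9) + 6 * n + 14) + 1) + costG n m N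

theorem runs_prog (n : ℕ) (M : List (List Cell)) (hM : ∀ A ∈ M, A.length = n) {b : Bool} {N : ℕ}
    (hS : Solve κ δ (dd M) (List.replicate n none) b N) :
    Runs (prog : P κ δ)
      (reg0, ⟨inputOf n M, [], [], [], [], [], [], [], []⟩)
      (reg0, ⟨[], [b], [], [], [], [], [], [], []⟩) (costP n M.length N) := by
  have hrest : isCell (δ := δ)
      (((M.flatMap fun A => (none : Inp) :: A.map some).head?).map conv) = false := by
    cases M <;> rfl
  have r1 := runs_pre1 (κ := κ) n (M.flatMap fun A => none :: A.map some) hrest none none false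
    false false false false false 0 [] [] [] [] [] [] []
  have r2 := pre2_loop (κ := κ) (δ := δ) (M.flatMap fun A => none :: A.map some) none false false
    false false false false 0 [] [] [] (encSta (List.replicate n none)) [] [] [] []
  rw [map_conv_rows, List.append_nil] at r2
  have r3 : Runs (.blk [px .mb])
      ((⟨none, none, false, false, false, false, false, false, 0⟩ : Reg κ δ),
        (⟨[], [], [], (symRows M).reverse, encSta (List.replicate n none), [], [], [], []⟩ :
          St Inp Bool (Sym δ)))
      (⟨(symRows M.reverse.reverse).reverse.head?, none, false, false, false, false, false, false,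
        0⟩,
        ⟨[], [], encMat (dd []), (symRows M.reverse.reverse).reverse.tail,
          encSta (List.replicate n none), [], [], [], []⟩) 1 := by
    rw [List.reverse_reverse]
    exact Runs.blk rfl
  obtain ⟨z4, f4, p4, r4⟩ := pre3_loop (κ := κ) (δ := δ) n M.reverse [] (by
    intro A hA
    apply hM
    simpa using hA) none false false false false false false 0 [] []
    (encSta (List.replicate n none))
  rw [List.reverse_reverse, List.append_nil] at r4
  rw [List.reverse_reverse] at r3
  have r5 := runs_main (dd_mem n M hM) (List.length_replicate ..) hS none z4 f4 false false false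
    p4 0
  have := r1.seq (r2.seq ((r3.seq r4).seq r5))
  have hseq : ∀ {s s' : Reg κ δ × St Inp Bool (Sym δ)} {B : ℕ},
      Runs (.seq pre1 (.seq pre2 (.seq pre3 (.seq mainLoop fin)))) s s' B →
      Runs (prog : P κ δ) s s' B := fun h => h
  refine (hseq this).mono ?_
  rw [rows_length n M hM, List.length_reverse, List.length_nil, add_zero, dd_length]
  unfold costP
  omega

end Pool.Agent.H1.MP
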