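import Pool.Agent.H1.MpExecD

/-!
# From lists to functions
-/

namespace Pool.Agent.H1.MP

variable {κ δ n : ℕ}

/-- Clauses as functions. -/
abbrev Cl (n : ℕ) := Fin n → Cell

/-- States as functions. -/
abbrev Sf (n : ℕ) := Fin n → Option Bool

/-- Unassigned positive literal. -/
def un (A : Cl n) (R : Sf n) (i : Fin n) : Prop := (A i).1 = true ∧ R i = none

instance (A : Cl n) (R : Sf n) (i : Fin n) : Decidable (un A R i) := by unfold un; infer_instance

/-- Some positive literal is true. -/
def hit (A : Cl n) (R : Sf n) : Prop := ∃ i, (A i).1 = true ∧ R i = some true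

instance (A : Cl n) (R : Sf n) : Decidable (hit A R) := by unfold hit; infer_instance

/-- All negative literals are false. -/
def neg (A : Cl n) (R : Sf n) : Prop := ∀ i, (A i).2 = true → R i = some true

instance (A : Cl n) (R : Sf n) : Decidable (neg A R) := by unfold neg; infer_instance

/-- Number of unassigned positive literals. -/
def ucount (A : Cl n) (R : Sf n) : ℕ := (Finset.univ.filter fun i => un A R i).card

/-- Long positive parts. -/
def long (κ : ℕ) (A : Cl n) (R : Sf n) : Prop := ¬ hit A R ∧ κ < ucount A R

instance (A : Cl n) (R : Sf n) : Decidable (long κ A R) := by unfold long; infer_instance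

/-- Violated clauses. -/
def viol (A : Cl n) (R : Sf n) : Prop := ¬ hit A R ∧ neg A R

instance (A : Cl n) (R : Sf n) : Decidable (viol A R) := by unfold viol; infer_instance

/-- Rows as functions. -/
abbrev Rf (n : ℕ) := Cl n × Bool

/-- Rows as lists. -/
def toRow (A : Rf n) : Row := (List.ofFn A.1, A.2)

/-- Number of long representatives containing the variable. -/
def occ (κ : ℕ) (D : List (Rf n)) (R : Sf n) (i : Fin n) : ℕ :=
  D.countP fun A => A.2 && decide (long κ A.1 R) && decide (un A.1 R i)

theorem unC_eq (A : Cl n) (W : Fin n → WC δ) (i : Fin n) :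
    unC (A i) (W i) = decide (un A (fun j => (W j).v) i) := by
  rw [unC, Bool.eq_iff_iff]
  simp [un, Option.isNone_iff_eq_none]

theorem hitL_ofFn : ∀ {n : ℕ} (A : Cl n) (W : Fin n → WC δ),
    hitL (List.ofFn A) (List.ofFn W) = decide (hit A fun j => (W j).v) := by
  intro n
  induction n with
  | zero => intro A W; simp [hitL, hit]
  | succ n ih =>
    intro A W
    rw [List.ofFn_succ, List.ofFn_succ, hitL, ih, Bool.eq_iff_iff]
    simp only [hit, hitC, Bool.or_eq_true, Bool.and_eq_true, decide_eq_true_eq, Fin.exists_fin_succ,
      beq_iff_eq]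

theorem negL_ofFn : ∀ {n : ℕ} (A : Cl n) (W : Fin n → WC δ),
    negL (List.ofFn A) (List.ofFn W) = decide (neg A fun j => (W j).v) := by
  intro n
  induction n with
  | zero => intro A W; simp [negL, neg]
  | succ n ih =>
    intro A W
    rw [List.ofFn_succ, List.ofFn_succ, negL, ih, Bool.eq_iff_iff]
    simp only [neg, negC, Bool.or_eq_true, Bool.and_eq_true, decide_eq_true_eq,
      Fin.forall_fin_succ, beq_iff_eq, Bool.not_eq_true']
    refine and_congr ?_ Iff.rfl
    cases (A 0).2 <;> simp

theorem tentL_ofFn (A : Cl n) (W : Fin n → WC δ) :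
    tentL (List.ofFn A) (List.ofFn W) =
      List.ofFn fun i => { W i with t := decide (un A (fun j => (W j).v) i) } := by
  apply List.ext_getElem
  · simp [tentL]
  · intro i h1 h2
    simp only [tentL, List.getElem_zipWith, List.getElem_ofFn]
    rw [unC_eq]

theorem cntL_ofFn : ∀ {n : ℕ} (A : Cl n) (W : Fin n → WC δ) (i : Fin (κ + 2)),
    (cntL i (List.ofFn A) (List.ofFn W) : ℕ) =
      min (κ + 1) ((i : ℕ) + ucount A fun j => (W j).v) := by
  intro n
  induction n with
  | zero =>
    intro A W i
    have := i.isLt
    simp [cntL, ucount]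
    omega
  | succ n ih =>
    intro A W i
    rw [List.ofFn_succ, List.ofFn_succ, cntL, ih]
    have hu : ucount A (fun j => (W j).v) = (if un A (fun j => (W j).v) 0 then 1 else 0) +
        ucount (fun j => A j.succ) (fun j => (W j.succ).v) := by
      unfold ucount
      rw [Finset.card_filter, Finset.card_filter, Fin.sum_univ_succ]
      rfl
    rw [hu, unC_eq]
    by_cases h : un A (fun j => (W j).v) 0
    · simp only [h, decide_true, if_true, inc_val]
      omega
    · simp only [h, decide_false, if_false, Bool.false_eq_true]
      omega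

/-- One row, on functions. -/
def rowW (κ : ℕ) (W : Fin n → WC δ) (u : Bool) (A : Rf n) : Fin n → WC δ := fun i =>
  commit (A.2 && decide (long κ A.1 fun j => (W j).v)) (!u && decide (viol A.1 fun j => (W j).v))
    { W i with t := decide (un A.1 (fun j => (W j).v) i) }

theorem rowF_ofFn (W : Fin n → WC δ) (u : Bool) (A : Rf n) :
    rowF κ (List.ofFn W, u) (toRow A) =
      (List.ofFn (rowW κ W u A), u || decide (viol A.1 fun j => (W j).v)) := by
  have e1 : (A.2 && !decide (hit A.1 fun j => (W j).v) &&
      decide (κ < (cntL (κ := κ) 0 (List.ofFn A.1) (List.ofFn W) : ℕ))) =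
      (A.2 && decide (long κ A.1 fun j => (W j).v)) := by
    rw [cntL_ofFn, Bool.eq_iff_iff]
    simp only [Bool.and_eq_true, Bool.not_eq_true', decide_eq_false_iff_not, decide_eq_true_eq,
      long, Fin.val_zero, zero_add, and_assoc]
    refine and_congr Iff.rfl (and_congr Iff.rfl ?_)
    omega
  have e2 : (!decide (hit A.1 fun j => (W j).v) && decide (neg A.1 fun j => (W j).v)) =
      decide (viol A.1 fun j => (W j).v) := by
    rw [Bool.eq_iff_iff]
    simp [viol]
  have h0 : rowF κ (List.ofFn W, u) (toRow A) =
      ((tentL (List.ofFn A.1) (List.ofFn W)).map (commit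
        (A.2 && !hitL (List.ofFn A.1) (List.ofFn W) &&
          decide (κ < (cntL (κ := κ) 0 (List.ofFn A.1) (List.ofFn W) : ℕ)))
        (!u && !hitL (List.ofFn A.1) (List.ofFn W) && negL (List.ofFn A.1) (List.ofFn W))),
      u || (!hitL (List.ofFn A.1) (List.ofFn W) && negL (List.ofFn A.1) (List.ofFn W))) := rfl
  rw [h0, hitL_ofFn, negL_ofFn, tentL_ofFn, e1, Bool.and_assoc, e2, List.map_ofFn]
  rfl

theorem rowW_v (W : Fin n → WC δ) (u : Bool) (A : Rf n) :
    (fun j => (rowW κ W u A j).v) = fun j => (W j).v := rfl

/-- The pass, on functions. -/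
def passW (κ : ℕ) : List (Rf n) → (Fin n → WC δ) → Bool → (Fin n → WC δ)
  | [], W, _ => W
  | A :: D, W, u => passW κ D (rowW κ W u A) (u || decide (viol A.1 fun j => (W j).v))

theorem passW_v : ∀ (D : List (Rf n)) (W : Fin n → WC δ) (u : Bool),
    (fun j => (passW κ D W u j).v) = fun j => (W j).v := by
  intro D
  induction D with
  | nil => intro W u; rfl
  | cons A D ih => intro W u; rw [passW, ih, rowW_v]

theorem passF_ofFn : ∀ (D : List (Rf n)) (W : Fin n → WC δ) (u : Bool),
    passF κ (D.map toRow) (List.ofFn W, u) =
      (List.ofFn (passW κ D W u), u || D.any fun A => decide (viol A.1 fun j => (W j).v)) := by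
  intro D
  induction D with
  | nil => intro W u; simp [passF, passW]
  | cons A D ih =>
    intro W u
    have h := ih (rowW κ W u A) (u || decide (viol A.1 fun j => (W j).v))
    rw [rowW_v] at h
    rw [List.map_cons, passF, List.foldl_cons, rowF_ofFn, List.any_cons, passW]
    rw [passF] at h
    rw [h, Bool.or_assoc]

theorem passW_n : ∀ (D : List (Rf n)) (W : Fin n → WC δ) (u : Bool) (i : Fin n),
    ((passW κ D W u i).n : ℕ) = min δ (((W i).n : ℕ) + occ κ D (fun j => (W j).v) i) := by
  intro D
  induction D with
  | nil =>
    intro W u i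
    have := (W i).n.isLt
    simp only [passW, occ, List.countP_nil]
    omega
  | cons A D ih =>
    intro W u i
    rw [passW, ih, rowW_v, occ, occ, List.countP_cons]
    have h1 : ((rowW κ W u A i).n : ℕ) = min δ (((W i).n : ℕ) +
        if (A.2 && decide (long κ A.1 fun j => (W j).v) &&
          decide (un A.1 (fun j => (W j).v) i)) = true then 1 else 0) := by
      have := (W i).n.isLt
      simp only [rowW, commit]
      split_ifs with h2
      · rw [inc_val, min_comm]
      · omega
    rw [h1]
    omega

/-- The first violated row. -/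
def fv (D : List (Rf n)) (R : Sf n) : Option (Rf n) := D.find? fun A => decide (viol A.1 R)

theorem passW_m_true : ∀ (D : List (Rf n)) (W : Fin n → WC δ) (i : Fin n),
    (passW κ D W true i).m = (W i).m := by
  intro D
  induction D with
  | nil => intro W i; rfl
  | cons A D ih =>
    intro W i
    rw [passW, Bool.true_or, ih]
    rfl

theorem passW_m : ∀ (D : List (Rf n)) (W : Fin n → WC δ) (i : Fin n),
    (passW κ D W false i).m = match fv D (fun j => (W j).v) with
      | some A => decide (un A.1 (fun j => (W j).v) i)
      | none => (W i).m := by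
  intro D
  induction D with
  | nil => intro W i; rfl
  | cons A D ih =>
    intro W i
    rw [passW, fv, List.find?_cons]
    by_cases h : viol A.1 fun j => (W j).v
    · simp only [h, decide_true, Bool.or_true]
      rw [passW_m_true]
      simp [rowW, commit, h]
    · simp only [h, decide_false, Bool.or_false]
      rw [ih, rowW_v, fv]
      cases D.find? fun A => decide (viol A.1 fun j => (W j).v) with
      | some B => rfl
      | none => simp [rowW, commit, h]

/-- Initial work row. -/
def W0 (δ : ℕ) (R : Sf n) : Fin n → WC δ := fun i => wc0 (R i)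

theorem W0_v (R : Sf n) : (fun j => (W0 δ R j).v) = R := rfl

theorem endW_ofFn (D : List (Rf n)) (R : Sf n) :
    endW κ δ (D.map toRow) (List.ofFn R) =
      (List.ofFn (passW κ D (W0 δ R) false), D.any fun A => decide (viol A.1 R)) := by
  rw [endW]
  have e : (List.ofFn R).map wc0 = List.ofFn (W0 δ R) := by
    rw [List.map_ofFn]; rfl
  rw [e, passF_ofFn, Bool.false_or]
  rfl

theorem any_ofFn {α : Type} : ∀ {n : ℕ} (p : α → Bool) (f : Fin n → α),
    (List.ofFn f).any p = decide (∃ i, p (f i) = true) := by
  intro n
  induction n with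
  | zero => intro p f; simp
  | succ n ih =>
    intro p f
    rw [List.ofFn_succ, List.any_cons, ih, Bool.eq_iff_iff]
    simp only [Bool.or_eq_true, decide_eq_true_eq, Fin.exists_fin_succ]

theorem hasA_iff (D : List (Rf n)) (R : Sf n) :
    hasA (endW κ δ (D.map toRow) (List.ofFn R)).1 = decide (∃ i, δ ≤ occ κ D R i) := by
  rw [endW_ofFn, hasA]
  simp only [any_ofFn]
  rw [Bool.eq_iff_iff]
  simp only [decide_eq_true_eq]
  refine exists_congr fun i => ?_
  rw [passW_n, W0_v]
  simp only [W0, wc0, Fin.val_zero, zero_add]
  omega

theorem hasM_iff (D : List (Rf n)) (R : Sf n) :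
    hasM (endW κ δ (D.map toRow) (List.ofFn R)).1 =
      decide (∃ A, fv D R = some A ∧ ∃ i, un A.1 R i) := by
  rw [endW_ofFn, hasM]
  simp only [any_ofFn]
  rw [Bool.eq_iff_iff]
  simp only [decide_eq_true_eq, passW_m, W0_v]
  cases h : fv D R with
  | none => simp [W0, wc0]
  | some A => simp

theorem endW_snd (D : List (Rf n)) (R : Sf n) :
    (endW κ δ (D.map toRow) (List.ofFn R)).2 = (fv D R).isSome := by
  rw [endW_ofFn, fv]
  simp only
  induction D with
  | nil => rfl
  | cons A D ih =>
    rw [List.any_cons, List.find?_cons, ih]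
    by_cases h : viol A.1 R <;> simp [h]

/-! ### The children -/

/-- Selection without the flag. -/
def sel (a : Bool) (w : WC δ) : Bool := if a then decide (δ ≤ (w.n : ℕ)) else w.m

theorem brL_true (b a : Bool) (U : List (WC δ)) : brL b a true U = U.map WC.v := by
  induction U with
  | nil => rfl
  | cons w U ih =>
    rw [brL, List.map_cons, Bool.true_or, ih]
    simp [selC]

theorem brL_split (a : Bool) (U : List (WC δ)) (h : U.any (sel a) = true) :
    ∃ U1 w U2, U = U1 ++ w :: U2 ∧ sel a w = true ∧
      ∀ b, brL b a false U = U1.map WC.v ++ some b :: U2.map WC.v := by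
  induction U with
  | nil => simp at h
  | cons w U ih =>
    cases hw : sel a w
    · rw [List.any_cons, hw, Bool.false_or] at h
      obtain ⟨U1, w', U2, h1, h2, h3⟩ := ih h
      refine ⟨w :: U1, w', U2, by rw [h1]; rfl, h2, fun b => ?_⟩
      have hs : selC a false w = false := by
        rw [selC, Bool.not_false, Bool.true_and]; exact hw
      rw [brL, hs, Bool.or_false, h3]
      simp
    · refine ⟨[], w, U, rfl, hw, fun b => ?_⟩
      have hs : selC a false w = true := by
        rw [selC, Bool.not_false, Bool.true_and]; exact hw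
      rw [brL, hs, Bool.or_true, brL_true]
      simp

theorem ofFn_update {α : Type} (f : Fin n → α) (i : Fin n) (b : α) :
    List.ofFn (Function.update f i b) = (List.ofFn f).set i b := by
  apply List.ext_getElem
  · simp
  · intro j h1 h2
    rw [List.getElem_ofFn, List.getElem_set]
    by_cases h : (i : ℕ) = j
    · rw [if_pos h]
      have : (⟨j, by simpa using h1⟩ : Fin n) = i := Fin.ext h.symm
      rw [this, Function.update_self]
    · rw [if_neg h, Function.update_of_ne, List.getElem_ofFn]
      intro hh
      apply h
      rw [← hh]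

theorem kid_spec (D : List (Rf n)) (R : Sf n)
    (h : (hasA (endW κ δ (D.map toRow) (List.ofFn R)).1 ||
      hasM (endW κ δ (D.map toRow) (List.ofFn R)).1) = true) :
    ∃ i : Fin n, (if ∃ j, δ ≤ occ κ D R j then δ ≤ occ κ D R i else
      ∃ A, fv D R = some A ∧ un A.1 R i) ∧
      ∀ b, kid κ δ b (D.map toRow) (List.ofFn R) =
        List.ofFn (Function.update R i (some b)) := by
  have hA := hasA_iff (κ := κ) (δ := δ) D R
  have hM := hasM_iff (κ := κ) (δ := δ) D R
  set a := hasA (endW κ δ (D.map toRow) (List.ofFn R)).1 with ha
  set W := passW κ D (W0 δ R) false with hW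
  have hfst : (endW κ δ (D.map toRow) (List.ofFn R)).1 = List.ofFn W := by rw [endW_ofFn]
  have hany : (List.ofFn W).reverse.any (sel a) = true := by
    rw [List.any_reverse]
    cases h' : a
    · rw [h', Bool.false_or] at h
      have : sel (δ := δ) false = WC.m := by funext w; simp [sel]
      rw [this]
      rw [hfst] at h
      exact h
    · have : sel (δ := δ) true = fun w => decide (δ ≤ (w.n : ℕ)) := by funext w; simp [sel]
      rw [this, ← hfst]
      rw [h'] at ha
      exact ha.symm
  obtain ⟨U1, w, U2, h1, h2, h3⟩ := brL_split a _ hany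
  have hlist : List.ofFn W = U2.reverse ++ w :: U1.reverse := by
    have := congrArg List.reverse h1
    rw [List.reverse_reverse] at this
    rw [this]
    simp
  have hlen : U2.length < n := by
    have := congrArg List.length hlist
    rw [List.length_ofFn] at this
    simp at this
    omega
  have hwi : W ⟨U2.length, hlen⟩ = w := by
    have h4 : (List.ofFn W)[U2.length]'(by simpa using hlen) = W ⟨U2.length, hlen⟩ := by
      rw [List.getElem_ofFn]
    rw [← h4]
    simp only [hlist]
    rw [List.getElem_append_right (by simp)]
    simp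
  refine ⟨⟨U2.length, hlen⟩, ?_, fun b => ?_⟩
  · rw [← hwi] at h2
    by_cases hj : ∃ j, δ ≤ occ κ D R j
    · rw [if_pos hj]
      have ha1 : a = true := by rw [hA]; simpa using hj
      rw [ha1, sel, if_pos rfl, decide_eq_true_eq, hW, passW_n, W0_v] at h2
      simp only [W0, wc0, Fin.val_zero, zero_add] at h2
      omega
    · rw [if_neg hj]
      have ha1 : a = false := by rw [hA]; simpa using hj
      rw [ha1, sel, if_neg (by simp), hW, passW_m, W0_v] at h2
      cases hf : fv D R with
      | none => rw [hf] at h2; exact absurd h2 (by simp [W0, wc0])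
      | some A =>
        rw [hf] at h2
        exact ⟨A, rfl, by simpa using h2⟩
  · rw [kid, ← ha, hfst, h3, List.reverse_append, List.reverse_cons, List.append_assoc,
      List.singleton_append, ofFn_update]
    have hR : List.ofFn R = (List.ofFn W).map WC.v := by
      rw [List.map_ofFn]
      congr 1
      have := passW_v (κ := κ) D (W0 δ R) false
      rw [W0_v] at this
      exact this.symm
    rw [hR, hlist, List.map_append, List.map_cons]
    simp only
    rw [← List.map_reverse, ← List.map_reverse]
    have hl : U2.length = (U2.reverse.map WC.v).length := by simp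
    rw [hl, List.set_append_right _ _ le_rfl, Nat.sub_self]
    rfl

end Pool.Agent.H1.MP
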