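import Pool.Agent.H1.MpCount

/-!
# The root of the search and the run of the machine
-/

namespace Pool.Agent.H1.MP

open Pool.Agent.H1.SP

variable {κ δ n : ℕ}

/-- Positive part. -/
def pos (A : Cl n) : Finset (Fin n) := Finset.univ.filter fun i => (A i).1 = true

theorem pos_eq_iff (A B : Cl n) : pos A = pos B ↔ ∀ i, (A i).1 = (B i).1 := by
  rw [Finset.ext_iff]
  refine forall_congr' fun i => ?_
  simp only [pos, Finset.mem_filter, Finset.mem_univ, true_and]
  exact Bool.eq_iff_iff.symm

theorem eqP_ofFn : ∀ {n : ℕ} (A B : Cl n),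
    eqP (List.ofFn A) (List.ofFn B) = decide (∀ i, (A i).1 = (B i).1) := by
  intro n
  induction n with
  | zero => intro A B; simp [eqP]
  | succ n ih =>
    intro A B
    rw [List.ofFn_succ, List.ofFn_succ, eqP, ih, Bool.eq_iff_iff]
    simp only [Bool.and_eq_true, beq_iff_eq, decide_eq_true_eq, Fin.forall_fin_succ]

/-- Flagged rows. -/
def ddF : List (Cl n) → List (Rf n)
  | [] => []
  | W :: M => (W, decide (∀ B ∈ ddF M, pos B.1 ≠ pos W)) :: ddF M

theorem newP_eq (W : Cl n) : ∀ (D : List (Rf n)) (p : Bool),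
    newP (List.ofFn W) (D.map toRow) p = (p && decide (∀ B ∈ D, pos B.1 ≠ pos W)) := by
  intro D
  induction D with
  | nil => intro p; simp [newP]
  | cons B D ih =>
    intro p
    have := ih (p && !eqP (toRow B).1 (List.ofFn W))
    rw [newP] at this ⊢
    rw [List.map_cons, List.foldl_cons, this]
    rw [toRow, eqP_ofFn, Bool.eq_iff_iff]
    simp only [Bool.and_eq_true, decide_eq_true_eq, Bool.not_eq_true', decide_eq_false_iff_not,
      List.forall_mem_cons, Ne, pos_eq_iff]
    tauto

theorem dd_map (M : List (Cl n)) : dd (M.map List.ofFn) = (ddF M).map toRow := by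
  induction M with
  | nil => rfl
  | cons W M ih =>
    rw [List.map_cons, dd, ih, ddF, List.map_cons, newP_eq, Bool.true_and]
    rfl

theorem ddF_fst (M : List (Cl n)) : (ddF M).map Prod.fst = M := by
  induction M with
  | nil => rfl
  | cons W M ih => rw [ddF, List.map_cons, ih]

theorem ddF_repr (M : List (Cl n)) : Repr (ddF M) := by
  induction M with
  | nil => intro A hA; simp [ddF] at hA
  | cons W M ih =>
    intro A hA
    rw [ddF, List.mem_cons] at hA
    rcases hA with rfl | hA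
    · by_cases h : ∀ B ∈ ddF M, pos B.1 ≠ pos W
      · refine ⟨_, by rw [ddF]; exact List.mem_cons_self, ?_, fun i => rfl⟩
        exact decide_eq_true h
      · push Not at h
        obtain ⟨B, hB, hBW⟩ := h
        obtain ⟨A', h1, h2, h3⟩ := ih B hB
        refine ⟨A', by rw [ddF]; exact List.mem_cons_of_mem _ h1, h2, fun i => ?_⟩
        rw [h3]
        exact (pos_eq_iff _ _).1 hBW i
    · obtain ⟨A', h1, h2, h3⟩ := ih A hA
      exact ⟨A', by rw [ddF]; exact List.mem_cons_of_mem _ h1, h2, h3⟩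

theorem long_root (A : Cl n) : long κ A (fun _ => none) ↔ κ < (pos A).card := by
  have h1 : ¬ hit A (fun _ => none) := by
    rintro ⟨i, -, h⟩
    exact absurd h (by simp)
  have h2 : ucount A (fun _ => none) = (pos A).card := by
    rw [ucount, pos]
    congr 1
    ext i
    simp [un]
  rw [long, h2]
  exact ⟨fun h => h.2, fun h => ⟨h1, h⟩⟩

theorem gc_root (M : List (Cl n)) :
    gc κ (ddF M) (fun _ => none) = ((M.map pos).toFinset.filter fun S => κ < S.card).card := by
  induction M with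
  | nil => simp [gc, ddF]
  | cons W M ih =>
    rw [gc, ddF, List.countP_cons]
    rw [gc] at ih
    rw [ih, List.map_cons, List.toFinset_cons, Finset.filter_insert]
    have hmem : (∀ B ∈ ddF M, pos B.1 ≠ pos W) ↔ pos W ∉ (M.map pos).toFinset := by
      rw [List.mem_toFinset, List.mem_map]
      constructor
      · rintro h ⟨B, hB, hBW⟩
        have : B ∈ (ddF M).map Prod.fst := by rw [ddF_fst]; exact hB
        rw [List.mem_map] at this
        obtain ⟨B', hB', rfl⟩ := this
        exact h B' hB' hBW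
      · intro h B hB hBW
        refine h ⟨B.1, ?_, hBW⟩
        rw [← ddF_fst M]
        exact List.mem_map.2 ⟨B, hB, rfl⟩
    simp only [Bool.and_eq_true, decide_eq_true_eq, long_root, hmem]
    by_cases h1 : κ < (pos W).card
    · rw [if_pos h1]
      by_cases h2 : pos W ∈ (M.map pos).toFinset
      · rw [if_neg (fun h => h.1 h2), Finset.insert_eq_of_mem, add_zero]
        exact Finset.mem_filter.2 ⟨h2, h1⟩
      · rw [if_pos ⟨h2, h1⟩, Finset.card_insert_of_notMem]
        exact fun h => h2 (Finset.mem_filter.1 h).1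
    · rw [if_neg h1, if_neg (fun h => h1 h.2), add_zero]

theorem satA_ddF (M : List (Cl n)) (a : Fin n → Bool) :
    satA (ddF M) a ↔
      ∀ A ∈ M, ∃ i, ((A i).1 = true ∧ a i = true) ∨ ((A i).2 = true ∧ a i = false) := by
  constructor
  · intro h A hA
    rw [← ddF_fst M, List.mem_map] at hA
    obtain ⟨B, hB, rfl⟩ := hA
    exact h B hB
  · intro h A hA
    refine h A.1 ?_
    rw [← ddF_fst M]
    exact List.mem_map.2 ⟨A, hA, rfl⟩

theorem costP_le (n m N : ℕ) (hN : 1 ≤ N) : costP n m N + 1 ≤ 41 * (n + m + 1) ^ 3 * N := by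
  obtain ⟨N, rfl⟩ : ∃ k, N = k + 1 := ⟨N - 1, by omega⟩
  simp only [costP, costG, costN]
  ring_nf
  omega

theorem Solve.one_le {M : List Row} {R : Sta} {b : Bool} {N : ℕ} (h : Solve κ δ M R b N) :
    1 ≤ N := by
  cases h <;> omega

/-- The run of the machine. -/
theorem run_bound (c : ℕ) (hκ : 16 * (c + 1) ≤ κ) (M : List (Cl n)) :
    ∃ t : ℕ, Runs (prog : P κ (4 * (c + 1)))
      (reg0, ⟨inputOf n (M.map List.ofFn), [], [], [], [], [], [], [], []⟩)
      (reg0, ⟨[], [decide (∃ a : Fin n → Bool, ∀ A ∈ M, ∃ i,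
        ((A i).1 = true ∧ a i = true) ∨ ((A i).2 = true ∧ a i = false))],
        [], [], [], [], [], [], []⟩) t ∧
      (((M.map pos).toFinset.filter fun S => κ < S.card).card ≤ c * n →
        ((t + 1 : ℕ) : ℝ) ≤ 82 * (n + M.length + 1) ^ 4 * (2 - (1 / 2) ^ κ / 9) ^ n) := by
  obtain ⟨b, N, ⟨h1, h2⟩, h3⟩ := tree_bound (κ := κ) c (ddF_repr M) hκ
  have hrep : List.ofFn (fun _ : Fin n => (none : Option Bool)) = List.replicate n none :=
    List.ofFn_const n none
  rw [hrep, ← dd_map] at h1
  have hb : decide (∃ a : Fin n → Bool, ∀ A ∈ M, ∃ i,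
      ((A i).1 = true ∧ a i = true) ∨ ((A i).2 = true ∧ a i = false)) = b := by
    rw [Bool.eq_iff_iff, decide_eq_true_eq, h2]
    refine exists_congr fun a => ?_
    rw [satA_ddF]
    constructor
    · intro h
      exact ⟨fun i b hb => absurd hb (by simp), h⟩
    · intro h
      exact h.2
  have hr := runs_prog (κ := κ) (δ := 4 * (c + 1)) n (M.map List.ofFn) (by
    intro A hA
    rw [List.mem_map] at hA
    obtain ⟨B, -, rfl⟩ := hA
    simp) h1
  rw [List.length_map] at hr
  rw [hb]
  refine ⟨_, hr, fun hg => ?_⟩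
  rw [← gc_root] at hg
  have h4 := h3 hg
  have h5 := costP_le n M.length N h1.one_le
  have h6 : ((costP n M.length N + 1 : ℕ) : ℝ) ≤ ((41 * (n + M.length + 1) ^ 3 * N : ℕ) : ℝ) :=
    Nat.cast_le.2 h5
  refine h6.trans ?_
  have hd1 : ((1 : ℝ) / 2) ^ κ ≤ 1 := pow_le_one₀ (by norm_num) (by norm_num)
  have hx : (0 : ℝ) ≤ (2 - (1 / 2) ^ κ / 9) ^ n := by
    apply pow_nonneg
    linarith
  set X : ℝ := (2 - (1 / 2) ^ κ / 9) ^ n with hX
  push_cast
  have h7 : (2 * (n : ℝ) + 1) ≤ 2 * (n + M.length + 1) := by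
    have : (0 : ℝ) ≤ M.length := Nat.cast_nonneg _
    linarith
  have h8 : (N : ℝ) ≤ 2 * (n + M.length + 1) * X := h4.trans (mul_le_mul_of_nonneg_right h7 hx)
  calc 41 * ((n : ℝ) + M.length + 1) ^ 3 * N
      ≤ 41 * ((n : ℝ) + M.length + 1) ^ 3 * (2 * (n + M.length + 1) * X) :=
        mul_le_mul_of_nonneg_left h8 (by positivity)
    _ = 82 * ((n : ℝ) + M.length + 1) ^ 4 * X := by ring

end Pool.Agent.H1.MP
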