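import Pool.Agent.H1.MpGlue

/-!
# The search tree
-/

namespace Pool.Agent.H1.MP

variable {κ δ n : ℕ}

/-- The assignment `a` extends `R`. -/
def ext (R : Sf n) (a : Fin n → Bool) : Prop := ∀ i b, R i = some b → a i = b

/-- The assignment satisfies all rows. -/
def satA (D : List (Rf n)) (a : Fin n → Bool) : Prop :=
  ∀ A ∈ D, ∃ i, ((A.1 i).1 = true ∧ a i = true) ∨ ((A.1 i).2 = true ∧ a i = false)

/-- The search from `R` takes `N` nodes and answers `b`, which is correct. -/
def SV (κ δ : ℕ) (D : List (Rf n)) (R : Sf n) (b : Bool) (N : ℕ) : Prop :=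
  Solve κ δ (D.map toRow) (List.ofFn R) b N ∧ (b = true ↔ ∃ a, ext R a ∧ satA D a)

/-- Number of unassigned variables. -/
def nn (R : Sf n) : ℕ := (Finset.univ.filter fun i => R i = none).card

theorem fv_none {D : List (Rf n)} {R : Sf n} (h : fv D R = none) : ∀ A ∈ D, ¬ viol A.1 R := by
  intro A hA hv
  rw [fv, List.find?_eq_none] at h
  exact h A hA (by simpa using hv)

theorem fv_some {D : List (Rf n)} {R : Sf n} {A : Rf n} (h : fv D R = some A) :
    A ∈ D ∧ viol A.1 R := by
  rw [fv] at h
  exact ⟨List.mem_of_find?_eq_some h, by simpa using List.find?_some h⟩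

theorem SV_stop {D : List (Rf n)} {R : Sf n} (hA : ¬ ∃ i, δ ≤ occ κ D R i)
    (hM : ¬ ∃ A, fv D R = some A ∧ ∃ i, un A.1 R i) :
    SV κ δ D R (!(fv D R).isSome) 1 := by
  constructor
  · have h1 : (hasA (endW κ δ (D.map toRow) (List.ofFn R)).1 ||
        hasM (endW κ δ (D.map toRow) (List.ofFn R)).1) = false := by
      rw [hasA_iff, hasM_iff, decide_eq_false hA, decide_eq_false hM]
      rfl
    have := Solve.stop (κ := κ) (δ := δ) h1
    rw [endW_snd] at this
    exact this
  · cases hf : fv D R with
    | none =>
      simp only [Option.isSome_none, Bool.not_false, true_iff]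
      refine ⟨fun i => decide (R i = some true), ?_, ?_⟩
      · intro i b hb
        cases b <;> simp [hb]
      · intro A hAD
        have hv := fv_none hf A hAD
        rw [viol, not_and_or, not_not] at hv
        rcases hv with hv | hv
        · obtain ⟨i, h1, h2⟩ := hv
          exact ⟨i, Or.inl ⟨h1, by simpa using h2⟩⟩
        · rw [neg] at hv
          push Not at hv
          obtain ⟨i, h1, h2⟩ := hv
          exact ⟨i, Or.inr ⟨h1, by simpa using h2⟩⟩
    | some A =>
      simp only [Option.isSome_some, Bool.not_true, Bool.false_eq_true, false_iff]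
      rintro ⟨a, h1, h2⟩
      obtain ⟨hAD, hv⟩ := fv_some hf
      obtain ⟨i, h3 | h3⟩ := h2 A hAD
      · cases hRi : R i with
        | none => exact hM ⟨A, hf, i, h3.1, hRi⟩
        | some b =>
          have := h1 i b hRi
          rw [h3.2] at this
          subst this
          exact hv.1 ⟨i, h3.1, hRi⟩
      · have := hv.2 i h3.1
        have := h1 i true this
        rw [h3.2] at this
        exact absurd this (by simp)

theorem ext_split {R : Sf n} {i : Fin n} (hi : R i = none) (a : Fin n → Bool) :
    ext R a ↔ ext (Function.update R i (some false)) a ∨ ext (Function.update R i (some true)) a := by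
  constructor
  · intro h
    have key : ext (Function.update R i (some (a i))) a := by
      intro j b hb
      by_cases hj : j = i
      · subst hj
        rw [Function.update_self] at hb
        exact Option.some.inj hb
      · rw [Function.update_of_ne hj] at hb
        exact h j b hb
    cases ha : a i
    · left; rw [ha] at key; exact key
    · right; rw [ha] at key; exact key
  · have key : ∀ c, ext (Function.update R i (some c)) a → ext R a := by
      intro c h j b hb
      by_cases hj : j = i
      · subst hj
        rw [hi] at hb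
        exact absurd hb (by simp)
      · exact h j b (by rw [Function.update_of_ne hj]; exact hb)
    rintro (h | h)
    · exact key _ h
    · exact key _ h

theorem SV_branch {D : List (Rf n)} {R : Sf n} {i : Fin n} (hi : R i = none)
    (h : (hasA (endW κ δ (D.map toRow) (List.ofFn R)).1 ||
      hasM (endW κ δ (D.map toRow) (List.ofFn R)).1) = true)
    (hk : ∀ b, kid κ δ b (D.map toRow) (List.ofFn R) =
        List.ofFn (Function.update R i (some b)))
    {b0 b1 : Bool} {N0 N1 : ℕ} (h0 : SV κ δ D (Function.update R i (some false)) b0 N0)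
    (h1 : SV κ δ D (Function.update R i (some true)) b1 N1) :
    ∃ b N, SV κ δ D R b N ∧ N ≤ N0 + N1 + 1 := by
  have hiff : (∃ a, ext R a ∧ satA D a) ↔ (b0 = true ∨ b1 = true) := by
    rw [h0.2, h1.2]
    constructor
    · rintro ⟨a, ha, hs⟩
      rcases (ext_split hi a).1 ha with ha | ha
      · exact Or.inl ⟨a, ha, hs⟩
      · exact Or.inr ⟨a, ha, hs⟩
    · rintro (⟨a, ha, hs⟩ | ⟨a, ha, hs⟩)
      · exact ⟨a, (ext_split hi a).2 (Or.inl ha), hs⟩
      · exact ⟨a, (ext_split hi a).2 (Or.inr ha), hs⟩
  have s0 := h0.1
  have s1 := h1.1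
  rw [← hk] at s0 s1
  cases b0
  · refine ⟨b1, N0 + N1 + 1, ⟨Solve.brF h s0 s1, ?_⟩, le_rfl⟩
    rw [hiff]
    simp
  · refine ⟨true, N0 + 1, ⟨Solve.brT h s0, ?_⟩, by omega⟩
    rw [hiff]
    simp

/-! ### Monotonicity -/

/-- `R` extends `R'`. -/
def le (R' R : Sf n) : Prop := ∀ i b, R' i = some b → R i = some b

theorem le_refl' (R : Sf n) : le R R := fun _ _ h => h

theorem le_update {R' R : Sf n} (h : le R' R) {i : Fin n} (hi : R i = none) (c : Bool) :
    le R' (Function.update R i (some c)) := by
  intro j b hb
  by_cases hj : j = i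
  · subst hj
    rw [h j b hb] at hi
    exact absurd hi (by simp)
  · rw [Function.update_of_ne hj]
    exact h j b hb

theorem hit_mono {R' R : Sf n} (h : le R' R) {A : Cl n} (hh : hit A R') : hit A R := by
  obtain ⟨i, h1, h2⟩ := hh
  exact ⟨i, h1, h i true h2⟩

theorem un_anti {R' R : Sf n} (h : le R' R) {A : Cl n} {i : Fin n} (hh : un A R i) :
    un A R' i := by
  refine ⟨hh.1, ?_⟩
  cases hR : R' i with
  | none => rfl
  | some b =>
    have := h i b hR
    rw [hh.2] at this
    exact absurd this (by simp)

theorem ucount_anti {R' R : Sf n} (h : le R' R) (A : Cl n) : ucount A R ≤ ucount A R' := by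
  refine Finset.card_le_card ?_
  intro i hi
  rw [Finset.mem_filter] at hi ⊢
  exact ⟨hi.1, un_anti h hi.2⟩

theorem long_anti {R' R : Sf n} (h : le R' R) {A : Cl n} (hh : long κ A R) : long κ A R' :=
  ⟨fun h' => hh.1 (hit_mono h h'), lt_of_lt_of_le hh.2 (ucount_anti h A)⟩

theorem occ_anti {R' R : Sf n} (h : le R' R) (D : List (Rf n)) (i : Fin n) :
    occ κ D R i ≤ occ κ D R' i := by
  refine List.countP_mono_left ?_
  intro A _ hA
  simp only [Bool.and_eq_true, decide_eq_true_eq] at hA ⊢
  exact ⟨⟨hA.1.1, long_anti h hA.1.2⟩, un_anti h hA.2⟩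

theorem nn_update {R : Sf n} {i : Fin n} (hi : R i = none) (c : Bool) :
    nn (Function.update R i (some c)) + 1 = nn R := by
  unfold nn
  have : (Finset.univ.filter fun j => R j = none) =
      insert i (Finset.univ.filter fun j => Function.update R i (some c) j = none) := by
    ext j
    simp only [Finset.mem_filter, Finset.mem_univ, true_and, Finset.mem_insert]
    by_cases hj : j = i
    · subst hj; simp [hi]
    · simp [hj]
  rw [this, Finset.card_insert_of_notMem]
  simp

theorem ucount_update {R : Sf n} {i : Fin n} {A : Cl n} (hi : un A R i) (c : Bool) :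
    ucount A (Function.update R i (some c)) + 1 = ucount A R := by
  unfold ucount
  have : (Finset.univ.filter fun j => un A R j) =
      insert i (Finset.univ.filter fun j => un A (Function.update R i (some c)) j) := by
    ext j
    simp only [Finset.mem_filter, Finset.mem_univ, true_and, Finset.mem_insert]
    by_cases hj : j = i
    · subst hj; simp [hi]
    · simp [hj, un]
  rw [this, Finset.card_insert_of_notMem]
  simp [un]

theorem viol_update {R : Sf n} {i : Fin n} (hi : R i = none) (A : Cl n) :
    viol A (Function.update R i (some false)) ↔ viol A R := by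
  have key : ∀ j, Function.update R i (some false) j = some true ↔ R j = some true := by
    intro j
    by_cases hj : j = i
    · subst hj; simp [hi]
    · rw [Function.update_of_ne hj]
  unfold viol hit neg
  simp only [key]

theorem fv_update {R : Sf n} {i : Fin n} (hi : R i = none) (D : List (Rf n)) :
    fv D (Function.update R i (some false)) = fv D R := by
  unfold fv
  congr 1
  funext A
  rw [decide_eq_decide]
  exact viol_update hi A.1

theorem hit_update {R : Sf n} {i : Fin n} {A : Cl n} (h : (A i).1 = true) :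
    hit A (Function.update R i (some true)) := ⟨i, h, by simp⟩

/-- Number of wide representatives which are not yet satisfied. -/
def wc (κ : ℕ) (D : List (Rf n)) (R' R : Sf n) : ℕ :=
  D.countP fun A => A.2 && decide (long κ A.1 R') && !decide (hit A.1 R)

theorem wc_anti {R' R R'' : Sf n} (h : le R R'') (D : List (Rf n)) :
    wc κ D R' R'' ≤ wc κ D R' R := by
  refine List.countP_mono_left ?_
  intro A _ hA
  simp only [Bool.and_eq_true, Bool.not_eq_true', decide_eq_true_eq,
    decide_eq_false_iff_not] at hA ⊢
  exact ⟨hA.1, fun h' => hA.2 (hit_mono h h')⟩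

theorem countP_lt {α : Type} {p q : α → Bool} {l : List α} (h : ∀ a ∈ l, p a = true → q a = true)
    {a : α} (ha : a ∈ l) (h1 : p a = false) (h2 : q a = true) : l.countP p < l.countP q := by
  induction l with
  | nil => simp at ha
  | cons b l ih =>
    rw [List.countP_cons, List.countP_cons]
    have hmono : l.countP p ≤ l.countP q :=
      List.countP_mono_left fun x hx => h x (by simp [hx])
    rw [List.mem_cons] at ha
    rcases ha with rfl | ha
    · rw [h1, h2]
      simp
      omega
    · have := ih (fun x hx => h x (by simp [hx])) ha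
      by_cases hb : p b = true
      · rw [if_pos hb, if_pos (h b (by simp) hb)]
        omega
      · rw [if_neg hb]
        split_ifs <;> omega

/-- Every row has a representative with the same positive part. -/
def Repr (D : List (Rf n)) : Prop :=
  ∀ A ∈ D, ∃ A' ∈ D, A'.2 = true ∧ ∀ i, (A'.1 i).1 = (A.1 i).1

theorem hit_congr {A A' : Cl n} (h : ∀ i, (A' i).1 = (A i).1) (R : Sf n) :
    hit A' R ↔ hit A R := by
  unfold hit
  simp only [h]

theorem ucount_congr {A A' : Cl n} (h : ∀ i, (A' i).1 = (A i).1) (R : Sf n) :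
    ucount A' R = ucount A R := by
  unfold ucount un
  simp only [h]

theorem wc_lt {D : List (Rf n)} (hD : Repr D) {R' R : Sf n} {A : Rf n} (hA : A ∈ D)
    (hlong : long κ A.1 R') (hv : ¬ hit A.1 R) {i : Fin n} (hi : un A.1 R i) :
    wc κ D R' (Function.update R i (some true)) < wc κ D R' R := by
  obtain ⟨A', hA', hb, hs⟩ := hD A hA
  refine countP_lt ?_ hA' ?_ ?_
  · intro B _ hB
    simp only [Bool.and_eq_true, Bool.not_eq_true', decide_eq_true_eq,
      decide_eq_false_iff_not] at hB ⊢
    exact ⟨hB.1, fun h' => hB.2 (hit_mono (le_update (le_refl' R) hi.2 true) h')⟩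
  · have : hit A'.1 (Function.update R i (some true)) := hit_update (by rw [hs]; exact hi.1)
    simp [this]
  · have h1 : long κ A'.1 R' := by
      rw [long, hit_congr hs, ucount_congr hs]; exact hlong
    have h2 : ¬ hit A'.1 R := by rw [hit_congr hs]; exact hv
    simp [hb, h1, h2]

theorem wc_pos {D : List (Rf n)} (hD : Repr D) {R' R : Sf n} {A : Rf n} (hA : A ∈ D)
    (hlong : long κ A.1 R') (hv : ¬ hit A.1 R) : 1 ≤ wc κ D R' R := by
  obtain ⟨A', hA', hb, hs⟩ := hD A hA
  rw [Nat.one_le_iff_ne_zero, wc, ← Nat.pos_iff_ne_zero, List.countP_pos_iff]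
  refine ⟨A', hA', ?_⟩
  have h1 : long κ A'.1 R' := by
    rw [long, hit_congr hs, ucount_congr hs]; exact hlong
  have h2 : ¬ hit A'.1 R := by rw [hit_congr hs]; exact hv
  simp [hb, h1, h2]

/-! ### The second rule -/

/-- The constants of the second rule. -/
structure Cst (κ : ℕ) where
  A : ℝ
  B : ℝ
  h : ℕ → ℝ
  hA : 1 ≤ A
  hB : 1 ≤ B
  h0 : h 0 = 0
  hs : ∀ p, A * h (p + 1) = 1 + h p
  hnn : ∀ p, 0 ≤ h p
  h1 : ∀ p ≤ κ, h p ≤ 1
  h2 : ∀ p, h p ≤ B

/-- The bound of the second rule. -/
noncomputable def Cst.G (C : Cst κ) (m w : ℕ) : ℝ := (2 * m + 1) * C.A ^ m * C.B ^ w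

theorem Cst.G_mono (C : Cst κ) {m w w' : ℕ} (h : w ≤ w') : C.G m w ≤ C.G m w' := by
  unfold Cst.G
  have hA := C.hA
  exact mul_le_mul_of_nonneg_left (pow_le_pow_right₀ C.hB h) (by positivity)

theorem Cst.one_le_G (C : Cst κ) (m w : ℕ) : 1 ≤ C.G m w := by
  unfold Cst.G
  have h1 : (1 : ℝ) ≤ C.A ^ m := one_le_pow₀ C.hA
  have h2 : (1 : ℝ) ≤ C.B ^ w := one_le_pow₀ C.hB
  have h3 : (1 : ℝ) ≤ 2 * m + 1 := by
    have : (0 : ℝ) ≤ m := Nat.cast_nonneg m
    linarith
  calc (1 : ℝ) = 1 * 1 * 1 := by norm_num
    _ ≤ (2 * m + 1) * C.A ^ m * C.B ^ w := by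
      gcongr

theorem phaseB (C : Cst κ) {D : List (Rf n)} (hD : Repr D) {R' : Sf n}
    (hδ : ∀ i, occ κ D R' i < δ) :
    ∀ (m : ℕ) (R : Sf n) (_hle : le R' R) (_hm : nn R = m),
      ∃ b N, SV κ δ D R b N ∧ (N : ℝ) ≤ C.G m (wc κ D R' R) ∧
      ∀ A, fv D R = some A →
        (N : ℝ) ≤ C.G m (wc κ D R' R - if long κ A.1 R' then 1 else 0) * C.h (ucount A.1 R) +
          if ucount A.1 R = 0 then 1 else 0 := by
  intro m
  induction m with
  | zero =>
    intro R hle hm
    have hA : ¬ ∃ i, δ ≤ occ κ D R i := by
      rintro ⟨i, hi⟩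
      have := hδ i
      have := occ_anti (κ := κ) hle D i
      omega
    have hun : ∀ A : Cl n, ucount A R = 0 := by
      intro A
      rw [ucount, Finset.card_eq_zero, Finset.filter_eq_empty_iff]
      intro i _ hi
      rw [nn, Finset.card_eq_zero, Finset.filter_eq_empty_iff] at hm
      exact hm (Finset.mem_univ i) hi.2
    have hM : ¬ ∃ A, fv D R = some A ∧ ∃ i, un A.1 R i := by
      rintro ⟨A, -, i, hi⟩
      rw [nn, Finset.card_eq_zero, Finset.filter_eq_empty_iff] at hm
      exact hm (Finset.mem_univ i) hi.2
    refine ⟨_, 1, SV_stop hA hM, ?_, ?_⟩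
    · rw [Nat.cast_one]; exact C.one_le_G _ _
    · intro A _
      rw [hun, C.h0, if_pos rfl]
      simp
  | succ m ih =>
    intro R hle hm
    have hA : ¬ ∃ i, δ ≤ occ κ D R i := by
      rintro ⟨i, hi⟩
      have := hδ i
      have := occ_anti (κ := κ) hle D i
      omega
    by_cases hM : ∃ A, fv D R = some A ∧ ∃ i, un A.1 R i
    swap
    · refine ⟨_, 1, SV_stop hA hM, ?_, ?_⟩
      · rw [Nat.cast_one]; exact C.one_le_G _ _
      · intro A hf
        have hu : ucount A.1 R = 0 := by
          rw [ucount, Finset.card_eq_zero, Finset.filter_eq_empty_iff]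
          intro i _ hi
          exact hM ⟨A, hf, i, hi⟩
        rw [hu, C.h0, if_pos rfl]
        simp
    · have hbr : (hasA (endW κ δ (D.map toRow) (List.ofFn R)).1 ||
          hasM (endW κ δ (D.map toRow) (List.ofFn R)).1) = true := by
        rw [hasA_iff, hasM_iff, decide_eq_true hM, Bool.or_true]
      obtain ⟨i, hi, hk⟩ := kid_spec D R hbr
      rw [if_neg hA] at hi
      obtain ⟨A, hf, hun⟩ := hi
      obtain ⟨hAD, hv⟩ := fv_some hf
      have hi0 : R i = none := hun.2
      have hn0 := nn_update hi0 false
      have hn1 := nn_update hi0 true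
      obtain ⟨b0, N0, s0, -, t0⟩ := ih (Function.update R i (some false))
        (le_update hle hi0 false) (by omega)
      obtain ⟨b1, N1, s1, t1, -⟩ := ih (Function.update R i (some true))
        (le_update hle hi0 true) (by omega)
      obtain ⟨b, N, hSV, hN⟩ := SV_branch hi0 hbr hk s0 s1
      have hp := ucount_update hun false
      obtain ⟨p, hpp⟩ : ∃ p, ucount A.1 R = p + 1 := ⟨_, hp.symm⟩
      have hp0 : ucount A.1 (Function.update R i (some false)) = p := by omega
      set w := wc κ D R' R with hw
      set e : ℕ := if long κ A.1 R' then 1 else 0 with he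
      have hw0 : wc κ D R' (Function.update R i (some false)) ≤ w :=
        wc_anti (le_update (le_refl' R) hi0 false) D
      have hw1 : wc κ D R' (Function.update R i (some true)) ≤ w - e := by
        rw [he]
        by_cases hl : long κ A.1 R'
        · rw [if_pos hl]
          have := wc_lt hD hAD hl hv.1 hun
          omega
        · rw [if_neg hl]
          exact wc_anti (le_update (le_refl' R) hi0 true) D
      have f0 := t0 A (by rw [fv_update hi0]; exact hf)
      rw [hp0] at f0
      have f0' : (N0 : ℝ) ≤ C.G m (w - e) * C.h p + 1 := by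
        refine f0.trans (add_le_add ?_ ?_)
        · exact mul_le_mul_of_nonneg_right (C.G_mono (by omega)) (C.hnn p)
        · split_ifs <;> norm_num
      have f1 : (N1 : ℝ) ≤ C.G m (w - e) := t1.trans (C.G_mono hw1)
      have hA1 := C.hA
      have hpow : (1 : ℝ) ≤ C.A ^ m := one_le_pow₀ C.hA
      have hpowB : (1 : ℝ) ≤ C.B ^ (w - e) := one_le_pow₀ C.hB
      have hs := C.hs p
      have hnn := C.hnn p
      have key : (N : ℝ) ≤ C.G (m + 1) (w - e) * C.h (p + 1) := by
        have hNr : (N : ℝ) ≤ N0 + N1 + 1 := by exact_mod_cast hN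
        have e1 : C.G (m + 1) (w - e) * C.h (p + 1) =
            (2 * m + 3) * (C.A ^ m * C.B ^ (w - e)) * (1 + C.h p) := by
          unfold Cst.G
          rw [← hs, pow_succ]
          push_cast
          ring
        have e2 : C.G m (w - e) * (1 + C.h p) =
            (2 * m + 1) * (C.A ^ m * C.B ^ (w - e)) * (1 + C.h p) := by
          unfold Cst.G
          ring
        have e3 : (1 : ℝ) ≤ C.A ^ m * C.B ^ (w - e) * (1 + C.h p) := by
          calc (1 : ℝ) = 1 * 1 * 1 := by norm_num
            _ ≤ C.A ^ m * C.B ^ (w - e) * (1 + C.h p) := by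
              gcongr
              linarith
        have e4 : C.G (m + 1) (w - e) * C.h (p + 1) = C.G m (w - e) * (1 + C.h p) +
            2 * (C.A ^ m * C.B ^ (w - e) * (1 + C.h p)) := by
          rw [e1, e2]; ring
        rw [e4]
        have e5 : C.G m (w - e) * (1 + C.h p) = C.G m (w - e) * C.h p + C.G m (w - e) := by ring
        rw [e5]
        linarith
      refine ⟨b, N, hSV, ?_, ?_⟩
      · refine key.trans ?_
        by_cases hl : long κ A.1 R'
        · have hw1' := wc_pos hD hAD hl hv.1
          have he1 : e = 1 := by rw [he, if_pos hl]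
          obtain ⟨w', hw'⟩ : ∃ w', w = w' + 1 := ⟨w - 1, by omega⟩
          have : C.G (m + 1) w = C.G (m + 1) (w - e) * C.B := by
            rw [he1, hw', Nat.add_sub_cancel]
            unfold Cst.G
            rw [pow_succ]
            ring
          rw [this]
          refine mul_le_mul_of_nonneg_left (C.h2 _) ?_
          exact zero_le_one.trans (C.one_le_G _ _)
        · have he0 : e = 0 := by rw [he, if_neg hl]
          have hle' : ucount A.1 R ≤ κ := by
            have h3 := ucount_anti hle A.1
            have h4 : ¬ hit A.1 R' := fun h' => hv.1 (hit_mono hle h')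
            rw [long, not_and] at hl
            have := hl h4
            omega
          rw [he0, Nat.sub_zero]
          have := mul_le_mul_of_nonneg_left (C.h1 (p + 1) (by omega))
            (zero_le_one.trans (C.one_le_G (m + 1) w))
          rw [mul_one] at this
          exact this
      · intro A' hf'
        rw [hf] at hf'
        obtain rfl := Option.some.inj hf'
        rw [hpp, if_neg (Nat.succ_ne_zero p), add_zero]
        exact key

end Pool.Agent.H1.MP
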