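import Pool.Agent.H1.SatProg

/-!
# The program
-/

namespace Pool.Agent.H1.Sat

open Op Prog

/-! ### Symbol functions -/

/-- Componentwise order of cells. -/
def leC (a b : Cell) : Bool := (!a.1 || b.1) && (!a.2 || b.2)

/-- Componentwise join of cells. -/
def orC (a b : Cell) : Cell := (a.1 || b.1, a.2 || b.2)

/-- The free cell. -/
abbrev botC : Cell := (false, false)

/-- The query cell. -/
def qC : Ctl → Cell → Cell
  | .p1 q, x => (!(x.2 || q), x.2 || q)
  | .ca, x => x
  | .cc, _ => botC
  | .cd, x => x

/-- The check at one coordinate. -/
def chk (w : WC) : Bool :=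
  match w.c with
  | .p1 _ => !w.q.2 || w.acc.2
  | .ca => !w.q.2 || w.acc.2
  | .cc => true
  | .cd => true

def isCell : Option Sym → Bool
  | some (.cell _) => true
  | _ => false

def isBit : Option Sym → Bool
  | some (.bit _) => true
  | _ => false

def isCtl : Option Sym → Bool
  | some (.ctl _) => true
  | _ => false

def isSep : Option Sym → Bool
  | some .sep => true
  | _ => false

def isSome : Option Sym → Bool
  | some _ => true
  | none => false

def bitOf : Option Sym → Bool
  | some (.bit b) => b
  | _ => false

def cellOf : Option Sym → Cell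
  | some (.cell x) => x
  | _ => botC

def ctlOf : Option Sym → Ctl
  | some (.ctl x) => x
  | _ => .ca

def wcOf : Option Sym → WC
  | some (.wc w) => w
  | _ => ⟨botC, botC, botC, botC, .ca⟩

/-- The symbol itself, with a default. -/
def sy (o : Option Sym) : Sym := o.getD .sep

/-- From input symbols to stack symbols. -/
def conv : Option Cell → Sym
  | none => .sep
  | some c => .cell c

/-! ### Abbreviations for operations -/

/-- Read an input symbol into `x`. -/
abbrev pin : Op := .pop .inp fun r o => { r with x := o.map conv }

/-- Pop into `x`. -/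
abbrev px (k : KS) : Op := .pop (.s k) fun r o => { r with x := o }

/-- Pop into `y`. -/
abbrev py (k : KS) : Op := .pop (.s k) fun r o => { r with y := o }

/-- Pop into `z`. -/
abbrev pz (k : KS) : Op := .pop (.s k) fun r o => { r with z := o }

/-- Push on a work stack. -/
abbrev pu (k : KS) (f : Reg → Sym) : Op := .push (.s k) f

/-- Sequence of programs. -/
def seqs : List Prog → Prog
  | [] => .blk []
  | [p] => p
  | p :: q :: l => .seq p (seqs (q :: l))

/-- Move everything from `a` to `b`. -/
def moveAll (a b : KS) : Prog :=
  .seq (.blk [px a]) (.loop (fun r => isSome r.x) (.blk [pu b fun r => sy r.x, px a]))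

/-! ### Preparation -/

/-- Read the blank row. -/
def pre1 : Prog :=
  .seq (.blk [pu .ta fun _ => .sep, .load fun r => { r with g := true }, pin])
    (.loop (fun r => isCell r.x)
      (.blk [pu .wb fun r => .ctl (if r.g then .cc else .cd), pu .ta fun _ => .bit false,
        pu .va fun _ => .cell botC, pu .mb fun _ => .ctl (.p1 false),
        .load fun r => { r with g := false }, pin]))

/-- Read the rest of the input. -/
def pre2 : Prog :=
  .loop (fun r => isSome r.x) (.blk [pu .mb fun r => sy r.x, pin])

/-- Finish the initial record. -/
def pre3 : Prog := .seq (.blk [pu .ta fun _ => .bit true]) (moveAll .va .ta)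

/-- Shift of the distinguished symbol. -/
def shiftS (f : Bool) (x : Option Sym) : Sym :=
  match x with
  | some (.ctl .cc) => .ctl .ca
  | some (.ctl .cd) => if f then .ctl .cc else .ctl .cd
  | _ => sy x

/-- Is it the distinguished symbol. -/
def isCC : Option Sym → Bool
  | some (.ctl .cc) => true
  | _ => false

/-- Write the control words of the second phase. -/
def pre4 : Prog :=
  seqs [.blk [.load fun r => { r with g := !r.g }],
    .loop (fun r => r.g) (seqs [
      .blk [pu .xs fun _ => .sep, px .wb],
      .loop (fun r => isSome r.x) (.blk [pu .xs fun r => sy r.x, pu .wa fun r => sy r.x, px .wb]),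
      .blk [pu .xs fun _ => .hdr true true, .load fun r => { r with f := false }, px .wa],
      .loop (fun r => isSome r.x) (.blk [pu .wb fun r => shiftS r.f r.x,
        .load fun r => { r with f := isCC r.x }, px .wa]),
      .blk [.load fun r => { r with g := !r.f }]]),
    .blk [px .wb],
    .loop (fun r => isSome r.x) (.blk [px .wb])]

/-- Write the matrix and the control words of the first phase. -/
def pre5 : Prog :=
  seqs [.blk [pu .ma fun _ => .sep, pu .xs fun _ => .sep, px .mb],
    .loop (fun r => isCell r.x || isSep r.x)
      (.seq (.ite (fun r => isCell r.x)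
        (.blk [pu .ma fun r => sy r.x, pu .xs fun r => .ctl (.p1 (cellOf r.x).2)])
        (.blk [pu .ma fun _ => .sep, pu .xs fun _ => .hdr false true, pu .xs fun _ => .sep]))
        (.blk [px .mb])),
    .loop (fun r => isSome r.x) (.blk [pu .xs fun r => sy r.x, px .mb]),
    .blk [pu .xs fun _ => .hdr false false, px .ma]]

/-! ### Emission -/

/-- Work cells back from `wb` to `wa`, with commitment depending on `f`. -/
def commit (f : Bool) (w : WC) : WC :=
  if f then { w with acc := w.t, t := botC } else { w with t := botC }

def back : Prog :=
  .seq (.blk [pz .wb]) (.loop (fun r => isSome r.z)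
    (.blk [pu .wa fun r => .wc (commit r.f (wcOf r.z)), pz .wb]))

/-- One row against the work word. -/
def rowPass : Prog :=
  seqs [.blk [.load fun r => { r with f := true }],
    .loop (fun r => isCell r.x)
      (.blk [pz .wa, pu .mb fun r => sy r.x,
        pu .wb fun r => .wc { wcOf r.z with t := orC (wcOf r.z).acc (cellOf r.x) },
        .load fun r => { r with f := r.f && leC (cellOf r.x) (wcOf r.z).q }, px .ma]),
    .blk [pu .mb fun _ => .sep],
    back]

/-- All rows. -/
def rows : Prog :=
  seqs [.blk [px .ma],
    .loop (fun r => isSome r.x) (.seq rowPass (.blk [px .ma])),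
    moveAll .mb .ma]

/-- Load a record. -/
def loadRec : Prog :=
  seqs [.blk [.load fun r => { r with g := false, h := false, cy := true }],
    .loop (fun r => isCell r.x)
      (.blk [pz .xs,
        pu .wb fun r => .wc ⟨cellOf r.x, qC (ctlOf r.z) (cellOf r.x), botC, botC, ctlOf r.z⟩,
        .load fun r => { r with g := r.g || (isCC r.z && (cellOf r.x).2) }, px .ta]),
    .loop (fun r => isBit r.x)
      (.blk [pu .va fun r => .pb (bitOf r.x) (if r.g then Bool.xor (!bitOf r.x) r.cy else bitOf r.x)
          false,
        .load fun r => { r with h := r.h || bitOf r.x, cy := !bitOf r.x && r.cy }, px .ta])]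

def pbOf : Option Sym → Bool × Bool × Bool
  | some (.pb x y s) => (x, y, s)
  | _ => (false, false, false)

def pcOf : Option Sym → Cell × Cell
  | some (.pc x y) => (x, y)
  | _ => (botC, botC)

/-- Check and emit. -/
def emit : Prog :=
  seqs [.blk [.load fun r => { r with f := true }, pz .wa],
    .loop (fun r => isSome r.z)
      (.blk [pu .wb fun r => sy r.z, .load fun r => { r with f := r.f && chk (wcOf r.z) }, pz .wa]),
    .blk [pu .tb fun _ => .sep, pu .tc fun _ => .sep, pz .va],
    .loop (fun r => isSome r.z)
      (.blk [pu .tb fun r => .bit ((pbOf r.z).1 && r.kp), pu .tc fun r => .bit ((pbOf r.z).2.1 && r.f),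
        pz .va]),
    .blk [pz .wb],
    .loop (fun r => isSome r.z)
      (.blk [pu .tb fun r => .cell (wcOf r.z).r, pu .tc fun r => .cell (wcOf r.z).acc,
        pu .xs fun r => .ctl (wcOf r.z).c, pz .wb])]

/-- Drop a record of value zero. -/
def dropRec : Prog :=
  seqs [.blk [pz .va],
    .loop (fun r => isSome r.z) (.blk [pz .va]),
    .blk [pz .wb],
    .loop (fun r => isSome r.z) (.blk [pu .xs fun r => .ctl (wcOf r.z).c, pz .wb])]

/-- Treat one record. -/
def emitRec : Prog :=
  .seq loadRec (.ite (fun r => r.h)
    (seqs [.blk [.load fun r => { r with f := false }], back, rows, emit]) dropRec)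

/-- The emission stage. -/
def stageE : Prog :=
  seqs [.blk [px .ta],
    .loop (fun r => isSome r.x) (.seq emitRec (.blk [px .ta])),
    moveAll .tc .va, moveAll .va .tb]

/-! ### Sorting -/

/-- Move a record to the bucket `b`, rotating the key. -/
def mv (b : KS) : Prog :=
  seqs [.blk [.load fun r => { r with y := r.x }, px .tb],
    .loop (fun r => isCell r.x) (.blk [pu b fun r => sy r.x, px .tb]),
    .blk [pu b fun r => sy r.y],
    .loop (fun r => isBit r.x) (.blk [pu b fun r => sy r.x, px .tb]),
    .blk [pu b fun r => sy r.x]]

/-- One pass of the radix sort. -/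
def pass : Prog :=
  seqs [.blk [px .tb],
    .loop (fun r => isSome r.x)
      (.seq (.ite (fun r => cellOf r.x == (false, false)) (mv .wa)
        (.ite (fun r => cellOf r.x == (true, false)) (mv .wb)
          (.ite (fun r => cellOf r.x == (false, true)) (mv .va) (mv .tc))))
        (.blk [px .tb])),
    moveAll .tc .tb, moveAll .va .tb, moveAll .wb .tb, moveAll .wa .tb]

/-- The sorting stage. -/
def stageS : Prog :=
  .seq (.blk [px .xs]) (.loop (fun r => isCtl r.x) (.seq pass (.blk [px .xs])))

/-! ### Merging -/

/-- Combination of two bits. -/
def combS (md cy x y : Bool) : Bool := if md then Bool.xor (Bool.xor x y) cy else x || y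

/-- Carry. -/
def combC (md cy x y : Bool) : Bool := md && ((x && y) || (x && cy) || (y && cy))

/-- Pair symbol. -/
def pairS (r : Reg) : Sym :=
  match r.x with
  | some (.cell a) => .pc a (match r.y with | some (.cell b) => b | _ => a)
  | some (.bit a) => .pb a (bitOf r.y) (combS r.md r.cy a (bitOf r.y))
  | _ => .sep

/-- Update of the registers. -/
def pairR (r : Reg) : Reg :=
  match r.x with
  | some (.cell a) => { r with f := r.f && (a == (match r.y with | some (.cell b) => b | _ => a)) }
  | some (.bit a) => { r with cy := combC r.md r.cy a (bitOf r.y) }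
  | _ => r

/-- Symbol of the finished record. -/
def outT (f : Bool) (y : Option Sym) : Sym :=
  match y with
  | some (.pc _ b) => .cell b
  | some (.pb _ b _) => .bit (b && !f)
  | _ => .sep

/-- Symbol of the current record. -/
def outW (f : Bool) (y : Option Sym) : Sym :=
  match y with
  | some (.pc a _) => .cell a
  | some (.pb a _ s) => .bit (if f then s else a)
  | _ => .sep

/-- Treat one record of the merging stage. -/
def mergeRec : Prog :=
  seqs [.blk [.load fun r => { r with f := true, cy := false }, py .wa],
    .loop (fun r => isCell r.x || isBit r.x)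
      (.blk [pu .va pairS, .load pairR, px .tb, py .wa]),
    .blk [pu .ta fun _ => .sep, pu .wa fun _ => .sep, py .va],
    .loop (fun r => isSome r.y)
      (.blk [pu .ta fun r => outT r.f r.y, pu .wa fun r => outW r.f r.y, py .va])]

/-- The merging stage. -/
def stageM : Prog :=
  seqs [.blk [px .tb],
    .loop (fun r => isSome r.x) (.seq mergeRec (.blk [px .tb])),
    moveAll .wa .va, moveAll .va .ta]

/-! ### Main loop and output -/

/-- Read the mode. -/
def setMode (r : Reg) : Reg :=
  match r.x with
  | some (.hdr m k) => { r with md := m, kp := k }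
  | _ => r

/-- One round. -/
def round : Prog := seqs [.blk [.load setMode], stageE, stageS, stageM]

/-- The main loop. -/
def mainLoop : Prog :=
  .seq (.blk [px .xs]) (.loop (fun r => isSome r.x) (.seq round (.blk [px .xs])))

/-- Scan for blank rows: `f` says that the current row is blank so far, `h` that a blank row has
been found. -/
def scan (r : Reg) : Reg :=
  match r.x with
  | some (.cell c) => { r with f := r.f && (c == botC) }
  | _ => { r with h := r.h || r.f, f := true }

/-- Treat one record of the final table. -/
def finRec : Prog :=
  seqs [.blk [.load fun r => { r with f := !r.h }],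
    .loop (fun r => isCell r.x) (.blk [.load fun r => { r with f := r.f && (cellOf r.x == botC) },
      px .ta]),
    .loop (fun r => isBit r.x) (.blk [py .wa, pu .va fun r => .bit ((bitOf r.x && r.f) || bitOf r.y),
      px .ta]),
    .blk [py .va],
    .loop (fun r => isSome r.y) (.blk [pu .wa fun r => sy r.y, py .va])]

/-- Read off the result. -/
def fin : Prog :=
  seqs [.blk [.load fun r => { r with f := true, h := false }, px .ma],
    .loop (fun r => isSome r.x) (.blk [.load scan, px .ma]),
    .blk [px .ta],
    .loop (fun r => isSome r.x) (.seq finRec (.blk [px .ta])),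
    .blk [.load fun r => { r with f := false }, px .wa],
    .loop (fun r => isSome r.x) (.blk [pu .va fun r => sy r.x,
      .load fun r => { r with f := r.f || bitOf r.x }, px .wa]),
    .blk [px .va],
    .loop (fun r => isSome r.x) (.blk [.push .out fun r => bitOf r.x, px .va]),
    .blk [.push .out fun r => r.f, .load fun _ => reg0]]

/-- The whole program. -/
def satProg : Prog := seqs [pre1, pre2, pre3, pre4, pre5, mainLoop, fin]

end Pool.Agent.H1.Sat
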