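import Pool.Agent.H1.SatCode

/-!
# Execution of the loops
-/

namespace Pool.Agent.H1.Sat

open Op Prog

theorem moveAll_loop (a b : KS) (hab : a ≠ b) : ∀ (L : List Sym) (r : Reg) (s : St),
    r.x = L.head? → s.gs a = L.tail →
    Runs (.loop (fun r => isSome r.x) (.blk [pu b fun r => sy r.x, px a])) (r, s)
      ({ r with x := none }, (s.ss a []).ss b (L.reverse ++ s.gs b)) (2 * L.length + 1) := by
  intro L
  induction L with
  | nil =>
    intro r s h1 h2
    have e1 : ({ r with x := none } : Reg) = r := by
      cases r; simp only [List.head?_nil] at h1; subst h1; rfl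
    have e2 : (s.ss a []).ss b (([] : List Sym).reverse ++ s.gs b) = s := by
      have : s.gs a = [] := h2
      have h3 : s.ss a [] = s := by rw [← this]; exact s.ss_gs a
      rw [h3]
      simp only [List.reverse_nil, List.nil_append]
      exact s.ss_gs b
    rw [e1, e2]
    refine (Runs.loop_false ?_).mono (by simp)
    simp [h1, isSome]
  | cons y L ih =>
    intro r s h1 h2
    have h1' : r.x = some y := h1
    have h2' : s.gs a = L := h2
    have hstep : runOps [pu b fun r => sy r.x, px a] (r, s) =
        ({ r with x := L.head? }, (s.ss b (y :: s.gs b)).ss a L.tail) := by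
      have e1 : (s.ss b (y :: s.gs b)).gs a = L := by rw [St.gs_ss_ne _ _ hab, h2']
      simp only [runOps, Op.run, St.get, St.set, h1', sy, Option.getD_some]
      rw [e1]
    have hr := ih { r with x := L.head? } ((s.ss b (y :: s.gs b)).ss a L.tail) rfl
      (St.gs_ss _ _ _)
    have := Runs.loop_true (c := fun r => isSome r.x) (s := (r, s)) (by simp [h1', isSome])
      (Runs.blk hstep) hr
    have e3 : ((((s.ss b (y :: s.gs b)).ss a L.tail).ss a []).ss b
        (L.reverse ++ ((s.ss b (y :: s.gs b)).ss a L.tail).gs b)) =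
        (s.ss a []).ss b ((y :: L).reverse ++ s.gs b) := by
      rw [St.gs_ss_ne _ _ hab.symm, St.gs_ss, St.ss_ss, St.ss_comm s _ _ hab, St.ss_ss]
      simp
    rw [e3] at this
    refine this.mono ?_
    simp only [List.length_cons]
    omega

theorem runs_moveAll (a b : KS) (hab : a ≠ b) (r : Reg) (s : St) :
    Runs (moveAll a b) (r, s)
      ({ r with x := none }, (s.ss a []).ss b ((s.gs a).reverse ++ s.gs b))
      (2 * (s.gs a).length + 2) := by
  have h1 : runOps [px a] (r, s) = ({ r with x := (s.gs a).head? }, s.ss a (s.gs a).tail) := rfl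
  have h2 := moveAll_loop a b hab (s.gs a) { r with x := (s.gs a).head? } (s.ss a (s.gs a).tail) rfl
    (St.gs_ss _ _ _)
  have h3 := Runs.seq (Runs.blk h1) h2
  rw [St.ss_ss, St.gs_ss_ne _ _ hab.symm] at h3
  exact h3.mono (by omega)

/-! ### Encodings -/

/-- Keys. -/
abbrev Key := List Cell

/-- Records: a key and a count. -/
abbrev Rec := Key × List Bool

def encRec (R : Rec) : List Sym := R.1.map Sym.cell ++ (R.2.map Sym.bit ++ [Sym.sep])

def encTab (T : List Rec) : List Sym := T.flatMap encRec

def encRow (A : Key) : List Sym := A.map Sym.cell ++ [Sym.sep]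

def encMat (M : List Key) : List Sym := M.flatMap encRow

theorem encTab_cons (R : Rec) (T : List Rec) : encTab (R :: T) = encRec R ++ encTab T := rfl

theorem encMat_cons (A : Key) (T : List Key) : encMat (A :: T) = encRow A ++ encMat T := rfl

/-! ### Loading a record -/

/-- The distinguished control symbol. -/
def ccB (c : Ctl) : Bool := isCC (some (.ctl c))

/-- Work word of a record. -/
def loadW (w : List Ctl) (k : Key) : List WC :=
  List.zipWith (fun c x => (⟨x, qC c x, botC, botC, c⟩ : WC)) w k

/-- Sign of a record. -/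
def negW : List Ctl → Key → Bool
  | c :: w, x :: k => (ccB c && x.2) || negW w k
  | _, _ => false

/-- Count of the second record. -/
def negBits (g : Bool) : Bool → List Bool → List Bool
  | _, [] => []
  | cy, b :: v => (if g then Bool.xor (!b) cy else b) :: negBits g (!b && cy) v

/-- Pair symbols of the two counts. -/
def pbs (g : Bool) : Bool → List Bool → List Sym
  | _, [] => []
  | cy, b :: v => .pb b (if g then Bool.xor (!b) cy else b) false :: pbs g (!b && cy) v

theorem load_cells : ∀ (k : Key) (w : List Ctl) (_hw : w.length = k.length) (rest : List Sym)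
    (_hrest : isCell rest.head? = false)
    (y z f g h cy md kp I O ma mb xs tb tc wa wb va),
    ∃ z', Runs (.loop (fun r => isCell r.x)
      (.blk [pz .xs,
        pu .wb fun r => .wc ⟨cellOf r.x, qC (ctlOf r.z) (cellOf r.x), botC, botC, ctlOf r.z⟩,
        .load fun r => { r with g := r.g || (isCC r.z && (cellOf r.x).2) }, px .ta]))
      (⟨(k.map Sym.cell ++ rest).head?, y, z, f, g, h, cy, md, kp⟩,
        ⟨I, O, ma, mb, w.map Sym.ctl ++ xs, (k.map Sym.cell ++ rest).tail, tb, tc, wa, wb, va⟩)
      (⟨rest.head?, y, z', f, g || negW w k, h, cy, md, kp⟩,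
        ⟨I, O, ma, mb, xs, rest.tail, tb, tc, wa,
          ((loadW w k).map Sym.wc).reverse ++ wb, va⟩)
      (2 * k.length + 1) := by
  intro k
  induction k with
  | nil =>
    intro w hw rest hrest y z f g h cy md kp I O ma mb xs tb tc wa wb va
    obtain rfl : w = [] := List.eq_nil_of_length_eq_zero hw
    refine ⟨z, ?_⟩
    have e : (g || negW [] []) = g := by cases g <;> rfl
    rw [e]
    exact (Runs.loop_false (by simpa using hrest)).mono (by simp)
  | cons a k ih =>
    intro w hw rest hrest y z f g h cy md kp I O ma mb xs tb tc wa wb va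
    obtain ⟨c, w, rfl⟩ : ∃ c w', w = c :: w' := by
      cases w with
      | nil => simp at hw
      | cons c w => exact ⟨c, w, rfl⟩
    have hw' : w.length = k.length := by simpa using hw
    obtain ⟨z', hz⟩ := ih w hw' rest hrest y (some (.ctl c)) f (g || (ccB c && a.2)) h cy md kp
      I O ma mb xs tb tc wa (.wc ⟨a, qC c a, botC, botC, c⟩ :: wb) va
    refine ⟨z', ?_⟩
    have := Runs.loop_true (c := fun r => isCell r.x) (b := 1) (s := (⟨((a :: k).map Sym.cell ++ rest).head?, y, z, f, g, h, cy, md, kp⟩,
        ⟨I, O, ma, mb, (c :: w).map Sym.ctl ++ xs, ((a :: k).map Sym.cell ++ rest).tail, tb, tc, wa, wb, va⟩)) rfl (Runs.blk rfl) hz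
    have e1 : (g || (ccB c && a.2) || negW w k) = (g || negW (c :: w) (a :: k)) := by
      simp only [negW, Bool.or_assoc]
    have e2 : ((loadW w k).map Sym.wc).reverse ++ (Sym.wc ⟨a, qC c a, botC, botC, c⟩ :: wb) =
        ((loadW (c :: w) (a :: k)).map Sym.wc).reverse ++ wb := by
      simp [loadW]
    rw [e1, e2] at this
    refine this.mono ?_
    simp only [List.length_cons]
    omega

theorem load_bits : ∀ (v : List Bool) (rest : List Sym) (_hrest : isBit rest.head? = false)
    (y z f g h cy md kp I O ma mb xs tb tc wa wb va),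
    ∃ cy', Runs (.loop (fun r => isBit r.x)
      (.blk [pu .va fun r => .pb (bitOf r.x) (if r.g then Bool.xor (!bitOf r.x) r.cy else bitOf r.x)
          false,
        .load fun r => { r with h := r.h || bitOf r.x, cy := !bitOf r.x && r.cy }, px .ta]))
      (⟨(v.map Sym.bit ++ rest).head?, y, z, f, g, h, cy, md, kp⟩,
        ⟨I, O, ma, mb, xs, (v.map Sym.bit ++ rest).tail, tb, tc, wa, wb, va⟩)
      (⟨rest.head?, y, z, f, g, h || v.any id, cy', md, kp⟩,
        ⟨I, O, ma, mb, xs, rest.tail, tb, tc, wa, wb, (pbs g cy v).reverse ++ va⟩)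
      (2 * v.length + 1) := by
  intro v
  induction v with
  | nil =>
    intro rest hrest y z f g h cy md kp I O ma mb xs tb tc wa wb va
    refine ⟨cy, ?_⟩
    have e : (h || ([] : List Bool).any id) = h := by simp
    rw [e]
    exact (Runs.loop_false (by simpa using hrest)).mono (by simp)
  | cons a v ih =>
    intro rest hrest y z f g h cy md kp I O ma mb xs tb tc wa wb va
    obtain ⟨cy', hz⟩ := ih rest hrest y z f g (h || a) (!a && cy) md kp
      I O ma mb xs tb tc wa wb (.pb a (if g then Bool.xor (!a) cy else a) false :: va)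
    refine ⟨cy', ?_⟩
    have := Runs.loop_true (c := fun r => isBit r.x) (b := 1)
      (s := (⟨((a :: v).map Sym.bit ++ rest).head?, y, z, f, g, h, cy, md, kp⟩,
        ⟨I, O, ma, mb, xs, ((a :: v).map Sym.bit ++ rest).tail, tb, tc, wa, wb, va⟩))
      rfl (Runs.blk rfl) hz
    have e1 : ((h || a) || v.any id) = (h || (a :: v).any id) := by
      simp [Bool.or_assoc]
    have e2 : (pbs g (!a && cy) v).reverse ++
        (Sym.pb a (if g then Bool.xor (!a) cy else a) false :: va) =
        (pbs g cy (a :: v)).reverse ++ va := by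
      simp [pbs]
    rw [e1, e2] at this
    refine this.mono ?_
    simp only [List.length_cons]
    omega

theorem isBit_cell_rest (v : List Bool) (rest : List Sym) :
    isCell (v.map Sym.bit ++ (Sym.sep :: rest)).head? = false := by
  cases v <;> rfl

theorem runs_loadRec (k : Key) (v : List Bool) (w : List Ctl) (hw : w.length = k.length)
    (rest : List Sym) (y z f g h cy md kp I O ma mb xs tb tc wa wb va) :
    ∃ z' cy', Runs loadRec
      (⟨(encRec (k, v) ++ rest).head?, y, z, f, g, h, cy, md, kp⟩,
        ⟨I, O, ma, mb, w.map Sym.ctl ++ xs, (encRec (k, v) ++ rest).tail, tb, tc, wa, wb, va⟩)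
      (⟨some .sep, y, z', f, negW w k, v.any id, cy', md, kp⟩,
        ⟨I, O, ma, mb, xs, rest, tb, tc, wa,
          ((loadW w k).map Sym.wc).reverse ++ wb, (pbs (negW w k) true v).reverse ++ va⟩)
      (2 * k.length + 2 * v.length + 3) := by
  obtain ⟨z', h1⟩ := load_cells k w hw (v.map Sym.bit ++ (Sym.sep :: rest)) (isBit_cell_rest v rest)
    y z f false false true md kp I O ma mb xs tb tc wa wb va
  obtain ⟨cy', h2⟩ := load_bits v (Sym.sep :: rest) rfl y z' f (false || negW w k) false true md kp
    I O ma mb xs tb tc wa (((loadW w k).map Sym.wc).reverse ++ wb) va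
  refine ⟨z', cy', ?_⟩
  have e : encRec (k, v) ++ rest = k.map Sym.cell ++ (v.map Sym.bit ++ (Sym.sep :: rest)) := by
    simp [encRec]
  rw [e]
  have h0 : Runs (.blk [.load fun r => { r with g := false, h := false, cy := true }])
      (⟨(k.map Sym.cell ++ (v.map Sym.bit ++ (Sym.sep :: rest))).head?, y, z, f, g, h, cy, md, kp⟩,
        ⟨I, O, ma, mb, w.map Sym.ctl ++ xs,
          (k.map Sym.cell ++ (v.map Sym.bit ++ (Sym.sep :: rest))).tail, tb, tc, wa, wb, va⟩)
      (⟨(k.map Sym.cell ++ (v.map Sym.bit ++ (Sym.sep :: rest))).head?, y, z, f, false, false, true,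
        md, kp⟩,
        ⟨I, O, ma, mb, w.map Sym.ctl ++ xs,
          (k.map Sym.cell ++ (v.map Sym.bit ++ (Sym.sep :: rest))).tail, tb, tc, wa, wb, va⟩)
      1 := Runs.blk rfl
  have := h0.seq (h1.seq h2)
  simp only [Bool.false_or] at this
  exact this.mono (by omega)

/-! ### Moving back -/

theorem back_loop : ∀ (ws : List WC) (x y f g h cy md kp I O ma mb xs ta tb tc wa va),
    Runs (.loop (fun r => isSome r.z)
      (.blk [pu .wa fun r => .wc (commit r.f (wcOf r.z)), pz .wb]))
      (⟨x, y, (ws.map Sym.wc).head?, f, g, h, cy, md, kp⟩,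
        ⟨I, O, ma, mb, xs, ta, tb, tc, wa, (ws.map Sym.wc).tail, va⟩)
      (⟨x, y, none, f, g, h, cy, md, kp⟩,
        ⟨I, O, ma, mb, xs, ta, tb, tc, ((ws.map (commit f)).map Sym.wc).reverse ++ wa, [], va⟩)
      (2 * ws.length + 1) := by
  intro ws
  induction ws with
  | nil =>
    intro x y f g h cy md kp I O ma mb xs ta tb tc wa va
    exact (Runs.loop_false rfl).mono (by simp)
  | cons a ws ih =>
    intro x y f g h cy md kp I O ma mb xs ta tb tc wa va
    have := Runs.loop_true (c := fun r => isSome r.z) (b := 1)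
      (s := (⟨x, y, ((a :: ws).map Sym.wc).head?, f, g, h, cy, md, kp⟩,
        ⟨I, O, ma, mb, xs, ta, tb, tc, wa, ((a :: ws).map Sym.wc).tail, va⟩))
      rfl (Runs.blk rfl) (ih x y f g h cy md kp I O ma mb xs ta tb tc (.wc (commit f a) :: wa) va)
    have e2 : ((ws.map (commit f)).map Sym.wc).reverse ++ (.wc (commit f a) :: wa) =
        (((a :: ws).map (commit f)).map Sym.wc).reverse ++ wa := by
      simp
    rw [e2] at this
    refine this.mono ?_
    simp only [List.length_cons]
    omega

theorem runs_back (ws : List WC) (x y z f g h cy md kp I O ma mb xs ta tb tc wa va) :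
    Runs back
      (⟨x, y, z, f, g, h, cy, md, kp⟩,
        ⟨I, O, ma, mb, xs, ta, tb, tc, wa, ws.map Sym.wc, va⟩)
      (⟨x, y, none, f, g, h, cy, md, kp⟩,
        ⟨I, O, ma, mb, xs, ta, tb, tc, ((ws.map (commit f)).map Sym.wc).reverse ++ wa, [], va⟩)
      (2 * ws.length + 2) := by
  have h1 := back_loop ws x y f g h cy md kp I O ma mb xs ta tb tc wa va
  have h0 : Runs (.blk [pz .wb])
      (⟨x, y, z, f, g, h, cy, md, kp⟩,
        ⟨I, O, ma, mb, xs, ta, tb, tc, wa, ws.map Sym.wc, va⟩)
      (⟨x, y, (ws.map Sym.wc).head?, f, g, h, cy, md, kp⟩,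
        ⟨I, O, ma, mb, xs, ta, tb, tc, wa, (ws.map Sym.wc).tail, va⟩) 1 := Runs.blk rfl
  exact (h0.seq h1).mono (by omega)

/-! ### Rows -/

/-- Tentative work word. -/
def tentW (W : List WC) (A : Key) : List WC :=
  List.zipWith (fun z a => { z with t := orC z.acc a }) W A

/-- Test of a row. -/
def leW : List WC → Key → Bool
  | z :: W, a :: A => leC a z.q && leW W A
  | _, _ => true

/-- Effect of a row. -/
def rowStep (W : List WC) (A : Key) : List WC := (tentW W A).map (commit (leW W A))

theorem row_cells : ∀ (A : Key) (W : List WC) (_hW : W.length = A.length) (rest : List Sym)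
    (_hrest : isCell rest.head? = false)
    (y z f g h cy md kp I O mb xs ta tb tc wb va),
    ∃ z', Runs (.loop (fun r => isCell r.x)
      (.blk [pz .wa, pu .mb fun r => sy r.x,
        pu .wb fun r => .wc { wcOf r.z with t := orC (wcOf r.z).acc (cellOf r.x) },
        .load fun r => { r with f := r.f && leC (cellOf r.x) (wcOf r.z).q }, px .ma]))
      (⟨(A.map Sym.cell ++ rest).head?, y, z, f, g, h, cy, md, kp⟩,
        ⟨I, O, (A.map Sym.cell ++ rest).tail, mb, xs, ta, tb, tc, W.map Sym.wc, wb, va⟩)
      (⟨rest.head?, y, z', f && leW W A, g, h, cy, md, kp⟩,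
        ⟨I, O, rest.tail, (A.map Sym.cell).reverse ++ mb, xs, ta, tb, tc, [],
          ((tentW W A).map Sym.wc).reverse ++ wb, va⟩)
      (2 * A.length + 1) := by
  intro A
  induction A with
  | nil =>
    intro W hW rest hrest y z f g h cy md kp I O mb xs ta tb tc wb va
    obtain rfl : W = [] := List.eq_nil_of_length_eq_zero hW
    refine ⟨z, ?_⟩
    have e : (f && leW [] []) = f := by cases f <;> rfl
    rw [e]
    exact (Runs.loop_false (by simpa using hrest)).mono (by simp)
  | cons a A ih =>
    intro W hW rest hrest y z f g h cy md kp I O mb xs ta tb tc wb va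
    obtain ⟨c, W, rfl⟩ : ∃ c W', W = c :: W' := by
      cases W with
      | nil => simp at hW
      | cons c W => exact ⟨c, W, rfl⟩
    have hW' : W.length = A.length := by simpa using hW
    obtain ⟨z', hz⟩ := ih W hW' rest hrest y (some (.wc c)) (f && leC a c.q) g h cy md kp
      I O (.cell a :: mb) xs ta tb tc (.wc { c with t := orC c.acc a } :: wb) va
    refine ⟨z', ?_⟩
    have := Runs.loop_true (c := fun r => isCell r.x) (b := 1)
      (s := (⟨((a :: A).map Sym.cell ++ rest).head?, y, z, f, g, h, cy, md, kp⟩,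
        ⟨I, O, ((a :: A).map Sym.cell ++ rest).tail, mb, xs, ta, tb, tc,
          (c :: W).map Sym.wc, wb, va⟩)) rfl (Runs.blk rfl) hz
    have e1 : ((f && leC a c.q) && leW W A) = (f && leW (c :: W) (a :: A)) := by
      simp only [leW, Bool.and_assoc]
    have e2 : ((tentW W A).map Sym.wc).reverse ++ (Sym.wc { c with t := orC c.acc a } :: wb) =
        ((tentW (c :: W) (a :: A)).map Sym.wc).reverse ++ wb := by
      simp [tentW]
    have e3 : (A.map Sym.cell).reverse ++ (.cell a :: mb) =
        ((a :: A).map Sym.cell).reverse ++ mb := by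
      simp
    rw [e1, e2, e3] at this
    refine this.mono ?_
    simp only [List.length_cons]
    omega

theorem tentW_length {W : List WC} {A : Key} (hW : W.length = A.length) :
    (tentW W A).length = A.length := by
  simp [tentW, hW]

theorem rowStep_length {W : List WC} {A : Key} (hW : W.length = A.length) :
    (rowStep W A).length = A.length := by
  simp [rowStep, tentW_length hW]

theorem runs_rowPass (A : Key) (W : List WC) (hW : W.length = A.length) (rest : List Sym)
    (y z f g h cy md kp I O mb xs ta tb tc va) :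
    ∃ f', Runs rowPass
      (⟨(encRow A ++ rest).head?, y, z, f, g, h, cy, md, kp⟩,
        ⟨I, O, (encRow A ++ rest).tail, mb, xs, ta, tb, tc, W.map Sym.wc, [], va⟩)
      (⟨some .sep, y, none, f', g, h, cy, md, kp⟩,
        ⟨I, O, rest, (encRow A).reverse ++ mb, xs, ta, tb, tc, (rowStep W A).map Sym.wc, [], va⟩)
      (4 * A.length + 5) := by
  obtain ⟨z', h1⟩ := row_cells A W hW (Sym.sep :: rest) rfl y z true g h cy md kp I O mb xs ta tb tc
    [] va
  refine ⟨leW W A, ?_⟩
  have e : encRow A ++ rest = A.map Sym.cell ++ (Sym.sep :: rest) := by simp [encRow]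
  rw [e]
  have h0 : Runs (.blk [.load fun r => { r with f := true }])
      (⟨(A.map Sym.cell ++ (Sym.sep :: rest)).head?, y, z, f, g, h, cy, md, kp⟩,
        ⟨I, O, (A.map Sym.cell ++ (Sym.sep :: rest)).tail, mb, xs, ta, tb, tc, W.map Sym.wc, [],
          va⟩)
      (⟨(A.map Sym.cell ++ (Sym.sep :: rest)).head?, y, z, true, g, h, cy, md, kp⟩,
        ⟨I, O, (A.map Sym.cell ++ (Sym.sep :: rest)).tail, mb, xs, ta, tb, tc, W.map Sym.wc, [],
          va⟩) 1 := Runs.blk rfl
  have h2 : Runs (.blk [pu .mb fun _ => .sep])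
      (⟨(Sym.sep :: rest).head?, y, z', true && leW W A, g, h, cy, md, kp⟩,
        ⟨I, O, (Sym.sep :: rest).tail, (A.map Sym.cell).reverse ++ mb, xs, ta, tb, tc, [],
          ((tentW W A).map Sym.wc).reverse ++ [], va⟩)
      (⟨some .sep, y, z', leW W A, g, h, cy, md, kp⟩,
        ⟨I, O, rest, (encRow A).reverse ++ mb, xs, ta, tb, tc, [],
          (tentW W A).reverse.map Sym.wc, va⟩) 1 := by
    apply Runs.blk
    simp [encRow]
    rfl
  have h3 := runs_back (tentW W A).reverse (some .sep) y z' (leW W A) g h cy md kp I O rest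
    ((encRow A).reverse ++ mb) xs ta tb tc [] va
  have e2 : (((tentW W A).reverse.map (commit (leW W A))).map Sym.wc).reverse ++ [] =
      (rowStep W A).map Sym.wc := by
    simp [rowStep]
  rw [e2] at h3
  have := h0.seq (h1.seq (h2.seq h3))
  refine this.mono ?_
  rw [List.length_reverse, tentW_length hW]
  omega

theorem encRow_head (A : Key) (rest : List Sym) : isSome (encRow A ++ rest).head? = true := by
  cases A <;> rfl

theorem rows_loop (n : ℕ) : ∀ (M : List Key) (_hM : ∀ A ∈ M, A.length = n) (W : List WC)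
    (_hW : W.length = n) (y z f g h cy md kp I O mb xs ta tb tc va),
    ∃ z' f', Runs (.loop (fun r => isSome r.x) (.seq rowPass (.blk [px .ma])))
      (⟨(encMat M).head?, y, z, f, g, h, cy, md, kp⟩,
        ⟨I, O, (encMat M).tail, mb, xs, ta, tb, tc, W.map Sym.wc, [], va⟩)
      (⟨none, y, z', f', g, h, cy, md, kp⟩,
        ⟨I, O, [], (encMat M).reverse ++ mb, xs, ta, tb, tc, (M.foldl rowStep W).map Sym.wc, [],
          va⟩)
      (M.length * (4 * n + 7) + 1) := by
  intro M
  induction M with
  | nil =>
    intro hM W hW y z f g h cy md kp I O mb xs ta tb tc va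
    exact ⟨z, f, (Runs.loop_false rfl).mono (by simp)⟩
  | cons A M ih =>
    intro hM W hW y z f g h cy md kp I O mb xs ta tb tc va
    have hA : A.length = n := hM A (by simp)
    obtain ⟨f1, h1⟩ := runs_rowPass A W (by omega) (encMat M) y z f g h cy md kp I O mb xs ta tb tc
      va
    have hl : (rowStep W A).length = n := by rw [rowStep_length (by omega)]; exact hA
    obtain ⟨z2, f2, h2⟩ := ih (fun B hB => hM B (by simp [hB])) (rowStep W A) hl y none f1 g h cy md
      kp I O ((encRow A).reverse ++ mb) xs ta tb tc va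
    refine ⟨z2, f2, ?_⟩
    have hb : Runs (.blk [px .ma])
        (⟨some .sep, y, none, f1, g, h, cy, md, kp⟩,
        ⟨I, O, encMat M, (encRow A).reverse ++ mb, xs, ta, tb, tc, (rowStep W A).map Sym.wc, [],
          va⟩)
        (⟨(encMat M).head?, y, none, f1, g, h, cy, md, kp⟩,
        ⟨I, O, (encMat M).tail, (encRow A).reverse ++ mb, xs, ta, tb, tc,
          (rowStep W A).map Sym.wc, [], va⟩) 1 := Runs.blk rfl
    have := Runs.loop_true (c := fun r => isSome r.x)
      (s := (⟨(encMat (A :: M)).head?, y, z, f, g, h, cy, md, kp⟩,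
        ⟨I, O, (encMat (A :: M)).tail, mb, xs, ta, tb, tc, W.map Sym.wc, [], va⟩))
      (encRow_head A (encMat M)) (h1.seq hb) h2
    have e : (encMat M).reverse ++ ((encRow A).reverse ++ mb) =
        (encMat (A :: M)).reverse ++ mb := by
      simp [encMat_cons]
    rw [e] at this
    refine this.mono ?_
    rw [List.length_cons, hA]
    ring_nf
    omega

theorem encMat_length (n : ℕ) (M : List Key) (hM : ∀ A ∈ M, A.length = n) :
    (encMat M).length = M.length * (n + 1) := by
  induction M with
  | nil => simp [encMat]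
  | cons A M ih =>
    have hA : A.length = n := hM A (by simp)
    rw [encMat_cons, List.length_append, ih (fun B hB => hM B (by simp [hB])), List.length_cons]
    simp only [encRow, List.length_append, List.length_map, hA, List.length_cons, List.length_nil]
    ring

theorem runs_rows (n : ℕ) (M : List Key) (hM : ∀ A ∈ M, A.length = n) (W : List WC)
    (hW : W.length = n) (x y z f g h cy md kp I O xs ta tb tc va) :
    ∃ z' f', Runs rows
      (⟨x, y, z, f, g, h, cy, md, kp⟩,
        ⟨I, O, encMat M, [], xs, ta, tb, tc, W.map Sym.wc, [], va⟩)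
      (⟨none, y, z', f', g, h, cy, md, kp⟩,
        ⟨I, O, encMat M, [], xs, ta, tb, tc, (M.foldl rowStep W).map Sym.wc, [], va⟩)
      (M.length * (6 * n + 9) + 4) := by
  obtain ⟨z1, f1, h1⟩ := rows_loop n M hM W hW y z f g h cy md kp I O [] xs ta tb tc va
  refine ⟨z1, f1, ?_⟩
  have h0 : Runs (.blk [px .ma])
      (⟨x, y, z, f, g, h, cy, md, kp⟩,
        ⟨I, O, encMat M, [], xs, ta, tb, tc, W.map Sym.wc, [], va⟩)
      (⟨(encMat M).head?, y, z, f, g, h, cy, md, kp⟩,
        ⟨I, O, (encMat M).tail, [], xs, ta, tb, tc, W.map Sym.wc, [], va⟩) 1 := Runs.blk rfl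
  have h2 := runs_moveAll .mb .ma (by decide) ⟨none, y, z1, f1, g, h, cy, md, kp⟩
    ⟨I, O, [], (encMat M).reverse ++ [], xs, ta, tb, tc, (M.foldl rowStep W).map Sym.wc, [], va⟩
  have := h0.seq (h1.seq h2)
  simp only [St.gs, St.ss, List.append_nil, List.reverse_reverse, List.length_reverse,
    encMat_length n M hM] at this
  refine this.mono ?_
  ring_nf
  omega

/-! ### Emission -/

theorem emit_chk : ∀ (W : List WC) (x y f g h cy md kp I O ma mb xs ta tb tc wb va),
    Runs (.loop (fun r => isSome r.z)
      (.blk [pu .wb fun r => sy r.z, .load fun r => { r with f := r.f && chk (wcOf r.z) }, pz .wa]))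
      (⟨x, y, (W.map Sym.wc).head?, f, g, h, cy, md, kp⟩,
        ⟨I, O, ma, mb, xs, ta, tb, tc, (W.map Sym.wc).tail, wb, va⟩)
      (⟨x, y, none, f && W.all chk, g, h, cy, md, kp⟩,
        ⟨I, O, ma, mb, xs, ta, tb, tc, [], (W.map Sym.wc).reverse ++ wb, va⟩)
      (2 * W.length + 1) := by
  intro W
  induction W with
  | nil =>
    intro x y f g h cy md kp I O ma mb xs ta tb tc wb va
    have e : (f && ([] : List WC).all chk) = f := by cases f <;> rfl
    rw [e]
    exact (Runs.loop_false rfl).mono (by simp)
  | cons a W ih =>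
    intro x y f g h cy md kp I O ma mb xs ta tb tc wb va
    have := Runs.loop_true (c := fun r => isSome r.z) (b := 1)
      (s := (⟨x, y, ((a :: W).map Sym.wc).head?, f, g, h, cy, md, kp⟩,
        ⟨I, O, ma, mb, xs, ta, tb, tc, ((a :: W).map Sym.wc).tail, wb, va⟩))
      rfl (Runs.blk rfl) (ih x y (f && chk a) g h cy md kp I O ma mb xs ta tb tc (.wc a :: wb) va)
    have e1 : ((f && chk a) && W.all chk) = (f && (a :: W).all chk) := by
      simp [Bool.and_assoc]
    have e2 : (W.map Sym.wc).reverse ++ (.wc a :: wb) = ((a :: W).map Sym.wc).reverse ++ wb := by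
      simp
    rw [e1, e2] at this
    refine this.mono ?_
    simp only [List.length_cons]
    omega

/-- Pair symbol of two bits. -/
def pbS (p : Bool × Bool) : Sym := .pb p.1 p.2 false

theorem emit_bits : ∀ (ps : List (Bool × Bool)) (x y f g h cy md kp I O ma mb xs ta tb tc wa wb),
    Runs (.loop (fun r => isSome r.z)
      (.blk [pu .tb fun r => .bit ((pbOf r.z).1 && r.kp), pu .tc fun r => .bit ((pbOf r.z).2.1 && r.f),
        pz .va]))
      (⟨x, y, (ps.map pbS).head?, f, g, h, cy, md, kp⟩,
        ⟨I, O, ma, mb, xs, ta, tb, tc, wa, wb, (ps.map pbS).tail⟩)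
      (⟨x, y, none, f, g, h, cy, md, kp⟩,
        ⟨I, O, ma, mb, xs, ta, (ps.map fun p => Sym.bit (p.1 && kp)).reverse ++ tb,
          (ps.map fun p => Sym.bit (p.2 && f)).reverse ++ tc, wa, wb, []⟩)
      (2 * ps.length + 1) := by
  intro ps
  induction ps with
  | nil =>
    intro x y f g h cy md kp I O ma mb xs ta tb tc wa wb
    exact (Runs.loop_false rfl).mono (by simp)
  | cons a ps ih =>
    intro x y f g h cy md kp I O ma mb xs ta tb tc wa wb
    have := Runs.loop_true (c := fun r => isSome r.z) (b := 1)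
      (s := (⟨x, y, ((a :: ps).map pbS).head?, f, g, h, cy, md, kp⟩,
        ⟨I, O, ma, mb, xs, ta, tb, tc, wa, wb, ((a :: ps).map pbS).tail⟩))
      rfl (Runs.blk rfl) (ih x y f g h cy md kp I O ma mb xs ta (.bit (a.1 && kp) :: tb)
        (.bit (a.2 && f) :: tc) wa wb)
    have e1 : (ps.map fun p => Sym.bit (p.1 && kp)).reverse ++ (.bit (a.1 && kp) :: tb) =
        ((a :: ps).map fun p => Sym.bit (p.1 && kp)).reverse ++ tb := by simp
    have e2 : (ps.map fun p => Sym.bit (p.2 && f)).reverse ++ (.bit (a.2 && f) :: tc) =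
        ((a :: ps).map fun p => Sym.bit (p.2 && f)).reverse ++ tc := by simp
    rw [e1, e2] at this
    refine this.mono ?_
    simp only [List.length_cons]
    omega

theorem emit_cells : ∀ (W : List WC) (x y f g h cy md kp I O ma mb xs ta tb tc wa va),
    Runs (.loop (fun r => isSome r.z)
      (.blk [pu .tb fun r => .cell (wcOf r.z).r, pu .tc fun r => .cell (wcOf r.z).acc,
        pu .xs fun r => .ctl (wcOf r.z).c, pz .wb]))
      (⟨x, y, (W.map Sym.wc).head?, f, g, h, cy, md, kp⟩,
        ⟨I, O, ma, mb, xs, ta, tb, tc, wa, (W.map Sym.wc).tail, va⟩)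
      (⟨x, y, none, f, g, h, cy, md, kp⟩,
        ⟨I, O, ma, mb, (W.map fun a => Sym.ctl a.c).reverse ++ xs, ta,
          (W.map fun a => Sym.cell a.r).reverse ++ tb,
          (W.map fun a => Sym.cell a.acc).reverse ++ tc, wa, [], va⟩)
      (2 * W.length + 1) := by
  intro W
  induction W with
  | nil =>
    intro x y f g h cy md kp I O ma mb xs ta tb tc wa va
    exact (Runs.loop_false rfl).mono (by simp)
  | cons a W ih =>
    intro x y f g h cy md kp I O ma mb xs ta tb tc wa va
    have := Runs.loop_true (c := fun r => isSome r.z) (b := 1)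
      (s := (⟨x, y, ((a :: W).map Sym.wc).head?, f, g, h, cy, md, kp⟩,
        ⟨I, O, ma, mb, xs, ta, tb, tc, wa, ((a :: W).map Sym.wc).tail, va⟩))
      rfl (Runs.blk rfl) (ih x y f g h cy md kp I O ma mb (.ctl a.c :: xs) ta (.cell a.r :: tb)
        (.cell a.acc :: tc) wa va)
    have e1 : (W.map fun a => Sym.ctl a.c).reverse ++ (.ctl a.c :: xs) =
        ((a :: W).map fun a => Sym.ctl a.c).reverse ++ xs := by simp
    have e2 : (W.map fun a => Sym.cell a.r).reverse ++ (.cell a.r :: tb) =
        ((a :: W).map fun a => Sym.cell a.r).reverse ++ tb := by simp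
    have e3 : (W.map fun a => Sym.cell a.acc).reverse ++ (.cell a.acc :: tc) =
        ((a :: W).map fun a => Sym.cell a.acc).reverse ++ tc := by simp
    rw [e1, e2, e3] at this
    refine this.mono ?_
    simp only [List.length_cons]
    omega

theorem pbs_eq (g cy : Bool) (v : List Bool) :
    pbs g cy v = (v.zip (negBits g cy v)).map pbS := by
  induction v generalizing cy with
  | nil => rfl
  | cons b v ih => simp [pbs, negBits, pbS, ih]

theorem negBits_length (g cy : Bool) (v : List Bool) : (negBits g cy v).length = v.length := by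
  induction v generalizing cy with
  | nil => rfl
  | cons b v ih => simp [negBits, ih]

theorem zip_map_fst (g cy kp : Bool) (v : List Bool) :
    ((v.zip (negBits g cy v)).map fun p => Sym.bit (p.1 && kp)) =
      (v.map (· && kp)).map Sym.bit := by
  induction v generalizing cy with
  | nil => rfl
  | cons b v ih => simpa [negBits] using ih (!b && cy)

theorem zip_map_snd (g cy f : Bool) (v : List Bool) :
    ((v.zip (negBits g cy v)).map fun p => Sym.bit (p.2 && f)) =
      ((negBits g cy v).map (· && f)).map Sym.bit := by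
  induction v generalizing cy with
  | nil => rfl
  | cons b v ih => simpa [negBits] using ih (!b && cy)

theorem runs_emit (W : List WC) (v : List Bool) (g0 : Bool)
    (x y z f g h cy md kp I O ma mb xs ta tb tc) :
    ∃ f', Runs emit
      (⟨x, y, z, f, g, h, cy, md, kp⟩,
        ⟨I, O, ma, mb, xs, ta, tb, tc, W.map Sym.wc, [], (pbs g0 true v).reverse⟩)
      (⟨x, y, none, f', g, h, cy, md, kp⟩,
        ⟨I, O, ma, mb, (W.map WC.c).map Sym.ctl ++ xs, ta,
          encRec (W.map WC.r, v.map (· && kp)) ++ tb,
          encRec (W.map WC.acc, (negBits g0 true v).map (· && W.all chk)) ++ tc, [], [], []⟩)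
      (4 * W.length + 2 * v.length + 6) := by
  refine ⟨W.all chk, ?_⟩
  have h0 : Runs (.blk [.load fun r => { r with f := true }, pz .wa])
      (⟨x, y, z, f, g, h, cy, md, kp⟩,
        ⟨I, O, ma, mb, xs, ta, tb, tc, W.map Sym.wc, [], (pbs g0 true v).reverse⟩)
      (⟨x, y, (W.map Sym.wc).head?, true, g, h, cy, md, kp⟩,
        ⟨I, O, ma, mb, xs, ta, tb, tc, (W.map Sym.wc).tail, [], (pbs g0 true v).reverse⟩) 1 :=
    Runs.blk rfl
  have h1 := emit_chk W x y true g h cy md kp I O ma mb xs ta tb tc [] (pbs g0 true v).reverse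
  have h2 : Runs (.blk [pu .tb fun _ => .sep, pu .tc fun _ => .sep, pz .va])
      (⟨x, y, none, true && W.all chk, g, h, cy, md, kp⟩,
        ⟨I, O, ma, mb, xs, ta, tb, tc, [], (W.map Sym.wc).reverse ++ [], (pbs g0 true v).reverse⟩)
      (⟨x, y, ((v.zip (negBits g0 true v)).reverse.map pbS).head?, W.all chk, g, h, cy, md, kp⟩,
        ⟨I, O, ma, mb, xs, ta, .sep :: tb, .sep :: tc, [], W.reverse.map Sym.wc,
          ((v.zip (negBits g0 true v)).reverse.map pbS).tail⟩) 1 := by
    apply Runs.blk
    simp only [pbs_eq, List.map_reverse, List.append_nil, Bool.true_and]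
    rfl
  have h3 := emit_bits (v.zip (negBits g0 true v)).reverse x y (W.all chk) g h cy md kp I O ma mb xs
    ta (.sep :: tb) (.sep :: tc) [] (W.reverse.map Sym.wc)
  have e4 : ((v.zip (negBits g0 true v)).reverse.map fun p => Sym.bit (p.1 && kp)).reverse =
      (v.map (· && kp)).map Sym.bit := by
    rw [List.map_reverse, List.reverse_reverse, zip_map_fst]
  have e5 : ((v.zip (negBits g0 true v)).reverse.map fun p => Sym.bit (p.2 && W.all chk)).reverse =
      ((negBits g0 true v).map (· && W.all chk)).map Sym.bit := by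
    rw [List.map_reverse, List.reverse_reverse, zip_map_snd]
  rw [e4, e5] at h3
  have h4 : Runs (.blk [pz .wb])
      (⟨x, y, none, W.all chk, g, h, cy, md, kp⟩,
        ⟨I, O, ma, mb, xs, ta, (v.map (· && kp)).map Sym.bit ++ (.sep :: tb),
          ((negBits g0 true v).map (· && W.all chk)).map Sym.bit ++ (.sep :: tc), [],
          W.reverse.map Sym.wc, []⟩)
      (⟨x, y, (W.reverse.map Sym.wc).head?, W.all chk, g, h, cy, md, kp⟩,
        ⟨I, O, ma, mb, xs, ta, (v.map (· && kp)).map Sym.bit ++ (.sep :: tb),
          ((negBits g0 true v).map (· && W.all chk)).map Sym.bit ++ (.sep :: tc), [],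
          (W.reverse.map Sym.wc).tail, []⟩) 1 := Runs.blk rfl
  have h5 := emit_cells W.reverse x y (W.all chk) g h cy md kp I O ma mb xs ta
    ((v.map (· && kp)).map Sym.bit ++ (.sep :: tb))
    (((negBits g0 true v).map (· && W.all chk)).map Sym.bit ++ (.sep :: tc)) [] []
  have := h0.seq (h1.seq (h2.seq (h3.seq (h4.seq h5))))
  have e1 : (W.reverse.map fun a => Sym.ctl a.c).reverse ++ xs =
      (W.map WC.c).map Sym.ctl ++ xs := by simp
  have e2 : (W.reverse.map fun a => Sym.cell a.r).reverse ++
      ((v.map (· && kp)).map Sym.bit ++ (.sep :: tb)) =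
      encRec (W.map WC.r, v.map (· && kp)) ++ tb := by simp [encRec]
  have e3 : (W.reverse.map fun a => Sym.cell a.acc).reverse ++
      (((negBits g0 true v).map (· && W.all chk)).map Sym.bit ++ (.sep :: tc)) =
      encRec (W.map WC.acc, (negBits g0 true v).map (· && W.all chk)) ++ tc := by
    simp [encRec]
  rw [e1, e2, e3] at this
  refine this.mono ?_
  simp only [List.length_reverse, List.length_zip, negBits_length, min_self]
  omega

end Pool.Agent.H1.Sat
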