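import Pool.Agent.H1.SatExec

/-!
# Execution of the emission stage
-/

namespace Pool.Agent.H1.Sat

open Op Prog

theorem drop_bits : ∀ (L : List Sym) (x y f g h cy md kp I O ma mb xs ta tb tc wa wb),
    Runs (.loop (fun r => isSome r.z) (.blk [pz .va]))
      (⟨x, y, L.head?, f, g, h, cy, md, kp⟩,
        ⟨I, O, ma, mb, xs, ta, tb, tc, wa, wb, L.tail⟩)
      (⟨x, y, none, f, g, h, cy, md, kp⟩,
        ⟨I, O, ma, mb, xs, ta, tb, tc, wa, wb, []⟩)
      (2 * L.length + 1) := by
  intro L
  induction L with
  | nil =>
    intro x y f g h cy md kp I O ma mb xs ta tb tc wa wb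
    exact (Runs.loop_false rfl).mono (by simp)
  | cons a L ih =>
    intro x y f g h cy md kp I O ma mb xs ta tb tc wa wb
    have := Runs.loop_true (c := fun r => isSome r.z) (b := 1)
      (s := (⟨x, y, (a :: L).head?, f, g, h, cy, md, kp⟩,
        ⟨I, O, ma, mb, xs, ta, tb, tc, wa, wb, (a :: L).tail⟩))
      rfl (Runs.blk rfl) (ih x y f g h cy md kp I O ma mb xs ta tb tc wa wb)
    refine this.mono ?_
    simp only [List.length_cons]
    omega

theorem drop_cells : ∀ (W : List WC) (x y f g h cy md kp I O ma mb xs ta tb tc wa va),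
    Runs (.loop (fun r => isSome r.z) (.blk [pu .xs fun r => .ctl (wcOf r.z).c, pz .wb]))
      (⟨x, y, (W.map Sym.wc).head?, f, g, h, cy, md, kp⟩,
        ⟨I, O, ma, mb, xs, ta, tb, tc, wa, (W.map Sym.wc).tail, va⟩)
      (⟨x, y, none, f, g, h, cy, md, kp⟩,
        ⟨I, O, ma, mb, (W.map fun a => Sym.ctl a.c).reverse ++ xs, ta, tb, tc, wa, [], va⟩)
      (2 * W.length + 1) := by
  intro W
  induction W with
  | nil =>
    intro x y f g h cy md kp I O ma mb xs ta tb tc wa va
    exact (Runs.loop_false rfl).mono (by simp)
  | cons a W ih =>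
    intro x y f g h cy md kp I O ma mb xs ta tb tc wa va
    have := Runs.loop_true (c := fun r => isSome r.z) (b := 1)
      (s := (⟨x, y, ((a :: W).map Sym.wc).head?, f, g, h, cy, md, kp⟩,
        ⟨I, O, ma, mb, xs, ta, tb, tc, wa, ((a :: W).map Sym.wc).tail, va⟩))
      rfl (Runs.blk rfl) (ih x y f g h cy md kp I O ma mb (.ctl a.c :: xs) ta tb tc wa va)
    have e1 : (W.map fun a => Sym.ctl a.c).reverse ++ (.ctl a.c :: xs) =
        ((a :: W).map fun a => Sym.ctl a.c).reverse ++ xs := by simp
    rw [e1] at this
    refine this.mono ?_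
    simp only [List.length_cons]
    omega

theorem loadW_length {w : List Ctl} {k : Key} (hw : w.length = k.length) :
    (loadW w k).length = k.length := by
  simp [loadW, hw]

theorem loadW_c : ∀ {w : List Ctl} {k : Key}, w.length = k.length → (loadW w k).map WC.c = w := by
  intro w
  induction w with
  | nil => intro k _; rfl
  | cons c w ih =>
    intro k hk
    cases k with
    | nil => simp at hk
    | cons a k =>
      have := ih (k := k) (by simpa using hk)
      simpa [loadW] using this

theorem loadW_r : ∀ {w : List Ctl} {k : Key}, w.length = k.length → (loadW w k).map WC.r = k := by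
  intro w
  induction w with
  | nil => intro k hk; rw [List.eq_nil_of_length_eq_zero hk.symm]; rfl
  | cons c w ih =>
    intro k hk
    cases k with
    | nil => simp at hk
    | cons a k =>
      have := ih (k := k) (by simpa using hk)
      simpa [loadW] using this

theorem commit_loadW (w : List Ctl) (k : Key) :
    (loadW w k).map (commit false) = loadW w k := by
  induction w generalizing k with
  | nil => rfl
  | cons c w ih =>
    cases k with
    | nil => rfl
    | cons a k =>
      have := ih k
      simpa [loadW, commit] using this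

/-- The work word after all rows. -/
def workW (M : List Key) (w : List Ctl) (k : Key) : List WC := M.foldl rowStep (loadW w k)

theorem rowStep_map_c {W : List WC} {A : Key} (hW : W.length = A.length) :
    (rowStep W A).map WC.c = W.map WC.c := by
  have key : ∀ (W : List WC) (A : Key) (_ : W.length = A.length) (b : Bool),
      ((tentW W A).map (commit b)).map WC.c = W.map WC.c := by
    intro W
    induction W with
    | nil => intro A _ b; rfl
    | cons z W ih =>
      intro A hA b
      cases A with
      | nil => simp at hA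
      | cons a A =>
        have := ih A (by simpa using hA) b
        cases b <;> simpa [tentW, commit] using this
  exact key W A hW _

theorem rowStep_map_r {W : List WC} {A : Key} (hW : W.length = A.length) :
    (rowStep W A).map WC.r = W.map WC.r := by
  have key : ∀ (W : List WC) (A : Key) (_ : W.length = A.length) (b : Bool),
      ((tentW W A).map (commit b)).map WC.r = W.map WC.r := by
    intro W
    induction W with
    | nil => intro A _ b; rfl
    | cons z W ih =>
      intro A hA b
      cases A with
      | nil => simp at hA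
      | cons a A =>
        have := ih A (by simpa using hA) b
        cases b <;> simpa [tentW, commit] using this
  exact key W A hW _

theorem foldl_rowStep (n : ℕ) (M : List Key) (hM : ∀ A ∈ M, A.length = n) (W : List WC)
    (hW : W.length = n) : (M.foldl rowStep W).length = n ∧
      (M.foldl rowStep W).map WC.c = W.map WC.c ∧ (M.foldl rowStep W).map WC.r = W.map WC.r := by
  induction M generalizing W with
  | nil => exact ⟨hW, rfl, rfl⟩
  | cons A M ih =>
    have hA : A.length = n := hM A (by simp)
    have hl : (rowStep W A).length = n := by rw [rowStep_length (by omega)]; exact hA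
    obtain ⟨h1, h2, h3⟩ := ih (fun B hB => hM B (by simp [hB])) (rowStep W A) hl
    refine ⟨h1, ?_, ?_⟩
    · rw [List.foldl_cons, h2, rowStep_map_c (by omega)]
    · rw [List.foldl_cons, h3, rowStep_map_r (by omega)]

/-- First record of the emission. -/
def em1 (kp : Bool) (R : Rec) : Rec := (R.1, R.2.map (· && kp))

/-- Second record of the emission. -/
def em2 (M : List Key) (w : List Ctl) (R : Rec) : Rec :=
  ((workW M w R.1).map WC.acc,
    (negBits (negW w R.1) true R.2).map (· && (workW M w R.1).all chk))

/-- Records with a nonzero count. -/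
def nzR (R : Rec) : Bool := R.2.any id

/-- Cost of the treatment of one record. -/
def costE (n m : ℕ) : ℕ := m * (6 * n + 9) + 12 * n + 30

theorem runs_emitRec_pos (n : ℕ) (M : List Key) (hM : ∀ A ∈ M, A.length = n) (w : List Ctl)
    (hw : w.length = n) (k : Key) (hk : k.length = n) (v : List Bool) (hv : v.length = n + 1)
    (hnz : v.any id = true) (rest : List Sym) (y z f g h cy md kp I O xs tb tc) :
    ∃ z' f' g' h' cy', Runs emitRec
      (⟨(encRec (k, v) ++ rest).head?, y, z, f, g, h, cy, md, kp⟩,
        ⟨I, O, encMat M, [], w.map Sym.ctl ++ xs, (encRec (k, v) ++ rest).tail, tb, tc, [], [], []⟩)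
      (⟨none, y, z', f', g', h', cy', md, kp⟩,
        ⟨I, O, encMat M, [], w.map Sym.ctl ++ xs, rest, encRec (em1 kp (k, v)) ++ tb,
          encRec (em2 M w (k, v)) ++ tc, [], [], []⟩)
      (costE n M.length) := by
  have hwk : w.length = k.length := by omega
  obtain ⟨z1, cy1, h1⟩ := runs_loadRec k v w hwk rest y z f g h cy md kp I O (encMat M) [] xs tb tc
    [] [] []
  have hb0 : Runs (.blk [.load fun r => { r with f := false }])
      (⟨some .sep, y, z1, f, negW w k, v.any id, cy1, md, kp⟩,
        ⟨I, O, encMat M, [], xs, rest, tb, tc, [],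
          ((loadW w k).map Sym.wc).reverse ++ [], (pbs (negW w k) true v).reverse ++ []⟩)
      (⟨some .sep, y, z1, false, negW w k, v.any id, cy1, md, kp⟩,
        ⟨I, O, encMat M, [], xs, rest, tb, tc, [],
          (loadW w k).reverse.map Sym.wc, (pbs (negW w k) true v).reverse⟩) 1 := by
    apply Runs.blk
    simp only [List.append_nil, List.map_reverse]
    rfl
  have h2 := runs_back (loadW w k).reverse (some .sep) y z1 false (negW w k) (v.any id) cy1 md kp I O
    (encMat M) [] xs rest tb tc [] (pbs (negW w k) true v).reverse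
  have e1 : (((loadW w k).reverse.map (commit false)).map Sym.wc).reverse ++ [] =
      (loadW w k).map Sym.wc := by
    rw [List.map_reverse, commit_loadW]; simp
  rw [e1] at h2
  obtain ⟨z3, f3, h3⟩ := runs_rows n M hM (loadW w k) (by rw [loadW_length hwk, hk]) (some .sep) y
    none false (negW w k) (v.any id) cy1 md kp I O xs rest tb tc (pbs (negW w k) true v).reverse
  obtain ⟨f4, h4⟩ := runs_emit (workW M w k) v (negW w k) none y z3 f3 (negW w k) (v.any id) cy1 md
    kp I O (encMat M) [] xs rest tb tc
  obtain ⟨hl, hc, hr⟩ := foldl_rowStep n M hM (loadW w k) (by rw [loadW_length hwk, hk])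
  refine ⟨none, f4, negW w k, v.any id, cy1, ?_⟩
  have h5 := h1.seq (Runs.ite_true (c := fun r => r.h) (q := dropRec)
    (s := (⟨some .sep, y, z1, f, negW w k, v.any id, cy1, md, kp⟩,
        ⟨I, O, encMat M, [], xs, rest, tb, tc, [],
          ((loadW w k).map Sym.wc).reverse ++ [], (pbs (negW w k) true v).reverse ++ []⟩))
    hnz (hb0.seq (h2.seq (h3.seq h4))))
  have e2 : (workW M w k).map WC.c = w := by
    change (M.foldl rowStep (loadW w k)).map WC.c = w
    rw [hc, loadW_c hwk]
  have e3 : (workW M w k).map WC.r = k := by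
    change (M.foldl rowStep (loadW w k)).map WC.r = k
    rw [hr, loadW_r hwk]
  rw [e2, e3] at h5
  refine h5.mono ?_
  have hl' : (workW M w k).length = n := hl
  rw [hl', List.length_reverse, loadW_length hwk, hk, hv]
  unfold costE
  ring_nf
  omega

theorem runs_emitRec_neg (n : ℕ) (M : List Key) (w : List Ctl)
    (hw : w.length = n) (k : Key) (hk : k.length = n) (v : List Bool) (hv : v.length = n + 1)
    (hnz : v.any id = false) (rest : List Sym) (y z f g h cy md kp I O xs tb tc) :
    ∃ z' f' g' h' cy', Runs emitRec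
      (⟨(encRec (k, v) ++ rest).head?, y, z, f, g, h, cy, md, kp⟩,
        ⟨I, O, encMat M, [], w.map Sym.ctl ++ xs, (encRec (k, v) ++ rest).tail, tb, tc, [], [], []⟩)
      (⟨some .sep, y, z', f', g', h', cy', md, kp⟩,
        ⟨I, O, encMat M, [], w.map Sym.ctl ++ xs, rest, tb, tc, [], [], []⟩)
      (costE n M.length) := by
  have hwk : w.length = k.length := by omega
  obtain ⟨z1, cy1, h1⟩ := runs_loadRec k v w hwk rest y z f g h cy md kp I O (encMat M) [] xs tb tc
    [] [] []
  have hb0 : Runs (.blk [pz .va])
      (⟨some .sep, y, z1, f, negW w k, v.any id, cy1, md, kp⟩,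
        ⟨I, O, encMat M, [], xs, rest, tb, tc, [],
          ((loadW w k).map Sym.wc).reverse ++ [], (pbs (negW w k) true v).reverse ++ []⟩)
      (⟨some .sep, y, (pbs (negW w k) true v).reverse.head?, f, negW w k, v.any id, cy1, md, kp⟩,
        ⟨I, O, encMat M, [], xs, rest, tb, tc, [],
          (loadW w k).reverse.map Sym.wc, (pbs (negW w k) true v).reverse.tail⟩) 1 := by
    apply Runs.blk
    simp only [List.append_nil, List.map_reverse]
    rfl
  have h2 := drop_bits (pbs (negW w k) true v).reverse (some .sep) y f (negW w k) (v.any id) cy1 md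
    kp I O (encMat M) [] xs rest tb tc [] ((loadW w k).reverse.map Sym.wc)
  have hb1 : Runs (.blk [pz .wb])
      (⟨some .sep, y, none, f, negW w k, v.any id, cy1, md, kp⟩,
        ⟨I, O, encMat M, [], xs, rest, tb, tc, [], (loadW w k).reverse.map Sym.wc, []⟩)
      (⟨some .sep, y, ((loadW w k).reverse.map Sym.wc).head?, f, negW w k, v.any id, cy1, md, kp⟩,
        ⟨I, O, encMat M, [], xs, rest, tb, tc, [], ((loadW w k).reverse.map Sym.wc).tail, []⟩) 1 :=
    Runs.blk rfl
  have h3 := drop_cells (loadW w k).reverse (some .sep) y f (negW w k) (v.any id) cy1 md kp I O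
    (encMat M) [] xs rest tb tc [] []
  have e1 : ((loadW w k).reverse.map fun a => Sym.ctl a.c).reverse ++ xs = w.map Sym.ctl ++ xs := by
    have : (loadW w k).map (fun a => Sym.ctl a.c) = w.map Sym.ctl := by
      rw [← loadW_c hwk, List.map_map, loadW_c hwk]; rfl
    rw [List.map_reverse, List.reverse_reverse, this]
  rw [e1] at h3
  refine ⟨none, f, negW w k, v.any id, cy1, ?_⟩
  have h5 := h1.seq (Runs.ite_false (c := fun r => r.h)
    (p := seqs [.blk [.load fun r => { r with f := false }], back, rows, emit])
    (s := (⟨some .sep, y, z1, f, negW w k, v.any id, cy1, md, kp⟩,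
        ⟨I, O, encMat M, [], xs, rest, tb, tc, [],
          ((loadW w k).map Sym.wc).reverse ++ [], (pbs (negW w k) true v).reverse ++ []⟩))
    hnz (hb0.seq (h2.seq (hb1.seq h3))))
  refine h5.mono ?_
  have e2 : (pbs (negW w k) true v).length = v.length := by
    rw [pbs_eq]; simp [negBits_length]
  rw [List.length_reverse, e2, List.length_reverse, loadW_length hwk, hk, hv]
  unfold costE
  ring_nf
  omega

theorem encRec_head (R : Rec) (rest : List Sym) : isSome (encRec R ++ rest).head? = true := by
  obtain ⟨k, v⟩ := R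
  cases k with
  | nil => cases v <;> rfl
  | cons a k => rfl

theorem encTab_append (T T' : List Rec) : encTab (T ++ T') = encTab T ++ encTab T' := by
  simp [encTab]

theorem stageE_loop (n : ℕ) (M : List Key) (hM : ∀ A ∈ M, A.length = n) (w : List Ctl)
    (hw : w.length = n) : ∀ (T : List Rec) (_hT : ∀ R ∈ T, R.1.length = n ∧ R.2.length = n + 1)
    (y z f g h cy md kp I O xs tb tc),
    ∃ y' z' f' g' h' cy', Runs (.loop (fun r => isSome r.x) (.seq emitRec (.blk [px .ta])))
      (⟨(encTab T).head?, y, z, f, g, h, cy, md, kp⟩,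
        ⟨I, O, encMat M, [], w.map Sym.ctl ++ xs, (encTab T).tail, tb, tc, [], [], []⟩)
      (⟨none, y', z', f', g', h', cy', md, kp⟩,
        ⟨I, O, encMat M, [], w.map Sym.ctl ++ xs, [],
          encTab ((T.filter nzR).map (em1 kp)).reverse ++ tb,
          encTab ((T.filter nzR).map (em2 M w)).reverse ++ tc, [], [], []⟩)
      (T.length * (costE n M.length + 2) + 1) := by
  intro T
  induction T with
  | nil =>
    intro hT y z f g h cy md kp I O xs tb tc
    exact ⟨y, z, f, g, h, cy, (Runs.loop_false rfl).mono (by simp)⟩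
  | cons R T ih =>
    intro hT y z f g h cy md kp I O xs tb tc
    obtain ⟨hR1, hR2⟩ := hT R (by simp)
    have hT' : ∀ R ∈ T, R.1.length = n ∧ R.2.length = n + 1 := fun B hB => hT B (by simp [hB])
    by_cases hnz : R.2.any id = true
    · obtain ⟨z1, f1, g1, h1, cy1, hr⟩ := runs_emitRec_pos n M hM w hw R.1 hR1 R.2 hR2 hnz (encTab T)
        y z f g h cy md kp I O xs tb tc
      have hb : Runs (.blk [px .ta])
        (⟨none, y, z1, f1, g1, h1, cy1, md, kp⟩,
          ⟨I, O, encMat M, [], w.map Sym.ctl ++ xs, encTab T, encRec (em1 kp (R.1, R.2)) ++ tb,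
          encRec (em2 M w (R.1, R.2)) ++ tc, [], [], []⟩)
        (⟨(encTab T).head?, y, z1, f1, g1, h1, cy1, md, kp⟩,
          ⟨I, O, encMat M, [], w.map Sym.ctl ++ xs, (encTab T).tail, encRec (em1 kp R) ++ tb,
          encRec (em2 M w R) ++ tc, [], [], []⟩) 1 := Runs.blk rfl
      obtain ⟨y2, z2, f2, g2, h2, cy2, h3⟩ := ih hT' y z1 f1 g1 h1 cy1 md kp I O xs
        (encRec (em1 kp R) ++ tb) (encRec (em2 M w R) ++ tc)
      refine ⟨y2, z2, f2, g2, h2, cy2, ?_⟩
      have := Runs.loop_true (c := fun r => isSome r.x)
        (s := (⟨(encTab (R :: T)).head?, y, z, f, g, h, cy, md, kp⟩,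
          ⟨I, O, encMat M, [], w.map Sym.ctl ++ xs, (encTab (R :: T)).tail, tb, tc, [], [], []⟩))
        (encRec_head R (encTab T)) (hr.seq hb) h3
      have hf : (R :: T).filter nzR = R :: T.filter nzR := by
        rw [List.filter_cons, if_pos (by exact hnz)]
      have e1 : encTab ((T.filter nzR).map (em1 kp)).reverse ++ (encRec (em1 kp R) ++ tb) =
          encTab (((R :: T).filter nzR).map (em1 kp)).reverse ++ tb := by
        rw [hf, List.map_cons, List.reverse_cons, encTab_append]
        simp [encTab]
      have e2 : encTab ((T.filter nzR).map (em2 M w)).reverse ++ (encRec (em2 M w R) ++ tc) =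
          encTab (((R :: T).filter nzR).map (em2 M w)).reverse ++ tc := by
        rw [hf, List.map_cons, List.reverse_cons, encTab_append]
        simp [encTab]
      rw [e1, e2] at this
      refine this.mono ?_
      rw [List.length_cons]
      ring_nf
      omega
    · obtain ⟨z1, f1, g1, h1, cy1, hr⟩ := runs_emitRec_neg n M w hw R.1 hR1 R.2 hR2
        (by simpa using hnz) (encTab T) y z f g h cy md kp I O xs tb tc
      have hb : Runs (.blk [px .ta])
        (⟨some .sep, y, z1, f1, g1, h1, cy1, md, kp⟩,
          ⟨I, O, encMat M, [], w.map Sym.ctl ++ xs, encTab T, tb, tc, [], [], []⟩)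
        (⟨(encTab T).head?, y, z1, f1, g1, h1, cy1, md, kp⟩,
          ⟨I, O, encMat M, [], w.map Sym.ctl ++ xs, (encTab T).tail, tb, tc, [], [], []⟩) 1 :=
        Runs.blk rfl
      obtain ⟨y2, z2, f2, g2, h2, cy2, h3⟩ := ih hT' y z1 f1 g1 h1 cy1 md kp I O xs tb tc
      refine ⟨y2, z2, f2, g2, h2, cy2, ?_⟩
      have := Runs.loop_true (c := fun r => isSome r.x)
        (s := (⟨(encTab (R :: T)).head?, y, z, f, g, h, cy, md, kp⟩,
          ⟨I, O, encMat M, [], w.map Sym.ctl ++ xs, (encTab (R :: T)).tail, tb, tc, [], [], []⟩))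
        (encRec_head R (encTab T)) (hr.seq hb) h3
      have hf : (R :: T).filter nzR = T.filter nzR := by
        rw [List.filter_cons, if_neg (by exact hnz)]
      rw [hf]
      refine this.mono ?_
      rw [List.length_cons]
      ring_nf
      omega

theorem encTab_length (n : ℕ) (T : List Rec) (hT : ∀ R ∈ T, R.1.length = n ∧ R.2.length = n + 1) :
    (encTab T).length = T.length * (2 * n + 2) := by
  induction T with
  | nil => simp [encTab]
  | cons R T ih =>
    obtain ⟨h1, h2⟩ := hT R (by simp)
    rw [encTab_cons, List.length_append, ih (fun B hB => hT B (by simp [hB])), List.length_cons]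
    simp only [encRec, List.length_append, List.length_map, h1, h2, List.length_cons,
      List.length_nil]
    ring

/-- The table after the emission stage. -/
def stE (kp : Bool) (M : List Key) (w : List Ctl) (T : List Rec) : List Rec :=
  ((T.filter nzR).map (em2 M w)).reverse ++ ((T.filter nzR).map (em1 kp)).reverse

theorem negBits_map_length (g cy f : Bool) (v : List Bool) :
    ((negBits g cy v).map (· && f)).length = v.length := by
  rw [List.length_map, negBits_length]

theorem em2_length (n : ℕ) (M : List Key) (hM : ∀ A ∈ M, A.length = n) (w : List Ctl)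
    (hw : w.length = n) (R : Rec) (hR : R.1.length = n ∧ R.2.length = n + 1) :
    (em2 M w R).1.length = n ∧ (em2 M w R).2.length = n + 1 := by
  have hwk : w.length = R.1.length := by omega
  obtain ⟨hl, -, -⟩ := foldl_rowStep n M hM (loadW w R.1) (by rw [loadW_length hwk, hR.1])
  refine ⟨?_, ?_⟩
  · rw [em2, List.length_map]; exact hl
  · rw [em2, negBits_map_length]; exact hR.2

theorem em1_length (n : ℕ) (kp : Bool) (R : Rec) (hR : R.1.length = n ∧ R.2.length = n + 1) :
    (em1 kp R).1.length = n ∧ (em1 kp R).2.length = n + 1 := by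
  simp [em1, hR]

theorem runs_stageE (n : ℕ) (M : List Key) (hM : ∀ A ∈ M, A.length = n) (w : List Ctl)
    (hw : w.length = n) (T : List Rec) (hT : ∀ R ∈ T, R.1.length = n ∧ R.2.length = n + 1)
    (x y z f g h cy md kp I O xs) :
    ∃ y' z' f' g' h' cy', Runs stageE
      (⟨x, y, z, f, g, h, cy, md, kp⟩,
        ⟨I, O, encMat M, [], w.map Sym.ctl ++ xs, encTab T, [], [], [], [], []⟩)
      (⟨none, y', z', f', g', h', cy', md, kp⟩,
        ⟨I, O, encMat M, [], w.map Sym.ctl ++ xs, [], encTab (stE kp M w T), [], [], [], []⟩)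
      (T.length * (costE n M.length + 8 * n + 10) + 6) := by
  obtain ⟨y1, z1, f1, g1, h1, cy1, hr⟩ := stageE_loop n M hM w hw T hT y z f g h cy md kp I O xs
    [] []
  refine ⟨y1, z1, f1, g1, h1, cy1, ?_⟩
  have h0 : Runs (.blk [px .ta])
      (⟨x, y, z, f, g, h, cy, md, kp⟩,
        ⟨I, O, encMat M, [], w.map Sym.ctl ++ xs, encTab T, [], [], [], [], []⟩)
      (⟨(encTab T).head?, y, z, f, g, h, cy, md, kp⟩,
        ⟨I, O, encMat M, [], w.map Sym.ctl ++ xs, (encTab T).tail, [], [], [], [], []⟩) 1 :=
    Runs.blk rfl
  have h2 := runs_moveAll .tc .va (by decide) ⟨none, y1, z1, f1, g1, h1, cy1, md, kp⟩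
    ⟨I, O, encMat M, [], w.map Sym.ctl ++ xs, [],
          encTab ((T.filter nzR).map (em1 kp)).reverse ++ [],
          encTab ((T.filter nzR).map (em2 M w)).reverse ++ [], [], [], []⟩
  simp only [St.gs, St.ss, List.append_nil] at h2
  have h3 := runs_moveAll .va .tb (by decide) ⟨none, y1, z1, f1, g1, h1, cy1, md, kp⟩
    ⟨I, O, encMat M, [], w.map Sym.ctl ++ xs, [],
          encTab ((T.filter nzR).map (em1 kp)).reverse, [], [], [],
          (encTab ((T.filter nzR).map (em2 M w)).reverse).reverse⟩
  simp only [St.gs, St.ss, List.reverse_reverse] at h3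
  simp only [List.append_nil] at hr
  have := h0.seq (hr.seq (h2.seq h3))
  have e : encTab ((T.filter nzR).map (em2 M w)).reverse ++
      encTab ((T.filter nzR).map (em1 kp)).reverse = encTab (stE kp M w T) := by
    rw [stE, encTab_append]
  rw [e] at this
  refine this.mono ?_
  have hlen : (encTab ((T.filter nzR).map (em2 M w)).reverse).length ≤
      T.length * (2 * n + 2) := by
    rw [encTab_length n]
    · rw [List.length_reverse, List.length_map]
      exact Nat.mul_le_mul_right _ (List.length_filter_le _ _)
    · intro R hR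
      rw [List.mem_reverse, List.mem_map] at hR
      obtain ⟨R', hR', rfl⟩ := hR
      exact em2_length n M hM w hw R' (hT R' (List.mem_of_mem_filter hR'))
  rw [List.length_reverse]
  have e4 : T.length * (costE n M.length + 8 * n + 10) =
      T.length * (costE n M.length + 2) + 4 * (T.length * (2 * n + 2)) := by ring
  omega

end Pool.Agent.H1.Sat
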