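import Pool.Agent.H1.SatExecM

/-!
# Execution of the main loop and of the final stage
-/

namespace Pool.Agent.H1.Sat

open Op Prog

/-- A control word with its header. -/
abbrev CW := Bool × Bool × List Ctl

def encCW (c : CW) : List Sym := .hdr c.1 c.2.1 :: (c.2.2.map Sym.ctl ++ [.sep])

def encSched (L : List CW) : List Sym := L.flatMap encCW

theorem encSched_cons (c : CW) (L : List CW) : encSched (c :: L) = encCW c ++ encSched L := rfl

/-- Effect of a round. -/
def roundF (M : List Key) (T : List Rec) (c : CW) : List Rec :=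
  stM c.1 (passf^[c.2.2.length] (stE c.2.1 M c.2.2 T))

theorem stE_mem (n : ℕ) (kp : Bool) (M : List Key) (hM : ∀ A ∈ M, A.length = n) (w : List Ctl)
    (hw : w.length = n) (T : List Rec) (hT : ∀ R ∈ T, R.1.length = n ∧ R.2.length = n + 1) :
    ∀ R ∈ stE kp M w T, R.1.length = n ∧ R.2.length = n + 1 := by
  intro R hR
  rw [stE, List.mem_append, List.mem_reverse, List.mem_reverse, List.mem_map, List.mem_map] at hR
  rcases hR with ⟨R', hR', rfl⟩ | ⟨R', hR', rfl⟩
  · exact em2_length n M hM w hw R' (hT R' (List.mem_of_mem_filter hR'))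
  · exact em1_length n kp R' (hT R' (List.mem_of_mem_filter hR'))

theorem stE_length (kp : Bool) (M : List Key) (w : List Ctl) (T : List Rec) :
    (stE kp M w T).length = 2 * (T.filter nzR).length := by
  simp [stE]
  omega

theorem passf_iter_mem {n k : ℕ} (i : ℕ) {T : List Rec}
    (hT : ∀ R ∈ T, R.1.length = n ∧ R.2.length = k) :
    ∀ R ∈ passf^[i] T, R.1.length = n ∧ R.2.length = k := by
  induction i generalizing T with
  | zero => exact hT
  | succ i ih =>
    rw [Function.iterate_succ_apply]
    exact ih (passf_mem hT)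

theorem passf_iter_length (i : ℕ) (T : List Rec) : (passf^[i] T).length = T.length := by
  induction i generalizing T with
  | zero => rfl
  | succ i ih => rw [Function.iterate_succ_apply, ih, passf_length]

theorem roundF_mem (n : ℕ) (M : List Key) (hM : ∀ A ∈ M, A.length = n) (c : CW)
    (hc : c.2.2.length = n) (T : List Rec) (hT : ∀ R ∈ T, R.1.length = n ∧ R.2.length = n + 1) :
    ∀ R ∈ roundF M T c, R.1.length = n ∧ R.2.length = n + 1 :=
  stM_mem n _ _ (passf_iter_mem _ (stE_mem n _ M hM _ hc T hT))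

theorem roundF_length (n : ℕ) (M : List Key) (hM : ∀ A ∈ M, A.length = n) (c : CW)
    (hc : c.2.2.length = n) (T : List Rec) (hT : ∀ R ∈ T, R.1.length = n ∧ R.2.length = n + 1) :
    (roundF M T c).length ≤ 2 * (T.filter nzR).length + 1 := by
  refine (stM_length n _ _ (passf_iter_mem _ (stE_mem n _ M hM _ hc T hT))).trans ?_
  rw [passf_iter_length, stE_length]

/-- Cost of a round on a table with at most `B` records. -/
def costR (n m B : ℕ) : ℕ :=
  B * (costE n m + 8 * n + 10) + n * (2 * B * costP n + 12) + 2 * B * (8 * n + 12) + 8 * n + 30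

theorem runs_round (n : ℕ) (M : List Key) (hM : ∀ A ∈ M, A.length = n) (c : CW)
    (hc : c.2.2.length = n) (T : List Rec) (hT : ∀ R ∈ T, R.1.length = n ∧ R.2.length = n + 1)
    (B : ℕ) (hB : T.length ≤ B) (y z f g h cy md kp I O xs) :
    ∃ x' y' z' f' g' h' cy' md' kp', Runs round
      (⟨some (.hdr c.1 c.2.1), y, z, f, g, h, cy, md, kp⟩,
        ⟨I, O, encMat M, [], c.2.2.map Sym.ctl ++ (.sep :: xs), encTab T, [], [], [], [], []⟩)
      (⟨x', y', z', f', g', h', cy', md', kp'⟩,
        ⟨I, O, encMat M, [], xs, encTab (roundF M T c), [], [], [], [], []⟩)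
      (costR n M.length B) := by
  obtain ⟨m, k, w⟩ := c
  change w.length = n at hc
  have h0 : Runs (.blk [.load setMode])
      (⟨some (.hdr m k), y, z, f, g, h, cy, md, kp⟩,
        ⟨I, O, encMat M, [], w.map Sym.ctl ++ (.sep :: xs), encTab T, [], [], [], [], []⟩)
      (⟨some (.hdr m k), y, z, f, g, h, cy, m, k⟩,
        ⟨I, O, encMat M, [], w.map Sym.ctl ++ (.sep :: xs), encTab T, [], [], [], [], []⟩) 1 :=
    Runs.blk rfl
  obtain ⟨y1, z1, f1, g1, h1, cy1, r1⟩ := runs_stageE n M hM w hc T hT (some (.hdr m k)) y z f g h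
    cy m k I O (.sep :: xs)
  have hT1 := stE_mem n k M hM w hc T hT
  obtain ⟨y2, r2⟩ := runs_stageS n w hc (stE k M w T) hT1 none y1 z1 f1 g1 h1 cy1 m k I O (encMat M)
    [] xs []
  have hT2 := passf_iter_mem n hT1
  obtain ⟨y3, f3, cy3, r3⟩ := runs_stageM n (passf^[n] (stE k M w T)) hT2 (some .sep) y2 z1 f1 g1 h1
    cy1 m k I O (encMat M) [] xs [] []
  refine ⟨none, y3, z1, f3, g1, h1, cy3, m, k, ?_⟩
  have e : roundF M T (m, k, w) = stM m (passf^[n] (stE k M w T)) := by
    rw [roundF]; simp only [hc]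
  rw [e]
  refine (h0.seq (r1.seq (r2.seq r3))).mono ?_
  have l1 : (stE k M w T).length ≤ 2 * B := by
    rw [stE_length]
    have := List.length_filter_le nzR T
    omega
  rw [passf_iter_length]
  have a1 : T.length * (costE n M.length + 8 * n + 10) ≤ B * (costE n M.length + 8 * n + 10) :=
    Nat.mul_le_mul_right _ hB
  have a2 : n * ((stE k M w T).length * costP n + 12) ≤ n * (2 * B * costP n + 12) :=
    Nat.mul_le_mul_left _ (by gcongr)
  have a3 : (stE k M w T).length * (8 * n + 12) ≤ 2 * B * (8 * n + 12) :=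
    Nat.mul_le_mul_right _ l1
  unfold costR
  omega

theorem main_loop (n : ℕ) (M : List Key) (hM : ∀ A ∈ M, A.length = n) (B : ℕ) :
    ∀ (L : List CW) (_hL : ∀ c ∈ L, c.2.2.length = n) (T : List Rec)
    (_hT : ∀ R ∈ T, R.1.length = n ∧ R.2.length = n + 1)
    (_hB : ∀ L1 L2, L = L1 ++ L2 → (L1.foldl (roundF M) T).length ≤ B)
    (y z f g h cy md kp I O),
    ∃ y' z' f' g' h' cy' md' kp', Runs (.loop (fun r => isSome r.x) (.seq round (.blk [px .xs])))
      (⟨(encSched L).head?, y, z, f, g, h, cy, md, kp⟩,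
        ⟨I, O, encMat M, [], (encSched L).tail, encTab T, [], [], [], [], []⟩)
      (⟨none, y', z', f', g', h', cy', md', kp'⟩,
        ⟨I, O, encMat M, [], [], encTab (L.foldl (roundF M) T), [], [], [], [], []⟩)
      (L.length * (costR n M.length B + 2) + 1) := by
  intro L
  induction L with
  | nil =>
    intro hL T hT hB y z f g h cy md kp I O
    exact ⟨y, z, f, g, h, cy, md, kp, (Runs.loop_false rfl).mono (by simp)⟩
  | cons c L ih =>
    intro hL T hT hB y z f g h cy md kp I O
    obtain ⟨m, k, w⟩ := c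
    have hc : ((m, k, w) : CW).2.2.length = n := hL _ (by simp)
    have hBT : T.length ≤ B := hB [] _ rfl
    obtain ⟨x1, y1, z1, f1, g1, h1, cy1, md1, kp1, r1⟩ := runs_round n M hM (m, k, w) hc T hT B hBT
      y z f g h cy md kp I O (encSched L)
    have hb : Runs (.blk [px .xs])
        (⟨x1, y1, z1, f1, g1, h1, cy1, md1, kp1⟩,
          ⟨I, O, encMat M, [], encSched L, encTab (roundF M T (m, k, w)), [], [], [], [], []⟩)
        (⟨(encSched L).head?, y1, z1, f1, g1, h1, cy1, md1, kp1⟩,
          ⟨I, O, encMat M, [], (encSched L).tail, encTab (roundF M T (m, k, w)), [], [], [], [],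
            []⟩) 1 := Runs.blk rfl
    obtain ⟨y2, z2, f2, g2, h2, cy2, md2, kp2, r2⟩ := ih (fun c hc => hL c (by simp [hc]))
      (roundF M T (m, k, w)) (roundF_mem n M hM _ hc T hT)
      (fun L1 L2 h => hB ((m, k, w) :: L1) L2 (by rw [h]; rfl))
      y1 z1 f1 g1 h1 cy1 md1 kp1 I O
    refine ⟨y2, z2, f2, g2, h2, cy2, md2, kp2, ?_⟩
    have e : encSched ((m, k, w) :: L) = .hdr m k :: (w.map Sym.ctl ++ (.sep :: encSched L)) := by
      rw [encSched_cons]; simp [encCW]
    rw [e]
    have := Runs.loop_true (c := fun r => isSome r.x)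
      (s := (⟨(Sym.hdr m k :: (w.map Sym.ctl ++ (.sep :: encSched L))).head?, y, z, f, g, h, cy, md,
        kp⟩,
        ⟨I, O, encMat M, [], (Sym.hdr m k :: (w.map Sym.ctl ++ (.sep :: encSched L))).tail,
          encTab T, [], [], [], [], []⟩))
      rfl (r1.seq hb) r2
    refine this.mono ?_
    rw [List.length_cons]
    ring_nf
    omega

theorem runs_mainLoop (n : ℕ) (M : List Key) (hM : ∀ A ∈ M, A.length = n) (B : ℕ)
    (L : List CW) (hL : ∀ c ∈ L, c.2.2.length = n) (T : List Rec)
    (hT : ∀ R ∈ T, R.1.length = n ∧ R.2.length = n + 1)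
    (hB : ∀ L1 L2, L = L1 ++ L2 → (L1.foldl (roundF M) T).length ≤ B)
    (x y z f g h cy md kp I O) :
    ∃ y' z' f' g' h' cy' md' kp', Runs mainLoop
      (⟨x, y, z, f, g, h, cy, md, kp⟩,
        ⟨I, O, encMat M, [], encSched L, encTab T, [], [], [], [], []⟩)
      (⟨none, y', z', f', g', h', cy', md', kp'⟩,
        ⟨I, O, encMat M, [], [], encTab (L.foldl (roundF M) T), [], [], [], [], []⟩)
      (L.length * (costR n M.length B + 2) + 2) := by
  obtain ⟨y1, z1, f1, g1, h1, cy1, md1, kp1, r1⟩ := main_loop n M hM B L hL T hT hB y z f g h cy md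
    kp I O
  refine ⟨y1, z1, f1, g1, h1, cy1, md1, kp1, ?_⟩
  have h0 : Runs (.blk [px .xs])
      (⟨x, y, z, f, g, h, cy, md, kp⟩,
        ⟨I, O, encMat M, [], encSched L, encTab T, [], [], [], [], []⟩)
      (⟨(encSched L).head?, y, z, f, g, h, cy, md, kp⟩,
        ⟨I, O, encMat M, [], (encSched L).tail, encTab T, [], [], [], [], []⟩) 1 := Runs.blk rfl
  exact (h0.seq r1).mono (by omega)

/-! ### Final stage -/

/-- One step of the scan. -/
def scanS (p : Bool × Bool) : Sym → Bool × Bool
  | .cell c => (p.1 && (c == botC), p.2)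
  | _ => (true, p.2 || p.1)

theorem scan_loop : ∀ (L : List Sym) (y z f g h cy md kp I O mb xs ta tb tc wa wb va),
    Runs (.loop (fun r => isSome r.x) (.blk [.load scan, px .ma]))
      (⟨L.head?, y, z, f, g, h, cy, md, kp⟩,
        ⟨I, O, L.tail, mb, xs, ta, tb, tc, wa, wb, va⟩)
      (⟨none, y, z, (L.foldl scanS (f, h)).1, g, (L.foldl scanS (f, h)).2, cy, md, kp⟩,
        ⟨I, O, [], mb, xs, ta, tb, tc, wa, wb, va⟩)
      (2 * L.length + 1) := by
  intro L
  induction L with
  | nil =>
    intro y z f g h cy md kp I O mb xs ta tb tc wa wb va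
    exact (Runs.loop_false rfl).mono (by simp)
  | cons a L ih =>
    intro y z f g h cy md kp I O mb xs ta tb tc wa wb va
    have hstep : runOps [.load scan, px .ma]
        (⟨(a :: L).head?, y, z, f, g, h, cy, md, kp⟩,
        ⟨I, O, (a :: L).tail, mb, xs, ta, tb, tc, wa, wb, va⟩) =
        (⟨L.head?, y, z, (scanS (f, h) a).1, g, (scanS (f, h) a).2, cy, md, kp⟩,
        ⟨I, O, L.tail, mb, xs, ta, tb, tc, wa, wb, va⟩) := by
      cases a <;> rfl
    have := Runs.loop_true (c := fun r => isSome r.x) (b := 1)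
      (s := (⟨(a :: L).head?, y, z, f, g, h, cy, md, kp⟩,
        ⟨I, O, (a :: L).tail, mb, xs, ta, tb, tc, wa, wb, va⟩))
      rfl (Runs.blk hstep) (ih y z _ g _ cy md kp I O mb xs ta tb tc wa wb va)
    refine this.mono ?_
    simp only [List.length_cons]
    omega

/-- Blank keys. -/
def blank (A : Key) : Bool := A.all (· == botC)

theorem scan_cells (A : Key) (p : Bool × Bool) :
    (A.map Sym.cell).foldl scanS p = (p.1 && blank A, p.2) := by
  induction A generalizing p with
  | nil => simp [blank]
  | cons a A ih =>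
    rw [List.map_cons, List.foldl_cons, ih]
    simp [scanS, blank, Bool.and_assoc]

theorem scan_mat (M : List Key) (h : Bool) :
    (encMat M).foldl scanS (true, h) = (true, h || M.any blank) := by
  induction M generalizing h with
  | nil => simp [encMat]
  | cons A M ih =>
    rw [encMat_cons, List.foldl_append, encRow, List.foldl_append, scan_cells]
    simp only [List.foldl_cons, List.foldl_nil, scanS, Bool.true_and]
    rw [ih, List.any_cons, Bool.or_assoc]

/-- Accumulation of the result. -/
def orA (f : Bool) : List Bool → List Bool → List Bool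
  | [], _ => []
  | b :: v, acc => ((b && f) || acc.headD false) :: orA f v acc.tail

theorem fin_cells : ∀ (k : Key) (rest : List Sym) (_hrest : isCell rest.head? = false)
    (y z f g h cy md kp I O ma mb xs tb tc wa wb va),
    Runs (.loop (fun r => isCell r.x) (.blk [.load fun r => { r with f := r.f && (cellOf r.x == botC) },
      px .ta]))
      (⟨(k.map Sym.cell ++ rest).head?, y, z, f, g, h, cy, md, kp⟩,
        ⟨I, O, ma, mb, xs, (k.map Sym.cell ++ rest).tail, tb, tc, wa, wb, va⟩)
      (⟨rest.head?, y, z, f && blank k, g, h, cy, md, kp⟩,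
        ⟨I, O, ma, mb, xs, rest.tail, tb, tc, wa, wb, va⟩)
      (2 * k.length + 1) := by
  intro k
  induction k with
  | nil =>
    intro rest hrest y z f g h cy md kp I O ma mb xs tb tc wa wb va
    have e : (f && blank []) = f := by cases f <;> rfl
    rw [e]
    exact (Runs.loop_false (by simpa using hrest)).mono (by simp)
  | cons a k ih =>
    intro rest hrest y z f g h cy md kp I O ma mb xs tb tc wa wb va
    have := Runs.loop_true (c := fun r => isCell r.x) (b := 1)
      (s := (⟨((a :: k).map Sym.cell ++ rest).head?, y, z, f, g, h, cy, md, kp⟩,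
        ⟨I, O, ma, mb, xs, ((a :: k).map Sym.cell ++ rest).tail, tb, tc, wa, wb, va⟩))
      rfl (Runs.blk rfl) (ih rest hrest y z (f && (a == botC)) g h cy md kp I O ma mb xs tb tc wa wb
        va)
    have e : ((f && (a == botC)) && blank k) = (f && blank (a :: k)) := by
      simp [blank, Bool.and_assoc]
    rw [e] at this
    refine this.mono ?_
    simp only [List.length_cons]
    omega

theorem fin_bits : ∀ (v : List Bool) (acc : List Bool) (rest : List Sym)
    (_hrest : isBit rest.head? = false)
    (y z f g h cy md kp I O ma mb xs tb tc wb va),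
    ∃ y', Runs (.loop (fun r => isBit r.x)
      (.blk [py .wa, pu .va fun r => .bit ((bitOf r.x && r.f) || bitOf r.y), px .ta]))
      (⟨(v.map Sym.bit ++ rest).head?, y, z, f, g, h, cy, md, kp⟩,
        ⟨I, O, ma, mb, xs, (v.map Sym.bit ++ rest).tail, tb, tc, acc.map Sym.bit, wb, va⟩)
      (⟨rest.head?, y', z, f, g, h, cy, md, kp⟩,
        ⟨I, O, ma, mb, xs, rest.tail, tb, tc, (acc.drop v.length).map Sym.bit, wb,
          ((orA f v acc).map Sym.bit).reverse ++ va⟩)
      (2 * v.length + 1) := by
  intro v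
  induction v with
  | nil =>
    intro acc rest hrest y z f g h cy md kp I O ma mb xs tb tc wb va
    exact ⟨y, (Runs.loop_false (by simpa using hrest)).mono (by simp)⟩
  | cons a v ih =>
    intro acc rest hrest y z f g h cy md kp I O ma mb xs tb tc wb va
    obtain ⟨y', h1⟩ := ih acc.tail rest hrest (acc.map Sym.bit).head? z f g h cy md kp I O ma mb xs
      tb tc wb (.bit ((a && f) || acc.headD false) :: va)
    refine ⟨y', ?_⟩
    have hstep : runOps [py .wa, pu .va fun r => .bit ((bitOf r.x && r.f) || bitOf r.y), px .ta]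
        (⟨((a :: v).map Sym.bit ++ rest).head?, y, z, f, g, h, cy, md, kp⟩,
        ⟨I, O, ma, mb, xs, ((a :: v).map Sym.bit ++ rest).tail, tb, tc, acc.map Sym.bit, wb, va⟩) =
        (⟨(v.map Sym.bit ++ rest).head?, (acc.map Sym.bit).head?, z, f, g, h, cy, md, kp⟩,
        ⟨I, O, ma, mb, xs, (v.map Sym.bit ++ rest).tail, tb, tc, acc.tail.map Sym.bit, wb,
          .bit ((a && f) || acc.headD false) :: va⟩) := by
      cases acc <;> rfl
    have := Runs.loop_true (c := fun r => isBit r.x) (b := 1)
      (s := (⟨((a :: v).map Sym.bit ++ rest).head?, y, z, f, g, h, cy, md, kp⟩,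
        ⟨I, O, ma, mb, xs, ((a :: v).map Sym.bit ++ rest).tail, tb, tc, acc.map Sym.bit, wb, va⟩))
      rfl (Runs.blk hstep) h1
    have e : ((orA f v acc.tail).map Sym.bit).reverse ++
        (.bit ((a && f) || acc.headD false) :: va) =
        ((orA f (a :: v) acc).map Sym.bit).reverse ++ va := by
      simp [orA]
    rw [e] at this
    have e2 : (acc.tail.drop v.length).map Sym.bit = (acc.drop (a :: v).length).map Sym.bit := by
      cases acc <;> simp
    rw [e2] at this
    refine this.mono ?_
    simp only [List.length_cons]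
    omega

theorem fin_back : ∀ (L : List Sym) (x z f g h cy md kp I O ma mb xs ta tb tc wa wb),
    Runs (.loop (fun r => isSome r.y) (.blk [pu .wa fun r => sy r.y, py .va]))
      (⟨x, L.head?, z, f, g, h, cy, md, kp⟩,
        ⟨I, O, ma, mb, xs, ta, tb, tc, wa, wb, L.tail⟩)
      (⟨x, none, z, f, g, h, cy, md, kp⟩,
        ⟨I, O, ma, mb, xs, ta, tb, tc, L.reverse ++ wa, wb, []⟩)
      (2 * L.length + 1) := by
  intro L
  induction L with
  | nil =>
    intro x z f g h cy md kp I O ma mb xs ta tb tc wa wb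
    exact (Runs.loop_false rfl).mono (by simp)
  | cons a L ih =>
    intro x z f g h cy md kp I O ma mb xs ta tb tc wa wb
    have := Runs.loop_true (c := fun r => isSome r.y) (b := 1)
      (s := (⟨x, (a :: L).head?, z, f, g, h, cy, md, kp⟩,
        ⟨I, O, ma, mb, xs, ta, tb, tc, wa, wb, (a :: L).tail⟩))
      rfl (Runs.blk rfl) (ih x z f g h cy md kp I O ma mb xs ta tb tc (a :: wa) wb)
    have e : L.reverse ++ (a :: wa) = (a :: L).reverse ++ wa := by simp
    rw [e] at this
    refine this.mono ?_
    simp only [List.length_cons]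
    omega

theorem orA_length (f : Bool) (v acc : List Bool) : (orA f v acc).length = v.length := by
  induction v generalizing acc with
  | nil => rfl
  | cons a v ih => simp [orA, ih]

theorem runs_finRec (n : ℕ) (R : Rec) (hR : R.1.length = n ∧ R.2.length = n + 1)
    (acc : List Bool) (hacc : acc.length ≤ n + 1) (rest : List Sym)
    (y z f g h cy md kp I O ma mb xs tb tc wb) :
    ∃ f', Runs finRec
      (⟨(encRec R ++ rest).head?, y, z, f, g, h, cy, md, kp⟩,
        ⟨I, O, ma, mb, xs, (encRec R ++ rest).tail, tb, tc, acc.map Sym.bit, wb, []⟩)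
      (⟨some .sep, none, z, f', g, h, cy, md, kp⟩,
        ⟨I, O, ma, mb, xs, rest, tb, tc, (orA (!h && blank R.1) R.2 acc).map Sym.bit, wb, []⟩)
      (6 * n + 10) := by
  obtain ⟨k, v⟩ := R
  obtain ⟨hk, hv⟩ := hR
  change k.length = n at hk
  change v.length = n + 1 at hv
  have e : encRec (k, v) ++ rest = k.map Sym.cell ++ (v.map Sym.bit ++ (Sym.sep :: rest)) := by
    simp [encRec]
  rw [e]
  have h0 : Runs (.blk [.load fun r => { r with f := !r.h }])
      (⟨(k.map Sym.cell ++ (v.map Sym.bit ++ (Sym.sep :: rest))).head?, y, z, f, g, h, cy, md, kp⟩,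
        ⟨I, O, ma, mb, xs, (k.map Sym.cell ++ (v.map Sym.bit ++ (Sym.sep :: rest))).tail, tb, tc,
          acc.map Sym.bit, wb, []⟩)
      (⟨(k.map Sym.cell ++ (v.map Sym.bit ++ (Sym.sep :: rest))).head?, y, z, !h, g, h, cy, md,
        kp⟩,
        ⟨I, O, ma, mb, xs, (k.map Sym.cell ++ (v.map Sym.bit ++ (Sym.sep :: rest))).tail, tb, tc,
          acc.map Sym.bit, wb, []⟩) 1 := Runs.blk rfl
  have h1 := fin_cells k (v.map Sym.bit ++ (Sym.sep :: rest)) (isBit_cell_rest v rest) y z (!h) g h
    cy md kp I O ma mb xs tb tc (acc.map Sym.bit) wb []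
  obtain ⟨y2, h2⟩ := fin_bits v acc (Sym.sep :: rest) rfl y z (!h && blank k) g h cy md kp I O ma mb
    xs tb tc wb []
  have e2 : (acc.drop v.length).map Sym.bit = [] := by
    rw [List.drop_eq_nil_of_le (by omega)]; rfl
  rw [e2] at h2
  have h3 : Runs (.blk [py .va])
      (⟨(Sym.sep :: rest).head?, y2, z, !h && blank k, g, h, cy, md, kp⟩,
        ⟨I, O, ma, mb, xs, (Sym.sep :: rest).tail, tb, tc, [], wb,
          ((orA (!h && blank k) v acc).map Sym.bit).reverse ++ []⟩)
      (⟨some .sep, ((orA (!h && blank k) v acc).map Sym.bit).reverse.head?, z, !h && blank k, g, h,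
        cy, md, kp⟩,
        ⟨I, O, ma, mb, xs, rest, tb, tc, [], wb,
          ((orA (!h && blank k) v acc).map Sym.bit).reverse.tail⟩) 1 := by
    apply Runs.blk
    simp only [List.append_nil]
    rfl
  have h4 := fin_back ((orA (!h && blank k) v acc).map Sym.bit).reverse (some .sep) z
    (!h && blank k) g h cy md kp I O ma mb xs rest tb tc [] wb
  simp only [List.reverse_reverse, List.append_nil] at h4
  refine ⟨!h && blank k, (h0.seq (h1.seq (h2.seq (h3.seq h4)))).mono ?_⟩
  rw [List.length_reverse, List.length_map, orA_length, hk, hv]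
  omega

theorem fin_loop (n : ℕ) : ∀ (T : List Rec)
    (_hT : ∀ R ∈ T, R.1.length = n ∧ R.2.length = n + 1)
    (acc : List Bool) (_hacc : acc.length ≤ n + 1)
    (y z f g h cy md kp I O ma mb xs tb tc wb),
    ∃ y' f', Runs (.loop (fun r => isSome r.x) (.seq finRec (.blk [px .ta])))
      (⟨(encTab T).head?, y, z, f, g, h, cy, md, kp⟩,
        ⟨I, O, ma, mb, xs, (encTab T).tail, tb, tc, acc.map Sym.bit, wb, []⟩)
      (⟨none, y', z, f', g, h, cy, md, kp⟩,
        ⟨I, O, ma, mb, xs, [], tb, tc,
          (T.foldl (fun acc R => orA (!h && blank R.1) R.2 acc) acc).map Sym.bit, wb, []⟩)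
      (T.length * (6 * n + 12) + 1) := by
  intro T
  induction T with
  | nil =>
    intro hT acc hacc y z f g h cy md kp I O ma mb xs tb tc wb
    exact ⟨y, f, (Runs.loop_false rfl).mono (by simp)⟩
  | cons R T ih =>
    intro hT acc hacc y z f g h cy md kp I O ma mb xs tb tc wb
    have hR := hT R (by simp)
    have hT' : ∀ R ∈ T, R.1.length = n ∧ R.2.length = n + 1 := fun B hB => hT B (by simp [hB])
    obtain ⟨f1, h1⟩ := runs_finRec n R hR acc hacc (encTab T) y z f g h cy md kp I O ma mb xs tb tc
      wb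
    have hb : Runs (.blk [px .ta])
        (⟨some .sep, none, z, f1, g, h, cy, md, kp⟩,
        ⟨I, O, ma, mb, xs, encTab T, tb, tc, (orA (!h && blank R.1) R.2 acc).map Sym.bit, wb, []⟩)
        (⟨(encTab T).head?, none, z, f1, g, h, cy, md, kp⟩,
        ⟨I, O, ma, mb, xs, (encTab T).tail, tb, tc, (orA (!h && blank R.1) R.2 acc).map Sym.bit, wb,
          []⟩) 1 := Runs.blk rfl
    obtain ⟨y2, f2, h2⟩ := ih hT' (orA (!h && blank R.1) R.2 acc)
      (by rw [orA_length]; omega) none z f1 g h cy md kp I O ma mb xs tb tc wb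
    refine ⟨y2, f2, ?_⟩
    have := Runs.loop_true (c := fun r => isSome r.x)
      (s := (⟨(encTab (R :: T)).head?, y, z, f, g, h, cy, md, kp⟩,
        ⟨I, O, ma, mb, xs, (encTab (R :: T)).tail, tb, tc, acc.map Sym.bit, wb, []⟩))
      (encRec_head R (encTab T)) (h1.seq hb) h2
    refine this.mono ?_
    rw [List.length_cons]
    ring_nf
    omega

theorem fin_any : ∀ (acc : List Bool) (y z f g h cy md kp I O ma mb xs ta tb tc wb va),
    Runs (.loop (fun r => isSome r.x) (.blk [pu .va fun r => sy r.x,
      .load fun r => { r with f := r.f || bitOf r.x }, px .wa]))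
      (⟨(acc.map Sym.bit).head?, y, z, f, g, h, cy, md, kp⟩,
        ⟨I, O, ma, mb, xs, ta, tb, tc, (acc.map Sym.bit).tail, wb, va⟩)
      (⟨none, y, z, f || acc.any id, g, h, cy, md, kp⟩,
        ⟨I, O, ma, mb, xs, ta, tb, tc, [], wb, (acc.map Sym.bit).reverse ++ va⟩)
      (2 * acc.length + 1) := by
  intro acc
  induction acc with
  | nil =>
    intro y z f g h cy md kp I O ma mb xs ta tb tc wb va
    have e : (f || ([] : List Bool).any id) = f := by simp
    rw [e]
    exact (Runs.loop_false rfl).mono (by simp)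
  | cons a acc ih =>
    intro y z f g h cy md kp I O ma mb xs ta tb tc wb va
    have := Runs.loop_true (c := fun r => isSome r.x) (b := 1)
      (s := (⟨((a :: acc).map Sym.bit).head?, y, z, f, g, h, cy, md, kp⟩,
        ⟨I, O, ma, mb, xs, ta, tb, tc, ((a :: acc).map Sym.bit).tail, wb, va⟩))
      rfl (Runs.blk rfl) (ih y z (f || a) g h cy md kp I O ma mb xs ta tb tc wb (.bit a :: va))
    have e : ((f || a) || acc.any id) = (f || (a :: acc).any id) := by
      simp [Bool.or_assoc]
    have e2 : (acc.map Sym.bit).reverse ++ (.bit a :: va) =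
        ((a :: acc).map Sym.bit).reverse ++ va := by simp
    rw [e, e2] at this
    refine this.mono ?_
    simp only [List.length_cons]
    omega

theorem fin_out : ∀ (acc : List Bool) (y z f g h cy md kp I O ma mb xs ta tb tc wa wb),
    Runs (.loop (fun r => isSome r.x) (.blk [.push .out fun r => bitOf r.x, px .va]))
      (⟨(acc.map Sym.bit).head?, y, z, f, g, h, cy, md, kp⟩,
        ⟨I, O, ma, mb, xs, ta, tb, tc, wa, wb, (acc.map Sym.bit).tail⟩)
      (⟨none, y, z, f, g, h, cy, md, kp⟩,
        ⟨I, acc.reverse ++ O, ma, mb, xs, ta, tb, tc, wa, wb, []⟩)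
      (2 * acc.length + 1) := by
  intro acc
  induction acc with
  | nil =>
    intro y z f g h cy md kp I O ma mb xs ta tb tc wa wb
    exact (Runs.loop_false rfl).mono (by simp)
  | cons a acc ih =>
    intro y z f g h cy md kp I O ma mb xs ta tb tc wa wb
    have := Runs.loop_true (c := fun r => isSome r.x) (b := 1)
      (s := (⟨((a :: acc).map Sym.bit).head?, y, z, f, g, h, cy, md, kp⟩,
        ⟨I, O, ma, mb, xs, ta, tb, tc, wa, wb, ((a :: acc).map Sym.bit).tail⟩))
      rfl (Runs.blk rfl) (ih y z f g h cy md kp I (a :: O) ma mb xs ta tb tc wa wb)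
    have e : acc.reverse ++ (a :: O) = (a :: acc).reverse ++ O := by simp
    rw [e] at this
    refine this.mono ?_
    simp only [List.length_cons]
    omega

/-- The result read off from the final table. -/
def resF (M : List Key) (T : List Rec) : List Bool :=
  T.foldl (fun acc R => orA (!M.any blank && blank R.1) R.2 acc) []

theorem resF_length (n : ℕ) (h : Bool) (T : List Rec)
    (hT : ∀ R ∈ T, R.1.length = n ∧ R.2.length = n + 1) (acc : List Bool)
    (hacc : acc.length ≤ n + 1) :
    (T.foldl (fun acc R => orA (!h && blank R.1) R.2 acc) acc).length ≤ n + 1 := by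
  induction T generalizing acc with
  | nil => exact hacc
  | cons R T ih =>
    rw [List.foldl_cons]
    apply ih (fun B hB => hT B (by simp [hB]))
    rw [orA_length]
    exact (hT R (by simp)).2.le

/-- Cost of the final stage. -/
def costF (n m B : ℕ) : ℕ := 2 * (m * (n + 1)) + B * (6 * n + 12) + 4 * n + 20

theorem runs_fin (n : ℕ) (M : List Key) (hM : ∀ A ∈ M, A.length = n) (T : List Rec)
    (hT : ∀ R ∈ T, R.1.length = n ∧ R.2.length = n + 1) (B : ℕ) (hB : T.length ≤ B)
    (x y z f g h cy md kp) :
    Runs fin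
      (⟨x, y, z, f, g, h, cy, md, kp⟩,
        ⟨[], [], encMat M, [], [], encTab T, [], [], [], [], []⟩)
      (reg0, ⟨[], (resF M T).any id :: resF M T, [], [], [], [], [], [], [], [], []⟩)
      (costF n M.length B) := by
  have h0 : Runs (.blk [.load fun r => { r with f := true, h := false }, px .ma])
      (⟨x, y, z, f, g, h, cy, md, kp⟩,
        ⟨[], [], encMat M, [], [], encTab T, [], [], [], [], []⟩)
      (⟨(encMat M).head?, y, z, true, g, false, cy, md, kp⟩,
        ⟨[], [], (encMat M).tail, [], [], encTab T, [], [], [], [], []⟩) 1 := Runs.blk rfl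
  have h1 := scan_loop (encMat M) y z true g false cy md kp [] [] [] [] (encTab T) [] [] [] [] []
  rw [scan_mat, Bool.false_or] at h1
  have h2 : Runs (.blk [px .ta])
      (⟨none, y, z, true, g, M.any blank, cy, md, kp⟩,
        ⟨[], [], [], [], [], encTab T, [], [], [], [], []⟩)
      (⟨(encTab T).head?, y, z, true, g, M.any blank, cy, md, kp⟩,
        ⟨[], [], [], [], [], (encTab T).tail, [], [], ([] : List Bool).map Sym.bit, [], []⟩) 1 :=
    Runs.blk rfl
  obtain ⟨y3, f3, h3⟩ := fin_loop n T hT [] (by simp) y z true g (M.any blank) cy md kp [] [] [] []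
    [] [] [] []
  have hres : (T.foldl (fun acc R => orA (!(M.any blank) && blank R.1) R.2 acc) []) = resF M T :=
    rfl
  rw [hres] at h3
  have h4 : Runs (.blk [.load fun r => { r with f := false }, px .wa])
      (⟨none, y3, z, f3, g, M.any blank, cy, md, kp⟩,
        ⟨[], [], [], [], [], [], [], [], (resF M T).map Sym.bit, [], []⟩)
      (⟨((resF M T).map Sym.bit).head?, y3, z, false, g, M.any blank, cy, md, kp⟩,
        ⟨[], [], [], [], [], [], [], [], ((resF M T).map Sym.bit).tail, [], []⟩) 1 := Runs.blk rfl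
  have h5 := fin_any (resF M T) y3 z false g (M.any blank) cy md kp [] [] [] [] [] [] [] [] [] []
  have h6 : Runs (.blk [px .va])
      (⟨none, y3, z, false || (resF M T).any id, g, M.any blank, cy, md, kp⟩,
        ⟨[], [], [], [], [], [], [], [], [], [], ((resF M T).map Sym.bit).reverse ++ []⟩)
      (⟨((resF M T).reverse.map Sym.bit).head?, y3, z, (resF M T).any id, g, M.any blank, cy, md,
        kp⟩,
        ⟨[], [], [], [], [], [], [], [], [], [], ((resF M T).reverse.map Sym.bit).tail⟩) 1 := by
    apply Runs.blk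
    simp only [Bool.false_or, List.append_nil, List.map_reverse]
    rfl
  have h7 := fin_out (resF M T).reverse y3 z ((resF M T).any id) g (M.any blank) cy md kp [] [] []
    [] [] [] [] [] [] []
  simp only [List.reverse_reverse, List.append_nil] at h7
  have h8 : Runs (.blk [.push .out fun r => r.f, .load fun _ => reg0])
      (⟨none, y3, z, (resF M T).any id, g, M.any blank, cy, md, kp⟩,
        ⟨[], resF M T, [], [], [], [], [], [], [], [], []⟩)
      (reg0, ⟨[], (resF M T).any id :: resF M T, [], [], [], [], [], [], [], [], []⟩) 1 :=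
    Runs.blk rfl
  have := h0.seq (h1.seq (h2.seq (h3.seq (h4.seq (h5.seq (h6.seq (h7.seq h8)))))))
  refine this.mono ?_
  have hl : (resF M T).length ≤ n + 1 := resF_length n (M.any blank) T hT [] (by simp)
  rw [List.length_reverse, encMat_length n M hM]
  have a1 : T.length * (6 * n + 12) ≤ B * (6 * n + 12) := Nat.mul_le_mul_right _ hB
  unfold costF
  omega

end Pool.Agent.H1.Sat
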