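import Pool.Agent.H1.SatExecT

/-!
# Execution of the merging stage
-/

namespace Pool.Agent.H1.Sat

open Op Prog

/-- The forward loop of the merging stage. -/
def mLoop : Prog :=
  .loop (fun r => isCell r.x || isBit r.x) (.blk [pu .va pairS, .load pairR, px .tb, py .wa])

/-- Equality of keys. -/
def eqK : Key → Key → Bool
  | a :: k, b :: k' => (a == b) && eqK k k'
  | _, _ => true

/-- Combination of counts. -/
def comb (md : Bool) : Bool → List Bool → List Bool → List Bool
  | cy, a :: v, b :: u => combS md cy a b :: comb md (combC md cy a b) v u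
  | _, _, _ => []

/-- Triples of the two counts and their combination. -/
def tri (md : Bool) : Bool → List Bool → List Bool → List Sym
  | cy, a :: v, b :: u => .pb a b (combS md cy a b) :: tri md (combC md cy a b) v u
  | _, _, _ => []

theorem m_cells : ∀ (k kc : Key) (_h : k.length = kc.length) (rest rest' : List Sym)
    (z f g h cy md kp I O ma mb xs ta tc wb va) (s' : State) (b : ℕ)
    (_hr : Runs mLoop
      (⟨rest.head?, rest'.head?, z, f && eqK k kc, g, h, cy, md, kp⟩,
        ⟨I, O, ma, mb, xs, ta, rest.tail, tc, rest'.tail, wb,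
          (List.zipWith Sym.pc k kc).reverse ++ va⟩) s' b),
    Runs mLoop
      (⟨(k.map Sym.cell ++ rest).head?, (kc.map Sym.cell ++ rest').head?, z, f, g, h, cy, md, kp⟩,
        ⟨I, O, ma, mb, xs, ta, (k.map Sym.cell ++ rest).tail, tc,
          (kc.map Sym.cell ++ rest').tail, wb, va⟩) s' (2 * k.length + b) := by
  intro k
  induction k with
  | nil =>
    intro kc hkc rest rest' z f g h cy md kp I O ma mb xs ta tc wb va s' b hr
    obtain rfl : kc = [] := List.eq_nil_of_length_eq_zero hkc.symm
    have e : (f && eqK [] []) = f := by cases f <;> rfl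
    rw [e] at hr
    exact hr.mono (by simp)
  | cons a k ih =>
    intro kc hkc rest rest' z f g h cy md kp I O ma mb xs ta tc wb va s' b hr
    obtain ⟨c, kc, rfl⟩ : ∃ c kc', kc = c :: kc' := by
      cases kc with
      | nil => simp at hkc
      | cons c kc => exact ⟨c, kc, rfl⟩
    have e1 : (f && eqK (a :: k) (c :: kc)) = ((f && (a == c)) && eqK k kc) := by
      simp only [eqK, Bool.and_assoc]
    have e2 : (List.zipWith Sym.pc (a :: k) (c :: kc)).reverse ++ va =
        (List.zipWith Sym.pc k kc).reverse ++ (.pc a c :: va) := by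
      simp
    rw [e1, e2] at hr
    have h2 := ih kc (by simpa using hkc) rest rest' z (f && (a == c)) g h cy md kp I O ma mb xs ta
      tc wb (.pc a c :: va) s' b hr
    have := Runs.loop_true (c := fun r => isCell r.x || isBit r.x) (b := 1)
      (s := (⟨((a :: k).map Sym.cell ++ rest).head?, ((c :: kc).map Sym.cell ++ rest').head?, z, f,
        g, h, cy, md, kp⟩,
        ⟨I, O, ma, mb, xs, ta, ((a :: k).map Sym.cell ++ rest).tail, tc,
          ((c :: kc).map Sym.cell ++ rest').tail, wb, va⟩)) rfl (Runs.blk rfl) h2
    refine this.mono ?_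
    simp only [List.length_cons]
    omega

theorem m_cells_none : ∀ (k : Key) (rest : List Sym)
    (z f g h cy md kp I O ma mb xs ta tc wb va) (s' : State) (b : ℕ)
    (_hr : Runs mLoop
      (⟨rest.head?, none, z, f, g, h, cy, md, kp⟩,
        ⟨I, O, ma, mb, xs, ta, rest.tail, tc, [], wb,
          (List.zipWith Sym.pc k k).reverse ++ va⟩) s' b),
    Runs mLoop
      (⟨(k.map Sym.cell ++ rest).head?, none, z, f, g, h, cy, md, kp⟩,
        ⟨I, O, ma, mb, xs, ta, (k.map Sym.cell ++ rest).tail, tc, [], wb, va⟩) s'
      (2 * k.length + b) := by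
  intro k
  induction k with
  | nil =>
    intro rest z f g h cy md kp I O ma mb xs ta tc wb va s' b hr
    exact hr.mono (by simp)
  | cons a k ih =>
    intro rest z f g h cy md kp I O ma mb xs ta tc wb va s' b hr
    have e2 : (List.zipWith Sym.pc (a :: k) (a :: k)).reverse ++ va =
        (List.zipWith Sym.pc k k).reverse ++ (.pc a a :: va) := by
      simp
    rw [e2] at hr
    have h2 := ih rest z f g h cy md kp I O ma mb xs ta tc wb (.pc a a :: va) s' b hr
    have hstep : runOps [pu .va pairS, .load pairR, px .tb, py .wa]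
        (⟨((a :: k).map Sym.cell ++ rest).head?, none, z, f, g, h, cy, md, kp⟩,
        ⟨I, O, ma, mb, xs, ta, ((a :: k).map Sym.cell ++ rest).tail, tc, [], wb, va⟩) =
        (⟨(k.map Sym.cell ++ rest).head?, none, z, f, g, h, cy, md, kp⟩,
        ⟨I, O, ma, mb, xs, ta, (k.map Sym.cell ++ rest).tail, tc, [], wb, .pc a a :: va⟩) := by
      have e : (f && (a == a)) = f := by simp
      have : runOps [pu .va pairS, .load pairR, px .tb, py .wa]
        (⟨((a :: k).map Sym.cell ++ rest).head?, none, z, f, g, h, cy, md, kp⟩,
        ⟨I, O, ma, mb, xs, ta, ((a :: k).map Sym.cell ++ rest).tail, tc, [], wb, va⟩) =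
        (⟨(k.map Sym.cell ++ rest).head?, none, z, f && (a == a), g, h, cy, md, kp⟩,
        ⟨I, O, ma, mb, xs, ta, (k.map Sym.cell ++ rest).tail, tc, [], wb, .pc a a :: va⟩) := rfl
      rw [this, e]
    have := Runs.loop_true (c := fun r => isCell r.x || isBit r.x) (b := 1)
      (s := (⟨((a :: k).map Sym.cell ++ rest).head?, none, z, f,
        g, h, cy, md, kp⟩,
        ⟨I, O, ma, mb, xs, ta, ((a :: k).map Sym.cell ++ rest).tail, tc,
          [], wb, va⟩)) rfl (Runs.blk hstep) h2
    refine this.mono ?_
    simp only [List.length_cons]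
    omega

theorem m_bits : ∀ (v u : List Bool) (_h : v.length = u.length) (rest rest' : List Sym)
    (z f g h cy md kp I O ma mb xs ta tc wb va),
    ∃ cy', Runs mLoop
      (⟨(v.map Sym.bit ++ (.sep :: rest)).head?, (u.map Sym.bit ++ rest').head?, z, f, g, h, cy, md,
        kp⟩,
        ⟨I, O, ma, mb, xs, ta, (v.map Sym.bit ++ (.sep :: rest)).tail, tc,
          (u.map Sym.bit ++ rest').tail, wb, va⟩)
      (⟨some .sep, rest'.head?, z, f, g, h, cy', md, kp⟩,
        ⟨I, O, ma, mb, xs, ta, rest, tc, rest'.tail, wb, (tri md cy v u).reverse ++ va⟩)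
      (2 * v.length + 1) := by
  intro v
  induction v with
  | nil =>
    intro u hu rest rest' z f g h cy md kp I O ma mb xs ta tc wb va
    obtain rfl : u = [] := List.eq_nil_of_length_eq_zero hu.symm
    exact ⟨cy, (Runs.loop_false rfl).mono (by simp)⟩
  | cons a v ih =>
    intro u hu rest rest' z f g h cy md kp I O ma mb xs ta tc wb va
    obtain ⟨c, u, rfl⟩ : ∃ c u', u = c :: u' := by
      cases u with
      | nil => simp at hu
      | cons c u => exact ⟨c, u, rfl⟩
    obtain ⟨cy', h2⟩ := ih u (by simpa using hu) rest rest' z f g h (combC md cy a c) md kp I O ma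
      mb xs ta tc wb (.pb a c (combS md cy a c) :: va)
    refine ⟨cy', ?_⟩
    have := Runs.loop_true (c := fun r => isCell r.x || isBit r.x) (b := 1)
      (s := (⟨((a :: v).map Sym.bit ++ (.sep :: rest)).head?, ((c :: u).map Sym.bit ++ rest').head?,
        z, f, g, h, cy, md, kp⟩,
        ⟨I, O, ma, mb, xs, ta, ((a :: v).map Sym.bit ++ (.sep :: rest)).tail, tc,
          ((c :: u).map Sym.bit ++ rest').tail, wb, va⟩)) rfl (Runs.blk rfl) h2
    have e : (tri md (combC md cy a c) v u).reverse ++ (.pb a c (combS md cy a c) :: va) =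
        (tri md cy (a :: v) (c :: u)).reverse ++ va := by
      simp [tri]
    rw [e] at this
    refine this.mono ?_
    simp only [List.length_cons]
    omega

theorem m_bits_none : ∀ (v : List Bool) (rest : List Sym)
    (z f g h cy md kp I O ma mb xs ta tc wb va),
    ∃ cy', Runs mLoop
      (⟨(v.map Sym.bit ++ (.sep :: rest)).head?, none, z, f, g, h, cy, md, kp⟩,
        ⟨I, O, ma, mb, xs, ta, (v.map Sym.bit ++ (.sep :: rest)).tail, tc, [], wb, va⟩)
      (⟨some .sep, none, z, f, g, h, cy', md, kp⟩,
        ⟨I, O, ma, mb, xs, ta, rest, tc, [], wb,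
          (tri md cy v (v.map fun _ => false)).reverse ++ va⟩)
      (2 * v.length + 1) := by
  intro v
  induction v with
  | nil =>
    intro rest z f g h cy md kp I O ma mb xs ta tc wb va
    exact ⟨cy, (Runs.loop_false rfl).mono (by simp)⟩
  | cons a v ih =>
    intro rest z f g h cy md kp I O ma mb xs ta tc wb va
    obtain ⟨cy', h2⟩ := ih rest z f g h (combC md cy a false) md kp I O ma
      mb xs ta tc wb (.pb a false (combS md cy a false) :: va)
    refine ⟨cy', ?_⟩
    have := Runs.loop_true (c := fun r => isCell r.x || isBit r.x) (b := 1)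
      (s := (⟨((a :: v).map Sym.bit ++ (.sep :: rest)).head?, none,
        z, f, g, h, cy, md, kp⟩,
        ⟨I, O, ma, mb, xs, ta, ((a :: v).map Sym.bit ++ (.sep :: rest)).tail, tc,
          [], wb, va⟩)) rfl (Runs.blk rfl) h2
    have e : (tri md (combC md cy a false) v (v.map fun _ => false)).reverse ++
        (.pb a false (combS md cy a false) :: va) =
        (tri md cy (a :: v) ((a :: v).map fun _ => false)).reverse ++ va := by
      simp [tri]
    rw [e] at this
    refine this.mono ?_
    simp only [List.length_cons]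
    omega

theorem m_back : ∀ (L : List Sym) (x z f g h cy md kp I O ma mb xs ta tb tc wa wb),
    Runs (.loop (fun r => isSome r.y)
      (.blk [pu .ta fun r => outT r.f r.y, pu .wa fun r => outW r.f r.y, py .va]))
      (⟨x, L.head?, z, f, g, h, cy, md, kp⟩,
        ⟨I, O, ma, mb, xs, ta, tb, tc, wa, wb, L.tail⟩)
      (⟨x, none, z, f, g, h, cy, md, kp⟩,
        ⟨I, O, ma, mb, xs, (L.map fun p => outT f (some p)).reverse ++ ta, tb, tc,
          (L.map fun p => outW f (some p)).reverse ++ wa, wb, []⟩)
      (2 * L.length + 1) := by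
  intro L
  induction L with
  | nil =>
    intro x z f g h cy md kp I O ma mb xs ta tb tc wa wb
    exact (Runs.loop_false rfl).mono (by simp)
  | cons a L ih =>
    intro x z f g h cy md kp I O ma mb xs ta tb tc wa wb
    have := Runs.loop_true (c := fun r => isSome r.y) (b := 1)
      (s := (⟨x, (a :: L).head?, z, f, g, h, cy, md, kp⟩,
        ⟨I, O, ma, mb, xs, ta, tb, tc, wa, wb, (a :: L).tail⟩))
      rfl (Runs.blk rfl) (ih x z f g h cy md kp I O ma mb xs (outT f (some a) :: ta) tb tc
        (outW f (some a) :: wa) wb)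
    have e1 : (L.map fun p => outT f (some p)).reverse ++ (outT f (some a) :: ta) =
        ((a :: L).map fun p => outT f (some p)).reverse ++ ta := by simp
    have e2 : (L.map fun p => outW f (some p)).reverse ++ (outW f (some a) :: wa) =
        ((a :: L).map fun p => outW f (some p)).reverse ++ wa := by simp
    rw [e1, e2] at this
    refine this.mono ?_
    simp only [List.length_cons]
    omega

theorem map_outT_pc (f : Bool) : ∀ (k kc : Key), k.length = kc.length →
    (List.zipWith Sym.pc k kc).map (fun p => outT f (some p)) = kc.map Sym.cell := by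
  intro k
  induction k with
  | nil => intro kc h; rw [List.eq_nil_of_length_eq_zero h.symm]; rfl
  | cons a k ih =>
    intro kc h
    cases kc with
    | nil => simp at h
    | cons c kc =>
      have := ih kc (by simpa using h)
      simpa [outT] using this

theorem map_outW_pc (f : Bool) : ∀ (k kc : Key), k.length = kc.length →
    (List.zipWith Sym.pc k kc).map (fun p => outW f (some p)) = k.map Sym.cell := by
  intro k
  induction k with
  | nil => intro kc h; rw [List.eq_nil_of_length_eq_zero h.symm]; rfl
  | cons a k ih =>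
    intro kc h
    cases kc with
    | nil => simp at h
    | cons c kc =>
      have := ih kc (by simpa using h)
      simpa [outW] using this

theorem map_outT_tri (md f : Bool) : ∀ (v u : List Bool) (cy : Bool), v.length = u.length →
    (tri md cy v u).map (fun p => outT f (some p)) = (u.map (· && !f)).map Sym.bit := by
  intro v
  induction v with
  | nil => intro u cy h; rw [List.eq_nil_of_length_eq_zero h.symm]; rfl
  | cons a v ih =>
    intro u cy h
    cases u with
    | nil => simp at h
    | cons c u =>
      have := ih u (combC md cy a c) (by simpa using h)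
      simpa [outT, tri] using this

theorem map_outW_tri (md f : Bool) : ∀ (v u : List Bool) (cy : Bool), v.length = u.length →
    (tri md cy v u).map (fun p => outW f (some p)) =
      (if f then comb md cy v u else v).map Sym.bit := by
  intro v
  induction v with
  | nil => intro u cy h; rw [List.eq_nil_of_length_eq_zero h.symm]; cases f <;> rfl
  | cons a v ih =>
    intro u cy h
    cases u with
    | nil => simp at h
    | cons c u =>
      have := ih u (combC md cy a c) (by simpa using h)
      cases f
      · simpa [outW, tri] using this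
      · simpa [outW, tri, comb] using this

theorem tri_length (md cy : Bool) (v u : List Bool) (h : v.length = u.length) :
    (tri md cy v u).length = v.length := by
  induction v generalizing u cy with
  | nil => rw [List.eq_nil_of_length_eq_zero h.symm]; rfl
  | cons a v ih =>
    cases u with
    | nil => simp at h
    | cons c u => simp [tri, ih _ u (by simpa using h)]

/-- Effect of merging one record. -/
def mrg (md : Bool) (cur : Option Rec) (R : Rec) : Rec × Rec :=
  match cur with
  | none => ((R.1, R.2.map fun _ => false), (R.1, comb md false R.2 (R.2.map fun _ => false)))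
  | some C => ((C.1, C.2.map (· && !eqK R.1 C.1)),
      (R.1, if eqK R.1 C.1 then comb md false R.2 C.2 else R.2))

/-- The current record on its stack. -/
def encCur : Option Rec → List Sym
  | none => []
  | some C => encRec C

theorem m_tail (k kc : Key) (hk : k.length = kc.length) (v u : List Bool) (hv : v.length = u.length)
    (x y z f g h cy md kp I O ma mb xs ta tb tc wb) :
    Runs (.seq (.blk [pu .ta fun _ => .sep, pu .wa fun _ => .sep, py .va])
      (.loop (fun r => isSome r.y)
      (.blk [pu .ta fun r => outT r.f r.y, pu .wa fun r => outW r.f r.y, py .va])))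
      (⟨x, y, z, f, g, h, cy, md, kp⟩,
        ⟨I, O, ma, mb, xs, ta, tb, tc, [], wb,
          (tri md false v u).reverse ++ ((List.zipWith Sym.pc k kc).reverse ++ [])⟩)
      (⟨x, none, z, f, g, h, cy, md, kp⟩,
        ⟨I, O, ma, mb, xs, encRec (kc, u.map (· && !f)) ++ ta, tb, tc,
          encRec (k, if f then comb md false v u else v), wb, []⟩)
      (2 * k.length + 2 * v.length + 2) := by
  set L := (tri md false v u).reverse ++ ((List.zipWith Sym.pc k kc).reverse ++ []) with hL
  have h0 : Runs (.blk [pu .ta fun _ => .sep, pu .wa fun _ => .sep, py .va])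
      (⟨x, y, z, f, g, h, cy, md, kp⟩,
        ⟨I, O, ma, mb, xs, ta, tb, tc, [], wb, L⟩)
      (⟨x, L.head?, z, f, g, h, cy, md, kp⟩,
        ⟨I, O, ma, mb, xs, .sep :: ta, tb, tc, [.sep], wb, L.tail⟩) 1 := Runs.blk rfl
  have h1 := m_back L x z f g h cy md kp I O ma mb xs (.sep :: ta) tb tc [.sep] wb
  have := h0.seq h1
  have e1 : (L.map fun p => outT f (some p)).reverse ++ (.sep :: ta) =
      encRec (kc, u.map (· && !f)) ++ ta := by
    rw [hL]
    simp only [List.map_append, List.map_reverse, List.append_nil, List.reverse_append,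
      List.reverse_reverse, map_outT_pc f k kc hk, map_outT_tri md f v u false hv, encRec]
    simp
  have e2 : (L.map fun p => outW f (some p)).reverse ++ [.sep] =
      encRec (k, if f then comb md false v u else v) := by
    rw [hL]
    simp only [List.map_append, List.map_reverse, List.append_nil, List.reverse_append,
      List.reverse_reverse, map_outW_pc f k kc hk, map_outW_tri md f v u false hv, encRec]
    simp
  rw [e1, e2] at this
  refine this.mono ?_
  rw [hL]
  simp only [List.length_append, List.length_reverse, List.length_zipWith, hk, min_self,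
    tri_length md false v u hv, List.length_nil]
  omega

theorem runs_mergeRec (n : ℕ) (R : Rec) (hR : R.1.length = n ∧ R.2.length = n + 1)
    (cur : Option Rec) (hcur : ∀ C ∈ cur, C.1.length = n ∧ C.2.length = n + 1)
    (rest : List Sym) (y z f g h cy md kp I O ma mb xs ta tc wb) :
    ∃ y' f' cy', Runs mergeRec
      (⟨(encRec R ++ rest).head?, y, z, f, g, h, cy, md, kp⟩,
        ⟨I, O, ma, mb, xs, ta, (encRec R ++ rest).tail, tc, encCur cur, wb, []⟩)
      (⟨some .sep, y', z, f', g, h, cy', md, kp⟩,
        ⟨I, O, ma, mb, xs, encRec (mrg md cur R).1 ++ ta, rest, tc, encRec (mrg md cur R).2, wb, []⟩)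
      (8 * n + 10) := by
  obtain ⟨k, v⟩ := R
  obtain ⟨hk, hv⟩ := hR
  change k.length = n at hk
  change v.length = n + 1 at hv
  have e : encRec (k, v) ++ rest = k.map Sym.cell ++ (v.map Sym.bit ++ (Sym.sep :: rest)) := by
    simp [encRec]
  rw [e]
  cases cur with
  | none =>
    have h0 : Runs (.blk [.load fun r => { r with f := true, cy := false }, py .wa])
        (⟨(k.map Sym.cell ++ (v.map Sym.bit ++ (Sym.sep :: rest))).head?, y, z, f, g, h, cy, md,
          kp⟩,
        ⟨I, O, ma, mb, xs, ta, (k.map Sym.cell ++ (v.map Sym.bit ++ (Sym.sep :: rest))).tail, tc,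
          encCur none, wb, []⟩)
        (⟨(k.map Sym.cell ++ (v.map Sym.bit ++ (Sym.sep :: rest))).head?, none, z, true, g, h,
          false, md, kp⟩,
        ⟨I, O, ma, mb, xs, ta, (k.map Sym.cell ++ (v.map Sym.bit ++ (Sym.sep :: rest))).tail, tc,
          [], wb, []⟩) 1 := Runs.blk rfl
    obtain ⟨cy', h1⟩ := m_bits_none v rest z true g h false md kp I O ma mb xs ta tc wb
      ((List.zipWith Sym.pc k k).reverse ++ [])
    have h2 := m_cells_none k (v.map Sym.bit ++ (Sym.sep :: rest)) z true g h false md kp I O ma mb
      xs ta tc wb [] _ _ h1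
    have h3 := m_tail k k rfl v (v.map fun _ => false) (by simp) (some .sep) none z true g h cy' md
      kp I O ma mb xs ta rest tc wb
    refine ⟨none, true, cy', ?_⟩
    have := h0.seq (h2.seq h3)
    have e2 : ((v.map fun _ => false).map (· && !true)) = v.map fun _ => false := by
      rw [List.map_map]; rfl
    rw [e2] at this
    refine this.mono ?_
    rw [hk, hv]
    omega
  | some C =>
    obtain ⟨kc, u⟩ := C
    obtain ⟨hkc, hu⟩ := hcur (kc, u) rfl
    change kc.length = n at hkc
    change u.length = n + 1 at hu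
    have e' : encCur (some (kc, u)) = kc.map Sym.cell ++ (u.map Sym.bit ++ [Sym.sep]) := rfl
    rw [e']
    have h0 : Runs (.blk [.load fun r => { r with f := true, cy := false }, py .wa])
        (⟨(k.map Sym.cell ++ (v.map Sym.bit ++ (Sym.sep :: rest))).head?, y, z, f, g, h, cy, md,
          kp⟩,
        ⟨I, O, ma, mb, xs, ta, (k.map Sym.cell ++ (v.map Sym.bit ++ (Sym.sep :: rest))).tail, tc,
          kc.map Sym.cell ++ (u.map Sym.bit ++ [Sym.sep]), wb, []⟩)
        (⟨(k.map Sym.cell ++ (v.map Sym.bit ++ (Sym.sep :: rest))).head?,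
          (kc.map Sym.cell ++ (u.map Sym.bit ++ [Sym.sep])).head?, z, true, g, h,
          false, md, kp⟩,
        ⟨I, O, ma, mb, xs, ta, (k.map Sym.cell ++ (v.map Sym.bit ++ (Sym.sep :: rest))).tail, tc,
          (kc.map Sym.cell ++ (u.map Sym.bit ++ [Sym.sep])).tail, wb, []⟩) 1 := Runs.blk rfl
    obtain ⟨cy', h1⟩ := m_bits v u (by omega) rest [Sym.sep] z (true && eqK k kc) g h false md kp I
      O ma mb xs ta tc wb ((List.zipWith Sym.pc k kc).reverse ++ [])
    have h2 := m_cells k kc (by omega) (v.map Sym.bit ++ (Sym.sep :: rest))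
      (u.map Sym.bit ++ [Sym.sep]) z true g h false md kp I O ma mb
      xs ta tc wb [] _ _ h1
    have h3 := m_tail k kc (by omega) v u (by omega) (some .sep) (some .sep) z (true && eqK k kc) g
      h cy' md kp I O ma mb xs ta rest tc wb
    refine ⟨none, eqK k kc, cy', ?_⟩
    have := h0.seq (h2.seq h3)
    simp only [Bool.true_and] at this
    refine this.mono ?_
    rw [hk, hv]
    omega

theorem eqK_self (k : Key) : eqK k k = true := by
  induction k with
  | nil => rfl
  | cons a k ih => simp [eqK, ih]

theorem comb_length (md cy : Bool) (v u : List Bool) (h : v.length = u.length) :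
    (comb md cy v u).length = v.length := by
  induction v generalizing u cy with
  | nil => rw [List.eq_nil_of_length_eq_zero h.symm]; rfl
  | cons a v ih =>
    cases u with
    | nil => simp at h
    | cons c u => simp [comb, ih _ u (by simpa using h)]

theorem mrg_length (n : ℕ) (md : Bool) (cur : Option Rec) (R : Rec)
    (hR : R.1.length = n ∧ R.2.length = n + 1)
    (hcur : ∀ C ∈ cur, C.1.length = n ∧ C.2.length = n + 1) :
    ((mrg md cur R).1.1.length = n ∧ (mrg md cur R).1.2.length = n + 1) ∧
    ((mrg md cur R).2.1.length = n ∧ (mrg md cur R).2.2.length = n + 1) := by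
  cases cur with
  | none => simp [mrg, hR, comb_length]
  | some C =>
    obtain ⟨h1, h2⟩ := hcur C rfl
    refine ⟨by simp [mrg, h1, h2], ?_⟩
    simp only [mrg]
    split_ifs
    · exact ⟨hR.1, by rw [comb_length _ _ _ _ (by omega)]; exact hR.2⟩
    · exact hR

/-- Effect of the merging loop. -/
def mrgL (md : Bool) : Option Rec → List Rec → List Rec → Option Rec × List Rec
  | cur, outs, [] => (cur, outs)
  | cur, outs, R :: T => mrgL md (some (mrg md cur R).2) ((mrg md cur R).1 :: outs) T

theorem stageM_loop (n : ℕ) : ∀ (T : List Rec)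
    (_hT : ∀ R ∈ T, R.1.length = n ∧ R.2.length = n + 1) (cur : Option Rec)
    (_hcur : ∀ C ∈ cur, C.1.length = n ∧ C.2.length = n + 1) (outs : List Rec)
    (y z f g h cy md kp I O ma mb xs ta tc wb),
    ∃ y' f' cy', Runs (.loop (fun r => isSome r.x) (.seq mergeRec (.blk [px .tb])))
      (⟨(encTab T).head?, y, z, f, g, h, cy, md, kp⟩,
        ⟨I, O, ma, mb, xs, encTab outs ++ ta, (encTab T).tail, tc, encCur cur, wb, []⟩)
      (⟨none, y', z, f', g, h, cy', md, kp⟩,
        ⟨I, O, ma, mb, xs, encTab (mrgL md cur outs T).2 ++ ta, [], tc,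
          encCur (mrgL md cur outs T).1, wb, []⟩)
      (T.length * (8 * n + 12) + 1) := by
  intro T
  induction T with
  | nil =>
    intro hT cur hcur outs y z f g h cy md kp I O ma mb xs ta tc wb
    exact ⟨y, f, cy, (Runs.loop_false rfl).mono (by simp)⟩
  | cons R T ih =>
    intro hT cur hcur outs y z f g h cy md kp I O ma mb xs ta tc wb
    have hR := hT R (by simp)
    have hT' : ∀ R ∈ T, R.1.length = n ∧ R.2.length = n + 1 := fun B hB => hT B (by simp [hB])
    obtain ⟨y1, f1, cy1, h1⟩ := runs_mergeRec n R hR cur hcur (encTab T) y z f g h cy md kp I O ma mb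
      xs (encTab outs ++ ta) tc wb
    have hb : Runs (.blk [px .tb])
        (⟨some .sep, y1, z, f1, g, h, cy1, md, kp⟩,
        ⟨I, O, ma, mb, xs, encRec (mrg md cur R).1 ++ (encTab outs ++ ta), encTab T, tc,
          encRec (mrg md cur R).2, wb, []⟩)
        (⟨(encTab T).head?, y1, z, f1, g, h, cy1, md, kp⟩,
        ⟨I, O, ma, mb, xs, encTab ((mrg md cur R).1 :: outs) ++ ta, (encTab T).tail, tc,
          encCur (some (mrg md cur R).2), wb, []⟩) 1 := by
      apply Runs.blk
      rw [encTab_cons, List.append_assoc]
      rfl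
    have hl := mrg_length n md cur R hR hcur
    obtain ⟨y2, f2, cy2, h2⟩ := ih hT' (some (mrg md cur R).2)
      (by intro C hC; rw [Option.mem_some_iff] at hC; subst hC; exact hl.2)
      ((mrg md cur R).1 :: outs) y1 z f1 g h cy1 md kp I O ma mb xs ta tc wb
    refine ⟨y2, f2, cy2, ?_⟩
    have := Runs.loop_true (c := fun r => isSome r.x)
      (s := (⟨(encTab (R :: T)).head?, y, z, f, g, h, cy, md, kp⟩,
        ⟨I, O, ma, mb, xs, encTab outs ++ ta, (encTab (R :: T)).tail, tc, encCur cur, wb, []⟩))
      (encRec_head R (encTab T)) (h1.seq hb) h2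
    refine this.mono ?_
    rw [List.length_cons]
    ring_nf
    omega

theorem mrgL_length (n : ℕ) (md : Bool) : ∀ (T : List Rec)
    (_hT : ∀ R ∈ T, R.1.length = n ∧ R.2.length = n + 1) (cur : Option Rec)
    (_hcur : ∀ C ∈ cur, C.1.length = n ∧ C.2.length = n + 1) (outs : List Rec)
    (_houts : ∀ R ∈ outs, R.1.length = n ∧ R.2.length = n + 1),
    (∀ C ∈ (mrgL md cur outs T).1, C.1.length = n ∧ C.2.length = n + 1) ∧
    (∀ R ∈ (mrgL md cur outs T).2, R.1.length = n ∧ R.2.length = n + 1) ∧
    (mrgL md cur outs T).2.length = outs.length + T.length := by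
  intro T
  induction T with
  | nil => intro hT cur hcur outs houts; exact ⟨hcur, houts, rfl⟩
  | cons R T ih =>
    intro hT cur hcur outs houts
    have hR := hT R (by simp)
    have hT' : ∀ R ∈ T, R.1.length = n ∧ R.2.length = n + 1 := fun B hB => hT B (by simp [hB])
    have hl := mrg_length n md cur R hR hcur
    obtain ⟨h1, h2, h3⟩ := ih hT' (some (mrg md cur R).2)
      (by intro C hC; rw [Option.mem_some_iff] at hC; subst hC; exact hl.2)
      ((mrg md cur R).1 :: outs) (by
        intro B hB
        rw [List.mem_cons] at hB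
        rcases hB with rfl | hB
        · exact hl.1
        · exact houts B hB)
    refine ⟨h1, h2, ?_⟩
    rw [mrgL, h3, List.length_cons, List.length_cons]
    omega

/-- The table after the merging stage. -/
def stM (md : Bool) (T : List Rec) : List Rec :=
  (mrgL md none [] T).1.toList ++ (mrgL md none [] T).2

theorem encCur_eq (cur : Option Rec) : encCur cur = encTab cur.toList := by
  cases cur <;> simp [encCur, encTab]

theorem stM_mem (n : ℕ) (md : Bool) (T : List Rec)
    (hT : ∀ R ∈ T, R.1.length = n ∧ R.2.length = n + 1) :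
    ∀ R ∈ stM md T, R.1.length = n ∧ R.2.length = n + 1 := by
  obtain ⟨h1, h2, -⟩ := mrgL_length n md T hT none (by simp) [] (by simp)
  intro R hR
  rw [stM, List.mem_append] at hR
  rcases hR with hR | hR
  · exact h1 R (by simpa using hR)
  · exact h2 R hR

theorem stM_length (n : ℕ) (md : Bool) (T : List Rec)
    (hT : ∀ R ∈ T, R.1.length = n ∧ R.2.length = n + 1) :
    (stM md T).length ≤ T.length + 1 := by
  obtain ⟨-, -, h3⟩ := mrgL_length n md T hT none (by simp) [] (by simp)
  rw [stM, List.length_append, h3]
  have : (mrgL md none [] T).1.toList.length ≤ 1 := by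
    cases (mrgL md none [] T).1 <;> simp
  simp only [List.length_nil]
  omega

theorem runs_stageM (n : ℕ) (T : List Rec)
    (hT : ∀ R ∈ T, R.1.length = n ∧ R.2.length = n + 1)
    (x y z f g h cy md kp I O ma mb xs tc wb) :
    ∃ y' f' cy', Runs stageM
      (⟨x, y, z, f, g, h, cy, md, kp⟩,
        ⟨I, O, ma, mb, xs, [], encTab T, tc, [], wb, []⟩)
      (⟨none, y', z, f', g, h, cy', md, kp⟩,
        ⟨I, O, ma, mb, xs, encTab (stM md T), [], tc, [], wb, []⟩)
      (T.length * (8 * n + 12) + 8 * n + 14) := by
  obtain ⟨y1, f1, cy1, h1⟩ := stageM_loop n T hT none (by simp) [] y z f g h cy md kp I O ma mb xs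
    [] tc wb
  refine ⟨y1, f1, cy1, ?_⟩
  have h0 : Runs (.blk [px .tb])
      (⟨x, y, z, f, g, h, cy, md, kp⟩,
        ⟨I, O, ma, mb, xs, [], encTab T, tc, [], wb, []⟩)
      (⟨(encTab T).head?, y, z, f, g, h, cy, md, kp⟩,
        ⟨I, O, ma, mb, xs, encTab [] ++ [], (encTab T).tail, tc, encCur none, wb, []⟩) 1 :=
    Runs.blk rfl
  simp only [List.append_nil] at h1 h0
  have h2 := runs_moveAll .wa .va (by decide) ⟨none, y1, z, f1, g, h, cy1, md, kp⟩
    ⟨I, O, ma, mb, xs, encTab (mrgL md none [] T).2, [], tc, encCur (mrgL md none [] T).1, wb, []⟩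
  simp only [St.gs, St.ss, List.append_nil] at h2
  have h3 := runs_moveAll .va .ta (by decide) ⟨none, y1, z, f1, g, h, cy1, md, kp⟩
    ⟨I, O, ma, mb, xs, encTab (mrgL md none [] T).2, [], tc, [], wb,
      (encCur (mrgL md none [] T).1).reverse⟩
  simp only [St.gs, St.ss, List.reverse_reverse] at h3
  have := h0.seq (h1.seq (h2.seq h3))
  have e : encCur (mrgL md none [] T).1 ++ encTab (mrgL md none [] T).2 = encTab (stM md T) := by
    rw [stM, encTab_append, encCur_eq]
  rw [e] at this
  refine this.mono ?_
  have hc : (encCur (mrgL md none [] T).1).length ≤ 2 * n + 2 := by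
    obtain ⟨h4, -, -⟩ := mrgL_length n md T hT none (by simp) [] (by simp)
    rw [encCur_eq, encTab_length n _ (by intro R hR; exact h4 R (by simpa using hR))]
    have : (mrgL md none [] T).1.toList.length ≤ 1 := by
      cases (mrgL md none [] T).1 <;> simp
    calc _ ≤ 1 * (2 * n + 2) := Nat.mul_le_mul_right _ this
      _ = _ := one_mul _
  rw [List.length_reverse]
  omega

end Pool.Agent.H1.Sat
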