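import Pool.Agent.H1.SatExecL

/-!
# Execution of the preparation, and of the whole program
-/

namespace Pool.Agent.H1.Sat

open Op Prog

theorem rep_app {α : Type} (k : ℕ) (a : α) (l : List α) :
    List.replicate k a ++ (a :: l) = List.replicate (k + 1) a ++ l := by
  rw [List.replicate_succ', List.append_assoc]
  rfl

/-- Body of the first loop. -/
def p1Loop : Prog :=
  .loop (fun r => isCell r.x)
      (.blk [pu .wb fun r => .ctl (if r.g then .cc else .cd), pu .ta fun _ => .bit false,
        pu .va fun _ => .cell botC, pu .mb fun _ => .ctl (.p1 false),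
        .load fun r => { r with g := false }, pin])

theorem p1_loop : ∀ (k : ℕ) (rest : List (Option Cell))
    (_hrest : isCell (rest.head?.map conv) = false)
    (y z f h cy md kp O ma mb xs ta tb tc wa wb va),
    Runs p1Loop
      (⟨(List.replicate k (some botC) ++ rest).head?.map conv, y, z, f, false, h, cy, md, kp⟩,
        ⟨(List.replicate k (some botC) ++ rest).tail, O, ma, mb, xs, ta, tb, tc, wa, wb, va⟩)
      (⟨rest.head?.map conv, y, z, f, false, h, cy, md, kp⟩,
        ⟨rest.tail, O, ma, List.replicate k (.ctl (.p1 false)) ++ mb, xs,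
          List.replicate k (.bit false) ++ ta, tb, tc, wa,
          List.replicate k (.ctl .cd) ++ wb, List.replicate k (.cell botC) ++ va⟩)
      (2 * k + 1) := by
  intro k
  induction k with
  | zero =>
    intro rest hrest y z f h cy md kp O ma mb xs ta tb tc wa wb va
    exact (Runs.loop_false (by simpa using hrest)).mono (by simp)
  | succ k ih =>
    intro rest hrest y z f h cy md kp O ma mb xs ta tb tc wa wb va
    have := Runs.loop_true (c := fun r => isCell r.x) (b := 1)
      (s := (⟨(List.replicate (k + 1) (some botC) ++ rest).head?.map conv, y, z, f, false, h, cy,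
        md, kp⟩,
        ⟨(List.replicate (k + 1) (some botC) ++ rest).tail, O, ma, mb, xs, ta, tb, tc, wa, wb,
          va⟩))
      rfl (Runs.blk rfl) (ih rest hrest y z f h cy md kp O ma (.ctl (.p1 false) :: mb) xs
        (.bit false :: ta) tb tc wa (.ctl .cd :: wb) (.cell botC :: va))
    rw [rep_app, rep_app, rep_app, rep_app] at this
    exact this.mono (by omega)

/-- First word of the second phase. -/
def word (n i : ℕ) : List Ctl := List.replicate i .ca ++ (.cc :: List.replicate (n - 1 - i) .cd)

theorem word_length {n i : ℕ} (h : i < n) : (word n i).length = n := by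
  simp [word]
  omega

theorem runs_pre1 (n : ℕ) (rest : List (Option Cell))
    (hrest : isCell (rest.head?.map conv) = false) (x y z f g h cy md kp O ma xs tb tc wa) :
    Runs pre1
      (⟨x, y, z, f, g, h, cy, md, kp⟩,
        ⟨List.replicate n (some botC) ++ rest, O, ma, [], xs, [], tb, tc, wa, [], []⟩)
      (⟨rest.head?.map conv, y, z, f, decide (n = 0), h, cy, md, kp⟩,
        ⟨rest.tail, O, ma, List.replicate n (.ctl (.p1 false)), xs,
          List.replicate n (.bit false) ++ [.sep], tb, tc, wa,
          if n = 0 then [] else (word n 0).reverse.map Sym.ctl, List.replicate n (.cell botC)⟩)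
      (2 * n + 2) := by
  have h0 : Runs (.blk [pu .ta fun _ => .sep, .load fun r => { r with g := true }, pin])
      (⟨x, y, z, f, g, h, cy, md, kp⟩,
        ⟨List.replicate n (some botC) ++ rest, O, ma, [], xs, [], tb, tc, wa, [], []⟩)
      (⟨(List.replicate n (some botC) ++ rest).head?.map conv, y, z, f, true, h, cy, md, kp⟩,
        ⟨(List.replicate n (some botC) ++ rest).tail, O, ma, [], xs, [.sep], tb, tc, wa, [], []⟩)
      1 := Runs.blk rfl
  cases n with
  | zero =>
    exact (h0.seq (Runs.loop_false (p := _) (by simpa using hrest))).mono (by omega)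
  | succ k =>
    have h1 := Runs.loop_true (c := fun r => isCell r.x) (b := 1)
      (s := (⟨(List.replicate (k + 1) (some botC) ++ rest).head?.map conv, y, z, f, true, h, cy,
        md, kp⟩,
        ⟨(List.replicate (k + 1) (some botC) ++ rest).tail, O, ma, [], xs, [.sep], tb, tc, wa, [],
          []⟩))
      rfl (Runs.blk rfl) (p1_loop k rest hrest y z f h cy md kp O ma [.ctl (.p1 false)] xs
        [.bit false, .sep] tb tc wa [.ctl .cc] [.cell botC])
    rw [rep_app, rep_app, rep_app] at h1
    have e : List.replicate k (Sym.ctl .cd) ++ [.ctl .cc] =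
        (word (k + 1) 0).reverse.map Sym.ctl := by
      simp [word]
    rw [e, List.append_nil, List.append_nil] at h1
    have e2 : decide (k + 1 = 0) = false := by simp
    rw [e2, if_neg (by omega)]
    exact (h0.seq h1).mono (by omega)

theorem pre2_loop : ∀ (L : List (Option Cell))
    (y z f g h cy md kp O ma mb xs ta tb tc wa wb va),
    Runs pre2
      (⟨L.head?.map conv, y, z, f, g, h, cy, md, kp⟩,
        ⟨L.tail, O, ma, mb, xs, ta, tb, tc, wa, wb, va⟩)
      (⟨none, y, z, f, g, h, cy, md, kp⟩,
        ⟨[], O, ma, (L.map conv).reverse ++ mb, xs, ta, tb, tc, wa, wb, va⟩)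
      (2 * L.length + 1) := by
  intro L
  induction L with
  | nil =>
    intro y z f g h cy md kp O ma mb xs ta tb tc wa wb va
    exact (Runs.loop_false rfl).mono (by simp)
  | cons a L ih =>
    intro y z f g h cy md kp O ma mb xs ta tb tc wa wb va
    have := Runs.loop_true (c := fun r => isSome r.x) (b := 1)
      (s := (⟨(a :: L).head?.map conv, y, z, f, g, h, cy, md, kp⟩,
        ⟨(a :: L).tail, O, ma, mb, xs, ta, tb, tc, wa, wb, va⟩))
      rfl (Runs.blk rfl) (ih y z f g h cy md kp O ma (conv a :: mb) xs ta tb tc wa wb va)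
    have e : (L.map conv).reverse ++ (conv a :: mb) = ((a :: L).map conv).reverse ++ mb := by simp
    rw [e] at this
    refine this.mono ?_
    simp only [List.length_cons]
    omega

theorem runs_pre3 (n : ℕ) (x y z f g h cy md kp I O ma mb xs tb tc wa wb) :
    Runs pre3
      (⟨x, y, z, f, g, h, cy, md, kp⟩,
        ⟨I, O, ma, mb, xs, List.replicate n (.bit false) ++ [.sep], tb, tc, wa, wb,
          List.replicate n (.cell botC)⟩)
      (⟨none, y, z, f, g, h, cy, md, kp⟩,
        ⟨I, O, ma, mb, xs, encTab [(List.replicate n botC, true :: List.replicate n false)], tb, tc,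
          wa, wb, []⟩)
      (2 * n + 3) := by
  have h0 : Runs (.blk [pu .ta fun _ => .bit true])
      (⟨x, y, z, f, g, h, cy, md, kp⟩,
        ⟨I, O, ma, mb, xs, List.replicate n (.bit false) ++ [.sep], tb, tc, wa, wb,
          List.replicate n (.cell botC)⟩)
      (⟨x, y, z, f, g, h, cy, md, kp⟩,
        ⟨I, O, ma, mb, xs, .bit true :: (List.replicate n (.bit false) ++ [.sep]), tb, tc, wa, wb,
          List.replicate n (.cell botC)⟩) 1 := Runs.blk rfl
  have h1 := runs_moveAll .va .ta (by decide) ⟨x, y, z, f, g, h, cy, md, kp⟩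
    ⟨I, O, ma, mb, xs, .bit true :: (List.replicate n (.bit false) ++ [.sep]), tb, tc, wa, wb,
          List.replicate n (.cell botC)⟩
  have e : (List.replicate n (Sym.cell botC)).reverse ++
      (.bit true :: (List.replicate n (.bit false) ++ [.sep])) =
      encTab [(List.replicate n botC, true :: List.replicate n false)] := by
    simp [encTab, encRec]
  simp only [St.gs, St.ss] at h1
  rw [e] at h1
  refine (h0.seq h1).mono ?_
  rw [List.length_replicate]
  omega

/-! ### The words of the second phase -/

/-- Shift of one symbol. -/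
def shC (f : Bool) : Ctl → Ctl
  | .cc => .ca
  | .cd => if f then .cc else .cd
  | .ca => .ca
  | .p1 q => .p1 q

theorem shiftS_ctl (f : Bool) (c : Ctl) : shiftS f (some (.ctl c)) = .ctl (shC f c) := by
  cases c <;> cases f <;> rfl

/-- Shift of a word. -/
def shiftL : Bool → List Ctl → List Ctl
  | _, [] => []
  | f, c :: w => shC f c :: shiftL (ccB c) w

/-- Did the distinguished symbol fall off. -/
def pendL : Bool → List Ctl → Bool
  | f, [] => f
  | _, c :: w => pendL (ccB c) w

theorem p4_back : ∀ (w : List Ctl) (y z f g h cy md kp I O ma mb xs ta tb tc wa va),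
    Runs (.loop (fun r => isSome r.x) (.blk [pu .xs fun r => sy r.x, pu .wa fun r => sy r.x, px .wb]))
      (⟨(w.map Sym.ctl).head?, y, z, f, g, h, cy, md, kp⟩,
        ⟨I, O, ma, mb, xs, ta, tb, tc, wa, (w.map Sym.ctl).tail, va⟩)
      (⟨none, y, z, f, g, h, cy, md, kp⟩,
        ⟨I, O, ma, mb, (w.map Sym.ctl).reverse ++ xs, ta, tb, tc, (w.map Sym.ctl).reverse ++ wa, [],
          va⟩)
      (2 * w.length + 1) := by
  intro w
  induction w with
  | nil =>
    intro y z f g h cy md kp I O ma mb xs ta tb tc wa va
    exact (Runs.loop_false rfl).mono (by simp)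
  | cons a w ih =>
    intro y z f g h cy md kp I O ma mb xs ta tb tc wa va
    have := Runs.loop_true (c := fun r => isSome r.x) (b := 1)
      (s := (⟨((a :: w).map Sym.ctl).head?, y, z, f, g, h, cy, md, kp⟩,
        ⟨I, O, ma, mb, xs, ta, tb, tc, wa, ((a :: w).map Sym.ctl).tail, va⟩))
      rfl (Runs.blk rfl) (ih y z f g h cy md kp I O ma mb (.ctl a :: xs) ta tb tc (.ctl a :: wa) va)
    have e : ∀ l : List Sym, (w.map Sym.ctl).reverse ++ (.ctl a :: l) =
        ((a :: w).map Sym.ctl).reverse ++ l := by intro l; simp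
    rw [e, e] at this
    refine this.mono ?_
    simp only [List.length_cons]
    omega

theorem p4_shift : ∀ (w : List Ctl) (y z f g h cy md kp I O ma mb xs ta tb tc wb va),
    Runs (.loop (fun r => isSome r.x) (.blk [pu .wb fun r => shiftS r.f r.x,
        .load fun r => { r with f := isCC r.x }, px .wa]))
      (⟨(w.map Sym.ctl).head?, y, z, f, g, h, cy, md, kp⟩,
        ⟨I, O, ma, mb, xs, ta, tb, tc, (w.map Sym.ctl).tail, wb, va⟩)
      (⟨none, y, z, pendL f w, g, h, cy, md, kp⟩,
        ⟨I, O, ma, mb, xs, ta, tb, tc, [], ((shiftL f w).map Sym.ctl).reverse ++ wb, va⟩)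
      (2 * w.length + 1) := by
  intro w
  induction w with
  | nil =>
    intro y z f g h cy md kp I O ma mb xs ta tb tc wb va
    exact (Runs.loop_false rfl).mono (by simp)
  | cons a w ih =>
    intro y z f g h cy md kp I O ma mb xs ta tb tc wb va
    have hstep : runOps [pu .wb fun r => shiftS r.f r.x,
        .load fun r => { r with f := isCC r.x }, px .wa]
        (⟨((a :: w).map Sym.ctl).head?, y, z, f, g, h, cy, md, kp⟩,
        ⟨I, O, ma, mb, xs, ta, tb, tc, ((a :: w).map Sym.ctl).tail, wb, va⟩) =
        (⟨(w.map Sym.ctl).head?, y, z, ccB a, g, h, cy, md, kp⟩,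
        ⟨I, O, ma, mb, xs, ta, tb, tc, (w.map Sym.ctl).tail, .ctl (shC f a) :: wb, va⟩) := by
      rw [← shiftS_ctl]
      rfl
    have := Runs.loop_true (c := fun r => isSome r.x) (b := 1)
      (s := (⟨((a :: w).map Sym.ctl).head?, y, z, f, g, h, cy, md, kp⟩,
        ⟨I, O, ma, mb, xs, ta, tb, tc, ((a :: w).map Sym.ctl).tail, wb, va⟩))
      rfl (Runs.blk hstep) (ih y z (ccB a) g h cy md kp I O ma mb xs ta tb tc
        (.ctl (shC f a) :: wb) va)
    have e : ((shiftL (ccB a) w).map Sym.ctl).reverse ++ (.ctl (shC f a) :: wb) =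
        ((shiftL f (a :: w)).map Sym.ctl).reverse ++ wb := by simp [shiftL]
    rw [e] at this
    refine this.mono ?_
    simp only [List.length_cons]
    omega

theorem shiftL_ca (i : ℕ) (w : List Ctl) :
    shiftL false (List.replicate i .ca ++ w) = List.replicate i .ca ++ shiftL false w := by
  induction i with
  | zero => rfl
  | succ i ih =>
    rw [List.replicate_succ, List.cons_append, List.cons_append]
    change .ca :: shiftL false (List.replicate i .ca ++ w) = _
    rw [ih]

theorem pendL_ca (i : ℕ) (w : List Ctl) :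
    pendL false (List.replicate i .ca ++ w) = pendL false w := by
  induction i with
  | zero => rfl
  | succ i ih =>
    rw [List.replicate_succ, List.cons_append]
    exact ih

theorem shiftL_cd (k : ℕ) : shiftL false (List.replicate k .cd) = List.replicate k .cd := by
  induction k with
  | zero => rfl
  | succ k ih =>
    rw [List.replicate_succ]
    change .cd :: shiftL false (List.replicate k .cd) = _
    rw [ih]

theorem pendL_cd (k : ℕ) : pendL false (List.replicate k .cd) = false := by
  induction k with
  | zero => rfl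
  | succ k ih => rw [List.replicate_succ]; exact ih

theorem shift_word {n i : ℕ} (h : i + 1 < n) :
    shiftL false (word n i) = word n (i + 1) ∧ pendL false (word n i) = false := by
  obtain ⟨k, rfl⟩ : ∃ k, n = i + 2 + k := ⟨n - (i + 2), by omega⟩
  have e1 : i + 2 + k - 1 - i = k + 1 := by omega
  have e2 : i + 2 + k - 1 - (i + 1) = k := by omega
  unfold word
  rw [e1, e2, shiftL_ca, pendL_ca, List.replicate_succ (n := k)]
  constructor
  · change _ ++ (Ctl.ca :: Ctl.cc :: shiftL false (List.replicate k .cd)) = _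
    rw [shiftL_cd, rep_app]
  · exact pendL_cd k

theorem shift_word_last (n : ℕ) :
    shiftL false (word (n + 1) n) = List.replicate (n + 1) .ca ∧
      pendL false (word (n + 1) n) = true := by
  have e1 : n + 1 - 1 - n = 0 := by omega
  unfold word
  rw [e1, shiftL_ca, pendL_ca]
  constructor
  · change _ ++ [Ctl.ca] = _
    rw [List.replicate_succ']
  · rfl

/-- The control words of the second phase. -/
def wl (n : ℕ) : ℕ → List CW
  | 0 => []
  | j + 1 => (true, true, word n j) :: wl n j

/-- Body of the outer loop of `pre4`. -/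
def p4Body : Prog := seqs [
      .blk [pu .xs fun _ => .sep, px .wb],
      .loop (fun r => isSome r.x) (.blk [pu .xs fun r => sy r.x, pu .wa fun r => sy r.x, px .wb]),
      .blk [pu .xs fun _ => .hdr true true, .load fun r => { r with f := false }, px .wa],
      .loop (fun r => isSome r.x) (.blk [pu .wb fun r => shiftS r.f r.x,
        .load fun r => { r with f := isCC r.x }, px .wa]),
      .blk [.load fun r => { r with g := !r.f }]]

theorem runs_p4Body (w : List Ctl) (x y z f g h cy md kp I O ma mb xs ta tb tc va) :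
    Runs p4Body
      (⟨x, y, z, f, g, h, cy, md, kp⟩,
        ⟨I, O, ma, mb, xs, ta, tb, tc, [], w.reverse.map Sym.ctl, va⟩)
      (⟨none, y, z, pendL false w, !pendL false w, h, cy, md, kp⟩,
        ⟨I, O, ma, mb, encCW (true, true, w) ++ xs, ta, tb, tc, [],
          (shiftL false w).reverse.map Sym.ctl, va⟩)
      (4 * w.length + 5) := by
  have h0 : Runs (.blk [pu .xs fun _ => .sep, px .wb])
      (⟨x, y, z, f, g, h, cy, md, kp⟩,
        ⟨I, O, ma, mb, xs, ta, tb, tc, [], w.reverse.map Sym.ctl, va⟩)
      (⟨(w.reverse.map Sym.ctl).head?, y, z, f, g, h, cy, md, kp⟩,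
        ⟨I, O, ma, mb, .sep :: xs, ta, tb, tc, [], (w.reverse.map Sym.ctl).tail, va⟩) 1 :=
    Runs.blk rfl
  have h1 := p4_back w.reverse y z f g h cy md kp I O ma mb (.sep :: xs) ta tb tc [] va
  have e1 : (w.reverse.map Sym.ctl).reverse = w.map Sym.ctl := by simp
  rw [e1, List.append_nil] at h1
  have h2 : Runs (.blk [pu .xs fun _ => .hdr true true, .load fun r => { r with f := false }, px .wa])
      (⟨none, y, z, f, g, h, cy, md, kp⟩,
        ⟨I, O, ma, mb, w.map Sym.ctl ++ (.sep :: xs), ta, tb, tc, w.map Sym.ctl, [], va⟩)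
      (⟨(w.map Sym.ctl).head?, y, z, false, g, h, cy, md, kp⟩,
        ⟨I, O, ma, mb, .hdr true true :: (w.map Sym.ctl ++ (.sep :: xs)), ta, tb, tc,
          (w.map Sym.ctl).tail, [], va⟩) 1 := Runs.blk rfl
  have h3 := p4_shift w y z false g h cy md kp I O ma mb
    (.hdr true true :: (w.map Sym.ctl ++ (.sep :: xs))) ta tb tc [] va
  have h4 : Runs (.blk [.load fun r => { r with g := !r.f }])
      (⟨none, y, z, pendL false w, g, h, cy, md, kp⟩,
        ⟨I, O, ma, mb, .hdr true true :: (w.map Sym.ctl ++ (.sep :: xs)), ta, tb, tc, [],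
          ((shiftL false w).map Sym.ctl).reverse ++ [], va⟩)
      (⟨none, y, z, pendL false w, !pendL false w, h, cy, md, kp⟩,
        ⟨I, O, ma, mb, .hdr true true :: (w.map Sym.ctl ++ (.sep :: xs)), ta, tb, tc, [],
          ((shiftL false w).map Sym.ctl).reverse ++ [], va⟩) 1 := Runs.blk rfl
  have := h0.seq (h1.seq (h2.seq (h3.seq h4)))
  have e2 : Sym.hdr true true :: (w.map Sym.ctl ++ (.sep :: xs)) = encCW (true, true, w) ++ xs := by
    simp [encCW]
  have e3 : ((shiftL false w).map Sym.ctl).reverse ++ [] =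
      (shiftL false w).reverse.map Sym.ctl := by simp
  rw [e2, e3] at this
  refine this.mono ?_
  rw [List.length_reverse]
  omega

theorem p4_loop (n : ℕ) : ∀ (k i : ℕ) (_h : n = i + k + 1)
    (x y z f h cy md kp I O ma mb ta tb tc va),
    ∃ x' f', Runs (.loop (fun r => r.g) p4Body)
      (⟨x, y, z, f, true, h, cy, md, kp⟩,
        ⟨I, O, ma, mb, encSched (wl n i), ta, tb, tc, [], (word n i).reverse.map Sym.ctl, va⟩)
      (⟨x', y, z, f', false, h, cy, md, kp⟩,
        ⟨I, O, ma, mb, encSched (wl n n), ta, tb, tc, [], List.replicate n (.ctl .ca), va⟩)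
      ((k + 1) * (4 * n + 6) + 1) := by
  intro k
  induction k with
  | zero =>
    intro i hi x y z f h cy md kp I O ma mb ta tb tc va
    obtain rfl : n = i + 1 := by omega
    have h1 := runs_p4Body (word (i + 1) i) x y z f true h cy md kp I O ma mb
      (encSched (wl (i + 1) i)) ta tb tc va
    obtain ⟨s1, s2⟩ := shift_word_last i
    rw [s1, s2, word_length (by omega)] at h1
    refine ⟨none, true, ?_⟩
    have e : (List.replicate (i + 1) Ctl.ca).reverse.map Sym.ctl =
        List.replicate (i + 1) (.ctl .ca) := by simp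
    rw [e] at h1
    have := Runs.loop_true (c := fun r => r.g) (p := p4Body) rfl h1
      (Runs.loop_false (by simp))
    exact this.mono (by omega)
  | succ k ih =>
    intro i hi x y z f h cy md kp I O ma mb ta tb tc va
    have h1 := runs_p4Body (word n i) x y z f true h cy md kp I O ma mb
      (encSched (wl n i)) ta tb tc va
    obtain ⟨s1, s2⟩ := shift_word (n := n) (i := i) (by omega)
    rw [s1, s2, word_length (by omega)] at h1
    obtain ⟨x2, f2, h2⟩ := ih (i + 1) (by omega) none y z false h cy md kp I O ma mb ta tb tc va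
    refine ⟨x2, f2, ?_⟩
    have := Runs.loop_true (c := fun r => r.g) (p := p4Body) rfl h1 h2
    refine this.mono ?_
    ring_nf
    omega

theorem p4_clear : ∀ (L : List Sym) (y z f g h cy md kp I O ma mb xs ta tb tc wa va),
    Runs (.loop (fun r => isSome r.x) (.blk [px .wb]))
      (⟨L.head?, y, z, f, g, h, cy, md, kp⟩,
        ⟨I, O, ma, mb, xs, ta, tb, tc, wa, L.tail, va⟩)
      (⟨none, y, z, f, g, h, cy, md, kp⟩,
        ⟨I, O, ma, mb, xs, ta, tb, tc, wa, [], va⟩)
      (2 * L.length + 1) := by
  intro L
  induction L with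
  | nil =>
    intro y z f g h cy md kp I O ma mb xs ta tb tc wa va
    exact (Runs.loop_false rfl).mono (by simp)
  | cons a L ih =>
    intro y z f g h cy md kp I O ma mb xs ta tb tc wa va
    have := Runs.loop_true (c := fun r => isSome r.x) (b := 1)
      (s := (⟨(a :: L).head?, y, z, f, g, h, cy, md, kp⟩,
        ⟨I, O, ma, mb, xs, ta, tb, tc, wa, (a :: L).tail, va⟩))
      rfl (Runs.blk rfl) (ih y z f g h cy md kp I O ma mb xs ta tb tc wa va)
    refine this.mono ?_
    simp only [List.length_cons]
    omega

theorem runs_pre4 (n : ℕ) (x y z f h cy md kp I O ma mb ta tb tc va) :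
    ∃ f', Runs pre4
      (⟨x, y, z, f, decide (n = 0), h, cy, md, kp⟩,
        ⟨I, O, ma, mb, [], ta, tb, tc, [], if n = 0 then [] else (word n 0).reverse.map Sym.ctl, va⟩)
      (⟨none, y, z, f', false, h, cy, md, kp⟩,
        ⟨I, O, ma, mb, encSched (wl n n), ta, tb, tc, [], [], va⟩)
      (n * (4 * n + 6) + 2 * n + 5) := by
  cases n with
  | zero =>
    refine ⟨f, ?_⟩
    have h0 : Runs (.blk [.load fun r => { r with g := !r.g }])
        (⟨x, y, z, f, true, h, cy, md, kp⟩,
          ⟨I, O, ma, mb, [], ta, tb, tc, [], [], va⟩)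
        (⟨x, y, z, f, false, h, cy, md, kp⟩,
          ⟨I, O, ma, mb, [], ta, tb, tc, [], [], va⟩) 1 := Runs.blk rfl
    have h1 : Runs (.loop (fun r => r.g) p4Body)
        (⟨x, y, z, f, false, h, cy, md, kp⟩,
          ⟨I, O, ma, mb, [], ta, tb, tc, [], [], va⟩)
        (⟨x, y, z, f, false, h, cy, md, kp⟩,
          ⟨I, O, ma, mb, [], ta, tb, tc, [], [], va⟩) 1 := Runs.loop_false rfl
    have h2 : Runs (.blk [px .wb])
        (⟨x, y, z, f, false, h, cy, md, kp⟩,
          ⟨I, O, ma, mb, [], ta, tb, tc, [], [], va⟩)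
        (⟨none, y, z, f, false, h, cy, md, kp⟩,
          ⟨I, O, ma, mb, [], ta, tb, tc, [], [], va⟩) 1 := Runs.blk rfl
    have h3 := p4_clear [] y z f false h cy md kp I O ma mb [] ta tb tc [] va
    exact (h0.seq (h1.seq (h2.seq h3))).mono (by simp)
  | succ k =>
    obtain ⟨x1, f1, h1⟩ := p4_loop (k + 1) k 0 (by omega) x y z f h cy md kp I O ma mb ta tb tc va
    refine ⟨f1, ?_⟩
    have e : decide (k + 1 = 0) = false := by simp
    rw [e, if_neg (by omega)]
    have h0 : Runs (.blk [.load fun r => { r with g := !r.g }])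
        (⟨x, y, z, f, false, h, cy, md, kp⟩,
          ⟨I, O, ma, mb, [], ta, tb, tc, [], (word (k + 1) 0).reverse.map Sym.ctl, va⟩)
        (⟨x, y, z, f, true, h, cy, md, kp⟩,
          ⟨I, O, ma, mb, [], ta, tb, tc, [], (word (k + 1) 0).reverse.map Sym.ctl, va⟩) 1 :=
      Runs.blk rfl
    have h2 : Runs (.blk [px .wb])
        (⟨x1, y, z, f1, false, h, cy, md, kp⟩,
          ⟨I, O, ma, mb, encSched (wl (k + 1) (k + 1)), ta, tb, tc, [],
            List.replicate (k + 1) (.ctl .ca), va⟩)
        (⟨(List.replicate (k + 1) (Sym.ctl .ca)).head?, y, z, f1, false, h, cy, md, kp⟩,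
          ⟨I, O, ma, mb, encSched (wl (k + 1) (k + 1)), ta, tb, tc, [],
            (List.replicate (k + 1) (Sym.ctl .ca)).tail, va⟩) 1 := Runs.blk rfl
    have h3 := p4_clear (List.replicate (k + 1) (Sym.ctl .ca)) y z f1 false h cy md kp I O ma mb
      (encSched (wl (k + 1) (k + 1))) ta tb tc [] va
    refine (h0.seq (h1.seq (h2.seq h3))).mono ?_
    rw [List.length_replicate]
    omega

end Pool.Agent.H1.Sat
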