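import Pool.Agent.H1.SatExecE

/-!
# Execution of the sorting stage
-/

namespace Pool.Agent.H1.Sat

open Op Prog

/-- Overwrite `tb` and `b`. -/
def set2 (s : St) (b : KS) (t B : List Sym) : St := (s.ss .tb t).ss b B

theorem set2_gs_tb (s : St) {b : KS} (hb : b ≠ .tb) (t B : List Sym) :
    (set2 s b t B).gs .tb = t := by
  cases b <;> first | rfl | exact absurd rfl hb

theorem set2_gs_b (s : St) {b : KS} (t B : List Sym) :
    (set2 s b t B).gs b = B := by
  cases b <;> rfl

theorem set2_ss_tb (s : St) {b : KS} (hb : b ≠ .tb) (t t' B : List Sym) :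
    (set2 s b t B).ss .tb t' = set2 s b t' B := by
  cases b <;> first | rfl | exact absurd rfl hb

theorem set2_ss_b (s : St) {b : KS} (t B B' : List Sym) :
    (set2 s b t B).ss b B' = set2 s b t B' := by
  cases b <;> rfl

theorem mv_loop (b : KS) (hb : b ≠ .tb) (c : Option Sym → Bool) (rest : List Sym)
    (hrest : c rest.head? = false) : ∀ (L : List Sym) (_hL : ∀ a ∈ L, c (some a) = true)
    (y z f g h cy md kp) (s : St) (B : List Sym),
    Runs (.loop (fun r => c r.x) (.blk [pu b fun r => sy r.x, px .tb]))
      (⟨(L ++ rest).head?, y, z, f, g, h, cy, md, kp⟩, set2 s b (L ++ rest).tail B)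
      (⟨rest.head?, y, z, f, g, h, cy, md, kp⟩, set2 s b rest.tail (L.reverse ++ B))
      (2 * L.length + 1) := by
  intro L
  induction L with
  | nil =>
    intro hL y z f g h cy md kp s B
    exact (Runs.loop_false (by simpa using hrest)).mono (by simp)
  | cons a L ih =>
    intro hL y z f g h cy md kp s B
    have hstep : runOps [pu b fun r => sy r.x, px .tb]
        (⟨((a :: L) ++ rest).head?, y, z, f, g, h, cy, md, kp⟩,
          set2 s b ((a :: L) ++ rest).tail B) =
        (⟨(L ++ rest).head?, y, z, f, g, h, cy, md, kp⟩, set2 s b (L ++ rest).tail (a :: B)) := by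
      simp only [runOps, Op.run, St.get, St.set, List.cons_append, List.head?_cons, sy,
        Option.getD_some, List.tail_cons, set2_gs_b, set2_ss_b, set2_gs_tb s hb, set2_ss_tb s hb]
    have := Runs.loop_true (c := fun r => c r.x) (b := 1)
      (s := (⟨((a :: L) ++ rest).head?, y, z, f, g, h, cy, md, kp⟩,
          set2 s b ((a :: L) ++ rest).tail B))
      (hL a (by simp)) (Runs.blk hstep)
      (ih (fun x hx => hL x (by simp [hx])) y z f g h cy md kp s (a :: B))
    have e : L.reverse ++ (a :: B) = (a :: L).reverse ++ B := by simp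
    rw [e] at this
    refine this.mono ?_
    simp only [List.length_cons]
    omega

theorem runs_mv (b : KS) (hb : b ≠ .tb) (a : Cell) (k : Key) (v : List Bool) (rest : List Sym)
    (y z f g h cy md kp) (s : St) (B : List Sym) :
    Runs (mv b)
      (⟨some (.cell a), y, z, f, g, h, cy, md, kp⟩, set2 s b (encRec (k, v) ++ rest) B)
      (⟨some .sep, some (.cell a), z, f, g, h, cy, md, kp⟩,
        set2 s b rest ((encRec (k ++ [a], v)).reverse ++ B))
      (2 * k.length + 2 * v.length + 5) := by
  have e : encRec (k, v) ++ rest = k.map Sym.cell ++ (v.map Sym.bit ++ (Sym.sep :: rest)) := by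
    simp [encRec]
  rw [e]
  have h0 : Runs (.blk [.load fun r => { r with y := r.x }, px .tb])
      (⟨some (.cell a), y, z, f, g, h, cy, md, kp⟩,
        set2 s b (k.map Sym.cell ++ (v.map Sym.bit ++ (Sym.sep :: rest))) B)
      (⟨(k.map Sym.cell ++ (v.map Sym.bit ++ (Sym.sep :: rest))).head?, some (.cell a), z, f, g, h,
        cy, md, kp⟩,
        set2 s b (k.map Sym.cell ++ (v.map Sym.bit ++ (Sym.sep :: rest))).tail B) 1 := by
    apply Runs.blk
    simp only [runOps, Op.run, St.get, St.set, set2_gs_tb s hb, set2_ss_tb s hb]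
  have h1 := mv_loop b hb isCell (v.map Sym.bit ++ (Sym.sep :: rest)) (isBit_cell_rest v rest)
    (k.map Sym.cell) (by intro x hx; rw [List.mem_map] at hx; obtain ⟨c, -, rfl⟩ := hx; rfl)
    (some (.cell a)) z f g h cy md kp s B
  have h2 : Runs (.blk [pu b fun r => sy r.y])
      (⟨(v.map Sym.bit ++ (Sym.sep :: rest)).head?, some (.cell a), z, f, g, h, cy, md, kp⟩,
        set2 s b (v.map Sym.bit ++ (Sym.sep :: rest)).tail ((k.map Sym.cell).reverse ++ B))
      (⟨(v.map Sym.bit ++ (Sym.sep :: rest)).head?, some (.cell a), z, f, g, h, cy, md, kp⟩,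
        set2 s b (v.map Sym.bit ++ (Sym.sep :: rest)).tail
          (.cell a :: ((k.map Sym.cell).reverse ++ B))) 1 := by
    apply Runs.blk
    simp only [runOps, Op.run, St.get, St.set, set2_gs_b, set2_ss_b, sy, Option.getD_some]
  have h3 := mv_loop b hb isBit (Sym.sep :: rest) rfl
    (v.map Sym.bit) (by intro x hx; rw [List.mem_map] at hx; obtain ⟨c, -, rfl⟩ := hx; rfl)
    (some (.cell a)) z f g h cy md kp s (.cell a :: ((k.map Sym.cell).reverse ++ B))
  have h4 : Runs (.blk [pu b fun r => sy r.x])
      (⟨(Sym.sep :: rest).head?, some (.cell a), z, f, g, h, cy, md, kp⟩,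
        set2 s b (Sym.sep :: rest).tail
          ((v.map Sym.bit).reverse ++ (.cell a :: ((k.map Sym.cell).reverse ++ B))))
      (⟨some .sep, some (.cell a), z, f, g, h, cy, md, kp⟩,
        set2 s b rest (.sep ::
          ((v.map Sym.bit).reverse ++ (.cell a :: ((k.map Sym.cell).reverse ++ B))))) 1 := by
    apply Runs.blk
    simp only [runOps, Op.run, St.get, St.set, set2_gs_b, set2_ss_b, sy, Option.getD_some,
      List.head?_cons, List.tail_cons]
  have := h0.seq (h1.seq (h2.seq (h3.seq h4)))
  have e2 : (Sym.sep ::
      ((v.map Sym.bit).reverse ++ (.cell a :: ((k.map Sym.cell).reverse ++ B)))) =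
      (encRec (k ++ [a], v)).reverse ++ B := by
    simp [encRec]
  rw [e2] at this
  refine this.mono ?_
  simp only [List.length_map]
  omega

/-- First cell of the key. -/
def dg (R : Rec) : Cell := R.1.headD botC

/-- Rotation of the key. -/
def rot (R : Rec) : Rec := (R.1.rotate 1, R.2)

/-- Records whose first cell is `c`, rotated. -/
def bkt (c : Cell) (T : List Rec) : List Rec := (T.filter fun R => dg R == c).map rot

/-- Effect of a pass. -/
def passf (T : List Rec) : List Rec :=
  bkt (false, false) T ++ (bkt (true, false) T ++ (bkt (false, true) T ++ bkt (true, true) T))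

theorem bkt_cons_pos {c : Cell} {R : Rec} (T : List Rec) (h : dg R = c) :
    bkt c (R :: T) = rot R :: bkt c T := by
  rw [bkt, List.filter_cons, if_pos (by simp [h])]
  rfl

theorem bkt_cons_neg {c : Cell} {R : Rec} (T : List Rec) (h : dg R ≠ c) :
    bkt c (R :: T) = bkt c T := by
  rw [bkt, List.filter_cons, if_neg (by simpa using h)]
  rfl

theorem encTab_rev_cons (R : Rec) (T : List Rec) (B : List Sym) :
    (encTab T).reverse ++ ((encRec R).reverse ++ B) = (encTab (R :: T)).reverse ++ B := by
  simp [encTab_cons]

theorem pass_loop (n : ℕ) : ∀ (T : List Rec)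
    (_hT : ∀ R ∈ T, R.1.length = n + 1 ∧ R.2.length = n + 2)
    (y z f g h cy md kp I O ma mb xs ta tc wa wb va),
    ∃ y', Runs (.loop (fun r => isSome r.x)
      (.seq (.ite (fun r => cellOf r.x == (false, false)) (mv .wa)
        (.ite (fun r => cellOf r.x == (true, false)) (mv .wb)
          (.ite (fun r => cellOf r.x == (false, true)) (mv .va) (mv .tc))))
        (.blk [px .tb])))
      (⟨(encTab T).head?, y, z, f, g, h, cy, md, kp⟩,
        ⟨I, O, ma, mb, xs, ta, (encTab T).tail, tc, wa, wb, va⟩)
      (⟨none, y', z, f, g, h, cy, md, kp⟩,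
        ⟨I, O, ma, mb, xs, ta, [], (encTab (bkt (true, true) T)).reverse ++ tc,
          (encTab (bkt (false, false) T)).reverse ++ wa,
          (encTab (bkt (true, false) T)).reverse ++ wb,
          (encTab (bkt (false, true) T)).reverse ++ va⟩)
      (T.length * (4 * n + 14) + 1) := by
  intro T
  induction T with
  | nil =>
    intro hT y z f g h cy md kp I O ma mb xs ta tc wa wb va
    exact ⟨y, (Runs.loop_false rfl).mono (by simp)⟩
  | cons R T ih =>
    intro hT y z f g h cy md kp I O ma mb xs ta tc wa wb va
    obtain ⟨k, v⟩ := R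
    obtain ⟨hR1, hR2⟩ := hT (k, v) (by simp)
    have hT' : ∀ R ∈ T, R.1.length = n + 1 ∧ R.2.length = n + 2 :=
      fun B hB => hT B (by simp [hB])
    obtain ⟨a, k, rfl⟩ : ∃ a k', k = a :: k' := by
      cases k with
      | nil => simp at hR1
      | cons a k => exact ⟨a, k, rfl⟩
    have hk : k.length = n := by simpa using hR1
    have hv : v.length = n + 2 := hR2
    have hrot : rot (a :: k, v) = (k ++ [a], v) := by simp [rot]
    have hb : ∀ S : St, Runs (.blk [px .tb])
        (⟨some .sep, some (.cell a), z, f, g, h, cy, md, kp⟩, S)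
        (⟨S.tb.head?, some (.cell a), z, f, g, h, cy, md, kp⟩, S.ss .tb S.tb.tail) 1 :=
      fun S => Runs.blk rfl
    have hcost : 1 + (1 + (1 + (1 + (2 * k.length + 2 * v.length + 5))) + 1) +
        (T.length * (4 * n + 14) + 1) ≤ (((a :: k, v) :: T).length) * (4 * n + 14) + 1 := by
      rw [List.length_cons, hk, hv]
      ring_nf
      omega
    by_cases h0 : a = (false, false)
    · obtain ⟨y', h1⟩ := ih hT' (some (.cell a)) z f g h cy md kp I O ma mb xs ta tc
        ((encRec (rot (a :: k, v))).reverse ++ wa) wb va
      refine ⟨y', ?_⟩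
      have h2 := runs_mv .wa (by decide) a k v (encTab T) y z f g h cy md kp
        ⟨I, O, ma, mb, xs, ta, encRec (k, v) ++ encTab T, tc, wa, wb, va⟩ wa
      have h3 := Runs.ite_true (c := fun r => cellOf r.x == (false, false))
        (q := (.ite (fun r => cellOf r.x == (true, false)) (mv .wb)
          (.ite (fun r => cellOf r.x == (false, true)) (mv .va) (mv .tc))))
        (by simp [cellOf, h0]) h2
      have h4 := Runs.loop_true (c := fun r => isSome r.x) (by rfl) (h3.seq (hb _)) (by
        rw [hrot] at h1
        exact h1)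
      rw [← hrot] at h4
      have d0 : dg (a :: k, v) = a := rfl
      rw [bkt_cons_pos (c := (false, false)) T (by rw [d0]; exact h0),
        bkt_cons_neg T (by rw [d0, h0]; decide),
        bkt_cons_neg T (by rw [d0, h0]; decide), bkt_cons_neg T (by rw [d0, h0]; decide),
        ← encTab_rev_cons]
      exact h4.mono (by omega)
    by_cases h1 : a = (true, false)
    · obtain ⟨y', h1'⟩ := ih hT' (some (.cell a)) z f g h cy md kp I O ma mb xs ta tc wa
        ((encRec (rot (a :: k, v))).reverse ++ wb) va
      refine ⟨y', ?_⟩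
      have h2 := runs_mv .wb (by decide) a k v (encTab T) y z f g h cy md kp
        ⟨I, O, ma, mb, xs, ta, encRec (k, v) ++ encTab T, tc, wa, wb, va⟩ wb
      have h3 := Runs.ite_false (c := fun r => cellOf r.x == (false, false)) (p := mv .wa)
        (by simp [cellOf, h1]) (Runs.ite_true (c := fun r => cellOf r.x == (true, false))
        (q := (.ite (fun r => cellOf r.x == (false, true)) (mv .va) (mv .tc)))
        (by simp [cellOf, h1]) h2)
      have h4 := Runs.loop_true (c := fun r => isSome r.x) (by rfl) (h3.seq (hb _)) (by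
        rw [hrot] at h1'
        exact h1')
      rw [← hrot] at h4
      have d0 : dg (a :: k, v) = a := rfl
      rw [bkt_cons_pos (c := (true, false)) T (by rw [d0]; exact h1),
        bkt_cons_neg T (by rw [d0, h1]; decide),
        bkt_cons_neg T (by rw [d0, h1]; decide), bkt_cons_neg T (by rw [d0, h1]; decide),
        ← encTab_rev_cons]
      exact h4.mono (by omega)
    by_cases h2 : a = (false, true)
    · obtain ⟨y', h1'⟩ := ih hT' (some (.cell a)) z f g h cy md kp I O ma mb xs ta tc wa wb
        ((encRec (rot (a :: k, v))).reverse ++ va)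
      refine ⟨y', ?_⟩
      have h2' := runs_mv .va (by decide) a k v (encTab T) y z f g h cy md kp
        ⟨I, O, ma, mb, xs, ta, encRec (k, v) ++ encTab T, tc, wa, wb, va⟩ va
      have h3 := Runs.ite_false (c := fun r => cellOf r.x == (false, false)) (p := mv .wa)
        (by simp [cellOf, h2]) (Runs.ite_false (c := fun r => cellOf r.x == (true, false))
        (p := mv .wb) (by simp [cellOf, h2])
        (Runs.ite_true (c := fun r => cellOf r.x == (false, true)) (q := mv .tc)
        (by simp [cellOf, h2]) h2'))
      have h4 := Runs.loop_true (c := fun r => isSome r.x) (by rfl) (h3.seq (hb _)) (by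
        rw [hrot] at h1'
        exact h1')
      rw [← hrot] at h4
      have d0 : dg (a :: k, v) = a := rfl
      rw [bkt_cons_pos (c := (false, true)) T (by rw [d0]; exact h2),
        bkt_cons_neg T (by rw [d0, h2]; decide),
        bkt_cons_neg T (by rw [d0, h2]; decide), bkt_cons_neg T (by rw [d0, h2]; decide),
        ← encTab_rev_cons]
      exact h4.mono (by omega)
    · have h3' : a = (true, true) := by
        obtain ⟨a1, a2⟩ := a
        cases a1 <;> cases a2 <;> simp_all
      obtain ⟨y', h1'⟩ := ih hT' (some (.cell a)) z f g h cy md kp I O ma mb xs ta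
        ((encRec (rot (a :: k, v))).reverse ++ tc) wa wb va
      refine ⟨y', ?_⟩
      have h2' := runs_mv .tc (by decide) a k v (encTab T) y z f g h cy md kp
        ⟨I, O, ma, mb, xs, ta, encRec (k, v) ++ encTab T, tc, wa, wb, va⟩ tc
      have h3 := Runs.ite_false (c := fun r => cellOf r.x == (false, false)) (p := mv .wa)
        (by simp [cellOf, h3']) (Runs.ite_false (c := fun r => cellOf r.x == (true, false))
        (p := mv .wb) (by simp [cellOf, h3'])
        (Runs.ite_false (c := fun r => cellOf r.x == (false, true)) (p := mv .va)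
        (by simp [cellOf, h3']) h2'))
      have h4 := Runs.loop_true (c := fun r => isSome r.x) (by rfl) (h3.seq (hb _)) (by
        rw [hrot] at h1'
        exact h1')
      rw [← hrot] at h4
      have d0 : dg (a :: k, v) = a := rfl
      rw [bkt_cons_pos (c := (true, true)) T (by rw [d0]; exact h3'),
        bkt_cons_neg T (by rw [d0, h3']; decide),
        bkt_cons_neg T (by rw [d0, h3']; decide), bkt_cons_neg T (by rw [d0, h3']; decide),
        ← encTab_rev_cons]
      exact h4.mono (by omega)

end Pool.Agent.H1.Sat
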