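import Pool.Agent.H1.SatExecS

/-!
# Execution of the sorting stage, continued
-/

namespace Pool.Agent.H1.Sat

open Op Prog

theorem perm_aux (A B C : List Rec) (r : Rec) :
    (A ++ (B ++ (r :: C))).Perm (r :: (A ++ (B ++ C))) := by
  rw [← List.append_assoc, ← List.append_assoc]
  exact List.perm_middle

theorem passf_perm (T : List Rec) : (passf T).Perm (T.map rot) := by
  induction T with
  | nil => exact List.Perm.refl _
  | cons R T ih =>
    rw [List.map_cons]
    refine List.Perm.trans ?_ (List.Perm.cons (rot R) ih)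
    unfold passf
    by_cases h0 : dg R = (false, false)
    · rw [bkt_cons_pos (c := (false, false)) T h0,
        bkt_cons_neg T (by rw [h0]; decide),
        bkt_cons_neg T (by rw [h0]; decide), bkt_cons_neg T (by rw [h0]; decide)]
      exact List.Perm.refl _
    by_cases h1 : dg R = (true, false)
    · rw [bkt_cons_pos (c := (true, false)) T h1,
        bkt_cons_neg T (by rw [h1]; decide),
        bkt_cons_neg T (by rw [h1]; decide), bkt_cons_neg T (by rw [h1]; decide)]
      exact List.perm_middle
    by_cases h2 : dg R = (false, true)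
    · rw [bkt_cons_pos (c := (false, true)) T h2,
        bkt_cons_neg T (by rw [h2]; decide),
        bkt_cons_neg T (by rw [h2]; decide), bkt_cons_neg T (by rw [h2]; decide)]
      exact perm_aux _ _ _ _
    · have h3 : dg R = (true, true) := by
        have : ∀ a : Cell, a ≠ (false, false) → a ≠ (true, false) → a ≠ (false, true) →
            a = (true, true) := by decide
        exact this _ h0 h1 h2
      rw [bkt_cons_pos (c := (true, true)) T h3,
        bkt_cons_neg T (by rw [h3]; decide),
        bkt_cons_neg T (by rw [h3]; decide), bkt_cons_neg T (by rw [h3]; decide)]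
      exact (List.Perm.append_left _ (perm_aux _ _ _ _)).trans List.perm_middle

theorem passf_length (T : List Rec) : (passf T).length = T.length := by
  rw [(passf_perm T).length_eq, List.length_map]

theorem passf_mem {n k : ℕ} {T : List Rec} (hT : ∀ R ∈ T, R.1.length = n ∧ R.2.length = k) :
    ∀ R ∈ passf T, R.1.length = n ∧ R.2.length = k := by
  intro R hR
  rw [(passf_perm T).mem_iff, List.mem_map] at hR
  obtain ⟨R', hR', rfl⟩ := hR
  simpa [rot] using hT R' hR'

theorem bkt_enc_length (n : ℕ) (c : Cell) (T : List Rec)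
    (hT : ∀ R ∈ T, R.1.length = n ∧ R.2.length = n + 1) :
    (encTab (bkt c T)).length ≤ T.length * (2 * n + 2) := by
  rw [encTab_length n]
  · rw [bkt, List.length_map]
    exact Nat.mul_le_mul_right _ (List.length_filter_le _ _)
  · intro R hR
    rw [bkt, List.mem_map] at hR
    obtain ⟨R', hR', rfl⟩ := hR
    simpa [rot] using hT R' (List.mem_of_mem_filter hR')

/-- Cost of a pass, per record. -/
def costP (n : ℕ) : ℕ := 20 * n + 30

theorem runs_pass (n : ℕ) (T : List Rec) (hT : ∀ R ∈ T, R.1.length = n + 1 ∧ R.2.length = n + 2)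
    (x y z f g h cy md kp I O ma mb xs ta) :
    ∃ y', Runs pass
      (⟨x, y, z, f, g, h, cy, md, kp⟩,
        ⟨I, O, ma, mb, xs, ta, encTab T, [], [], [], []⟩)
      (⟨none, y', z, f, g, h, cy, md, kp⟩,
        ⟨I, O, ma, mb, xs, ta, encTab (passf T), [], [], [], []⟩)
      (T.length * costP (n + 1) + 10) := by
  obtain ⟨y1, h1⟩ := pass_loop n T hT y z f g h cy md kp I O ma mb xs ta [] [] [] []
  refine ⟨y1, ?_⟩
  have h0 : Runs (.blk [px .tb])
      (⟨x, y, z, f, g, h, cy, md, kp⟩,
        ⟨I, O, ma, mb, xs, ta, encTab T, [], [], [], []⟩)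
      (⟨(encTab T).head?, y, z, f, g, h, cy, md, kp⟩,
        ⟨I, O, ma, mb, xs, ta, (encTab T).tail, [], [], [], []⟩) 1 := Runs.blk rfl
  simp only [List.append_nil] at h1
  have h2 := runs_moveAll .tc .tb (by decide) ⟨none, y1, z, f, g, h, cy, md, kp⟩
    ⟨I, O, ma, mb, xs, ta, [], (encTab (bkt (true, true) T)).reverse,
      (encTab (bkt (false, false) T)).reverse, (encTab (bkt (true, false) T)).reverse,
      (encTab (bkt (false, true) T)).reverse⟩
  simp only [St.gs, St.ss, List.append_nil, List.reverse_reverse] at h2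
  have h3 := runs_moveAll .va .tb (by decide) ⟨none, y1, z, f, g, h, cy, md, kp⟩
    ⟨I, O, ma, mb, xs, ta, encTab (bkt (true, true) T), [],
      (encTab (bkt (false, false) T)).reverse, (encTab (bkt (true, false) T)).reverse,
      (encTab (bkt (false, true) T)).reverse⟩
  simp only [St.gs, St.ss, List.reverse_reverse] at h3
  have h4 := runs_moveAll .wb .tb (by decide) ⟨none, y1, z, f, g, h, cy, md, kp⟩
    ⟨I, O, ma, mb, xs, ta, encTab (bkt (false, true) T) ++ encTab (bkt (true, true) T), [],
      (encTab (bkt (false, false) T)).reverse, (encTab (bkt (true, false) T)).reverse, []⟩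
  simp only [St.gs, St.ss, List.reverse_reverse] at h4
  have h5 := runs_moveAll .wa .tb (by decide) ⟨none, y1, z, f, g, h, cy, md, kp⟩
    ⟨I, O, ma, mb, xs, ta, encTab (bkt (true, false) T) ++ (encTab (bkt (false, true) T) ++
      encTab (bkt (true, true) T)), [],
      (encTab (bkt (false, false) T)).reverse, [], []⟩
  simp only [St.gs, St.ss, List.reverse_reverse] at h5
  have := h0.seq (h1.seq (h2.seq (h3.seq (h4.seq h5))))
  have e : encTab (bkt (false, false) T) ++ (encTab (bkt (true, false) T) ++
      (encTab (bkt (false, true) T) ++ encTab (bkt (true, true) T))) = encTab (passf T) := by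
    rw [passf, encTab_append, encTab_append, encTab_append]
  rw [e] at this
  refine this.mono ?_
  have l0 := bkt_enc_length (n + 1) (false, false) T hT
  have l1 := bkt_enc_length (n + 1) (true, false) T hT
  have l2 := bkt_enc_length (n + 1) (false, true) T hT
  have l3 := bkt_enc_length (n + 1) (true, true) T hT
  simp only [List.length_reverse]
  unfold costP
  have e4 : T.length * (20 * (n + 1) + 30) =
      T.length * (4 * n + 14) + 8 * (T.length * (2 * (n + 1) + 2)) + T.length * 4 := by ring
  omega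

theorem stageS_loop (n : ℕ) (xs : List Sym) : ∀ (w : List Ctl) (_hw : w.length ≤ n) (T : List Rec)
    (_hT : ∀ R ∈ T, R.1.length = n ∧ R.2.length = n + 1)
    (y z f g h cy md kp I O ma mb ta),
    ∃ y', Runs (.loop (fun r => isCtl r.x) (.seq pass (.blk [px .xs])))
      (⟨(w.map Sym.ctl ++ (.sep :: xs)).head?, y, z, f, g, h, cy, md, kp⟩,
        ⟨I, O, ma, mb, (w.map Sym.ctl ++ (.sep :: xs)).tail, ta, encTab T, [], [], [], []⟩)
      (⟨some .sep, y', z, f, g, h, cy, md, kp⟩,
        ⟨I, O, ma, mb, xs, ta, encTab (passf^[w.length] T), [], [], [], []⟩)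
      (w.length * (T.length * costP n + 12) + 1) := by
  intro w
  induction w with
  | nil =>
    intro hw T hT y z f g h cy md kp I O ma mb ta
    exact ⟨y, (Runs.loop_false rfl).mono (by simp)⟩
  | cons c w ih =>
    intro hw T hT y z f g h cy md kp I O ma mb ta
    obtain ⟨m, rfl⟩ : ∃ m, n = m + 1 := by
      rw [List.length_cons] at hw
      exact ⟨n - 1, by omega⟩
    obtain ⟨y1, h1⟩ := runs_pass m T hT (some (.ctl c)) y z f g h cy md kp I O ma mb
      (w.map Sym.ctl ++ (.sep :: xs)) ta
    have hb : Runs (.blk [px .xs])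
        (⟨none, y1, z, f, g, h, cy, md, kp⟩,
          ⟨I, O, ma, mb, w.map Sym.ctl ++ (.sep :: xs), ta, encTab (passf T), [], [], [], []⟩)
        (⟨(w.map Sym.ctl ++ (.sep :: xs)).head?, y1, z, f, g, h, cy, md, kp⟩,
          ⟨I, O, ma, mb, (w.map Sym.ctl ++ (.sep :: xs)).tail, ta, encTab (passf T), [], [], [],
            []⟩) 1 := Runs.blk rfl
    obtain ⟨y2, h2⟩ := ih (by rw [List.length_cons] at hw; omega) (passf T) (passf_mem hT)
      y1 z f g h cy md kp I O ma mb ta
    refine ⟨y2, ?_⟩
    have := Runs.loop_true (c := fun r => isCtl r.x)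
      (s := (⟨((c :: w).map Sym.ctl ++ (.sep :: xs)).head?, y, z, f, g, h, cy, md, kp⟩,
        ⟨I, O, ma, mb, ((c :: w).map Sym.ctl ++ (.sep :: xs)).tail, ta, encTab T, [], [], [], []⟩))
      rfl (h1.seq hb) h2
    rw [passf_length] at this
    refine this.mono ?_
    rw [List.length_cons]
    ring_nf
    omega

theorem runs_stageS (n : ℕ) (w : List Ctl) (hw : w.length = n) (T : List Rec)
    (hT : ∀ R ∈ T, R.1.length = n ∧ R.2.length = n + 1)
    (x y z f g h cy md kp I O ma mb xs ta) :
    ∃ y', Runs stageS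
      (⟨x, y, z, f, g, h, cy, md, kp⟩,
        ⟨I, O, ma, mb, w.map Sym.ctl ++ (.sep :: xs), ta, encTab T, [], [], [], []⟩)
      (⟨some .sep, y', z, f, g, h, cy, md, kp⟩,
        ⟨I, O, ma, mb, xs, ta, encTab (passf^[n] T), [], [], [], []⟩)
      (n * (T.length * costP n + 12) + 2) := by
  obtain ⟨y1, h1⟩ := stageS_loop n xs w (by omega) T hT y z f g h cy md kp I O ma mb ta
  refine ⟨y1, ?_⟩
  have h0 : Runs (.blk [px .xs])
      (⟨x, y, z, f, g, h, cy, md, kp⟩,
        ⟨I, O, ma, mb, w.map Sym.ctl ++ (.sep :: xs), ta, encTab T, [], [], [], []⟩)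
      (⟨(w.map Sym.ctl ++ (.sep :: xs)).head?, y, z, f, g, h, cy, md, kp⟩,
        ⟨I, O, ma, mb, (w.map Sym.ctl ++ (.sep :: xs)).tail, ta, encTab T, [], [], [], []⟩) 1 :=
    Runs.blk rfl
  have := h0.seq h1
  rw [hw] at this
  exact this.mono (by omega)

end Pool.Agent.H1.Sat
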