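import Pool.Agent.H1.SatExecP

/-!
# Execution of the whole program
-/

namespace Pool.Agent.H1.Sat

open Op Prog

/-- One step of the second preparation loop. -/
def xst (xs : List Sym) : Sym → List Sym
  | .cell c => .ctl (.p1 c.2) :: xs
  | _ => .sep :: .hdr false true :: xs

theorem p5_loop : ∀ (L : List Sym) (_hL : ∀ a ∈ L, (isCell (some a) || isSep (some a)) = true)
    (rest : List Sym) (_hrest : (isCell rest.head? || isSep rest.head?) = false)
    (y z f g h cy md kp I O ma xs ta tb tc wa wb va),
    Runs (.loop (fun r => isCell r.x || isSep r.x)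
      (.seq (.ite (fun r => isCell r.x)
        (.blk [pu .ma fun r => sy r.x, pu .xs fun r => .ctl (.p1 (cellOf r.x).2)])
        (.blk [pu .ma fun _ => .sep, pu .xs fun _ => .hdr false true, pu .xs fun _ => .sep]))
        (.blk [px .mb])))
      (⟨(L ++ rest).head?, y, z, f, g, h, cy, md, kp⟩,
        ⟨I, O, ma, (L ++ rest).tail, xs, ta, tb, tc, wa, wb, va⟩)
      (⟨rest.head?, y, z, f, g, h, cy, md, kp⟩,
        ⟨I, O, L.reverse ++ ma, rest.tail, L.foldl xst xs, ta, tb, tc, wa, wb, va⟩)
      (4 * L.length + 1) := by
  intro L
  induction L with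
  | nil =>
    intro hL rest hrest y z f g h cy md kp I O ma xs ta tb tc wa wb va
    exact (Runs.loop_false (by simpa using hrest)).mono (by simp)
  | cons a L ih =>
    intro hL rest hrest y z f g h cy md kp I O ma xs ta tb tc wa wb va
    have ha := hL a (by simp)
    have h2 := ih (fun b hb => hL b (by simp [hb])) rest hrest y z f g h cy md kp I O (a :: ma)
      (xst xs a) ta tb tc wa wb va
    have hbody : Runs (.seq (.ite (fun r => isCell r.x)
        (.blk [pu .ma fun r => sy r.x, pu .xs fun r => .ctl (.p1 (cellOf r.x).2)])
        (.blk [pu .ma fun _ => .sep, pu .xs fun _ => .hdr false true, pu .xs fun _ => .sep]))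
        (.blk [px .mb]))
        (⟨((a :: L) ++ rest).head?, y, z, f, g, h, cy, md, kp⟩,
        ⟨I, O, ma, ((a :: L) ++ rest).tail, xs, ta, tb, tc, wa, wb, va⟩)
        (⟨(L ++ rest).head?, y, z, f, g, h, cy, md, kp⟩,
        ⟨I, O, a :: ma, (L ++ rest).tail, xst xs a, ta, tb, tc, wa, wb, va⟩) 3 := by
      cases a with
      | cell c =>
        exact (Runs.seq (Runs.ite_true rfl (Runs.blk rfl)) (Runs.blk rfl)).mono (by norm_num)
      | sep =>
        exact (Runs.seq (Runs.ite_false rfl (Runs.blk rfl)) (Runs.blk rfl)).mono (by norm_num)
      | bit b => exact absurd ha (by simp [isCell, isSep])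
      | ctl b => exact absurd ha (by simp [isCell, isSep])
      | hdr b c => exact absurd ha (by simp [isCell, isSep])
      | wc b => exact absurd ha (by simp [isCell, isSep])
      | pc b c => exact absurd ha (by simp [isCell, isSep])
      | pb b c d => exact absurd ha (by simp [isCell, isSep])
    have := Runs.loop_true (c := fun r => isCell r.x || isSep r.x)
      (s := (⟨((a :: L) ++ rest).head?, y, z, f, g, h, cy, md, kp⟩,
        ⟨I, O, ma, ((a :: L) ++ rest).tail, xs, ta, tb, tc, wa, wb, va⟩)) ha hbody h2
    have e : L.reverse ++ (a :: ma) = (a :: L).reverse ++ ma := by simp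
    rw [e] at this
    refine this.mono ?_
    simp only [List.length_cons]
    omega

theorem p5_marks : ∀ (L : List Sym) (y z f g h cy md kp I O ma xs ta tb tc wa wb va),
    Runs (.loop (fun r => isSome r.x) (.blk [pu .xs fun r => sy r.x, px .mb]))
      (⟨L.head?, y, z, f, g, h, cy, md, kp⟩,
        ⟨I, O, ma, L.tail, xs, ta, tb, tc, wa, wb, va⟩)
      (⟨none, y, z, f, g, h, cy, md, kp⟩,
        ⟨I, O, ma, [], L.reverse ++ xs, ta, tb, tc, wa, wb, va⟩)
      (2 * L.length + 1) := by
  intro L
  induction L with
  | nil =>
    intro y z f g h cy md kp I O ma xs ta tb tc wa wb va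
    exact (Runs.loop_false rfl).mono (by simp)
  | cons a L ih =>
    intro y z f g h cy md kp I O ma xs ta tb tc wa wb va
    have := Runs.loop_true (c := fun r => isSome r.x) (b := 1)
      (s := (⟨(a :: L).head?, y, z, f, g, h, cy, md, kp⟩,
        ⟨I, O, ma, (a :: L).tail, xs, ta, tb, tc, wa, wb, va⟩))
      rfl (Runs.blk rfl) (ih y z f g h cy md kp I O ma (a :: xs) ta tb tc wa wb va)
    have e : L.reverse ++ (a :: xs) = (a :: L).reverse ++ xs := by simp
    rw [e] at this
    refine this.mono ?_
    simp only [List.length_cons]
    omega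

/-- The rows of the input, as stack symbols. -/
def symRows (M : List Key) : List Sym := M.flatMap fun A => .sep :: A.map Sym.cell

/-- The control words of the first phase. -/
def w1 (M : List Key) : List CW := M.map fun A => (false, true, A.map fun c => .p1 c.2)

/-- The schedule. -/
def sched (n : ℕ) (M : List Key) : List CW :=
  (false, false, List.replicate n (.p1 false)) :: (w1 M ++ wl n n)

theorem symRows_cons (A : Key) (M : List Key) :
    symRows (A :: M) = .sep :: (A.map Sym.cell ++ symRows M) := rfl

theorem symRows_sep (M : List Key) : symRows M ++ [.sep] = .sep :: encMat M := by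
  induction M with
  | nil => rfl
  | cons A M ih =>
    rw [symRows_cons, encMat_cons, encRow]
    simp only [List.cons_append, List.append_assoc, List.nil_append]
    rw [ih]

theorem foldr_cells (A : Key) (X : List Sym) :
    (A.map Sym.cell).foldr (fun x y => xst y x) X = A.map (fun c => Sym.ctl (.p1 c.2)) ++ X := by
  induction A with
  | nil => rfl
  | cons a A ih => rw [List.map_cons, List.foldr_cons, ih]; rfl

theorem foldr_symRows (M : List Key) (X : List Sym) :
    (symRows M).foldr (fun x y => xst y x) (.sep :: X) = .sep :: (encSched (w1 M) ++ X) := by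
  induction M with
  | nil => rfl
  | cons A M ih =>
    rw [symRows_cons, List.foldr_cons, List.foldr_append, ih, foldr_cells]
    simp [xst, w1, encSched, encCW]

theorem symRows_mem (M : List Key) : ∀ a ∈ symRows M, (isCell (some a) || isSep (some a)) = true := by
  intro a ha
  rw [symRows, List.mem_flatMap] at ha
  obtain ⟨A, -, ha⟩ := ha
  rw [List.mem_cons, List.mem_map] at ha
  rcases ha with rfl | ⟨c, -, rfl⟩ <;> rfl

theorem symRows_length (n : ℕ) (M : List Key) (hM : ∀ A ∈ M, A.length = n) :
    (symRows M).length = M.length * (n + 1) := by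
  have := congrArg List.length (symRows_sep M)
  rw [List.length_append, List.length_cons, List.length_cons, encMat_length n M hM] at this
  simpa using this

theorem runs_pre5 (n : ℕ) (M : List Key) (hM : ∀ A ∈ M, A.length = n)
    (x y z f g h cy md kp I O xs ta tb tc wa wb va) :
    Runs pre5
      (⟨x, y, z, f, g, h, cy, md, kp⟩,
        ⟨I, O, [], (symRows M).reverse ++ List.replicate n (.ctl (.p1 false)), xs, ta, tb, tc, wa,
          wb, va⟩)
      (⟨some .sep, y, z, f, g, h, cy, md, kp⟩,
        ⟨I, O, encMat M, [], encSched ((false, false, List.replicate n (.p1 false)) :: w1 M) ++ xs,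
          ta, tb, tc, wa, wb, va⟩)
      (4 * (M.length * (n + 1)) + 2 * n + 4) := by
  have h0 : Runs (.blk [pu .ma fun _ => .sep, pu .xs fun _ => .sep, px .mb])
      (⟨x, y, z, f, g, h, cy, md, kp⟩,
        ⟨I, O, [], (symRows M).reverse ++ List.replicate n (.ctl (.p1 false)), xs, ta, tb, tc, wa,
          wb, va⟩)
      (⟨((symRows M).reverse ++ List.replicate n (Sym.ctl (.p1 false))).head?, y, z, f, g, h, cy, md,
        kp⟩,
        ⟨I, O, [.sep], ((symRows M).reverse ++ List.replicate n (Sym.ctl (.p1 false))).tail,
          .sep :: xs, ta, tb, tc, wa, wb, va⟩) 1 := Runs.blk rfl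
  have h1 := p5_loop (symRows M).reverse
    (by intro a ha; exact symRows_mem M a (List.mem_reverse.1 ha))
    (List.replicate n (.ctl (.p1 false))) (by cases n <;> rfl) y z f g h cy md kp I O [.sep]
    (.sep :: xs) ta tb tc wa wb va
  rw [List.reverse_reverse, symRows_sep, List.foldl_reverse, foldr_symRows] at h1
  have h2 := p5_marks (List.replicate n (.ctl (.p1 false))) y z f g h cy md kp I O
    (.sep :: encMat M) (.sep :: (encSched (w1 M) ++ xs)) ta tb tc wa wb va
  have h3 : Runs (.blk [pu .xs fun _ => .hdr false false, px .ma])
      (⟨none, y, z, f, g, h, cy, md, kp⟩,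
        ⟨I, O, .sep :: encMat M, [], (List.replicate n (Sym.ctl (.p1 false))).reverse ++
          (.sep :: (encSched (w1 M) ++ xs)), ta, tb, tc, wa, wb, va⟩)
      (⟨some .sep, y, z, f, g, h, cy, md, kp⟩,
        ⟨I, O, encMat M, [], .hdr false false :: ((List.replicate n (Sym.ctl (.p1 false))).reverse ++
          (.sep :: (encSched (w1 M) ++ xs))), ta, tb, tc, wa, wb, va⟩) 1 := Runs.blk rfl
  have := h0.seq (h1.seq (h2.seq h3))
  have e : Sym.hdr false false :: ((List.replicate n (Sym.ctl (.p1 false))).reverse ++
      (.sep :: (encSched (w1 M) ++ xs))) =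
      encSched ((false, false, List.replicate n (.p1 false)) :: w1 M) ++ xs := by
    simp [encSched, encCW]
  rw [e] at this
  refine this.mono ?_
  rw [List.length_reverse, symRows_length n M hM, List.length_replicate]
  omega

/-- The input word. -/
def inputOf (n : ℕ) (M : List Key) : List (Option Cell) :=
  List.replicate n (some botC) ++ M.flatMap fun A => none :: A.map some

theorem map_conv_rows (M : List Key) :
    (M.flatMap fun A => (none : Option Cell) :: A.map some).map conv = symRows M := by
  induction M with
  | nil => rfl
  | cons A M ih =>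
    rw [symRows_cons, ← ih]
    simp [conv]

/-- Total cost. -/
def costT (n m B : ℕ) : ℕ :=
  6 * (m * (n + 1)) + 8 * n + 20 + n * (4 * n + 6) +
    (1 + m + n) * (costR n m B + 2) + costF n m B

theorem wl_length (n j : ℕ) : (wl n j).length = j := by
  induction j with
  | zero => rfl
  | succ j ih => rw [wl, List.length_cons, ih]

theorem wl_mem (n j : ℕ) (hj : j ≤ n) : ∀ c ∈ wl n j, c.2.2.length = n := by
  induction j with
  | zero => intro c hc; simp [wl] at hc
  | succ j ih =>
    intro c hc
    rw [wl, List.mem_cons] at hc
    rcases hc with rfl | hc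
    · exact word_length (by omega)
    · exact ih (by omega) c hc

theorem sched_mem (n : ℕ) (M : List Key) (hM : ∀ A ∈ M, A.length = n) :
    ∀ c ∈ sched n M, c.2.2.length = n := by
  intro c hc
  rw [sched, List.mem_cons, List.mem_append] at hc
  rcases hc with rfl | hc | hc
  · simp
  · rw [w1, List.mem_map] at hc
    obtain ⟨A, hA, rfl⟩ := hc
    simpa using hM A hA
  · exact wl_mem n n le_rfl c hc

/-- The initial table. -/
def tab0 (n : ℕ) : List Rec := [(List.replicate n botC, true :: List.replicate n false)]

theorem tab0_mem (n : ℕ) : ∀ R ∈ tab0 n, R.1.length = n ∧ R.2.length = n + 1 := by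
  intro R hR
  rw [tab0, List.mem_singleton] at hR
  subst hR
  simp

/-- The final table. -/
def tabN (n : ℕ) (M : List Key) : List Rec := (sched n M).foldl (roundF M) (tab0 n)

theorem foldl_roundF_mem (n : ℕ) (M : List Key) (hM : ∀ A ∈ M, A.length = n) (L : List CW)
    (hL : ∀ c ∈ L, c.2.2.length = n) (T : List Rec)
    (hT : ∀ R ∈ T, R.1.length = n ∧ R.2.length = n + 1) :
    ∀ R ∈ L.foldl (roundF M) T, R.1.length = n ∧ R.2.length = n + 1 := by
  induction L generalizing T with
  | nil => exact hT
  | cons c L ih =>
    rw [List.foldl_cons]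
    exact ih (fun c hc => hL c (by simp [hc])) _ (roundF_mem n M hM c (hL c (by simp)) T hT)

theorem runs_satProg (n : ℕ) (M : List Key) (hM : ∀ A ∈ M, A.length = n) (B : ℕ)
    (hB : ∀ L1 L2, sched n M = L1 ++ L2 → (L1.foldl (roundF M) (tab0 n)).length ≤ B) :
    Runs satProg
      (reg0, ⟨inputOf n M, [], [], [], [], [], [], [], [], [], []⟩)
      (reg0, ⟨[], (resF M (tabN n M)).any id :: resF M (tabN n M), [], [], [], [], [], [], [], [],
        []⟩)
      (costT n M.length B) := by
  have hrest : isCell (((M.flatMap fun A => (none : Option Cell) :: A.map some).head?).map conv) =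
      false := by
    cases M <;> rfl
  have r1 := runs_pre1 n (M.flatMap fun A => none :: A.map some) hrest none none none false false
    false false false false [] [] [] [] [] []
  have r2 := pre2_loop (M.flatMap fun A => none :: A.map some) none none false (decide (n = 0))
    false false false false [] [] (List.replicate n (.ctl (.p1 false))) []
    (List.replicate n (.bit false) ++ [.sep]) [] [] []
    (if n = 0 then [] else (word n 0).reverse.map Sym.ctl) (List.replicate n (.cell botC))
  rw [map_conv_rows] at r2
  have r3 := runs_pre3 n none none none false (decide (n = 0)) false false false false [] [] []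
    ((symRows M).reverse ++ List.replicate n (.ctl (.p1 false))) [] [] [] []
    (if n = 0 then [] else (word n 0).reverse.map Sym.ctl)
  obtain ⟨f4, r4⟩ := runs_pre4 n none none none false false false false false [] [] []
    ((symRows M).reverse ++ List.replicate n (.ctl (.p1 false))) (encTab (tab0 n)) [] [] []
  have r5 := runs_pre5 n M hM none none none f4 false false false false false [] []
    (encSched (wl n n)) (encTab (tab0 n)) [] [] [] [] []
  have e : encSched ((false, false, List.replicate n (.p1 false)) :: w1 M) ++ encSched (wl n n) =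
      encSched (sched n M) := by
    simp [encSched, sched]
  rw [e] at r5
  obtain ⟨y6, z6, f6, g6, h6, cy6, md6, kp6, r6⟩ := runs_mainLoop n M hM B (sched n M)
    (sched_mem n M hM) (tab0 n) (tab0_mem n) hB (some .sep) none none f4 false false false false
    false [] []
  have hBN : (tabN n M).length ≤ B := hB (sched n M) [] (by simp)
  have r7 := runs_fin n M hM (tabN n M)
    (foldl_roundF_mem n M hM _ (sched_mem n M hM) _ (tab0_mem n)) B hBN none y6 z6 f6 g6 h6 cy6 md6
    kp6
  have := r1.seq (r2.seq (r3.seq (r4.seq (r5.seq (r6.seq r7)))))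
  refine this.mono ?_
  have l1 : (M.flatMap fun A => (none : Option Cell) :: A.map some).length =
      M.length * (n + 1) := by
    have := congrArg List.length (map_conv_rows M)
    rw [List.length_map, symRows_length n M hM] at this
    exact this
  have l2 : (sched n M).length = 1 + M.length + n := by
    rw [sched, List.length_cons, List.length_append, w1, List.length_map, wl_length]
    omega
  rw [l1, l2]
  unfold costT
  omega

end Pool.Agent.H1.Sat
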