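import Pool.Agent.H1.SatMathB
import Pool.Agent.H1.SatExecW

/-!
# From lists to functions
-/

namespace Pool.Agent.H1.Sat

variable {n : ℕ}

theorem zipWith_ofFn' {α β γ : Type} (f : α → β → γ) (a : Fin n → α) (b : Fin n → β) :
    List.zipWith f (List.ofFn a) (List.ofFn b) = List.ofFn fun i => f (a i) (b i) := by
  apply List.ext_getElem
  · simp
  · intro i h1 h2
    simp

theorem leW_ofFn : ∀ {n : ℕ} (W : Fin n → WC) (A : Fin n → Cell),
    leW (List.ofFn W) (List.ofFn A) = decide (∀ i, leC (A i) (W i).q = true) := by
  intro n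
  induction n with
  | zero => intro W A; simp [leW]
  | succ n ih =>
    intro W A
    rw [List.ofFn_succ, List.ofFn_succ, leW, ih]
    rw [Bool.eq_iff_iff]
    simp only [Bool.and_eq_true, decide_eq_true_eq, Fin.forall_fin_succ]

theorem negW_ofFn : ∀ {n : ℕ} (w : Fin n → Ctl) (A : Fin n → Cell),
    negW (List.ofFn w) (List.ofFn A) = decide (∃ i, ccB (w i) = true ∧ (A i).2 = true) := by
  intro n
  induction n with
  | zero => intro w A; simp [negW]
  | succ n ih =>
    intro w A
    rw [List.ofFn_succ, List.ofFn_succ, negW, ih]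
    rw [Bool.eq_iff_iff]
    simp only [Bool.or_eq_true, Bool.and_eq_true, decide_eq_true_eq, Fin.exists_fin_succ]

theorem all_ofFn {α : Type} : ∀ {n : ℕ} (p : α → Bool) (f : Fin n → α),
    (List.ofFn f).all p = decide (∀ i, p (f i) = true) := by
  intro n
  induction n with
  | zero => intro p f; simp
  | succ n ih =>
    intro p f
    rw [List.ofFn_succ, List.all_cons, ih]
    rw [Bool.eq_iff_iff]
    simp only [Bool.and_eq_true, decide_eq_true_eq, Fin.forall_fin_succ]

theorem rowStep_ofFn (r q acc : Cube n) (w : Fin n → Ctl) (A : Cube n) :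
    rowStep (List.ofFn fun i => (⟨r i, q i, acc i, botC, w i⟩ : WC)) (List.ofFn A) =
      List.ofFn fun i =>
        (⟨r i, q i, if leF A q then orC (acc i) (A i) else acc i, botC, w i⟩ : WC) := by
  unfold rowStep tentW
  rw [zipWith_ofFn', leW_ofFn, List.map_ofFn]
  congr 1
  funext i
  simp only [Function.comp_apply, commit, decide_eq_true_eq]
  change (if leF A q then _ else _) = _
  split_ifs <;> rfl

theorem foldl_rowStep_ofFn (L : List (Cube n)) (r q acc : Cube n) (w : Fin n → Ctl) :
    (L.map List.ofFn).foldl rowStep (List.ofFn fun i => (⟨r i, q i, acc i, botC, w i⟩ : WC)) =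
      List.ofFn fun i => (⟨r i, q i, orC (acc i) (hullF L q i), botC, w i⟩ : WC) := by
  induction L generalizing acc with
  | nil =>
    rw [List.map_nil, List.foldl_nil]
    congr 1
    funext i
    congr 1
    simp [orC, hullF]
  | cons A L ih =>
    rw [List.map_cons, List.foldl_cons, rowStep_ofFn, ih]
    congr 1
    funext i
    congr 1
    by_cases h : leF A q
    · rw [if_pos h]
      simp only [orC, hullF, Prod.mk.injEq]
      constructor
      · rw [Bool.or_assoc]
        congr 1
        rw [Bool.eq_iff_iff]
        simp [h]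
      · rw [Bool.or_assoc]
        congr 1
        rw [Bool.eq_iff_iff]
        simp [h]
    · rw [if_neg h]
      simp only [orC, hullF, Prod.mk.injEq]
      constructor
      · congr 1
        rw [Bool.eq_iff_iff]
        simp [h]
      · congr 1
        rw [Bool.eq_iff_iff]
        simp [h]

/-- The query of a control word. -/
def qF (w : Fin n → Ctl) (κ : Cube n) : Cube n := fun i => qC (w i) (κ i)

theorem workW_ofFn (M : List (Cube n)) (w : Fin n → Ctl) (κ : Cube n) :
    workW (M.map List.ofFn) (List.ofFn w) (List.ofFn κ) =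
      List.ofFn fun i => (⟨κ i, qF w κ i, hullF M (qF w κ) i, botC, w i⟩ : WC) := by
  unfold workW loadW
  rw [zipWith_ofFn']
  have := foldl_rowStep_ofFn M κ (qF w κ) (fun _ => botC) w
  refine Eq.trans this ?_
  congr 1

/-- The check of a control word. -/
def okF (M : List (Cube n)) (w : Fin n → Ctl) (κ : Cube n) : Prop :=
  ∀ i, chk (⟨κ i, qF w κ i, hullF M (qF w κ) i, botC, w i⟩ : WC) = true

instance (M : List (Cube n)) (w : Fin n → Ctl) (κ : Cube n) : Decidable (okF M w κ) := by
  unfold okF; infer_instance

theorem em2_ofFn (M : List (Cube n)) (w : Fin n → Ctl) (κ : Cube n) (v : List Bool) :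
    em2 (M.map List.ofFn) (List.ofFn w) (List.ofFn κ, v) =
      (List.ofFn (hullF M (qF w κ)),
        (negBits (decide (∃ i, ccB (w i) = true ∧ (κ i).2 = true)) true v).map
          (· && decide (okF M w κ))) := by
  unfold em2
  rw [workW_ofFn, List.map_ofFn, negW_ofFn, all_ofFn]
  rfl

/-! ### The control words -/

/-- Control word of the first phase. -/
def wd1 (D : Cube n) : Fin n → Ctl := fun i => .p1 (D i).2

/-- Control word of the second phase. -/
def wd2 (c : Fin n) : Fin n → Ctl := fun i => if i < c then .ca else if i = c then .cc else .cd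

theorem qF_wd1 (D κ : Cube n) : qF (wd1 D) κ = pt (nb D κ) := rfl

theorem okF_wd1 (M : List (Cube n)) (D κ : Cube n) :
    okF M (wd1 D) κ ↔ isB M (nb D κ) := by
  unfold okF isB
  refine forall_congr' fun i => ?_
  change (!(nb D κ i) || (hullF M (pt (nb D κ)) i).2) = true ↔ _
  rw [Bool.or_eq_true, Bool.not_eq_true', key]
  cases nb D κ i <;> simp

theorem neg_wd1 (D κ : Cube n) :
    decide (∃ i, ccB (wd1 D i) = true ∧ (κ i).2 = true) = false := by
  rw [decide_eq_false_iff_not]
  rintro ⟨i, h, -⟩
  exact absurd h (by simp [wd1, ccB, isCC])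

theorem qF_wd2 (c : Fin n) (κ : Cube n) : qF (wd2 c) κ = zc c κ := by
  funext i
  unfold qF wd2 zc
  by_cases h1 : i < c
  · rw [if_pos h1, if_neg (ne_of_lt h1)]; rfl
  · rw [if_neg h1]
    by_cases h2 : i = c
    · rw [if_pos h2, if_pos h2]; rfl
    · rw [if_neg h2, if_neg h2]; rfl

theorem okF_wd2 (M : List (Cube n)) (c : Fin n) (κ : Cube n) :
    okF M (wd2 c) κ ↔ okc M c κ := by
  unfold okF okc
  rw [qF_wd2]
  refine forall_congr' fun i => ?_
  by_cases h1 : i < c
  · have h2 : i ≠ c := ne_of_lt h1
    simp only [chk, wd2, h1, true_imp_iff, zc, if_neg h2]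
    change (!(κ i).2 || (hullF M (zc c κ) i).2) = true ↔ ((κ i).2 = true → (next M c κ i).2 = true)
    rw [Bool.or_eq_true, Bool.not_eq_true', next]
    cases (κ i).2 <;> simp
  · simp only [h1, false_imp_iff, iff_true]
    unfold wd2
    rw [if_neg h1]
    by_cases h2 : i = c
    · rw [if_pos h2]; rfl
    · rw [if_neg h2]; rfl

theorem neg_wd2 (c : Fin n) (κ : Cube n) :
    decide (∃ i, ccB (wd2 c i) = true ∧ (κ i).2 = true) = (κ c).2 := by
  rw [Bool.eq_iff_iff, decide_eq_true_eq]
  constructor
  · rintro ⟨i, h, h'⟩
    by_cases h1 : i < c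
    · rw [wd2, if_pos h1] at h; exact absurd h (by simp [ccB, isCC])
    · by_cases h2 : i = c
      · rwa [h2] at h'
      · rw [wd2, if_neg h1, if_neg h2] at h; exact absurd h (by simp [ccB, isCC])
  · intro h
    refine ⟨c, ?_, h⟩
    rw [wd2, if_neg (lt_irrefl c), if_pos rfl]
    rfl

theorem word_eq (c : Fin n) : word n c = List.ofFn (wd2 c) := by
  apply List.ext_getElem
  · rw [word_length c.isLt, List.length_ofFn]
  · intro i h1 h2
    rw [List.getElem_ofFn]
    have hi : i < n := by simpa using h2
    unfold word wd2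
    rcases lt_trichotomy i (c : ℕ) with h | h | h
    · rw [List.getElem_append_left (by simpa using h), List.getElem_replicate, if_pos]
      exact h
    · subst h
      rw [List.getElem_append_right (by simp), if_neg (by simp), if_pos (by simp)]
      simp
    · rw [List.getElem_append_right (by simp; omega), if_neg, if_neg]
      · obtain ⟨j, hj⟩ : ∃ j, i - (List.replicate (c : ℕ) Ctl.ca).length = j + 1 := by
          refine ⟨i - c - 1, ?_⟩
          rw [List.length_replicate]
          omega
        simp only [hj, List.getElem_cons_succ, List.getElem_replicate]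
      · intro hh
        rw [Fin.ext_iff] at hh
        simp only at hh
        omega
      · intro hh
        rw [Fin.lt_def] at hh
        simp only at hh
        omega

theorem w1_ofFn (M : List (Cube n)) :
    w1 (M.map List.ofFn) = M.map fun D => (false, true, List.ofFn (wd1 D)) := by
  unfold w1
  rw [List.map_map]
  refine List.map_congr_left fun D _ => ?_
  simp only [Function.comp_apply, List.map_ofFn]
  rfl

theorem w0_ofFn : List.replicate n (Ctl.p1 false) = List.ofFn (wd1 fun _ : Fin n => botC) := by
  apply List.ext_getElem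
  · simp
  · intro i h1 h2
    simp [wd1]

end Pool.Agent.H1.Sat
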