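import Pool.Agent.H1.SatGlueA

/-!
# Values of counts, and the semantics of merging
-/

namespace Pool.Agent.H1.Sat

/-- Value of a bit. -/
def b2n (b : Bool) : ℕ := if b then 1 else 0

/-- Value of a list of bits, least significant first. -/
def val : List Bool → ℕ
  | [] => 0
  | b :: v => b2n b + 2 * val v

theorem val_lt (v : List Bool) : val v < 2 ^ v.length := by
  induction v with
  | nil => simp [val]
  | cons b v ih =>
    rw [val, List.length_cons, pow_succ]
    have : b2n b ≤ 1 := by cases b <;> simp [b2n]
    omega

theorem val_zeros (v : List Bool) : val (v.map fun _ => false) = 0 := by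
  induction v with
  | nil => rfl
  | cons b v ih => rw [List.map_cons, val, ih]; rfl

theorem val_eq_zero {v : List Bool} (h : v.any id = false) : val v = 0 := by
  induction v with
  | nil => rfl
  | cons b v ih =>
    rw [List.any_cons, Bool.or_eq_false_iff] at h
    rw [val, ih h.2]
    have : b = false := h.1
    rw [this]
    rfl

theorem val_ne_zero {v : List Bool} (h : v.any id = true) : val v ≠ 0 := by
  induction v with
  | nil => simp at h
  | cons b v ih =>
    rw [List.any_cons, Bool.or_eq_true] at h
    rw [val]
    rcases h with h | h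
    · have : b = true := h
      rw [this]
      simp [b2n]
    · have := ih h
      omega

theorem val_neg (v : List Bool) (cy : Bool) :
    ∃ t : ℤ, (val (negBits true cy v) : ℤ) + val v + 1 = b2n cy + 2 ^ v.length * t := by
  induction v generalizing cy with
  | nil => exact ⟨1 - b2n cy, by simp [val, negBits]⟩
  | cons b v ih =>
    obtain ⟨t, ht⟩ := ih (!b && cy)
    refine ⟨t, ?_⟩
    simp only [negBits, val, if_true, List.length_cons, pow_succ]
    push_cast
    cases b <;> cases cy <;> simp [b2n] at ht ⊢ <;> linarith

theorem negBits_false (v : List Bool) (cy : Bool) : negBits false cy v = v := by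
  induction v generalizing cy with
  | nil => rfl
  | cons b v ih => simp [negBits, ih]

theorem val_comb (v u : List Bool) (h : v.length = u.length) (cy : Bool) :
    ∃ t : ℤ, (val v : ℤ) + val u + b2n cy = val (comb true cy v u) + 2 ^ v.length * t := by
  induction v generalizing u cy with
  | nil =>
    rw [List.eq_nil_of_length_eq_zero h.symm]
    exact ⟨b2n cy, by simp [val, comb]⟩
  | cons a v ih =>
    cases u with
    | nil => simp at h
    | cons b u =>
      obtain ⟨t, ht⟩ := ih u (by simpa using h) (combC true cy a b)
      refine ⟨t, ?_⟩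
      simp only [comb, val, List.length_cons, pow_succ]
      push_cast
      cases a <;> cases b <;> cases cy <;> simp [b2n, combC, combS] at ht ⊢ <;> linarith

theorem comb_false (v u : List Bool) (h : v.length = u.length) (cy : Bool) :
    comb false cy v u = List.zipWith (fun a b => a || b) v u := by
  induction v generalizing u cy with
  | nil => rw [List.eq_nil_of_length_eq_zero h.symm]; rfl
  | cons a v ih =>
    cases u with
    | nil => simp at h
    | cons b u =>
      rw [comb, ih u (by simpa using h)]
      rfl

theorem any_comb_false (v u : List Bool) (h : v.length = u.length) (cy : Bool) :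
    (comb false cy v u).any id = (v.any id || u.any id) := by
  rw [comb_false v u h]
  induction v generalizing u with
  | nil => rw [List.eq_nil_of_length_eq_zero h.symm]; rfl
  | cons a v ih =>
    cases u with
    | nil => simp at h
    | cons b u =>
      rw [List.zipWith_cons_cons, List.any_cons, List.any_cons, List.any_cons,
        ih u (by simpa using h)]
      simp only [id_eq]
      cases a <;> cases b <;> simp

theorem comb_zeros (md : Bool) (v : List Bool) :
    comb md false v (v.map fun _ => false) = v := by
  induction v with
  | nil => rfl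
  | cons a v ih =>
    rw [List.map_cons, comb]
    have h1 : combS md false a false = a := by cases md <;> cases a <;> rfl
    have h2 : combC md false a false = false := by cases md <;> cases a <;> rfl
    rw [h1, h2, ih]

theorem eqK_iff : ∀ {k k' : Key}, k.length = k'.length → (eqK k k' = true ↔ k = k') := by
  intro k
  induction k with
  | nil =>
    intro k' h
    rw [List.eq_nil_of_length_eq_zero h.symm]
    simp [eqK]
  | cons a k ih =>
    intro k' h
    cases k' with
    | nil => simp at h
    | cons b k' =>
      rw [eqK, Bool.and_eq_true, ih (by simpa using h)]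
      simp

/-! ### Sums of values over the records with a given key -/

section den

variable {α : Type} [AddCommMonoid α] (v : List Bool → α)

/-- Sum of the values of the records with key `k`. -/
def den (T : List Rec) (k : Key) : α := (T.map fun R => if R.1 = k then v R.2 else 0).sum

theorem den_nil (k : Key) : den v [] k = 0 := rfl

theorem den_cons (R : Rec) (T : List Rec) (k : Key) :
    den v (R :: T) k = (if R.1 = k then v R.2 else 0) + den v T k := by
  rw [den, List.map_cons, List.sum_cons]
  rfl

theorem den_append (T T' : List Rec) (k : Key) :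
    den v (T ++ T') k = den v T k + den v T' k := by
  rw [den, List.map_append, List.sum_append]
  rfl

theorem den_perm {T T' : List Rec} (h : T.Perm T') (k : Key) : den v T k = den v T' k :=
  (h.map _).sum_eq

/-- Records of the right shape. -/
def Shape (n : ℕ) (T : List Rec) : Prop := ∀ R ∈ T, R.1.length = n ∧ R.2.length = n + 1

theorem den_mrg {n : ℕ} {md : Bool} (h0 : ∀ l : List Bool, v (l.map fun _ => false) = 0)
    (hadd : ∀ a b : List Bool, a.length = n + 1 → b.length = n + 1 →
      v (comb md false a b) = v a + v b)
    (cur : Option Rec) (R : Rec) (hR : R.1.length = n ∧ R.2.length = n + 1)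
    (hcur : ∀ C ∈ cur, C.1.length = n ∧ C.2.length = n + 1) (k : Key) :
    den v [(mrg md cur R).1] k + den v [(mrg md cur R).2] k = den v cur.toList k + den v [R] k := by
  cases cur with
  | none =>
    simp only [mrg, den_cons, den_nil, h0, comb_zeros, Option.toList_none]
    simp
  | some C =>
    obtain ⟨h1, h2⟩ := hcur C rfl
    simp only [mrg, Option.toList_some]
    have hiff := eqK_iff (k := R.1) (k' := C.1) (by rw [hR.1, h1])
    cases he : eqK R.1 C.1
    · have e : (C.2.map fun x => x && !false) = C.2 := by simp
      rw [e]
      simp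
    · have hk : R.1 = C.1 := hiff.1 he
      have e : (C.2.map fun x => x && !true) = C.2.map fun _ => false := by simp
      rw [e]
      simp only [if_true]
      simp only [den_cons, den_nil, h0, hadd R.2 C.2 hR.2 h2]
      by_cases h3 : C.1 = k
      · rw [if_pos h3, if_pos (hk.trans h3), if_pos h3, if_pos (hk.trans h3)]
        simp only [add_zero, zero_add]
        exact add_comm _ _
      · rw [if_neg h3, if_neg (fun h => h3 (hk.symm.trans h)), if_neg h3,
          if_neg (fun h => h3 (hk.symm.trans h))]

theorem den_mrgL {n : ℕ} {md : Bool} (h0 : ∀ l : List Bool, v (l.map fun _ => false) = 0)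
    (hadd : ∀ a b : List Bool, a.length = n + 1 → b.length = n + 1 →
      v (comb md false a b) = v a + v b) (k : Key) :
    ∀ (T : List Rec) (_hT : Shape n T) (cur : Option Rec)
    (_hcur : ∀ C ∈ cur, C.1.length = n ∧ C.2.length = n + 1) (outs : List Rec),
    den v (mrgL md cur outs T).1.toList k + den v (mrgL md cur outs T).2 k =
      den v cur.toList k + den v outs k + den v T k := by
  intro T
  induction T with
  | nil => intro hT cur hcur outs; simp [mrgL, den_nil]
  | cons R T ih =>
    intro hT cur hcur outs
    have hR := hT R (by simp)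
    have hT' : Shape n T := fun B hB => hT B (by simp [hB])
    have hl := mrg_length n md cur R hR hcur
    rw [mrgL, ih hT' (some (mrg md cur R).2)
      (by intro C hC; rw [Option.mem_some_iff] at hC; subst hC; exact hl.2)]
    have h2 := den_mrg v h0 hadd cur R hR hcur k
    simp only [den_cons, den_nil, add_zero, Option.toList_some] at h2 ⊢
    rw [← add_assoc (den v cur.toList k + den v outs k), add_right_comm (den v cur.toList k), ← h2]
    abel

theorem den_stM {n : ℕ} {md : Bool} (h0 : ∀ l : List Bool, v (l.map fun _ => false) = 0)
    (hadd : ∀ a b : List Bool, a.length = n + 1 → b.length = n + 1 →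
      v (comb md false a b) = v a + v b) {T : List Rec} (hT : Shape n T) (k : Key) :
    den v (stM md T) k = den v T k := by
  rw [stM, den_append, den_mrgL v h0 hadd k T hT none (by simp) []]
  simp [den_nil]

end den

/-! ### Sorting -/

/-- Codes of cells. -/
def ccode (c : Cell) : ℕ := b2n c.1 + 2 * b2n c.2

theorem code_inj {a b : Cell} (h : ccode a = ccode b) : a = b := by
  obtain ⟨a1, a2⟩ := a
  obtain ⟨b1, b2⟩ := b
  cases a1 <;> cases a2 <;> cases b1 <;> cases b2 <;> simp [ccode, b2n] at h ⊢

/-- Lexicographic order. -/
def lexLE : List Cell → List Cell → Prop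
  | a :: k, b :: k' => ccode a < ccode b ∨ (a = b ∧ lexLE k k')
  | _, _ => True

theorem lexLE_antisymm : ∀ {k k' : List Cell}, k.length = k'.length → lexLE k k' → lexLE k' k →
    k = k' := by
  intro k
  induction k with
  | nil => intro k' h _ _; exact (List.eq_nil_of_length_eq_zero h.symm).symm
  | cons a k ih =>
    intro k' h h1 h2
    cases k' with
    | nil => simp at h
    | cons b k' =>
      rcases h1 with h1 | ⟨rfl, h1⟩
      · rcases h2 with h2 | ⟨rfl, h2⟩
        · omega
        · omega
      · rcases h2 with h2 | ⟨-, h2⟩
        · omega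
        · rw [ih (by simpa using h) h1 h2]

/-- The relation after `i` passes. -/
def relI (i : ℕ) (R R' : Rec) : Prop := lexLE (R.1.reverse.take i) (R'.1.reverse.take i)

theorem rot_rev {n : ℕ} {R : Rec} (hR : R.1.length = n + 1) {i : ℕ} (hi : i ≤ n) :
    (rot R).1.reverse.take (i + 1) = dg R :: R.1.reverse.take i := by
  obtain ⟨k, v⟩ := R
  cases k with
  | nil => simp at hR
  | cons a k =>
    have hk : k.length = n := by simpa using hR
    simp only [rot, dg, List.rotate_cons_succ, List.rotate_zero, List.reverse_append,
      List.reverse_cons, List.reverse_nil, List.nil_append, List.singleton_append,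
      List.headD_cons, List.take_succ_cons]
    congr 1
    rw [List.take_append_of_le_length (by rw [List.length_reverse, hk]; exact hi)]

theorem relI_rot {n : ℕ} {R R' : Rec} (hR : R.1.length = n + 1) (hR' : R'.1.length = n + 1)
    {i : ℕ} (hi : i ≤ n) :
    relI (i + 1) (rot R) (rot R') ↔ (ccode (dg R) < ccode (dg R') ∨ (dg R = dg R' ∧ relI i R R')) := by
  unfold relI
  rw [rot_rev hR hi, rot_rev hR' hi]
  rfl

theorem bkt_mem {c : Cell} {T : List Rec} {R : Rec} (h : R ∈ bkt c T) :
    ∃ R' ∈ T, dg R' = c ∧ rot R' = R := by
  rw [bkt, List.mem_map] at h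
  obtain ⟨R', h1, h2⟩ := h
  rw [List.mem_filter] at h1
  exact ⟨R', h1.1, by simpa using h1.2, h2⟩

theorem bkt_pairwise {n : ℕ} {c : Cell} {T : List Rec} {i : ℕ} (hi : i ≤ n)
    (hT : ∀ R ∈ T, R.1.length = n + 1) (h : T.Pairwise (relI i)) :
    (bkt c T).Pairwise (relI (i + 1)) := by
  rw [bkt, List.pairwise_map]
  have h1 : (T.filter fun R => dg R == c).Pairwise (relI i) := h.filter _
  refine h1.imp_of_mem ?_
  intro R R' hR hR' hrel
  rw [List.mem_filter] at hR hR'
  rw [relI_rot (hT R hR.1) (hT R' hR'.1) hi]
  right
  have e1 : dg R = c := by simpa using hR.2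
  have e2 : dg R' = c := by simpa using hR'.2
  exact ⟨e1.trans e2.symm, hrel⟩

theorem bkt_cross {n : ℕ} {c c' : Cell} (hc : ccode c < ccode c') {T : List Rec} {i : ℕ}
    (hi : i ≤ n) (hT : ∀ R ∈ T, R.1.length = n + 1) :
    ∀ a ∈ bkt c T, ∀ b ∈ bkt c' T, relI (i + 1) a b := by
  intro a ha b hb
  obtain ⟨R, h1, h2, rfl⟩ := bkt_mem ha
  obtain ⟨R', h3, h4, rfl⟩ := bkt_mem hb
  rw [relI_rot (hT R h1) (hT R' h3) hi]
  left
  rw [h2, h4]
  exact hc

theorem passf_pairwise {n : ℕ} {T : List Rec} {i : ℕ} (hi : i ≤ n)
    (hT : ∀ R ∈ T, R.1.length = n + 1) (h : T.Pairwise (relI i)) :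
    (passf T).Pairwise (relI (i + 1)) := by
  unfold passf
  rw [List.pairwise_append, List.pairwise_append, List.pairwise_append]
  refine ⟨bkt_pairwise hi hT h, ⟨bkt_pairwise hi hT h, ⟨bkt_pairwise hi hT h,
    bkt_pairwise hi hT h, bkt_cross (by decide) hi hT⟩, ?_⟩, ?_⟩
  · intro a ha b hb
    rw [List.mem_append] at hb
    rcases hb with hb | hb
    · exact bkt_cross (by decide) hi hT a ha b hb
    · exact bkt_cross (by decide) hi hT a ha b hb
  · intro a ha b hb
    rw [List.mem_append, List.mem_append] at hb
    rcases hb with hb | hb | hb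
    · exact bkt_cross (by decide) hi hT a ha b hb
    · exact bkt_cross (by decide) hi hT a ha b hb
    · exact bkt_cross (by decide) hi hT a ha b hb

theorem passf_iter_pairwise {n k : ℕ} (T : List Rec)
    (hT : ∀ R ∈ T, R.1.length = n ∧ R.2.length = k) : ∀ i ≤ n,
    (passf^[i] T).Pairwise (relI i) := by
  intro i
  induction i with
  | zero =>
    intro _
    refine List.pairwise_of_forall ?_
    intro a b
    unfold relI
    simp [lexLE]
  | succ i ih =>
    intro hi
    rw [Function.iterate_succ_apply']
    obtain ⟨m, rfl⟩ : ∃ m, n = m + 1 := ⟨n - 1, by omega⟩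
    exact passf_pairwise (by omega) (fun R hR => (passf_iter_mem i hT R hR).1) (ih (by omega))

theorem passf_iter_perm (T : List Rec) (i : ℕ) : (passf^[i] T).Perm (T.map (rot^[i])) := by
  induction i with
  | zero => simp
  | succ i ih =>
    rw [Function.iterate_succ_apply']
    refine (passf_perm _).trans ?_
    refine (ih.map rot).trans ?_
    rw [List.map_map]
    refine List.Perm.of_eq ?_
    refine List.map_congr_left fun R _ => ?_
    rw [Function.iterate_succ_apply']
    rfl

theorem rot_iter (R : Rec) (i : ℕ) : rot^[i] R = (R.1.rotate i, R.2) := by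
  induction i with
  | zero => simp
  | succ i ih =>
    rw [Function.iterate_succ_apply', ih, rot]
    simp [List.rotate_rotate]

theorem passf_n_perm {n k : ℕ} (T : List Rec)
    (hT : ∀ R ∈ T, R.1.length = n ∧ R.2.length = k) : (passf^[n] T).Perm T := by
  refine (passf_iter_perm T n).trans (List.Perm.of_eq ?_)
  calc T.map (rot^[n]) = T.map id := by
        refine List.map_congr_left fun R hR => ?_
        rw [rot_iter, ← (hT R hR).1, List.rotate_length]
        rfl
    _ = T := List.map_id T

/-- Full lexicographic relation. -/
def relF (R R' : Rec) : Prop := lexLE R.1.reverse R'.1.reverse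

theorem passf_n_pairwise {n k : ℕ} (T : List Rec)
    (hT : ∀ R ∈ T, R.1.length = n ∧ R.2.length = k) : (passf^[n] T).Pairwise relF := by
  refine (passf_iter_pairwise T hT n le_rfl).imp_of_mem ?_
  intro a b ha hb h
  unfold relI at h
  have h1 := (passf_iter_mem n hT a ha).1
  have h2 := (passf_iter_mem n hT b hb).1
  rw [List.take_of_length_le (by rw [List.length_reverse]; omega),
    List.take_of_length_le (by rw [List.length_reverse]; omega)] at h
  exact h

theorem relF_antisymm {R R' : Rec} (hl : R.1.length = R'.1.length) (h : relF R R')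
    (h' : relF R' R) : R.1 = R'.1 := by
  have := lexLE_antisymm (by simpa using hl) h h'
  simpa using congrArg List.reverse this

end Pool.Agent.H1.Sat
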