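import Pool.Agent.H1.SatGlueB

/-!
# Semantics of the rounds
-/

namespace Pool.Agent.H1.Sat

variable {n : ℕ}

theorem any_zeros (v : List Bool) : (v.map fun _ => false).any id = false := by
  induction v with
  | nil => rfl
  | cons b v ih => rw [List.map_cons, List.any_cons, ih]; rfl

/-- Keys of the records with a nonzero count. -/
def nzKeys (T : List Rec) : List Key := (T.filter nzR).map Prod.fst

theorem nzKeys_cons_pos {R : Rec} {T : List Rec} (h : nzR R = true) :
    nzKeys (R :: T) = R.1 :: nzKeys T := by
  rw [nzKeys, List.filter_cons, if_pos h]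
  rfl

theorem nzKeys_cons_neg {R : Rec} {T : List Rec} (h : nzR R = false) :
    nzKeys (R :: T) = nzKeys T := by
  rw [nzKeys, List.filter_cons, if_neg (by rw [h]; simp)]
  rfl

theorem mem_nzKeys {T : List Rec} {k : Key} :
    k ∈ nzKeys T ↔ ∃ R ∈ T, nzR R = true ∧ R.1 = k := by
  rw [nzKeys, List.mem_map]
  constructor
  · rintro ⟨R, hR, rfl⟩
    rw [List.mem_filter] at hR
    exact ⟨R, hR.1, hR.2, rfl⟩
  · rintro ⟨R, h1, h2, rfl⟩
    exact ⟨R, List.mem_filter.2 ⟨h1, h2⟩, rfl⟩

theorem mrg_fst (md : Bool) (cur : Option Rec) (R : Rec) : (mrg md cur R).2.1 = R.1 := by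
  cases cur <;> rfl

theorem mrg_out_nz {n : ℕ} {md : Bool} {cur : Option Rec} {R : Rec} (hR : R.1.length = n)
    (hcur : ∀ C ∈ cur, C.1.length = n) (h : nzR (mrg md cur R).1 = true) :
    ∃ C, cur = some C ∧ (mrg md cur R).1 = C ∧ R.1 ≠ C.1 := by
  cases cur with
  | none =>
    simp only [mrg, nzR, any_zeros] at h
    exact absurd h (by simp)
  | some C =>
    have hC := hcur C rfl
    refine ⟨C, rfl, ?_⟩
    cases he : eqK R.1 C.1
    · refine ⟨by simp [mrg, he], fun hh => ?_⟩
      have := (eqK_iff (k := R.1) (k' := C.1) (by omega)).2 hh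
      rw [he] at this
      exact absurd this (by simp)
    · exfalso
      simp only [mrg, nzR, he] at h
      have e : (C.2.map fun x => x && !true) = C.2.map fun _ => false := by simp
      rw [e, any_zeros] at h
      exact absurd h (by simp)

theorem nodup_mrgL {md : Bool} : ∀ (T : List Rec) (_hT : ∀ R ∈ T, R.1.length = n)
    (cur : Option Rec) (_hcur : ∀ C ∈ cur, C.1.length = n) (outs : List Rec)
    (_h1 : (cur.toList ++ T).Pairwise relF) (_h2 : (nzKeys outs).Nodup)
    (_h3 : ∀ R ∈ outs, nzR R = true → ∀ C ∈ cur.toList ++ T, R.1 ≠ C.1),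
    (nzKeys ((mrgL md cur outs T).1.toList ++ (mrgL md cur outs T).2)).Nodup := by
  intro T
  induction T with
  | nil =>
    intro hT cur hcur outs h1 h2 h3
    rw [mrgL]
    cases cur with
    | none => exact h2
    | some C =>
      simp only [Option.toList_some, List.singleton_append, List.append_nil] at h3 ⊢
      cases hC : nzR C
      · rw [nzKeys_cons_neg hC]; exact h2
      · rw [nzKeys_cons_pos hC, List.nodup_cons]
        refine ⟨?_, h2⟩
        intro hmem
        obtain ⟨R, hR1, hR2, hR3⟩ := mem_nzKeys.1 hmem
        exact h3 R hR1 hR2 C (by simp) hR3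
  | cons R T ih =>
    intro hT cur hcur outs h1 h2 h3
    have hR := hT R (by simp)
    have hT' : ∀ B ∈ T, B.1.length = n := fun B hB => hT B (by simp [hB])
    have hRT : (R :: T).Pairwise relF := (List.pairwise_append.1 h1).2.1
    rw [mrgL]
    apply ih hT' (some (mrg md cur R).2)
    · intro C hC
      rw [Option.mem_some_iff] at hC
      subst hC
      rw [mrg_fst]
      exact hR
    · simp only [Option.toList_some, List.singleton_append]
      rw [List.pairwise_cons] at hRT ⊢
      refine ⟨fun B hB => ?_, hRT.2⟩
      have := hRT.1 B hB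
      unfold relF at this ⊢
      rw [mrg_fst]
      exact this
    · cases ho : nzR (mrg md cur R).1
      · rw [nzKeys_cons_neg ho]; exact h2
      · obtain ⟨C, rfl, hC2, hC3⟩ := mrg_out_nz hR hcur ho
        rw [nzKeys_cons_pos ho, List.nodup_cons]
        refine ⟨?_, h2⟩
        intro hmem
        obtain ⟨B, hB1, hB2, hB3⟩ := mem_nzKeys.1 hmem
        rw [hC2] at hB3
        exact h3 B hB1 hB2 C (by simp) hB3
    · intro B hB hBnz C' hC'
      simp only [Option.toList_some, List.singleton_append, List.mem_cons] at hC'
      rw [List.mem_cons] at hB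
      rcases hB with rfl | hB
      · obtain ⟨C, rfl, hC2, hC3⟩ := mrg_out_nz hR hcur hBnz
        rw [hC2]
        rcases hC' with rfl | hC'
        · rw [mrg_fst]
          exact fun h => hC3 h.symm
        · intro heq
          simp only [Option.toList_some, List.singleton_append] at h1
          rw [List.pairwise_cons] at h1
          have r1 : relF C R := h1.1 R (by simp)
          have r2 : relF R C' := (List.pairwise_cons.1 h1.2).1 C' hC'
          have r3 : relF R C := by
            unfold relF at r2 ⊢
            rw [heq]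
            exact r2
          exact hC3 (relF_antisymm (by rw [hR, hcur C rfl]) r3 r1)
      · rcases hC' with rfl | hC'
        · rw [mrg_fst]
          exact h3 B hB hBnz R (by simp)
        · exact h3 B hB hBnz C' (by simp [hC'])

theorem nodup_stM {md : Bool} {T : List Rec} (hT : ∀ R ∈ T, R.1.length = n)
    (h : T.Pairwise relF) : (nzKeys (stM md T)).Nodup :=
  nodup_mrgL T hT none (by simp) [] (by simpa using h) (by simp [nzKeys]) (by simp)

section den

variable {α : Type} [AddCommMonoid α] {v : List Bool → α}

theorem den_eq_zero (hv : ∀ l : List Bool, l.any id = false → v l = 0) {T : List Rec} {k : Key}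
    (h : ∀ R ∈ T, nzR R = true → R.1 ≠ k) : den v T k = 0 := by
  induction T with
  | nil => rfl
  | cons R T ih =>
    rw [den_cons, ih (fun B hB => h B (by simp [hB])), add_zero]
    cases hR : nzR R
    · rw [hv _ hR]; simp
    · rw [if_neg (h R (by simp) hR)]

theorem den_of_nodup (hv : ∀ l : List Bool, l.any id = false → v l = 0) {T : List Rec}
    (h : (nzKeys T).Nodup) {R : Rec} (hR : R ∈ T) (hnz : nzR R = true) : den v T R.1 = v R.2 := by
  induction T with
  | nil => simp at hR
  | cons B T ih =>
    rw [den_cons]
    cases hB : nzR B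
    · rw [nzKeys_cons_neg hB] at h
      rw [List.mem_cons] at hR
      rcases hR with rfl | hR
      · rw [hB] at hnz; exact absurd hnz (by simp)
      · rw [hv _ hB, ih h hR]; simp
    · rw [nzKeys_cons_pos hB, List.nodup_cons] at h
      rw [List.mem_cons] at hR
      rcases hR with rfl | hR
      · rw [if_pos rfl, den_eq_zero hv, add_zero]
        intro B' hB' hB'nz heq
        exact h.1 (mem_nzKeys.2 ⟨B', hB', hB'nz, heq⟩)
      · have : B.1 ≠ R.1 := by
          intro heq
          exact h.1 (mem_nzKeys.2 ⟨R, hR, hnz, heq.symm⟩)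
        rw [if_neg this, ih h.2 hR, zero_add]

end den

/-- Support of a table. -/
def NZ (T : List Rec) (k : Key) : Prop := ∃ R ∈ T, nzR R = true ∧ R.1 = k

/-- Values of the first phase. -/
noncomputable def vt (l : List Bool) : ℕ∞ := if l.any id then ⊤ else 0

theorem vt_zero (l : List Bool) (h : l.any id = false) : vt l = 0 := by
  rw [vt, h]; simp

theorem den_vt (T : List Rec) (k : Key) : den vt T k ≠ 0 ↔ NZ T k := by
  constructor
  · intro h
    by_contra hn
    apply h
    apply den_eq_zero vt_zero
    intro R hR hnz heq
    exact hn ⟨R, hR, hnz, heq⟩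
  · rintro ⟨R, hR, hnz, rfl⟩
    induction T with
    | nil => simp at hR
    | cons B T ih =>
      rw [den_cons]
      rw [List.mem_cons] at hR
      rcases hR with rfl | hR
      · rw [if_pos rfl, vt]
        have : R.2.any id = true := hnz
        rw [this]
        simp
      · have := ih hR
        intro h0
        rw [add_eq_zero] at h0
        exact this h0.2

theorem NZ_stM {T : List Rec} (hT : Shape n T) (k : Key) :
    NZ (stM false T) k ↔ NZ T k := by
  rw [← den_vt, ← den_vt, den_stM vt (n := n) _ _ hT]
  · intro l
    exact vt_zero _ (any_zeros l)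
  · intro a b ha hb
    rw [vt, any_comb_false a b (by omega), vt, vt]
    cases a.any id <;> cases b.any id <;> simp

theorem NZ_perm {T T' : List Rec} (h : T.Perm T') (k : Key) : NZ T k ↔ NZ T' k := by
  unfold NZ
  constructor
  · rintro ⟨R, hR, h2⟩; exact ⟨R, h.mem_iff.1 hR, h2⟩
  · rintro ⟨R, hR, h2⟩; exact ⟨R, h.mem_iff.2 hR, h2⟩

/-- All counts are zero or one. -/
def Cnt (n : ℕ) (T : List Rec) : Prop :=
  ∀ R ∈ T, R.2 = List.replicate (n + 1) false ∨ R.2 = true :: List.replicate n false

theorem Cnt_em (n : ℕ) {v : List Bool} (h : v = List.replicate (n + 1) false ∨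
    v = true :: List.replicate n false) (b : Bool) :
    (v.map fun x => x && b) = List.replicate (n + 1) false ∨
      (v.map fun x => x && b) = true :: List.replicate n false := by
  cases b
  · left
    rcases h with rfl | rfl
    · simp
    · simp [List.replicate_succ]
  · have e : (v.map fun x => x && true) = v := by simp
    rw [e]
    exact h

theorem zipWith_or_rep (n : ℕ) : List.zipWith (fun a b => a || b) (List.replicate n false)
    (List.replicate n false) = List.replicate n false := by
  induction n with
  | zero => rfl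
  | succ n ih => rw [List.replicate_succ, List.zipWith_cons_cons, ih]; rfl

theorem Cnt_comb (n : ℕ) {v u : List Bool} (h : v = List.replicate (n + 1) false ∨
    v = true :: List.replicate n false) (h' : u = List.replicate (n + 1) false ∨
    u = true :: List.replicate n false) :
    comb false false v u = List.replicate (n + 1) false ∨
      comb false false v u = true :: List.replicate n false := by
  have hl : ∀ {x : List Bool}, (x = List.replicate (n + 1) false ∨
    x = true :: List.replicate n false) → x.length = n + 1 := by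
    rintro x (rfl | rfl) <;> simp
  rw [comb_false v u (by rw [hl h, hl h'])]
  rcases h with rfl | rfl <;> rcases h' with rfl | rfl
  · left; exact zipWith_or_rep _
  · right
    rw [List.replicate_succ, List.zipWith_cons_cons, zipWith_or_rep]; rfl
  · right
    rw [List.replicate_succ, List.zipWith_cons_cons, zipWith_or_rep]; rfl
  · right
    rw [List.zipWith_cons_cons, zipWith_or_rep]; rfl

theorem Cnt_mrgL (n : ℕ) : ∀ (T : List Rec) (_hT : Shape n T) (_hc : Cnt n T)
    (cur : Option Rec) (_hcur : ∀ C ∈ cur, C.1.length = n ∧ C.2.length = n + 1)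
    (_hcc : Cnt n cur.toList) (outs : List Rec) (_ho : Cnt n outs),
    Cnt n ((mrgL false cur outs T).1.toList ++ (mrgL false cur outs T).2) := by
  intro T
  induction T with
  | nil =>
    intro hT hc cur hcur hcc outs ho R hR
    rw [mrgL, List.mem_append] at hR
    rcases hR with hR | hR
    · exact hcc R hR
    · exact ho R hR
  | cons R T ih =>
    intro hT hc cur hcur hcc outs ho
    have hR := hT R (by simp)
    have hRc := hc R (by simp)
    have hl := mrg_length n false cur R hR hcur
    have key : ((mrg false cur R).1.2 = List.replicate (n + 1) false ∨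
        (mrg false cur R).1.2 = true :: List.replicate n false) ∧
        ((mrg false cur R).2.2 = List.replicate (n + 1) false ∨
        (mrg false cur R).2.2 = true :: List.replicate n false) := by
      have hz : (R.2.map fun _ => false) = List.replicate (n + 1) false := by
        rw [List.map_const', hR.2]
      cases cur with
      | none =>
        refine ⟨Or.inl hz, ?_⟩
        simp only [mrg, comb_zeros]
        exact hRc
      | some C =>
        have hC := hcc C (by simp)
        simp only [mrg]
        refine ⟨Cnt_em n hC _, ?_⟩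
        split_ifs
        · exact Cnt_comb n hRc hC
        · exact hRc
    rw [mrgL]
    apply ih (fun B hB => hT B (by simp [hB])) (fun B hB => hc B (by simp [hB]))
    · intro C hC
      rw [Option.mem_some_iff] at hC
      subst hC
      exact hl.2
    · intro B hB
      simp only [Option.toList_some, List.mem_singleton] at hB
      subst hB
      exact key.2
    · intro B hB
      rw [List.mem_cons] at hB
      rcases hB with rfl | hB
      · exact key.1
      · exact ho B hB

theorem Cnt_stM {T : List Rec} (hT : Shape n T) (hc : Cnt n T) :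
    Cnt n (stM false T) :=
  Cnt_mrgL n T hT hc none (by simp) (by intro R hR; simp at hR) [] (by intro R hR; simp at hR)

theorem exists_ofFn {α : Type} (l : List α) (h : l.length = n) :
    ∃ κ : Fin n → α, l = List.ofFn κ := by
  subst h
  exact ⟨l.get, (List.ofFn_get l).symm⟩

theorem ofFn_inj {α : Type} {κ κ' : Fin n → α} (h : List.ofFn κ = List.ofFn κ') : κ = κ' :=
  List.ofFn_injective h

/-! ### The first phase -/

/-- Invariant of the first phase. -/
structure I1 (S : Set (Cube n)) (T : List Rec) : Prop where
  shape : Shape n T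
  nodup : (nzKeys T).Nodup
  cnt : Cnt n T
  supp : ∀ κ : Cube n, NZ T (List.ofFn κ) ↔ κ ∈ S

theorem rows_len (M : List (Cube n)) : ∀ A ∈ M.map List.ofFn, A.length = n := by
  intro A hA
  rw [List.mem_map] at hA
  obtain ⟨B, -, rfl⟩ := hA
  simp

theorem map_and_true (v : List Bool) : (v.map fun x => x && true) = v := by simp

theorem map_and_false (v : List Bool) : (v.map fun x => x && false) = v.map fun _ => false := by
  simp

theorem round1 (M : List (Cube n)) (kp : Bool) (D : Cube n) {T : List Rec} (hT : Shape n T)
    (hc : Cnt n T) (S : Set (Cube n)) (hS : ∀ κ : Cube n, NZ T (List.ofFn κ) ↔ κ ∈ S) :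
    I1 ((if kp then S else ∅) ∪ {κ' | ∃ κ ∈ S, isB M (nb D κ) ∧ key M (nb D κ) = κ'})
      (roundF (M.map List.ofFn) T (false, kp, List.ofFn (wd1 D))) := by
  have hM := rows_len M
  have hsE : Shape n (stE kp (M.map List.ofFn) (List.ofFn (wd1 D)) T) :=
    stE_mem n kp _ hM _ (by simp) T hT
  have hperm := passf_n_perm (n := n) _ hsE
  have hsP : Shape n (passf^[n] (stE kp (M.map List.ofFn) (List.ofFn (wd1 D)) T)) :=
    passf_iter_mem n hsE
  have hr : roundF (M.map List.ofFn) T (false, kp, List.ofFn (wd1 D)) =
      stM false (passf^[n] (stE kp (M.map List.ofFn) (List.ofFn (wd1 D)) T)) := by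
    rw [roundF]; simp only [List.length_ofFn]
  rw [hr]
  have hcE : Cnt n (stE kp (M.map List.ofFn) (List.ofFn (wd1 D)) T) := by
    intro R hR
    rw [stE, List.mem_append, List.mem_reverse, List.mem_reverse, List.mem_map, List.mem_map] at hR
    rcases hR with ⟨R', hR', rfl⟩ | ⟨R', hR', rfl⟩
    · have h1 := hc R' (List.mem_of_mem_filter hR')
      have h2 := hT R' (List.mem_of_mem_filter hR')
      obtain ⟨κ, hκ⟩ := exists_ofFn R'.1 h2.1
      have : R' = (List.ofFn κ, R'.2) := by rw [← hκ]
      rw [this, em2_ofFn, neg_wd1, negBits_false]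
      exact Cnt_em n h1 _
    · exact Cnt_em n (hc R' (List.mem_of_mem_filter hR')) _
  refine ⟨stM_mem n _ _ hsP, nodup_stM (fun R hR => (hsP R hR).1)
    (passf_n_pairwise _ hsE), Cnt_stM hsP (fun R hR => ?_), fun κ => ?_⟩
  · exact hcE R (hperm.mem_iff.1 hR)
  rw [NZ_stM hsP, NZ_perm hperm, Set.mem_union]
  constructor
  · rintro ⟨R, hR, hnz, hk⟩
    rw [stE, List.mem_append, List.mem_reverse, List.mem_reverse, List.mem_map, List.mem_map] at hR
    rcases hR with ⟨R', hR', rfl⟩ | ⟨R', hR', rfl⟩
    · right
      rw [List.mem_filter] at hR'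
      have h2 := hT R' hR'.1
      obtain ⟨κ', hκ⟩ := exists_ofFn R'.1 h2.1
      have : R' = (List.ofFn κ', R'.2) := by rw [← hκ]
      rw [this, em2_ofFn, neg_wd1, negBits_false] at hnz hk
      refine ⟨κ', (hS κ').1 ⟨R', hR'.1, hR'.2, hκ⟩, ?_, ?_⟩
      · by_contra hok
        rw [← okF_wd1] at hok
        rw [nzR] at hnz
        simp only [hok, decide_false, map_and_false, any_zeros] at hnz
        exact absurd hnz (by simp)
      · exact ofFn_inj hk
    · left
      rw [List.mem_filter] at hR'
      cases kp
      · exfalso
        rw [nzR, em1] at hnz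
        simp only [map_and_false, any_zeros] at hnz
        exact absurd hnz (by simp)
      · exact (hS κ).1 ⟨R', hR'.1, hR'.2, hk⟩
  · rintro (h | ⟨κ', h1, h2, h3⟩)
    · cases kp
      · exact absurd h (by simp)
      · obtain ⟨R, hR, hnz, hk⟩ := (hS κ).2 h
        refine ⟨em1 true R, ?_, ?_, hk⟩
        · rw [stE, List.mem_append, List.mem_reverse, List.mem_reverse]
          right
          exact List.mem_map.2 ⟨R, List.mem_filter.2 ⟨hR, hnz⟩, rfl⟩
        · rw [nzR, em1]
          simp only [map_and_true]
          exact hnz
    · obtain ⟨R, hR, hnz, hk⟩ := (hS κ').2 h1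
      refine ⟨em2 (M.map List.ofFn) (List.ofFn (wd1 D)) R, ?_, ?_, ?_⟩
      · rw [stE, List.mem_append, List.mem_reverse, List.mem_reverse]
        left
        exact List.mem_map.2 ⟨R, List.mem_filter.2 ⟨hR, hnz⟩, rfl⟩
      · have : R = (List.ofFn κ', R.2) := by rw [← hk]
        rw [this, em2_ofFn, neg_wd1, negBits_false, nzR]
        have h2' : okF M (wd1 D) κ' := (okF_wd1 M D κ').2 h2
        simp only [h2', decide_true, map_and_true]
        exact hnz
      · have : R = (List.ofFn κ', R.2) := by rw [← hk]
        rw [this, em2_ofFn, qF_wd1]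
        exact congrArg List.ofFn h3

end Pool.Agent.H1.Sat
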