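import Pool.Agent.H1.SatGlueC

/-!
# The second phase
-/

namespace Pool.Agent.H1.Sat

variable {n : ℕ}

/-- Values of the second phase. -/
def vz (n : ℕ) (l : List Bool) : ZMod (2 ^ (n + 1)) := (val l : ZMod (2 ^ (n + 1)))

theorem two_pow_zmod (n : ℕ) : ((2 : ZMod (2 ^ (n + 1))) ^ (n + 1)) = 0 := by
  have := ZMod.natCast_self (2 ^ (n + 1))
  push_cast at this
  exact this

theorem vz_zero (l : List Bool) (h : l.any id = false) : vz n l = 0 := by
  rw [vz, val_eq_zero h, Nat.cast_zero]

theorem vz_zeros (l : List Bool) : vz n (l.map fun _ => false) = 0 := by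
  rw [vz, val_zeros, Nat.cast_zero]

theorem vz_comb (a b : List Bool) (ha : a.length = n + 1) (hb : b.length = n + 1) :
    vz n (comb true false a b) = vz n a + vz n b := by
  obtain ⟨t, ht⟩ := val_comb a b (by omega) false
  have := congrArg (Int.cast : ℤ → ZMod (2 ^ (n + 1))) ht
  rw [ha] at this
  push_cast at this
  rw [two_pow_zmod, zero_mul, add_zero] at this
  simp only [b2n, Bool.false_eq_true, if_false, Nat.cast_zero, add_zero] at this
  exact this.symm

theorem vz_neg (a : List Bool) (ha : a.length = n + 1) :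
    vz n (negBits true true a) = - vz n a := by
  obtain ⟨t, ht⟩ := val_neg a true
  have := congrArg (Int.cast : ℤ → ZMod (2 ^ (n + 1))) ht
  rw [ha] at this
  push_cast at this
  rw [two_pow_zmod, zero_mul, add_zero] at this
  simp only [b2n, if_true, Nat.cast_one] at this
  have h2 : (val (negBits true true a) : ZMod (2 ^ (n + 1))) + val a = 0 := by
    linear_combination this
  exact eq_neg_of_add_eq_zero_left h2

theorem vz_negBits (g : Bool) (a : List Bool) (ha : a.length = n + 1) :
    vz n (negBits g true a) = ((sgn g : ℤ) : ZMod (2 ^ (n + 1))) * vz n a := by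
  cases g
  · rw [negBits_false, sgn]; simp
  · rw [vz_neg a ha, sgn]; simp

theorem vz_and (g : Bool) (a : List Bool) :
    vz n (a.map fun x => x && g) = if g = true then vz n a else 0 := by
  cases g
  · rw [map_and_false, vz_zeros]; simp
  · rw [map_and_true]; simp

section

variable {α : Type} [AddCommMonoid α] {v : List Bool → α}

theorem den_filter (hv : ∀ l : List Bool, l.any id = false → v l = 0) (T : List Rec) (k : Key) :
    den v (T.filter nzR) k = den v T k := by
  induction T with
  | nil => rfl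
  | cons R T ih =>
    cases hR : nzR R
    · rw [List.filter_cons, if_neg (by rw [hR]; simp), ih, den_cons, hv _ hR]
      simp
    · rw [List.filter_cons, if_pos hR, den_cons, den_cons, ih]

end

theorem map_em1_true (T : List Rec) : T.map (em1 true) = T := by
  conv_rhs => rw [← List.map_id T]
  refine List.map_congr_left fun R _ => ?_
  rw [em1, map_and_true]
  rfl

theorem den_em2 (M : List (Cube n)) (c : Fin n) (κ : Cube n) (T : List Rec) (hT : Shape n T) :
    den (vz n) (T.map (em2 (M.map List.ofFn) (List.ofFn (wd2 c)))) (List.ofFn κ) =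
      ∑ κ' : Cube n, if okc M c κ' ∧ next M c κ' = κ then
        ((sgn (κ' c).2 : ℤ) : ZMod (2 ^ (n + 1))) * den (vz n) T (List.ofFn κ') else 0 := by
  induction T with
  | nil =>
    rw [List.map_nil, den_nil]
    symm
    refine Finset.sum_eq_zero fun κ' _ => ?_
    rw [den_nil, mul_zero]
    split_ifs <;> rfl
  | cons R T ih =>
    have hR := hT R (by simp)
    have hT' : Shape n T := fun B hB => hT B (by simp [hB])
    rw [List.map_cons, den_cons, ih hT']
    obtain ⟨κ₀, hκ₀⟩ := exists_ofFn R.1 hR.1
    have hRe : R = (List.ofFn κ₀, R.2) := by rw [← hκ₀]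
    have h1 : (if (em2 (M.map List.ofFn) (List.ofFn (wd2 c)) R).1 = List.ofFn κ then
        vz n (em2 (M.map List.ofFn) (List.ofFn (wd2 c)) R).2 else 0) =
        if okc M c κ₀ ∧ next M c κ₀ = κ then
          ((sgn (κ₀ c).2 : ℤ) : ZMod (2 ^ (n + 1))) * vz n R.2 else 0 := by
      rw [hRe, em2_ofFn, neg_wd2, qF_wd2]
      simp only
      rw [vz_and, vz_negBits _ _ hR.2]
      have e1 : (List.ofFn (hullF M (zc c κ₀)) = List.ofFn κ) ↔ next M c κ₀ = κ :=
        ⟨fun h => ofFn_inj h, fun h => congrArg List.ofFn h⟩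
      have e2 : okF M (wd2 c) κ₀ ↔ okc M c κ₀ := okF_wd2 M c κ₀
      by_cases ha : next M c κ₀ = κ
      · by_cases hb : okc M c κ₀
        · rw [if_pos (e1.2 ha), if_pos (decide_eq_true (e2.2 hb)),
            if_pos (show okc M c κ₀ ∧ next M c κ₀ = κ from ⟨hb, ha⟩)]
        · rw [if_pos (e1.2 ha), if_neg (fun h => hb (e2.1 (of_decide_eq_true h))),
            if_neg (show ¬ (okc M c κ₀ ∧ next M c κ₀ = κ) from fun h => hb h.1)]
      · rw [if_neg (fun h => ha (e1.1 h)), if_neg (fun h => ha h.2)]
    rw [h1]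
    have h2 : (if okc M c κ₀ ∧ next M c κ₀ = κ then
          ((sgn (κ₀ c).2 : ℤ) : ZMod (2 ^ (n + 1))) * vz n R.2 else 0) =
        ∑ κ' : Cube n, if okc M c κ' ∧ next M c κ' = κ then
        ((sgn (κ' c).2 : ℤ) : ZMod (2 ^ (n + 1))) * (if R.1 = List.ofFn κ' then vz n R.2 else 0)
          else 0 := by
      rw [Finset.sum_eq_single κ₀]
      · rw [if_pos hκ₀]
      · intro κ' _ hne
        rw [if_neg (show ¬ (R.1 = List.ofFn κ') from fun h => hne (ofFn_inj (h.symm.trans hκ₀))),
          mul_zero]
        split_ifs <;> rfl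
      · intro h
        exact absurd (Finset.mem_univ _) h
    rw [h2, ← Finset.sum_add_distrib]
    refine Finset.sum_congr rfl fun κ' _ => ?_
    rw [den_cons]
    split_ifs <;> simp [mul_add]

/-- Invariant of the second phase. -/
structure I2 (M : List (Cube n)) (i : ℕ) (T : List Rec) : Prop where
  shape : Shape n T
  nodup : (nzKeys T).Nodup
  vals : ∀ κ : Cube n, den (vz n) T (List.ofFn κ) = (Nc M i κ : ZMod (2 ^ (n + 1)))

theorem round2 (M : List (Cube n)) (c : Fin n) {T : List Rec} (hI : I2 M (c + 1) T) :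
    I2 M c (roundF (M.map List.ofFn) T (true, true, List.ofFn (wd2 c))) := by
  have hM := rows_len M
  have hsE : Shape n (stE true (M.map List.ofFn) (List.ofFn (wd2 c)) T) :=
    stE_mem n true _ hM _ (by simp) T hI.shape
  have hperm := passf_n_perm (n := n) _ hsE
  have hsP : Shape n (passf^[n] (stE true (M.map List.ofFn) (List.ofFn (wd2 c)) T)) :=
    passf_iter_mem n hsE
  have hr : roundF (M.map List.ofFn) T (true, true, List.ofFn (wd2 c)) =
      stM true (passf^[n] (stE true (M.map List.ofFn) (List.ofFn (wd2 c)) T)) := by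
    rw [roundF]; simp only [List.length_ofFn]
  rw [hr]
  refine ⟨stM_mem n _ _ hsP, nodup_stM (fun R hR => (hsP R hR).1)
    (passf_n_pairwise _ hsE), fun κ => ?_⟩
  rw [den_stM (vz n) (n := n) vz_zeros vz_comb hsP, den_perm (vz n) hperm, stE, den_append,
    den_perm (vz n) (List.reverse_perm _), den_perm (vz n) (List.reverse_perm _), map_em1_true,
    den_filter vz_zero]
  have hfs : Shape n (T.filter nzR) := fun R hR => hI.shape R (List.mem_of_mem_filter hR)
  rw [den_em2 M c κ _ hfs]
  have hrec := congrArg (Int.cast : ℤ → ZMod (2 ^ (n + 1))) (recurrence M c κ)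
  rw [Int.cast_add, Int.cast_sum] at hrec
  have e1 : ((Nc M c κ : ℤ) : ZMod (2 ^ (n + 1))) = (Nc M c κ : ZMod (2 ^ (n + 1))) := by
    push_cast; rfl
  rw [e1] at hrec
  rw [hrec]
  refine Eq.trans (add_comm _ _) ?_
  congr 1
  · rw [hI.vals]
    push_cast; rfl
  · refine Finset.sum_congr rfl fun κ' _ => ?_
    rw [den_filter vz_zero, hI.vals]
    split_ifs
    · push_cast; rfl
    · push_cast; rfl

theorem I2_of_I1 (M : List (Cube n)) {T : List Rec} (hI : I1 (keysB M) T) : I2 M n T := by
  refine ⟨hI.shape, hI.nodup, fun κ => ?_⟩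
  rw [Nc_last]
  split_ifs with h
  · obtain ⟨R, hR, hnz, hk⟩ := (hI.supp κ).2 h
    rw [← hk, den_of_nodup vz_zero hI.nodup hR hnz]
    rcases hI.cnt R hR with h1 | h1
    · exfalso
      rw [nzR, h1] at hnz
      have : (List.replicate (n + 1) false).any id = false := by simp
      rw [this] at hnz
      exact absurd hnz (by simp)
    · rw [h1, vz, val]
      have : val (List.replicate n false) = 0 := val_eq_zero (by simp)
      rw [this]
      simp [b2n]
  · rw [den_eq_zero vz_zero, Nat.cast_zero]
    intro R hR hnz hk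
    exact h ((hI.supp κ).1 ⟨R, hR, hnz, hk⟩)

/-- Number of keys. -/
def Pn (M : List (Cube n)) : ℕ := (Finset.univ.image (key M)).card

theorem Pn_pos (M : List (Cube n)) : 1 ≤ Pn M := by
  rw [Pn, Nat.one_le_iff_ne_zero, Finset.card_ne_zero]
  exact Finset.image_nonempty.2 Finset.univ_nonempty

theorem nz_count (M : List (Cube n)) {T : List Rec} (hs : Shape n T) (hn : (nzKeys T).Nodup)
    (h : ∀ κ : Cube n, NZ T (List.ofFn κ) → ∃ a, key M a = κ) :
    (T.filter nzR).length ≤ Pn M := by
  classical
  have h1 : (T.filter nzR).length = (nzKeys T).length := by rw [nzKeys, List.length_map]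
  rw [h1, ← List.toFinset_card_of_nodup hn, Pn,
    ← Finset.card_image_of_injective (Finset.univ.image (key M)) (List.ofFn_injective (n := n))]
  refine Finset.card_le_card ?_
  intro k hk
  rw [List.mem_toFinset, mem_nzKeys] at hk
  obtain ⟨R, hR, hnz, rfl⟩ := hk
  obtain ⟨κ, hκ⟩ := exists_ofFn R.1 (hs R hR).1
  obtain ⟨a, ha⟩ := h κ ⟨R, hR, hnz, hκ⟩
  rw [Finset.mem_image]
  refine ⟨κ, ?_, hκ.symm⟩
  rw [Finset.mem_image]
  exact ⟨a, Finset.mem_univ _, ha⟩

theorem nz_count1 (M : List (Cube n)) {S : Set (Cube n)} (hS : S ⊆ keysB M) {T : List Rec}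
    (hI : I1 S T) : (T.filter nzR).length ≤ Pn M := by
  refine nz_count M hI.shape hI.nodup fun κ hκ => ?_
  obtain ⟨b, -, hb⟩ := hS ((hI.supp κ).1 hκ)
  exact ⟨b, hb⟩

theorem Nc_zero_of (M : List (Cube n)) (i : ℕ) (κ : Cube n) (h : ¬ ∃ a, key M a = κ) :
    Nc M i κ = 0 := by
  rw [Nc, Finset.card_eq_zero, Finset.filter_eq_empty_iff]
  rintro a - ⟨h1, -⟩
  exact h ⟨a, h1⟩

theorem vz_ne_zero {l : List Bool} (hl : l.length = n + 1) (h : l.any id = true) :
    vz n l ≠ 0 := by
  intro h0
  rw [vz, ZMod.natCast_eq_zero_iff] at h0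
  have h1 := val_lt l
  rw [hl] at h1
  exact val_ne_zero h (Nat.eq_zero_of_dvd_of_lt h0 h1)

theorem nz_count2 (M : List (Cube n)) {i : ℕ} {T : List Rec}
    (hI : I2 M i T) : (T.filter nzR).length ≤ Pn M := by
  refine nz_count M hI.shape hI.nodup fun κ hκ => ?_
  obtain ⟨R, hR, hnz, hk⟩ := hκ
  by_contra hn
  have h1 := hI.vals κ
  rw [Nc_zero_of M i κ hn, Nat.cast_zero, ← hk, den_of_nodup vz_zero hI.nodup hR hnz] at h1
  exact vz_ne_zero (hI.shape R hR).2 hnz h1

/-! ### All the tables of the schedule -/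

/-- All tables met during a schedule satisfy `G`. -/
def AllG (M' : List Key) (G : List Rec → Prop) : List Rec → List CW → Prop
  | T, [] => G T
  | T, c :: L => G T ∧ AllG M' G (roundF M' T c) L

theorem AllG_append (M' : List Key) (G : List Rec → Prop) (L L' : List CW) (T : List Rec)
    (h : AllG M' G T L) (h' : AllG M' G (L.foldl (roundF M') T) L') : AllG M' G T (L ++ L') := by
  induction L generalizing T with
  | nil => exact h'
  | cons c L ih => exact ⟨h.1, ih _ h.2 h'⟩

theorem AllG_get (M' : List Key) (G : List Rec → Prop) (L1 L2 : List CW) (T : List Rec)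
    (h : AllG M' G T (L1 ++ L2)) : G (L1.foldl (roundF M') T) := by
  induction L1 generalizing T with
  | nil => cases L2 with
    | nil => exact h
    | cons c L => exact h.1
  | cons c L ih => exact ih _ h.2

theorem phase1 (M : List (Cube n)) (L : List (Cube n)) : ∀ (S : Set (Cube n))
    (_hS : S ⊆ keysB M) (T : List Rec) (_hI : I1 S T),
    AllG (M.map List.ofFn) (fun T => (T.filter nzR).length ≤ Pn M) T
      (L.map fun D => ((false, true, List.ofFn (wd1 D)) : CW)) ∧
    I1 (L.foldl (stepB M) S) ((L.map fun D => ((false, true, List.ofFn (wd1 D)) : CW)).foldl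
      (roundF (M.map List.ofFn)) T) := by
  induction L with
  | nil => intro S hS T hI; exact ⟨nz_count1 M hS hI, hI⟩
  | cons D L ih =>
    intro S hS T hI
    have h1 := round1 M true D hI.shape hI.cnt S hI.supp
    have h2 := ih (stepB M S D) (stepB_sub hS D) _ h1
    exact ⟨⟨nz_count1 M hS hI, h2.1⟩, h2.2⟩

theorem phase2 (M : List (Cube n)) : ∀ (j : ℕ) (_hj : j ≤ n) (T : List Rec) (_hI : I2 M j T),
    AllG (M.map List.ofFn) (fun T => (T.filter nzR).length ≤ Pn M) T (wl n j) ∧
    I2 M 0 ((wl n j).foldl (roundF (M.map List.ofFn)) T) := by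
  intro j
  induction j with
  | zero => intro hj T hI; exact ⟨nz_count2 M hI, hI⟩
  | succ j ih =>
    intro hj T hI
    have hw : word n j = List.ofFn (wd2 (⟨j, hj⟩ : Fin n)) := word_eq ⟨j, hj⟩
    have h1 := round2 M (⟨j, hj⟩ : Fin n) (T := T) hI
    rw [← hw] at h1
    have h2 := ih (by omega) _ h1
    exact ⟨⟨nz_count2 M hI, h2.1⟩, h2.2⟩

theorem tab0_filter (n : ℕ) : ((tab0 n).filter nzR).length = 1 := by
  rw [tab0, List.filter_cons, if_pos]
  · rfl
  · rfl

theorem round0 (M : List (Cube n)) :
    I1 {key M fun _ => false} (roundF (M.map List.ofFn) (tab0 n)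
      (false, false, List.replicate n (.p1 false))) := by
  rw [w0_ofFn]
  have hbot : (List.ofFn fun _ : Fin n => botC) = List.replicate n botC := by
    simp [List.ofFn_const]
  have h1 := round1 M false (fun _ => botC) (T := tab0 n) (tab0_mem n) (by
    intro R hR
    rw [tab0, List.mem_singleton] at hR
    subst hR
    exact Or.inr rfl) {fun _ => botC} (by
    intro κ
    rw [Set.mem_singleton_iff]
    constructor
    · rintro ⟨R, hR, hnz, hk⟩
      rw [tab0, List.mem_singleton] at hR
      subst hR
      simp only [← hbot] at hk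
      exact (ofFn_inj hk).symm
    · rintro rfl
      exact ⟨_, by rw [tab0]; exact List.mem_singleton.2 rfl, rfl, hbot.symm⟩)
  have e : ((if false = true then {fun _ => botC} else ∅) ∪
      {κ' | ∃ κ ∈ ({fun _ => botC} : Set (Cube n)), isB M (nb (fun _ => botC) κ) ∧
        key M (nb (fun _ => botC) κ) = κ'}) = ({key M fun _ => false} : Set (Cube n)) := by
    have hnb : nb (fun _ : Fin n => botC) (fun _ => botC) = fun _ => false := by
      funext k; rfl
    ext κ'
    simp only [Bool.false_eq_true, if_false, Set.empty_union, Set.mem_ofPred_eq,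
      Set.mem_singleton_iff]
    constructor
    · rintro ⟨κ, rfl, -, h⟩
      rw [hnb] at h
      exact h.symm
    · rintro rfl
      exact ⟨_, rfl, by rw [hnb]; exact isB_zero M, by rw [hnb]⟩
  rw [e] at h1
  exact h1

theorem allG_sched (M : List (Cube n)) :
    AllG (M.map List.ofFn) (fun T => (T.filter nzR).length ≤ Pn M) (tab0 n)
      (sched n (M.map List.ofFn)) ∧ I2 M 0 (tabN n (M.map List.ofFn)) := by
  have h0 := round0 M
  have h1 := phase1 M M {key M fun _ => false} (by
    intro κ hκ
    rw [Set.mem_singleton_iff] at hκ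
    exact ⟨_, isB_zero M, hκ.symm⟩) _ h0
  rw [foldl_stepB] at h1
  have h2 := phase2 M n le_rfl _ (I2_of_I1 M h1.2)
  rw [← w1_ofFn] at h1 h2
  constructor
  · refine ⟨?_, AllG_append _ _ _ _ _ h1.1 h2.1⟩
    change ((tab0 n).filter nzR).length ≤ Pn M
    rw [tab0_filter]
    exact Pn_pos M
  · have e : tabN n (M.map List.ofFn) = (wl n n).foldl (roundF (M.map List.ofFn))
        ((w1 (M.map List.ofFn)).foldl (roundF (M.map List.ofFn))
          (roundF (M.map List.ofFn) (tab0 n) (false, false, List.replicate n (.p1 false)))) := by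
      rw [tabN, sched, List.foldl_cons, List.foldl_append]
    rw [e]
    exact h2.2

theorem sched_bound (M : List (Cube n)) : ∀ L1 L2, sched n (M.map List.ofFn) = L1 ++ L2 →
    (L1.foldl (roundF (M.map List.ofFn)) (tab0 n)).length ≤ 2 * Pn M + 1 := by
  intro L1 L2 h
  have hall := (allG_sched M).1
  rcases List.eq_nil_or_concat L1 with rfl | ⟨L, c, rfl⟩
  · rw [List.foldl_nil, tab0, List.length_singleton]
    omega
  · rw [h, List.concat_eq_append, List.append_assoc] at hall
    have h1 := AllG_get _ _ _ _ _ hall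
    rw [List.concat_eq_append, List.foldl_append, List.foldl_cons, List.foldl_nil]
    have hmem := sched_mem n (M.map List.ofFn) (rows_len M)
    rw [h, List.concat_eq_append, List.append_assoc] at hmem
    refine (roundF_length n _ (rows_len M) c (hmem c (by simp)) _
      (foldl_roundF_mem n _ (rows_len M) L (fun c hc => hmem c (by simp [hc])) _
        (tab0_mem n))).trans ?_
    omega

end Pool.Agent.H1.Sat
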