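import Pool.Agent.H1.SatGlueD

/-!
# The output
-/

namespace Pool.Agent.H1.Sat

variable {n : ℕ}

theorem bits_val (v : List Bool) : v = (List.range v.length).map (Nat.testBit (val v)) := by
  induction v with
  | nil => rfl
  | cons b v ih =>
    rw [List.length_cons, List.range_succ_eq_map, List.map_cons, List.map_map]
    have h0 : Nat.testBit (val (b :: v)) 0 = b := by
      rw [val, Nat.testBit_zero]
      cases b <;> simp [b2n, Nat.add_mod]
    have h1 : (List.range v.length).map (Nat.testBit (val (b :: v)) ∘ Nat.succ) =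
        (List.range v.length).map (Nat.testBit (val v)) := by
      refine List.map_congr_left fun i _ => ?_
      rw [Function.comp_apply, Nat.succ_eq_add_one, Nat.testBit_succ, val]
      congr 1
      cases b <;> simp [b2n] <;> omega
    rw [h0, h1, ← ih]

theorem orA_zip (f : Bool) (v acc : List Bool) (h : v.length = acc.length) :
    orA f v acc = List.zipWith (fun a b => (a && f) || b) v acc := by
  induction v generalizing acc with
  | nil => rw [List.eq_nil_of_length_eq_zero h.symm]; rfl
  | cons a v ih =>
    cases acc with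
    | nil => simp at h
    | cons b acc =>
      rw [orA, List.tail_cons, ih acc (by simpa using h)]
      rfl

theorem orA_nil (f : Bool) (v : List Bool) :
    orA f v [] = orA f v (List.replicate v.length false) := by
  induction v with
  | nil => rfl
  | cons a v ih =>
    rw [orA, List.length_cons, List.replicate_succ, orA, List.tail_cons, List.tail_nil, ih]
    rfl

theorem orA_false (v acc : List Bool) (h : v.length = acc.length) : orA false v acc = acc := by
  rw [orA_zip _ _ _ h]
  induction v generalizing acc with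
  | nil => rw [List.eq_nil_of_length_eq_zero h.symm]; rfl
  | cons a v ih =>
    cases acc with
    | nil => simp at h
    | cons b acc =>
      rw [List.zipWith_cons_cons, ih acc (by simpa using h)]
      simp

theorem orA_zero (f : Bool) (v acc : List Bool) (h : v.length = acc.length)
    (hv : v.any id = false) : orA f v acc = acc := by
  rw [orA_zip _ _ _ h]
  induction v generalizing acc with
  | nil => rw [List.eq_nil_of_length_eq_zero h.symm]; rfl
  | cons a v ih =>
    cases acc with
    | nil => simp at h
    | cons b acc =>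
      rw [List.any_cons, Bool.or_eq_false_iff] at hv
      have ha : a = false := hv.1
      rw [List.zipWith_cons_cons, ih acc (by simpa using h) hv.2, ha]
      simp

theorem orA_true_zero (v : List Bool) : orA true v (List.replicate v.length false) = v := by
  induction v with
  | nil => rfl
  | cons a v ih =>
    rw [List.length_cons, List.replicate_succ, orA, List.tail_cons, ih]
    simp

theorem foldl_orA_same (fl : Rec → Bool) (T : List Rec) (hT : Shape n T)
    (h : ∀ R ∈ T, fl R = false ∨ nzR R = false) (acc : List Bool) (hacc : acc.length = n + 1) :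
    T.foldl (fun acc R => orA (fl R) R.2 acc) acc = acc := by
  induction T with
  | nil => rfl
  | cons R T ih =>
    have hl : R.2.length = acc.length := by rw [(hT R (by simp)).2, hacc]
    rw [List.foldl_cons]
    have e : orA (fl R) R.2 acc = acc := by
      rcases h R (by simp) with h1 | h1
      · rw [h1, orA_false _ _ hl]
      · exact orA_zero _ _ _ hl h1
    rw [e]
    exact ih (fun B hB => hT B (by simp [hB])) fun B hB => h B (by simp [hB])

theorem foldl_orA_nil (fl : Rec → Bool) (T : List Rec) (hT : Shape n T) (hne : T ≠ []) :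
    T.foldl (fun acc R => orA (fl R) R.2 acc) [] =
      T.foldl (fun acc R => orA (fl R) R.2 acc) (List.replicate (n + 1) false) := by
  cases T with
  | nil => exact absurd rfl hne
  | cons R T =>
    rw [List.foldl_cons, List.foldl_cons, orA_nil, (hT R (by simp)).2]

theorem foldl_orA_one (fl : Rec → Bool) (T1 T2 : List Rec) (R₀ : Rec)
    (hT : Shape n (T1 ++ R₀ :: T2)) (h₀ : fl R₀ = true)
    (h : ∀ R, R ∈ T1 ∨ R ∈ T2 → fl R = false ∨ nzR R = false) :
    (T1 ++ R₀ :: T2).foldl (fun acc R => orA (fl R) R.2 acc) (List.replicate (n + 1) false) =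
      R₀.2 := by
  rw [List.foldl_append, List.foldl_cons,
    foldl_orA_same fl T1 (fun R hR => hT R (by simp [hR])) (fun R hR => h R (Or.inl hR)) _
      (by simp), h₀]
  have hl := (hT R₀ (by simp)).2
  rw [← hl, orA_true_zero]
  exact foldl_orA_same fl T2 (fun R hR => hT R (by simp [hR])) (fun R hR => h R (Or.inr hR)) _ hl

/-- Number of points below which there is no row. -/
def cnt (M : List (Cube n)) : ℕ :=
  (Finset.univ.filter fun a : Fin n → Bool => ∀ A ∈ M, ¬ leF A (pt a)).card

theorem cnt_lt (M : List (Cube n)) : cnt M < 2 ^ (n + 1) := by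
  have h1 : cnt M ≤ 2 ^ n := by
    refine (Finset.card_le_univ _).trans ?_
    simp
  have : 2 ^ n < 2 ^ (n + 1) := Nat.pow_lt_pow_right (by norm_num) (by omega)
  omega

theorem Nc_lt (M : List (Cube n)) (i : ℕ) (κ : Cube n) : Nc M i κ < 2 ^ (n + 1) := by
  have h1 : Nc M i κ ≤ 2 ^ n := by
    refine (Finset.card_le_univ _).trans ?_
    simp
  have : 2 ^ n < 2 ^ (n + 1) := Nat.pow_lt_pow_right (by norm_num) (by omega)
  omega

theorem blank_ofFn (κ : Cube n) : blank (List.ofFn κ) = true ↔ κ = fun _ => botC := by
  rw [blank, all_ofFn, decide_eq_true_eq]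
  constructor
  · intro h
    funext i
    simpa using h i
  · rintro rfl i
    simp

theorem leF_bot (Q : Cube n) : leF (fun _ => botC) Q := by
  rw [leF_iff]
  intro i
  simp [botC]

theorem cnt_blank (M : List (Cube n)) (h : (M.map List.ofFn).any blank = true) : cnt M = 0 := by
  rw [List.any_eq_true] at h
  obtain ⟨k, hk, hb⟩ := h
  rw [List.mem_map] at hk
  obtain ⟨A, hA, rfl⟩ := hk
  rw [blank_ofFn] at hb
  rw [cnt, Finset.card_eq_zero, Finset.filter_eq_empty_iff]
  intro a _ h
  refine h A hA ?_
  rw [hb]
  exact leF_bot _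

theorem cnt_eq (M : List (Cube n)) (h : (M.map List.ofFn).any blank = false) :
    cnt M = Nc M 0 fun _ => botC := by
  rw [cnt, Nc]
  congr 1
  refine Finset.filter_congr fun a _ => ?_
  have hnb : ∀ A ∈ M, A ≠ fun _ => botC := by
    intro A hA he
    rw [List.any_eq_false] at h
    exact h (List.ofFn A) (List.mem_map.2 ⟨A, hA, rfl⟩) ((blank_ofFn A).2 he)
  constructor
  · intro h1
    refine ⟨?_, fun k hk => absurd hk (Nat.not_lt_zero _)⟩
    funext i
    simp only [key, hullF, botC, Prod.mk.injEq, decide_eq_false_iff_not]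
    constructor
    · rintro ⟨A, hA, h2, -⟩; exact h1 A hA h2
    · rintro ⟨A, hA, h2, -⟩; exact h1 A hA h2
  · rintro ⟨h1, -⟩ A hA h2
    refine hnb A hA ?_
    have h3 := (leF_iff _ _).1 (le_hull hA h2)
    funext i
    have h4 := h3 i
    have h5 : hullF M (pt a) i = botC := congrFun h1 i
    rw [h5] at h4
    have h6 : (A i).1 = false := by
      cases hx : (A i).1
      · rfl
      · exact absurd (h4.1 hx) (by simp [botC])
    have h7 : (A i).2 = false := by
      cases hx : (A i).2
      · rfl
      · exact absurd (h4.2 hx) (by simp [botC])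
    exact Prod.ext h6 h7

theorem Nc_pos (M : List (Cube n)) : ∃ κ, Nc M 0 κ ≠ 0 := by
  refine ⟨key M fun _ => false, ?_⟩
  rw [Nc, Finset.card_ne_zero]
  exact ⟨fun _ => false, by simp⟩

theorem tab_ne_nil (M : List (Cube n)) {T : List Rec} (hI : I2 M 0 T) : T ≠ [] := by
  rintro rfl
  obtain ⟨κ, hκ⟩ := Nc_pos M
  have h1 := hI.vals κ
  rw [den_nil] at h1
  have h2 := (ZMod.natCast_eq_zero_iff _ _).1 h1.symm
  exact hκ (Nat.eq_zero_of_dvd_of_lt h2 (Nc_lt M 0 κ))

theorem vz_inj {a b : ℕ} (ha : a < 2 ^ (n + 1)) (hb : b < 2 ^ (n + 1))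
    (h : (a : ZMod (2 ^ (n + 1))) = b) : a = b := by
  rw [ZMod.natCast_eq_natCast_iff'] at h
  rwa [Nat.mod_eq_of_lt ha, Nat.mod_eq_of_lt hb] at h

theorem val_resF (M : List (Cube n)) {T : List Rec} (hI : I2 M 0 T) :
    (resF (M.map List.ofFn) T).length = n + 1 ∧ val (resF (M.map List.ofFn) T) = cnt M := by
  have hne := tab_ne_nil M hI
  rw [resF, foldl_orA_nil (n := n) (fun R => !(M.map List.ofFn).any blank && blank R.1) T hI.shape
    hne]
  cases hb : (M.map List.ofFn).any blank
  · -- no blank rows
    simp only [Bool.not_false, Bool.true_and]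
    rw [cnt_eq M hb]
    have hv := hI.vals fun _ => botC
    by_cases hz : ∃ R ∈ T, nzR R = true ∧ R.1 = List.ofFn fun _ : Fin n => botC
    · obtain ⟨R₀, hR₀, hnz, hk⟩ := hz
      obtain ⟨T1, T2, rfl⟩ := List.append_of_mem hR₀
      have hfl : blank R₀.1 = true := by rw [hk, blank_ofFn]
      have hother : ∀ R, R ∈ T1 ∨ R ∈ T2 → blank R.1 = false ∨ nzR R = false := by
        intro R hR
        by_contra hcon
        rw [not_or, Bool.not_eq_false, Bool.not_eq_false] at hcon
        have hRm : R ∈ T1 ++ R₀ :: T2 := by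
          rw [List.mem_append, List.mem_cons]
          tauto
        obtain ⟨κ, hκ⟩ := exists_ofFn R.1 (hI.shape R hRm).1
        have h1 := hcon.1
        rw [hκ, blank_ofFn] at h1
        rw [h1] at hκ
        have hnd := hI.nodup
        have e : nzKeys (T1 ++ R₀ :: T2) = nzKeys T1 ++ (R₀.1 :: nzKeys T2) := by
          rw [nzKeys, List.filter_append, List.map_append, List.filter_cons, if_pos hnz]
          rfl
        rw [e, List.nodup_append] at hnd
        obtain ⟨hn1, hn2, hn3⟩ := hnd
        rcases hR with hR | hR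
        · exact hn3 R.1 (mem_nzKeys.2 ⟨R, hR, hcon.2, rfl⟩) R₀.1 (by simp) (by rw [hκ, hk])
        · rw [List.nodup_cons] at hn2
          exact hn2.1 (mem_nzKeys.2 ⟨R, hR, hcon.2, by rw [hκ, hk]⟩)
      rw [foldl_orA_one (n := n) (fun R => blank R.1) T1 T2 R₀ hI.shape hfl hother]
      refine ⟨(hI.shape R₀ hR₀).2, ?_⟩
      rw [← hk, den_of_nodup vz_zero hI.nodup hR₀ hnz] at hv
      have hl := val_lt R₀.2
      rw [(hI.shape R₀ hR₀).2] at hl
      exact vz_inj hl (Nc_lt M 0 _) hv
    · rw [foldl_orA_same (n := n) (fun R => blank R.1) T hI.shape _ _ (by simp)]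
      · refine ⟨by simp, ?_⟩
        rw [den_eq_zero vz_zero (fun R hR hnz hk => hz ⟨R, hR, hnz, hk⟩)] at hv
        have h2 := (ZMod.natCast_eq_zero_iff _ _).1 hv.symm
        rw [Nat.eq_zero_of_dvd_of_lt h2 (Nc_lt M 0 _)]
        exact val_eq_zero (by simp)
      · intro R hR
        by_contra hcon
        rw [not_or, Bool.not_eq_false, Bool.not_eq_false] at hcon
        obtain ⟨κ, hκ⟩ := exists_ofFn R.1 (hI.shape R hR).1
        have h1 := hcon.1
        rw [hκ, blank_ofFn] at h1
        rw [h1] at hκ
        exact hz ⟨R, hR, hcon.2, hκ⟩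
  · rw [cnt_blank M hb, foldl_orA_same (n := n) _ T hI.shape _ _ (by simp)]
    · exact ⟨by simp, val_eq_zero (by simp)⟩
    · intro R _
      left
      simp

theorem resF_eq (M : List (Cube n)) :
    resF (M.map List.ofFn) (tabN n (M.map List.ofFn)) =
      (List.range (n + 1)).map (Nat.testBit (cnt M)) := by
  obtain ⟨h1, h2⟩ := val_resF M (allG_sched M).2
  have h3 := bits_val (resF (M.map List.ofFn) (tabN n (M.map List.ofFn)))
  rw [h1, h2] at h3
  exact h3

theorem any_resF (M : List (Cube n)) :
    (resF (M.map List.ofFn) (tabN n (M.map List.ofFn))).any id = decide (cnt M ≠ 0) := by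
  obtain ⟨-, h2⟩ := val_resF M (allG_sched M).2
  cases h : (resF (M.map List.ofFn) (tabN n (M.map List.ofFn))).any id
  · rw [val_eq_zero h] at h2
    rw [← h2]
    simp
  · have := val_ne_zero h
    rw [h2] at this
    simp [this]

/-- The program, run on an input. -/
theorem runs_cube (M : List (Cube n)) :
    Runs satProg
      (reg0, ⟨inputOf n (M.map List.ofFn), [], [], [], [], [], [], [], [], [], []⟩)
      (reg0, ⟨[], decide (cnt M ≠ 0) :: (List.range (n + 1)).map (Nat.testBit (cnt M)), [], [], [],
        [], [], [], [], [], []⟩)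
      (costT n M.length (2 * Pn M + 1)) := by
  have := runs_satProg n (M.map List.ofFn) (rows_len M) (2 * Pn M + 1) (sched_bound M)
  rw [any_resF, resF_eq, List.length_map] at this
  exact this

end Pool.Agent.H1.Sat
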