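import Pool.Agent.H1.SatCode

/-!
# The combinatorics of the counting recurrence
-/

namespace Pool.Agent.H1.Sat

variable {n : ℕ}

/-- Cubes as functions. -/
abbrev Cube (n : ℕ) := Fin n → Cell

/-- Order of cubes. -/
def leF (A Q : Cube n) : Prop := ∀ i, leC (A i) (Q i) = true

instance (A Q : Cube n) : Decidable (leF A Q) := by unfold leF; infer_instance

/-- A point as a cube. -/
def pt (a : Fin n → Bool) : Cube n := fun i => (!a i, a i)

/-- Join of the rows below `Q`. -/
def hullF (M : List (Cube n)) (Q : Cube n) : Cube n :=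
  fun i => (decide (∃ A ∈ M, leF A Q ∧ (A i).1 = true), decide (∃ A ∈ M, leF A Q ∧ (A i).2 = true))

theorem leC_iff (a b : Cell) : leC a b = true ↔ (a.1 = true → b.1 = true) ∧ (a.2 = true → b.2 = true) := by
  obtain ⟨a1, a2⟩ := a
  obtain ⟨b1, b2⟩ := b
  cases a1 <;> cases a2 <;> cases b1 <;> cases b2 <;> simp [leC]

theorem leF_iff (A Q : Cube n) :
    leF A Q ↔ ∀ i, ((A i).1 = true → (Q i).1 = true) ∧ ((A i).2 = true → (Q i).2 = true) := by
  unfold leF
  simp only [leC_iff]

theorem leF_trans {A B C : Cube n} (h : leF A B) (h' : leF B C) : leF A C := by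
  rw [leF_iff] at *
  exact fun i => ⟨fun hi => (h' i).1 ((h i).1 hi), fun hi => (h' i).2 ((h i).2 hi)⟩

theorem hull_le (M : List (Cube n)) (Q : Cube n) : leF (hullF M Q) Q := by
  rw [leF_iff]
  intro i
  constructor
  · intro h
    simp only [hullF, decide_eq_true_eq] at h
    obtain ⟨A, -, hA, hi⟩ := h
    exact ((leF_iff A Q).1 hA i).1 hi
  · intro h
    simp only [hullF, decide_eq_true_eq] at h
    obtain ⟨A, -, hA, hi⟩ := h
    exact ((leF_iff A Q).1 hA i).2 hi

theorem le_hull {M : List (Cube n)} {A Q : Cube n} (hA : A ∈ M) (h : leF A Q) :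
    leF A (hullF M Q) := by
  rw [leF_iff]
  intro i
  constructor
  · intro hi
    simp only [hullF, decide_eq_true_eq]
    exact ⟨A, hA, h, hi⟩
  · intro hi
    simp only [hullF, decide_eq_true_eq]
    exact ⟨A, hA, h, hi⟩

theorem hull_congr {M : List (Cube n)} {Q Q' : Cube n} (h : ∀ A ∈ M, leF A Q ↔ leF A Q') :
    hullF M Q = hullF M Q' := by
  funext i
  have : ∀ P : Cube n → Prop, (∃ A ∈ M, leF A Q ∧ P A) ↔ (∃ A ∈ M, leF A Q' ∧ P A) := by
    intro P
    constructor
    · rintro ⟨A, hA, h1, h2⟩
      exact ⟨A, hA, (h A hA).1 h1, h2⟩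
    · rintro ⟨A, hA, h1, h2⟩
      exact ⟨A, hA, (h A hA).2 h1, h2⟩
  simp only [hullF, this]

/-- The cube `κ` with the coordinate `c` freed. -/
def zc (c : Fin n) (κ : Cube n) : Cube n := fun i => if i = c then botC else κ i

theorem le_zc_iff {A κ : Cube n} {c : Fin n} :
    leF A (zc c κ) ↔ leF A κ ∧ (A c).1 = false ∧ (A c).2 = false := by
  rw [leF_iff, leF_iff]
  constructor
  · intro h
    have hc := h c
    simp only [zc, if_true] at hc
    have h1 : (A c).1 = false := by
      cases h1 : (A c).1
      · rfl
      · exact absurd (hc.1 h1) (by simp)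
    have h2 : (A c).2 = false := by
      cases h2 : (A c).2
      · rfl
      · exact absurd (hc.2 h2) (by simp)
    refine ⟨fun i => ?_, h1, h2⟩
    by_cases hi : i = c
    · subst hi
      rw [h1, h2]
      simp
    · have := h i
      simpa only [zc, if_neg hi] using this
  · rintro ⟨h, h1, h2⟩ i
    by_cases hi : i = c
    · subst hi
      rw [h1, h2]
      simp
    · simpa only [zc, if_neg hi] using h i

/-- The key of a point. -/
def key (M : List (Cube n)) (a : Fin n → Bool) : Cube n := hullF M (pt a)

/-- The next key. -/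
def next (M : List (Cube n)) (c : Fin n) (κ : Cube n) : Cube n := hullF M (zc c κ)

/-- The check of a key. -/
def okc (M : List (Cube n)) (c : Fin n) (κ : Cube n) : Prop :=
  ∀ k, k < c → (κ k).2 = true → (next M c κ k).2 = true

instance (M : List (Cube n)) (c : Fin n) (κ : Cube n) : Decidable (okc M c κ) := by
  unfold okc; infer_instance

/-- The numbers of the recurrence. -/
def Nc (M : List (Cube n)) (i : ℕ) (κ : Cube n) : ℕ :=
  (Finset.univ.filter fun a : Fin n → Bool =>
    key M a = κ ∧ ∀ k : Fin n, (k : ℕ) < i → a k = (κ k).2).card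

theorem key_snd {M : List (Cube n)} {a : Fin n → Bool} {k : Fin n} (h : (key M a k).2 = true) :
    a k = true := by
  have := ((leF_iff _ _).1 (hull_le M (pt a)) k).2 h
  exact this

theorem key_fst {M : List (Cube n)} {a : Fin n → Bool} {k : Fin n} (h : (key M a k).1 = true) :
    a k = false := by
  have := ((leF_iff _ _).1 (hull_le M (pt a)) k).1 h
  simpa [pt] using this

theorem next_key (M : List (Cube n)) (c : Fin n) (a : Fin n → Bool) :
    next M c (key M a) = hullF M (zc c (pt a)) := by
  apply hull_congr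
  intro A hA
  rw [le_zc_iff, le_zc_iff]
  constructor
  · rintro ⟨h, h'⟩
    exact ⟨leF_trans h (hull_le _ _), h'⟩
  · rintro ⟨h, h'⟩
    exact ⟨le_hull hA h, h'⟩

theorem next_le_key (M : List (Cube n)) (c : Fin n) (a : Fin n → Bool) :
    leF (next M c (key M a)) (key M a) := by
  refine leF_trans (hull_le _ _) ?_
  rw [leF_iff]
  intro i
  by_cases hi : i = c
  · simp [zc, hi]
  · simp [zc, hi]

/-- Description of the points counted by the sum. -/
theorem cond_iff (M : List (Cube n)) (c : Fin n) (κ : Cube n) (a : Fin n → Bool) :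
    ((∀ k : Fin n, (k : ℕ) < (c : ℕ) + 1 → a k = (key M a k).2) ∧ okc M c (key M a) ∧
      next M c (key M a) = κ) ↔
    (hullF M (zc c (pt a)) = κ ∧ (∀ k : Fin n, (k : ℕ) < c → a k = (κ k).2) ∧
      a c = (key M a c).2) := by
  constructor
  · rintro ⟨h1, h2, h3⟩
    refine ⟨by rw [← next_key]; exact h3, ?_, h1 c (Nat.lt_succ_self _)⟩
    intro k hk
    have hk' := h1 k (Nat.lt_succ_of_lt hk)
    rw [hk']
    have hle := (leF_iff _ _).1 (next_le_key M c a) k
    rw [h3] at hle
    have h2' := h2 k hk
    rw [h3] at h2'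
    cases hx : (key M a k).2
    · cases hy : (κ k).2
      · rfl
      · rw [hle.2 hy] at hx; exact absurd hx (by simp)
    · rw [h2' hx]
  · rintro ⟨h1, h2, h3⟩
    have h4 : next M c (key M a) = κ := by rw [next_key]; exact h1
    have hle := fun k => (leF_iff _ _).1 (next_le_key M c a) k
    rw [h4] at hle
    have hkey : ∀ k : Fin n, (k : ℕ) < c → (key M a k).2 = (κ k).2 := by
      intro k hk
      cases hy : (κ k).2
      · cases hx : (key M a k).2
        · rfl
        · have := key_snd hx
          rw [h2 k hk, hy] at this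
          exact absurd this (by simp)
      · exact (hle k).2 hy
    refine ⟨?_, ?_, h4⟩
    · intro k hk
      rcases Nat.lt_succ_iff_lt_or_eq.1 hk with hk | hk
      · rw [h2 k hk, hkey k hk]
      · have : k = c := Fin.ext hk
        subst this
        exact h3
    · intro k hk hx
      rw [h4, ← hkey k hk]
      exact hx

/-- Sign. -/
def sgn (b : Bool) : ℤ := if b then -1 else 1

/-- Flip of a coordinate. -/
def flip (c : Fin n) (a : Fin n → Bool) : Fin n → Bool := Function.update a c (!a c)

theorem flip_flip (c : Fin n) (a : Fin n → Bool) : flip c (flip c a) = a := by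
  unfold flip
  simp

theorem zc_pt_flip (c : Fin n) (a : Fin n → Bool) : zc c (pt (flip c a)) = zc c (pt a) := by
  funext i
  by_cases hi : i = c
  · simp [zc, hi]
  · simp [zc, hi, pt, flip, Function.update_of_ne hi]

theorem key_eq_of_bot {M : List (Cube n)} {c : Fin n} {a : Fin n → Bool}
    (h1 : (key M a c).1 = false) (h2 : (key M a c).2 = false) :
    hullF M (zc c (pt a)) = key M a := by
  apply hull_congr
  intro A hA
  rw [le_zc_iff]
  constructor
  · exact fun h => h.1
  · intro h
    have := (leF_iff _ _).1 (le_hull hA h) c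
    refine ⟨h, ?_, ?_⟩
    · cases hx : (A c).1
      · rfl
      · have h3 := this.1 hx
        change (key M a c).1 = true at h3
        rw [h1] at h3
        exact absurd h3 (by simp)
    · cases hx : (A c).2
      · rfl
      · have h3 := this.2 hx
        change (key M a c).2 = true at h3
        rw [h2] at h3
        exact absurd h3 (by simp)

open Finset in
theorem recurrence (M : List (Cube n)) (c : Fin n) (κ : Cube n) :
    (Nc M c κ : ℤ) = Nc M (c + 1) κ +
      ∑ κ' : Cube n, if okc M c κ' ∧ next M c κ' = κ then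
        sgn (κ' c).2 * (Nc M (c + 1) κ' : ℤ) else 0 := by
  classical
  -- the sum over points
  have hsum : (∑ κ' : Cube n, if okc M c κ' ∧ next M c κ' = κ then
      sgn (κ' c).2 * (Nc M (c + 1) κ' : ℤ) else 0) =
      ∑ a : Fin n → Bool, if (hullF M (zc c (pt a)) = κ ∧
        (∀ k : Fin n, (k : ℕ) < c → a k = (κ k).2) ∧ a c = (key M a c).2) then
        sgn (key M a c).2 else 0 := by
    have h1 : ∀ κ' : Cube n, (Nc M (c + 1) κ' : ℤ) = ∑ a : Fin n → Bool,
        if (key M a = κ' ∧ ∀ k : Fin n, (k : ℕ) < (c : ℕ) + 1 → a k = (κ' k).2) then 1 else 0 := by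
      intro κ'
      rw [Nc, Finset.card_filter]
      push_cast
      rfl
    calc _ = ∑ κ' : Cube n, ∑ a : Fin n → Bool,
        (if (okc M c κ' ∧ next M c κ' = κ) ∧
          (key M a = κ' ∧ ∀ k : Fin n, (k : ℕ) < (c : ℕ) + 1 → a k = (κ' k).2) then
          sgn (κ' c).2 else 0) := by
          refine Finset.sum_congr rfl fun κ' _ => ?_
          rw [h1, Finset.mul_sum]
          by_cases hP : okc M c κ' ∧ next M c κ' = κ
          · rw [if_pos hP]
            refine Finset.sum_congr rfl fun a _ => ?_
            by_cases hQ : key M a = κ' ∧ ∀ k : Fin n, (k : ℕ) < (c : ℕ) + 1 → a k = (κ' k).2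
            · rw [if_pos hQ, if_pos ⟨hP, hQ⟩, mul_one]
            · rw [if_neg hQ, if_neg (fun h => hQ h.2), mul_zero]
          · rw [if_neg hP]
            symm
            exact Finset.sum_eq_zero fun a _ => if_neg (fun h => hP h.1)
      _ = ∑ a : Fin n → Bool, ∑ κ' : Cube n,
        (if (okc M c κ' ∧ next M c κ' = κ) ∧
          (key M a = κ' ∧ ∀ k : Fin n, (k : ℕ) < (c : ℕ) + 1 → a k = (κ' k).2) then
          sgn (κ' c).2 else 0) := Finset.sum_comm
      _ = _ := by
          refine Finset.sum_congr rfl fun a _ => ?_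
          rw [Finset.sum_eq_single (key M a)]
          · have := cond_iff M c κ a
            by_cases hP : (hullF M (zc c (pt a)) = κ ∧
              (∀ k : Fin n, (k : ℕ) < c → a k = (κ k).2) ∧ a c = (key M a c).2)
            · have h2 := this.2 hP
              rw [if_pos hP, if_pos ⟨⟨h2.2.1, h2.2.2⟩, rfl, h2.1⟩]
            · rw [if_neg hP, if_neg]
              rintro ⟨⟨h2, h3⟩, -, h4⟩
              exact hP (this.1 ⟨h4, h2, h3⟩)
          · intro κ' _ hne
            exact if_neg (fun h => hne h.2.1.symm)
          · intro h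
            exact absurd (Finset.mem_univ _) h
  rw [hsum]
  -- split according to the coordinate `c`
  set G : (Fin n → Bool) → Prop := fun a => hullF M (zc c (pt a)) = κ ∧
    ∀ k : Fin n, (k : ℕ) < c → a k = (κ k).2 with hG
  have hGflip : ∀ a, G (flip c a) ↔ G a := by
    intro a
    simp only [hG, zc_pt_flip]
    refine and_congr Iff.rfl (forall_congr' fun k => ?_)
    refine imp_congr_right fun hk => ?_
    have : k ≠ c := fun h => by rw [h] at hk; exact lt_irrefl _ hk
    rw [flip, Function.update_of_ne this]
  have hterm : ∀ a : Fin n → Bool, (if (hullF M (zc c (pt a)) = κ ∧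
        (∀ k : Fin n, (k : ℕ) < c → a k = (κ k).2) ∧ a c = (key M a c).2) then
        sgn (key M a c).2 else 0) =
      (if G a ∧ a c = false then (1 : ℤ) else 0) -
      (if G a ∧ a c = true then (1 : ℤ) else 0) +
      (if G a ∧ a c = true ∧ (key M a c).2 = false then (1 : ℤ) else 0) := by
    intro a
    by_cases hGa : G a
    · have hGa' := hGa
      simp only [hG] at hGa'
      cases hac : a c
      · have hk2 : (key M a c).2 = false := by
          cases hx : (key M a c).2
          · rfl
          · have := key_snd hx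
            rw [hac] at this
            exact absurd this (by simp)
        rw [if_pos ⟨hGa'.1, hGa'.2, by rw [hk2]⟩]
        simp [hGa, hk2, sgn]
      · cases hx : (key M a c).2
        · rw [if_neg (fun h => by simpa using h.2.2)]
          simp [hGa]
        · rw [if_pos ⟨hGa'.1, hGa'.2, rfl⟩]
          simp [hGa, sgn]
    · rw [if_neg (fun h => hGa ⟨h.1, h.2.1⟩)]
      simp [hGa]
  simp only [hterm]
  rw [Finset.sum_add_distrib, Finset.sum_sub_distrib]
  have hbij : (∑ a : Fin n → Bool, if G a ∧ a c = false then (1 : ℤ) else 0) =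
      ∑ a : Fin n → Bool, if G a ∧ a c = true then (1 : ℤ) else 0 := by
    refine Finset.sum_nbij' (flip c) (flip c) (fun _ _ => Finset.mem_univ _)
      (fun _ _ => Finset.mem_univ _) (fun a _ => flip_flip c a) (fun a _ => flip_flip c a) ?_
    intro a _
    have h1 : (G (flip c a) ∧ flip c a c = true) ↔ (G a ∧ a c = false) := by
      rw [hGflip]
      have : flip c a c = !a c := by simp [flip]
      rw [this]
      simp
    simp only [h1]
  rw [hbij, sub_self, zero_add]
  -- the remaining points
  have hD : (∑ a : Fin n → Bool, if G a ∧ a c = true ∧ (key M a c).2 = false then (1 : ℤ) else 0) =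
      ∑ a : Fin n → Bool, if (key M a = κ ∧ ∀ k : Fin n, (k : ℕ) < c → a k = (κ k).2) ∧
        a c ≠ (κ c).2 then (1 : ℤ) else 0 := by
    refine Finset.sum_congr rfl fun a _ => ?_
    have : (G a ∧ a c = true ∧ (key M a c).2 = false) ↔
        ((key M a = κ ∧ ∀ k : Fin n, (k : ℕ) < c → a k = (κ k).2) ∧ a c ≠ (κ c).2) := by
      simp only [hG]
      constructor
      · rintro ⟨⟨h1, h2⟩, h3, h4⟩
        have h5 : (key M a c).1 = false := by
          cases hx : (key M a c).1
          · rfl
          · have := key_fst hx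
            rw [h3] at this
            exact absurd this (by simp)
        have h6 := key_eq_of_bot h5 h4
        rw [h1] at h6
        refine ⟨⟨h6.symm, h2⟩, ?_⟩
        rw [h3, h6, h4]
        simp
      · rintro ⟨⟨h1, h2⟩, h3⟩
        have h4 : (κ c).2 = false := by
          cases hx : (κ c).2
          · rfl
          · rw [← h1] at hx
            have := key_snd hx
            rw [← h1, hx, this] at h3
            exact absurd rfl h3
        have h5 : a c = true := by
          rw [h4] at h3
          simpa using h3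
        have h6 : (key M a c).1 = false := by
          cases hx : (key M a c).1
          · rfl
          · have := key_fst hx
            rw [h5] at this
            exact absurd this (by simp)
        have h7 : (key M a c).2 = false := by rw [h1]; exact h4
        exact ⟨⟨by rw [key_eq_of_bot h6 h7]; exact h1, h2⟩, h5, h7⟩
    simp only [this]
  rw [hD]
  have hN : ∀ i, (Nc M i κ : ℤ) = ∑ a : Fin n → Bool,
      if (key M a = κ ∧ ∀ k : Fin n, (k : ℕ) < i → a k = (κ k).2) then 1 else 0 := by
    intro i
    rw [Nc, Finset.card_filter]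
    push_cast
    rfl
  rw [hN, hN, ← Finset.sum_add_distrib]
  refine Finset.sum_congr rfl fun a _ => ?_
  have hsplit : (∀ k : Fin n, (k : ℕ) < (c : ℕ) + 1 → a k = (κ k).2) ↔
      ((∀ k : Fin n, (k : ℕ) < c → a k = (κ k).2) ∧ a c = (κ c).2) := by
    constructor
    · intro h
      exact ⟨fun k hk => h k (Nat.lt_succ_of_lt hk), h c (Nat.lt_succ_self _)⟩
    · rintro ⟨h1, h2⟩ k hk
      rcases Nat.lt_succ_iff_lt_or_eq.1 hk with hk | hk
      · exact h1 k hk
      · have : k = c := Fin.ext hk
        subst this
        exact h2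
  simp only [hsplit]
  by_cases h1 : key M a = κ ∧ ∀ k : Fin n, (k : ℕ) < c → a k = (κ k).2
  · by_cases h2 : a c = (κ c).2
    · rw [if_pos h1, if_pos ⟨h1.1, h1.2, h2⟩, if_neg (fun h => h.2 h2)]
      simp
    · rw [if_pos h1, if_neg (fun h => h2 h.2.2), if_pos ⟨h1, h2⟩]
      simp
  · rw [if_neg h1, if_neg (fun h => h1 ⟨h.1, h.2.1⟩), if_neg (fun h => h1 h.1)]
    simp

end Pool.Agent.H1.Sat
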