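import Pool.Agent.H1.SatMath

/-!
# The first phase: bottoms of closed cubes
-/

namespace Pool.Agent.H1.Sat

variable {n : ℕ}

/-- The point `b` is the bottom of its closed cube. -/
def isB (M : List (Cube n)) (b : Fin n → Bool) : Prop := ∀ k, b k = true → (key M b k).2 = true

/-- Keys of bottoms. -/
def keysB (M : List (Cube n)) : Set (Cube n) := {κ | ∃ b, isB M b ∧ key M b = κ}

theorem isB_eq {M : List (Cube n)} {b : Fin n → Bool} (h : isB M b) (k : Fin n) :
    (key M b k).2 = b k := by
  cases hb : b k
  · cases hx : (key M b k).2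
    · rfl
    · rw [key_snd hx] at hb
      exact absurd hb (by simp)
  · exact h k hb

open scoped Classical in
theorem Nc_last (M : List (Cube n)) (κ : Cube n) :
    Nc M n κ = if κ ∈ keysB M then 1 else 0 := by
  have hall : ∀ a : Fin n → Bool, (key M a = κ ∧ ∀ k : Fin n, (k : ℕ) < n → a k = (κ k).2) ↔
      (isB M a ∧ key M a = κ) := by
    intro a
    constructor
    · rintro ⟨h1, h2⟩
      refine ⟨fun k hk => ?_, h1⟩
      rw [h1, ← h2 k k.isLt]
      exact hk
    · rintro ⟨h1, h2⟩
      refine ⟨h2, fun k _ => ?_⟩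
      rw [← h2, isB_eq h1]
  unfold Nc
  simp only [hall]
  split_ifs with h
  · obtain ⟨b, hb1, hb2⟩ := h
    rw [Finset.card_eq_one]
    refine ⟨b, ?_⟩
    ext a
    simp only [Finset.mem_filter, Finset.mem_univ, true_and, Finset.mem_singleton]
    constructor
    · rintro ⟨h1, h2⟩
      funext k
      rw [← isB_eq h1, ← isB_eq hb1, h2, hb2]
    · rintro rfl
      exact ⟨hb1, hb2⟩
  · rw [Finset.card_eq_zero, Finset.filter_eq_empty_iff]
    rintro a - ⟨h1, h2⟩
    exact h ⟨a, h1, h2⟩

/-- The next bottom. -/
def nb (D κ : Cube n) : Fin n → Bool := fun k => (κ k).2 || (D k).2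

/-- One step of the first phase on sets of keys. -/
def stepB (M : List (Cube n)) (S : Set (Cube n)) (D : Cube n) : Set (Cube n) :=
  S ∪ {κ' | ∃ κ ∈ S, isB M (nb D κ) ∧ key M (nb D κ) = κ'}

/-- Joins of the bottoms of the rows of `L` which contain `b`. -/
def bl (L : List (Cube n)) (b : Fin n → Bool) : Fin n → Bool :=
  fun k => decide (∃ A ∈ L, leF A (pt b) ∧ (A k).2 = true)

theorem leF_bl {L : List (Cube n)} {b : Fin n → Bool} {A : Cube n} (hA : A ∈ L)
    (h : leF A (pt b)) : leF A (pt (bl L b)) := by
  rw [leF_iff]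
  intro i
  constructor
  · intro hi
    have h1 := ((leF_iff _ _).1 h i).1 hi
    simp only [pt, Bool.not_eq_true'] at h1 ⊢
    simp only [bl, decide_eq_false_iff_not]
    rintro ⟨A', -, hA', h2⟩
    have h3 := ((leF_iff _ _).1 hA' i).2 h2
    simp only [pt] at h3
    rw [h1] at h3
    exact absurd h3 (by simp)
  · intro hi
    simp only [pt, bl, decide_eq_true_eq]
    exact ⟨A, hA, h, hi⟩

theorem isB_bl {M L : List (Cube n)} (hL : ∀ A ∈ L, A ∈ M) (b : Fin n → Bool) :
    isB M (bl L b) := by
  intro k hk
  simp only [bl, decide_eq_true_eq] at hk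
  obtain ⟨A, hA, h1, h2⟩ := hk
  simp only [key, hullF, decide_eq_true_eq]
  exact ⟨A, hL A hA, leF_bl hA h1, h2⟩

theorem bl_self {M : List (Cube n)} {b : Fin n → Bool} (h : isB M b) : bl M b = b := by
  funext k
  cases hb : b k
  · simp only [bl, decide_eq_false_iff_not]
    rintro ⟨A, -, hA, h2⟩
    have h3 := ((leF_iff _ _).1 hA k).2 h2
    simp only [pt] at h3
    rw [hb] at h3
    exact absurd h3 (by simp)
  · have := h k hb
    simp only [key, hullF, decide_eq_true_eq] at this
    simp only [bl, decide_eq_true_eq]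
    exact this

theorem stepB_sub {M : List (Cube n)} {S : Set (Cube n)} (hS : S ⊆ keysB M) (D : Cube n) :
    stepB M S D ⊆ keysB M := by
  rintro κ (h | ⟨κ', -, h1, h2⟩)
  · exact hS h
  · exact ⟨_, h1, h2⟩

theorem foldl_stepB_sub {M : List (Cube n)} (L : List (Cube n)) {S : Set (Cube n)}
    (hS : S ⊆ keysB M) : L.foldl (stepB M) S ⊆ keysB M := by
  induction L generalizing S with
  | nil => exact hS
  | cons D L ih => exact ih (stepB_sub hS D)

theorem stepB_bl {M : List (Cube n)} {S : Set (Cube n)} {L : List (Cube n)} {D : Cube n}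
    (hL : ∀ A ∈ L, A ∈ M) (hD : D ∈ M) (h : ∀ b, key M (bl L b) ∈ S) (b : Fin n → Bool) :
    key M (bl (L ++ [D]) b) ∈ stepB M S D := by
  by_cases hDb : leF D (pt b)
  · right
    refine ⟨key M (bl L b), h b, ?_⟩
    have hBL := isB_bl hL b
    have e : nb D (key M (bl L b)) = bl (L ++ [D]) b := by
      funext k
      simp only [nb, isB_eq hBL]
      cases hd : (D k).2
      · rw [Bool.or_false]
        simp only [bl, decide_eq_decide]
        constructor
        · rintro ⟨A, hA, h1, h2⟩
          exact ⟨A, by simp [hA], h1, h2⟩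
        · rintro ⟨A, hA, h1, h2⟩
          rw [List.mem_append, List.mem_singleton] at hA
          rcases hA with hA | rfl
          · exact ⟨A, hA, h1, h2⟩
          · rw [hd] at h2; exact absurd h2 (by simp)
      · rw [Bool.or_true]
        symm
        simp only [bl, decide_eq_true_eq]
        exact ⟨D, by simp, hDb, hd⟩
    rw [e]
    refine ⟨isB_bl ?_ b, rfl⟩
    intro A hA
    rw [List.mem_append, List.mem_singleton] at hA
    rcases hA with hA | rfl
    · exact hL A hA
    · exact hD
  · left
    have e : bl (L ++ [D]) b = bl L b := by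
      funext k
      simp only [bl, decide_eq_decide]
      constructor
      · rintro ⟨A, hA, h1, h2⟩
        rw [List.mem_append, List.mem_singleton] at hA
        rcases hA with hA | rfl
        · exact ⟨A, hA, h1, h2⟩
        · exact absurd h1 hDb
      · rintro ⟨A, hA, h1, h2⟩
        exact ⟨A, by simp [hA], h1, h2⟩
    rw [e]
    exact h b

theorem foldl_stepB_bl {M : List (Cube n)} (L2 : List (Cube n)) : ∀ (L1 : List (Cube n))
    (S : Set (Cube n)) (_h1 : ∀ A ∈ L1, A ∈ M) (_h2 : ∀ A ∈ L2, A ∈ M)
    (_h : ∀ b, key M (bl L1 b) ∈ S) (b : Fin n → Bool),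
    key M (bl (L1 ++ L2) b) ∈ L2.foldl (stepB M) S := by
  induction L2 with
  | nil => intro L1 S h1 h2 h b; simpa using h b
  | cons D L2 ih =>
    intro L1 S h1 h2 h b
    have e : L1 ++ D :: L2 = (L1 ++ [D]) ++ L2 := by simp
    rw [e, List.foldl_cons]
    apply ih
    · intro A hA
      rw [List.mem_append, List.mem_singleton] at hA
      rcases hA with hA | rfl
      · exact h1 A hA
      · exact h2 A (by simp)
    · exact fun A hA => h2 A (by simp [hA])
    · exact stepB_bl h1 (h2 D (by simp)) h

theorem isB_zero (M : List (Cube n)) : isB M fun _ => false := by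
  intro k hk
  exact absurd hk (by simp)

theorem foldl_stepB (M : List (Cube n)) :
    M.foldl (stepB M) {key M fun _ => false} = keysB M := by
  apply subset_antisymm
  · apply foldl_stepB_sub
    rintro κ hκ
    rw [Set.mem_singleton_iff] at hκ
    exact ⟨_, isB_zero M, hκ.symm⟩
  · rintro κ ⟨b, hb, rfl⟩
    have := foldl_stepB_bl (M := M) M [] {key M fun _ => false} (by simp) (fun A hA => hA) (by
      intro b
      have e : bl ([] : List (Cube n)) b = fun _ => false := by
        funext k
        simp [bl]
      rw [e]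
      rfl) b
    rw [List.nil_append, bl_self hb] at this
    exact this

end Pool.Agent.H1.Sat
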