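import Mathlib

/-!
# Structured stack programs and their translation to `Turing.FinTM2`

A small structured language (straight-line blocks, sequencing, branching, loops) over eleven
stacks, with a step-counting big-step semantics, and a translation into Mathlib's bundled
multi-stack Turing machines which needs exactly one machine step for each counted step.
-/

namespace Pool.Agent.H1.Sat

/-- Cells: `(p, q)`; `p` means fixed to 0, `q` means fixed to 1. -/
abbrev Cell := Bool × Bool

/-- Control symbols. -/
inductive Ctl
  | p1 (q : Bool)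
  | ca
  | cc
  | cd
  deriving DecidableEq, Fintype

/-- Work cells. -/
structure WC where
  r : Cell
  q : Cell
  acc : Cell
  t : Cell
  c : Ctl
  deriving DecidableEq, Fintype

/-- Stack symbols. -/
inductive Sym
  | sep
  | cell (x : Cell)
  | bit (b : Bool)
  | ctl (c : Ctl)
  | hdr (md kp : Bool)
  | wc (w : WC)
  | pc (x y : Cell)
  | pb (x y s : Bool)
  deriving DecidableEq, Fintype

/-- Names of the work stacks. -/
inductive KS
  | ma | mb | xs | ta | tb | tc | wa | wb | va
  deriving DecidableEq, Fintype

/-- Names of the stacks. -/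
inductive K
  | inp
  | out
  | s (k : KS)
  deriving DecidableEq, Fintype

/-- Alphabets of the stacks. -/
abbrev Γ : K → Type
  | .inp => Option Cell
  | .out => Bool
  | .s _ => Sym

/-- Registers. -/
structure Reg where
  x : Option Sym
  y : Option Sym
  z : Option Sym
  f : Bool
  g : Bool
  h : Bool
  cy : Bool
  md : Bool
  kp : Bool

/-- Registers as tuples. -/
def regEquiv : (Option Sym × Option Sym × Option Sym) ×
    ((Bool × Bool × Bool) × (Bool × Bool × Bool)) ≃ Reg where
  toFun p := ⟨p.1.1, p.1.2.1, p.1.2.2, p.2.1.1, p.2.1.2.1, p.2.1.2.2, p.2.2.1, p.2.2.2.1, p.2.2.2.2⟩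
  invFun r := ⟨⟨r.x, r.y, r.z⟩, ⟨r.f, r.g, r.h⟩, ⟨r.cy, r.md, r.kp⟩⟩
  left_inv _ := rfl
  right_inv _ := rfl

instance : Fintype Reg := Fintype.ofEquiv _ regEquiv

/-- Contents of the stacks. -/
structure St where
  inp : List (Option Cell)
  out : List Bool
  ma : List Sym
  mb : List Sym
  xs : List Sym
  ta : List Sym
  tb : List Sym
  tc : List Sym
  wa : List Sym
  wb : List Sym
  va : List Sym

/-- Read a work stack. -/
def St.gs (s : St) : KS → List Sym
  | .ma => s.ma
  | .mb => s.mb
  | .xs => s.xs
  | .ta => s.ta
  | .tb => s.tb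
  | .tc => s.tc
  | .wa => s.wa
  | .wb => s.wb
  | .va => s.va

/-- Overwrite a work stack. -/
def St.ss (s : St) : KS → List Sym → St
  | .ma, l => { s with ma := l }
  | .mb, l => { s with mb := l }
  | .xs, l => { s with xs := l }
  | .ta, l => { s with ta := l }
  | .tb, l => { s with tb := l }
  | .tc, l => { s with tc := l }
  | .wa, l => { s with wa := l }
  | .wb, l => { s with wb := l }
  | .va, l => { s with va := l }

/-- Read a stack. -/
def St.get (s : St) : (k : K) → List (Γ k)
  | .inp => s.inp
  | .out => s.out
  | .s k => s.gs k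

/-- Overwrite a stack. -/
def St.set (s : St) : (k : K) → List (Γ k) → St
  | .inp, l => { s with inp := l }
  | .out, l => { s with out := l }
  | .s k, l => s.ss k l

theorem St.gs_ss (s : St) (k : KS) (l : List Sym) : (s.ss k l).gs k = l := by
  cases k <;> rfl

theorem St.gs_ss_ne (s : St) {k k' : KS} (l : List Sym) (h : k' ≠ k) :
    (s.ss k l).gs k' = s.gs k' := by
  cases k <;> cases k' <;> first | rfl | exact absurd rfl h

theorem St.ss_comm (s : St) {k k' : KS} (l l' : List Sym) (h : k' ≠ k) :
    (s.ss k l).ss k' l' = (s.ss k' l').ss k l := by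
  cases k <;> cases k' <;> first | rfl | exact absurd rfl h

theorem St.ss_ss (s : St) (k : KS) (l l' : List Sym) : (s.ss k l).ss k l' = s.ss k l' := by
  cases k <;> rfl

theorem St.ss_gs (s : St) (k : KS) : s.ss k (s.gs k) = s := by
  cases k <;> rfl

theorem St.get_set (s : St) (k : K) (l : List (Γ k)) :
    (s.set k l).get = Function.update s.get k l := by
  funext k'
  rcases k with _ | _ | k <;> rcases k' with _ | _ | k'
  · rfl
  · rfl
  · rw [Function.update_of_ne (by simp)]; rfl
  · rfl
  · rfl
  · rw [Function.update_of_ne (by simp)]; rfl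
  · rw [Function.update_of_ne (by simp)]; cases k <;> rfl
  · rw [Function.update_of_ne (by simp)]; cases k <;> rfl
  · by_cases h : k' = k
    · subst h
      rw [Function.update_self]
      exact s.gs_ss k' l
    · rw [Function.update_of_ne (by simpa using h)]
      exact s.gs_ss_ne l h

/-- Machine states: registers and stacks. -/
abbrev State := Reg × St

/-- Elementary operations. -/
inductive Op
  | push (k : K) (f : Reg → Γ k)
  | pop (k : K) (f : Reg → Option (Γ k) → Reg)
  | load (f : Reg → Reg)

/-- Effect of an elementary operation. -/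
def Op.run : Op → State → State
  | .push k f, (r, s) => (r, s.set k (f r :: s.get k))
  | .pop k f, (r, s) => (f r (s.get k).head?, s.set k (s.get k).tail)
  | .load f, (r, s) => (f r, s)

/-- Effect of a block. -/
def runOps : List Op → State → State
  | [], s => s
  | o :: os, s => runOps os (o.run s)

/-- Structured programs. -/
inductive Prog
  | blk (ops : List Op)
  | seq (p q : Prog)
  | ite (c : Reg → Bool) (p q : Prog)
  | loop (c : Reg → Bool) (p : Prog)

/-- Step-counting big-step semantics. -/
inductive Exec : Prog → State → State → ℕ → Prop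
  | blk (ops : List Op) (s : State) : Exec (.blk ops) s (runOps ops s) 1
  | seq {p q : Prog} {s s' s'' : State} {t t' : ℕ} (h : Exec p s s' t) (h' : Exec q s' s'' t') :
      Exec (.seq p q) s s'' (t + t')
  | ite_true {c : Reg → Bool} {p q : Prog} {s s' : State} {t : ℕ} (hc : c s.1 = true)
      (h : Exec p s s' t) : Exec (.ite c p q) s s' (1 + t)
  | ite_false {c : Reg → Bool} {p q : Prog} {s s' : State} {t : ℕ} (hc : c s.1 = false)
      (h : Exec q s s' t) : Exec (.ite c p q) s s' (1 + t)
  | loop_false {c : Reg → Bool} {p : Prog} {s : State} (hc : c s.1 = false) :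
      Exec (.loop c p) s s 1
  | loop_true {c : Reg → Bool} {p : Prog} {s s' s'' : State} {t t' : ℕ} (hc : c s.1 = true)
      (h : Exec p s s' t) (h' : Exec (.loop c p) s' s'' t') :
      Exec (.loop c p) s s'' (1 + t + t')

/-- Labels of a program. -/
def Lab : Prog → Type
  | .blk _ => Unit
  | .seq p q => Lab p ⊕ Lab q
  | .ite _ p q => Option (Lab p ⊕ Lab q)
  | .loop _ p => Option (Lab p)

/-- There are finitely many labels. -/
@[instance_reducible]
def labFintype : (p : Prog) → Fintype (Lab p)
  | .blk _ => inferInstanceAs (Fintype Unit)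
  | .seq p q =>
    letI := labFintype p
    letI := labFintype q
    inferInstanceAs (Fintype (Lab p ⊕ Lab q))
  | .ite _ p q =>
    letI := labFintype p
    letI := labFintype q
    inferInstanceAs (Fintype (Option (Lab p ⊕ Lab q)))
  | .loop _ p =>
    letI := labFintype p
    inferInstanceAs (Fintype (Option (Lab p)))

/-- Entry label. -/
def entry : (p : Prog) → Lab p
  | .blk _ => ()
  | .seq p _ => Sum.inl (entry p)
  | .ite _ _ _ => none
  | .loop _ _ => none

open Turing.TM2 in
/-- Statement of a block with a continuation. -/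
def opsStmt {Λ : Type} : List Op → Stmt Γ Λ Reg → Stmt Γ Λ Reg
  | [], q => q
  | .push k f :: os, q => .push k f (opsStmt os q)
  | .pop k f :: os, q => .pop k f (opsStmt os q)
  | .load f :: os, q => .load f (opsStmt os q)

open Turing.TM2 in
/-- The code at the labels of a program. -/
def code {Λ : Type} : (p : Prog) → (Lab p → Λ) → Λ → Lab p → Stmt Γ Λ Reg
  | .blk ops, _, ex, _ => opsStmt ops (.goto fun _ => ex)
  | .seq p q, emb, _, .inl l => code p (fun l => emb (.inl l)) (emb (.inr (entry q))) l
  | .seq _ q, emb, ex, .inr l => code q (fun l => emb (.inr l)) ex l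
  | .ite c p q, emb, _, none =>
    .branch c (.goto fun _ => emb (some (.inl (entry p)))) (.goto fun _ => emb (some (.inr (entry q))))
  | .ite _ p _, emb, ex, some (.inl l) => code p (fun l => emb (some (.inl l))) ex l
  | .ite _ _ q, emb, ex, some (.inr l) => code q (fun l => emb (some (.inr l))) ex l
  | .loop c p, emb, ex, none =>
    .branch c (.goto fun _ => emb (some (entry p))) (.goto fun _ => ex)
  | .loop _ p, emb, _, some l => code p (fun l => emb (some l)) (emb none) l

open Turing.TM2

theorem stepAux_opsStmt {Λ : Type} (ops : List Op) (q : Stmt Γ Λ Reg) (s : State) :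
    stepAux (opsStmt ops q) s.1 s.2.get = stepAux q (runOps ops s).1 (runOps ops s).2.get := by
  induction ops generalizing s with
  | nil => rfl
  | cons o os ih =>
    obtain ⟨r, S⟩ := s
    cases o with
    | push k f =>
      simp only [opsStmt, stepAux, runOps, Op.run]
      rw [← St.get_set]
      exact ih (r, S.set k (f r :: S.get k))
    | pop k f =>
      simp only [opsStmt, stepAux, runOps, Op.run]
      rw [← St.get_set]
      exact ih (f r (S.get k).head?, S.set k (S.get k).tail)
    | load f =>
      simp only [opsStmt, stepAux, runOps, Op.run]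
      exact ih (f r, S)

/-- The configuration at a label. -/
def cfg {Λ : Type} (l : Option Λ) (s : State) : Cfg Γ Λ Reg := ⟨l, s.1, s.2.get⟩

/-- `t` steps of the machine. -/
def steps {Λ : Type} (m : Λ → Stmt Γ Λ Reg) (t : ℕ) (a : Option (Cfg Γ Λ Reg)) :
    Option (Cfg Γ Λ Reg) :=
  (flip bind (step m))^[t] a

theorem steps_add {Λ : Type} (m : Λ → Stmt Γ Λ Reg) (t t' : ℕ) (a : Option (Cfg Γ Λ Reg)) :
    steps m (t + t') a = steps m t' (steps m t a) := by
  unfold steps
  rw [Nat.add_comm, Function.iterate_add_apply]

theorem steps_one {Λ : Type} (m : Λ → Stmt Γ Λ Reg) (l : Λ) (s : State) :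
    steps m 1 (some (cfg (some l) s)) = some (stepAux (m l) s.1 s.2.get) := by
  rfl

theorem exec_steps {p : Prog} {s s' : State} {t : ℕ} (h : Exec p s s' t) :
    ∀ {Λ : Type} (m : Λ → Stmt Γ Λ Reg) (emb : Lab p → Λ) (ex : Λ),
      (∀ l, m (emb l) = code p emb ex l) →
      steps m t (some (cfg (some (emb (entry p))) s)) = some (cfg (some ex) s') := by
  induction h with
  | blk ops s =>
    intro Λ m emb ex hm
    rw [steps_one, hm]
    exact congrArg some (stepAux_opsStmt ops (.goto fun _ => ex) s)
  | @seq p q s s' s'' t t' h h' ih ih' =>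
    intro Λ m emb ex hm
    rw [steps_add]
    have h1 := ih m (fun l => emb (.inl l)) (emb (.inr (entry q))) (fun l => hm (.inl l))
    have h2 := ih' m (fun l => emb (.inr l)) ex (fun l => hm (.inr l))
    change steps m t' (steps m t (some (cfg (some (emb (.inl (entry p)))) s))) = _
    rw [h1, h2]
  | @ite_true c p q s s' t hc h ih =>
    intro Λ m emb ex hm
    rw [steps_add, steps_one]
    have h0 : m (emb (entry (.ite c p q))) = .branch c (.goto fun _ => emb (some (.inl (entry p))))
        (.goto fun _ => emb (some (.inr (entry q)))) := hm none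
    rw [h0]
    have h1 := ih m (fun l => emb (some (.inl l))) ex (fun l => hm (some (.inl l)))
    simp only [stepAux, hc]
    exact h1
  | @ite_false c p q s s' t hc h ih =>
    intro Λ m emb ex hm
    rw [steps_add, steps_one]
    have h0 : m (emb (entry (.ite c p q))) = .branch c (.goto fun _ => emb (some (.inl (entry p))))
        (.goto fun _ => emb (some (.inr (entry q)))) := hm none
    rw [h0]
    have h1 := ih m (fun l => emb (some (.inr l))) ex (fun l => hm (some (.inr l)))
    simp only [stepAux, hc]
    exact h1
  | @loop_false c p s hc =>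
    intro Λ m emb ex hm
    rw [steps_one]
    have h0 : m (emb (entry (.loop c p))) = .branch c (.goto fun _ => emb (some (entry p)))
        (.goto fun _ => ex) := hm none
    rw [h0]
    simp only [stepAux, hc]
    rfl
  | @loop_true c p s s' s'' t t' hc h h' ih ih' =>
    intro Λ m emb ex hm
    rw [steps_add, steps_add, steps_one]
    have h0 : m (emb (entry (.loop c p))) = .branch c (.goto fun _ => emb (some (entry p)))
        (.goto fun _ => ex) := hm none
    rw [h0]
    have h1 := ih m (fun l => emb (some l)) (emb none) (fun l => hm (some l))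
    have h2 := ih' m emb ex hm
    simp only [stepAux, hc]
    change steps m t' (steps m t (some (cfg (some (emb (some (entry p)))) s))) = _
    rw [h1]
    exact h2

/-- The initial registers. -/
def reg0 : Reg := ⟨none, none, none, false, false, false, false, false, false⟩

/-- The machine of a program. -/
def machine (p : Prog) : Turing.FinTM2 :=
  letI := labFintype p
  { K := K
    k₀ := K.inp
    k₁ := K.out
    Γ := Γ
    Λ := Option (Lab p)
    main := some (entry p)
    σ := Reg
    initialState := reg0
    Γk₀Fin := inferInstanceAs (Fintype (Option Cell))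
    m := fun l => match l with
      | some l => code p some none l
      | none => .halt }

/-- `Runs p s s' b`: the program `p` leads from `s` to `s'` in at most `b` steps. -/
def Runs (p : Prog) (s s' : State) (b : ℕ) : Prop := ∃ t ≤ b, Exec p s s' t

theorem machine_outputs {p : Prog} {inp : List (Option Cell)} {out : List Bool} {b : ℕ}
    (h : Runs p (reg0, ⟨inp, [], [], [], [], [], [], [], [], [], []⟩)
      (reg0, ⟨[], out, [], [], [], [], [], [], [], [], []⟩) b) :
    Nonempty (Turing.TM2OutputsInTime (machine p) inp (some out) (b + 1)) := by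
  obtain ⟨t, ht, h⟩ := h
  have h1 := exec_steps h (machine p).m (fun l => some l) none (fun l => rfl)
  have h2 : steps (machine p).m (t + 1)
      (some (cfg (some (some (entry p))) (reg0, ⟨inp, [], [], [], [], [], [], [], [], [], []⟩))) =
      some (cfg none (reg0, ⟨[], out, [], [], [], [], [], [], [], [], []⟩)) := by
    rw [steps_add, h1]
    rfl
  have e1 : Turing.initList (machine p) inp =
      cfg (some (some (entry p))) (reg0, ⟨inp, [], [], [], [], [], [], [], [], [], []⟩) := by
    change (⟨_, _, _⟩ : Cfg _ _ _) = ⟨_, _, _⟩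
    congr 1
    funext k
    rcases k with _ | _ | k
    · rfl
    · rfl
    · cases k <;> rfl
  have e2 : Turing.haltList (machine p) out =
      cfg none (reg0, ⟨[], out, [], [], [], [], [], [], [], [], []⟩) := by
    change (⟨_, _, _⟩ : Cfg _ _ _) = ⟨_, _, _⟩
    congr 1
    funext k
    rcases k with _ | _ | k
    · rfl
    · rfl
    · cases k <;> rfl
  have h3 : (flip bind (machine p).step)^[t + 1] (some (Turing.initList (machine p) inp)) =
      some (Turing.haltList (machine p) out) := by
    rw [e1, e2]
    exact h2
  exact ⟨⟨⟨t + 1, h3⟩, Nat.add_le_add_right ht 1⟩⟩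

/-! ### Derived rules -/

theorem Runs.mono {p : Prog} {s s' : State} {b b' : ℕ} (h : Runs p s s' b) (hb : b ≤ b') :
    Runs p s s' b' := by
  obtain ⟨t, ht, h⟩ := h
  exact ⟨t, ht.trans hb, h⟩

theorem Runs.blk {ops : List Op} {s s' : State} (h : runOps ops s = s') :
    Runs (.blk ops) s s' 1 := ⟨1, le_rfl, h ▸ Exec.blk ops s⟩

theorem Runs.seq {p q : Prog} {s s' s'' : State} {b b' : ℕ} (h : Runs p s s' b)
    (h' : Runs q s' s'' b') : Runs (.seq p q) s s'' (b + b') := by
  obtain ⟨t, ht, h⟩ := h
  obtain ⟨t', ht', h'⟩ := h'
  exact ⟨t + t', by omega, Exec.seq h h'⟩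

theorem Runs.ite_true {c : Reg → Bool} {p q : Prog} {s s' : State} {b : ℕ} (hc : c s.1 = true)
    (h : Runs p s s' b) : Runs (.ite c p q) s s' (1 + b) := by
  obtain ⟨t, ht, h⟩ := h
  exact ⟨1 + t, by omega, Exec.ite_true hc h⟩

theorem Runs.ite_false {c : Reg → Bool} {p q : Prog} {s s' : State} {b : ℕ} (hc : c s.1 = false)
    (h : Runs q s s' b) : Runs (.ite c p q) s s' (1 + b) := by
  obtain ⟨t, ht, h⟩ := h
  exact ⟨1 + t, by omega, Exec.ite_false hc h⟩

theorem Runs.loop_false {c : Reg → Bool} {p : Prog} {s : State} (hc : c s.1 = false) :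
    Runs (.loop c p) s s 1 := ⟨1, le_rfl, Exec.loop_false hc⟩

theorem Runs.loop_true {c : Reg → Bool} {p : Prog} {s s' s'' : State} {b b' : ℕ}
    (hc : c s.1 = true) (h : Runs p s s' b) (h' : Runs (.loop c p) s' s'' b') :
    Runs (.loop c p) s s'' (1 + b + b') := by
  obtain ⟨t, ht, h⟩ := h
  obtain ⟨t', ht', h'⟩ := h'
  exact ⟨1 + t + t', by omega, Exec.loop_true hc h h'⟩

end Pool.Agent.H1.Sat
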