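import Mathlib

/-!
# Structured stack programs and their translation to `Turing.FinTM2` (generic version)

A small structured language (straight-line blocks, sequencing, branching, loops) over an input
stack, an output stack and seven work stacks, with a step-counting big-step semantics, and a
translation into Mathlib's bundled multi-stack Turing machines which needs exactly one machine step
for each counted step. The alphabets and the type of registers are arbitrary finite types.
-/

namespace Pool.Agent.H1.SP

/-- Names of the work stacks. -/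
inductive KS
  | ma | mb | ta | tb | wa | wb | va
  deriving DecidableEq, Fintype

/-- Names of the stacks. -/
inductive K
  | inp
  | out
  | s (k : KS)
  deriving DecidableEq, Fintype

/-- Alphabets of the stacks. -/
abbrev Γ (α β γ : Type) : K → Type
  | .inp => α
  | .out => β
  | .s _ => γ

/-- Contents of the stacks. -/
structure St (α β γ : Type) where
  inp : List α
  out : List β
  ma : List γ
  mb : List γ
  ta : List γ
  tb : List γ
  wa : List γ
  wb : List γ
  va : List γ

variable {α β γ σ : Type}

/-- Read a work stack. -/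
def St.gs (s : St α β γ) : KS → List γ
  | .ma => s.ma
  | .mb => s.mb
  | .ta => s.ta
  | .tb => s.tb
  | .wa => s.wa
  | .wb => s.wb
  | .va => s.va

/-- Overwrite a work stack. -/
def St.ss (s : St α β γ) : KS → List γ → St α β γ
  | .ma, l => { s with ma := l }
  | .mb, l => { s with mb := l }
  | .ta, l => { s with ta := l }
  | .tb, l => { s with tb := l }
  | .wa, l => { s with wa := l }
  | .wb, l => { s with wb := l }
  | .va, l => { s with va := l }

/-- Read a stack. -/
def St.get (s : St α β γ) : (k : K) → List (Γ α β γ k)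
  | .inp => s.inp
  | .out => s.out
  | .s k => s.gs k

/-- Overwrite a stack. -/
def St.set (s : St α β γ) : (k : K) → List (Γ α β γ k) → St α β γ
  | .inp, l => { s with inp := l }
  | .out, l => { s with out := l }
  | .s k, l => s.ss k l

theorem St.gs_ss (s : St α β γ) (k : KS) (l : List γ) : (s.ss k l).gs k = l := by
  cases k <;> rfl

theorem St.gs_ss_ne (s : St α β γ) {k k' : KS} (l : List γ) (h : k' ≠ k) :
    (s.ss k l).gs k' = s.gs k' := by
  cases k <;> cases k' <;> first | rfl | exact absurd rfl h

theorem St.ss_comm (s : St α β γ) {k k' : KS} (l l' : List γ) (h : k' ≠ k) :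
    (s.ss k l).ss k' l' = (s.ss k' l').ss k l := by
  cases k <;> cases k' <;> first | rfl | exact absurd rfl h

theorem St.ss_ss (s : St α β γ) (k : KS) (l l' : List γ) : (s.ss k l).ss k l' = s.ss k l' := by
  cases k <;> rfl

theorem St.ss_gs (s : St α β γ) (k : KS) : s.ss k (s.gs k) = s := by
  cases k <;> rfl

theorem St.get_set (s : St α β γ) (k : K) (l : List (Γ α β γ k)) :
    (s.set k l).get = Function.update s.get k l := by
  funext k'
  rcases k with _ | _ | k <;> rcases k' with _ | _ | k'
  · rfl
  · rfl
  · rw [Function.update_of_ne (by simp)]; rfl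
  · rfl
  · rfl
  · rw [Function.update_of_ne (by simp)]; rfl
  · rw [Function.update_of_ne (by simp)]; cases k <;> rfl
  · rw [Function.update_of_ne (by simp)]; cases k <;> rfl
  · by_cases h : k' = k
    · subst h
      rw [Function.update_self]
      exact s.gs_ss k' l
    · rw [Function.update_of_ne (by simpa using h)]
      exact s.gs_ss_ne l h

/-- Elementary operations. -/
inductive Op (α β γ σ : Type)
  | push (k : K) (f : σ → Γ α β γ k)
  | pop (k : K) (f : σ → Option (Γ α β γ k) → σ)
  | load (f : σ → σ)

/-- Effect of an elementary operation. -/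
def Op.run : Op α β γ σ → σ × St α β γ → σ × St α β γ
  | .push k f, (r, s) => (r, s.set k (f r :: s.get k))
  | .pop k f, (r, s) => (f r (s.get k).head?, s.set k (s.get k).tail)
  | .load f, (r, s) => (f r, s)

/-- Effect of a block. -/
def runOps : List (Op α β γ σ) → σ × St α β γ → σ × St α β γ
  | [], s => s
  | o :: os, s => runOps os (o.run s)

/-- Structured programs. -/
inductive Prog (α β γ σ : Type)
  | blk (ops : List (Op α β γ σ))
  | seq (p q : Prog α β γ σ)
  | ite (c : σ → Bool) (p q : Prog α β γ σ)
  | loop (c : σ → Bool) (p : Prog α β γ σ)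

/-- Step-counting big-step semantics. -/
inductive Exec : Prog α β γ σ → σ × St α β γ → σ × St α β γ → ℕ → Prop
  | blk (ops : List (Op α β γ σ)) (s : σ × St α β γ) : Exec (.blk ops) s (runOps ops s) 1
  | seq {p q : Prog α β γ σ} {s s' s'' : σ × St α β γ} {t t' : ℕ} (h : Exec p s s' t)
      (h' : Exec q s' s'' t') : Exec (.seq p q) s s'' (t + t')
  | ite_true {c : σ → Bool} {p q : Prog α β γ σ} {s s' : σ × St α β γ} {t : ℕ} (hc : c s.1 = true)
      (h : Exec p s s' t) : Exec (.ite c p q) s s' (1 + t)
  | ite_false {c : σ → Bool} {p q : Prog α β γ σ} {s s' : σ × St α β γ} {t : ℕ}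
      (hc : c s.1 = false) (h : Exec q s s' t) : Exec (.ite c p q) s s' (1 + t)
  | loop_false {c : σ → Bool} {p : Prog α β γ σ} {s : σ × St α β γ} (hc : c s.1 = false) :
      Exec (.loop c p) s s 1
  | loop_true {c : σ → Bool} {p : Prog α β γ σ} {s s' s'' : σ × St α β γ} {t t' : ℕ}
      (hc : c s.1 = true) (h : Exec p s s' t) (h' : Exec (.loop c p) s' s'' t') :
      Exec (.loop c p) s s'' (1 + t + t')

/-- Labels of a program. -/
def Lab : Prog α β γ σ → Type
  | .blk _ => Unit
  | .seq p q => Lab p ⊕ Lab q
  | .ite _ p q => Option (Lab p ⊕ Lab q)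
  | .loop _ p => Option (Lab p)

/-- There are finitely many labels. -/
@[instance_reducible]
def labFintype : (p : Prog α β γ σ) → Fintype (Lab p)
  | .blk _ => inferInstanceAs (Fintype Unit)
  | .seq p q =>
    letI := labFintype p
    letI := labFintype q
    inferInstanceAs (Fintype (Lab p ⊕ Lab q))
  | .ite _ p q =>
    letI := labFintype p
    letI := labFintype q
    inferInstanceAs (Fintype (Option (Lab p ⊕ Lab q)))
  | .loop _ p =>
    letI := labFintype p
    inferInstanceAs (Fintype (Option (Lab p)))

/-- Entry label. -/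
def entry : (p : Prog α β γ σ) → Lab p
  | .blk _ => ()
  | .seq p _ => Sum.inl (entry p)
  | .ite _ _ _ => none
  | .loop _ _ => none

open Turing.TM2 in
/-- Statement of a block with a continuation. -/
def opsStmt {Λ : Type} : List (Op α β γ σ) → Stmt (Γ α β γ) Λ σ → Stmt (Γ α β γ) Λ σ
  | [], q => q
  | .push k f :: os, q => .push k f (opsStmt os q)
  | .pop k f :: os, q => .pop k f (opsStmt os q)
  | .load f :: os, q => .load f (opsStmt os q)

open Turing.TM2 in
/-- The code at the labels of a program. -/
def code {Λ : Type} : (p : Prog α β γ σ) → (Lab p → Λ) → Λ → Lab p → Stmt (Γ α β γ) Λ σ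
  | .blk ops, _, ex, _ => opsStmt ops (.goto fun _ => ex)
  | .seq p q, emb, _, .inl l => code p (fun l => emb (.inl l)) (emb (.inr (entry q))) l
  | .seq _ q, emb, ex, .inr l => code q (fun l => emb (.inr l)) ex l
  | .ite c p q, emb, _, none =>
    .branch c (.goto fun _ => emb (some (.inl (entry p)))) (.goto fun _ => emb (some (.inr (entry q))))
  | .ite _ p _, emb, ex, some (.inl l) => code p (fun l => emb (some (.inl l))) ex l
  | .ite _ _ q, emb, ex, some (.inr l) => code q (fun l => emb (some (.inr l))) ex l
  | .loop c p, emb, ex, none =>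
    .branch c (.goto fun _ => emb (some (entry p))) (.goto fun _ => ex)
  | .loop _ p, emb, _, some l => code p (fun l => emb (some l)) (emb none) l

open Turing.TM2

theorem stepAux_opsStmt {Λ : Type} (ops : List (Op α β γ σ)) (q : Stmt (Γ α β γ) Λ σ)
    (s : σ × St α β γ) :
    stepAux (opsStmt ops q) s.1 s.2.get = stepAux q (runOps ops s).1 (runOps ops s).2.get := by
  induction ops generalizing s with
  | nil => rfl
  | cons o os ih =>
    obtain ⟨r, S⟩ := s
    cases o with
    | push k f =>
      simp only [opsStmt, stepAux, runOps, Op.run]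
      rw [← St.get_set]
      exact ih (r, S.set k (f r :: S.get k))
    | pop k f =>
      simp only [opsStmt, stepAux, runOps, Op.run]
      rw [← St.get_set]
      exact ih (f r (S.get k).head?, S.set k (S.get k).tail)
    | load f =>
      simp only [opsStmt, stepAux, runOps, Op.run]
      exact ih (f r, S)

/-- The configuration at a label. -/
def cfg {Λ : Type} (l : Option Λ) (s : σ × St α β γ) : Cfg (Γ α β γ) Λ σ := ⟨l, s.1, s.2.get⟩

/-- `t` steps of the machine. -/
def steps {Λ : Type} (m : Λ → Stmt (Γ α β γ) Λ σ) (t : ℕ) (a : Option (Cfg (Γ α β γ) Λ σ)) :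
    Option (Cfg (Γ α β γ) Λ σ) :=
  (flip bind (step m))^[t] a

theorem steps_add {Λ : Type} (m : Λ → Stmt (Γ α β γ) Λ σ) (t t' : ℕ)
    (a : Option (Cfg (Γ α β γ) Λ σ)) :
    steps m (t + t') a = steps m t' (steps m t a) := by
  unfold steps
  rw [Nat.add_comm, Function.iterate_add_apply]

theorem steps_one {Λ : Type} (m : Λ → Stmt (Γ α β γ) Λ σ) (l : Λ) (s : σ × St α β γ) :
    steps m 1 (some (cfg (some l) s)) = some (stepAux (m l) s.1 s.2.get) := by
  rfl

theorem exec_steps {p : Prog α β γ σ} {s s' : σ × St α β γ} {t : ℕ} (h : Exec p s s' t) :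
    ∀ {Λ : Type} (m : Λ → Stmt (Γ α β γ) Λ σ) (emb : Lab p → Λ) (ex : Λ),
      (∀ l, m (emb l) = code p emb ex l) →
      steps m t (some (cfg (some (emb (entry p))) s)) = some (cfg (some ex) s') := by
  induction h with
  | blk ops s =>
    intro Λ m emb ex hm
    rw [steps_one, hm]
    exact congrArg some (stepAux_opsStmt ops (.goto fun _ => ex) s)
  | @seq p q s s' s'' t t' h h' ih ih' =>
    intro Λ m emb ex hm
    rw [steps_add]
    have h1 := ih m (fun l => emb (.inl l)) (emb (.inr (entry q))) (fun l => hm (.inl l))
    have h2 := ih' m (fun l => emb (.inr l)) ex (fun l => hm (.inr l))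
    change steps m t' (steps m t (some (cfg (some (emb (.inl (entry p)))) s))) = _
    rw [h1, h2]
  | @ite_true c p q s s' t hc h ih =>
    intro Λ m emb ex hm
    rw [steps_add, steps_one]
    have h0 : m (emb (entry (.ite c p q))) = .branch c (.goto fun _ => emb (some (.inl (entry p))))
        (.goto fun _ => emb (some (.inr (entry q)))) := hm none
    rw [h0]
    have h1 := ih m (fun l => emb (some (.inl l))) ex (fun l => hm (some (.inl l)))
    simp only [stepAux, hc]
    exact h1
  | @ite_false c p q s s' t hc h ih =>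
    intro Λ m emb ex hm
    rw [steps_add, steps_one]
    have h0 : m (emb (entry (.ite c p q))) = .branch c (.goto fun _ => emb (some (.inl (entry p))))
        (.goto fun _ => emb (some (.inr (entry q)))) := hm none
    rw [h0]
    have h1 := ih m (fun l => emb (some (.inr l))) ex (fun l => hm (some (.inr l)))
    simp only [stepAux, hc]
    exact h1
  | @loop_false c p s hc =>
    intro Λ m emb ex hm
    rw [steps_one]
    have h0 : m (emb (entry (.loop c p))) = .branch c (.goto fun _ => emb (some (entry p)))
        (.goto fun _ => ex) := hm none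
    rw [h0]
    simp only [stepAux, hc]
    rfl
  | @loop_true c p s s' s'' t t' hc h h' ih ih' =>
    intro Λ m emb ex hm
    rw [steps_add, steps_add, steps_one]
    have h0 : m (emb (entry (.loop c p))) = .branch c (.goto fun _ => emb (some (entry p)))
        (.goto fun _ => ex) := hm none
    rw [h0]
    have h1 := ih m (fun l => emb (some l)) (emb none) (fun l => hm (some l))
    have h2 := ih' m emb ex hm
    simp only [stepAux, hc]
    change steps m t' (steps m t (some (cfg (some (emb (some (entry p)))) s))) = _
    rw [h1]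
    exact h2

/-- The code of the whole machine. -/
def mfun (p : Prog α β γ σ) : Option (Lab p) → Stmt (Γ α β γ) (Option (Lab p)) σ
  | some l => code p some none l
  | none => .halt

/-- The machine of a program. -/
def machine [Fintype α] [Fintype σ] (r0 : σ) (p : Prog α β γ σ) : Turing.FinTM2 :=
  letI := labFintype p
  { K := K
    k₀ := K.inp
    k₁ := K.out
    Γ := Γ α β γ
    Λ := Option (Lab p)
    main := some (entry p)
    σ := σ
    initialState := r0
    Γk₀Fin := inferInstanceAs (Fintype α)
    m := mfun p }

/-- `Runs p s s' b`: the program `p` leads from `s` to `s'` in at most `b` steps. -/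
def Runs (p : Prog α β γ σ) (s s' : σ × St α β γ) (b : ℕ) : Prop := ∃ t ≤ b, Exec p s s' t

theorem machine_outputs [Fintype α] [Fintype σ] {r0 : σ} {p : Prog α β γ σ} {inp : List α}
    {out : List β} {b : ℕ}
    (h : Runs p (r0, ⟨inp, [], [], [], [], [], [], [], []⟩)
      (r0, ⟨[], out, [], [], [], [], [], [], []⟩) b) :
    Nonempty (Turing.TM2OutputsInTime (machine r0 p) inp (some out) (b + 1)) := by
  obtain ⟨t, ht, h⟩ := h
  have h1 := exec_steps h (mfun p) (fun l => some l) none (fun l => rfl)
  have h2 : steps (mfun p) (t + 1)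
      (some (cfg (some (some (entry p))) (r0, ⟨inp, [], [], [], [], [], [], [], []⟩))) =
      some (cfg none (r0, ⟨[], out, [], [], [], [], [], [], []⟩)) := by
    rw [steps_add, h1]
    rfl
  have e1 : Turing.initList (machine r0 p) inp =
      cfg (some (some (entry p))) (r0, ⟨inp, [], [], [], [], [], [], [], []⟩) := by
    change (⟨_, _, _⟩ : Cfg _ _ _) = ⟨_, _, _⟩
    congr 1
    funext k
    rcases k with _ | _ | k
    · rfl
    · rfl
    · cases k <;> rfl
  have e2 : Turing.haltList (machine r0 p) out =
      cfg none (r0, ⟨[], out, [], [], [], [], [], [], []⟩) := by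
    change (⟨_, _, _⟩ : Cfg _ _ _) = ⟨_, _, _⟩
    congr 1
    funext k
    rcases k with _ | _ | k
    · rfl
    · rfl
    · cases k <;> rfl
  have h3 : (flip bind (machine r0 p).step)^[t + 1] (some (Turing.initList (machine r0 p) inp)) =
      some (Turing.haltList (machine r0 p) out) := by
    rw [e1, e2]
    exact h2
  exact ⟨⟨⟨t + 1, h3⟩, Nat.add_le_add_right ht 1⟩⟩

theorem finite_machine [Fintype α] [Finite β] [Finite γ] [Fintype σ] (r0 : σ)
    (p : Prog α β γ σ) : ∀ k, Finite ((machine r0 p).Γ k) := by
  intro k
  rcases k with _ | _ | k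
  · exact inferInstanceAs (Finite α)
  · exact inferInstanceAs (Finite β)
  · exact inferInstanceAs (Finite γ)

/-! ### Derived rules -/

theorem Runs.mono {p : Prog α β γ σ} {s s' : σ × St α β γ} {b b' : ℕ} (h : Runs p s s' b)
    (hb : b ≤ b') : Runs p s s' b' := by
  obtain ⟨t, ht, h⟩ := h
  exact ⟨t, ht.trans hb, h⟩

theorem Runs.blk {ops : List (Op α β γ σ)} {s s' : σ × St α β γ} (h : runOps ops s = s') :
    Runs (.blk ops) s s' 1 := ⟨1, le_rfl, h ▸ Exec.blk ops s⟩

theorem Runs.seq {p q : Prog α β γ σ} {s s' s'' : σ × St α β γ} {b b' : ℕ} (h : Runs p s s' b)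
    (h' : Runs q s' s'' b') : Runs (.seq p q) s s'' (b + b') := by
  obtain ⟨t, ht, h⟩ := h
  obtain ⟨t', ht', h'⟩ := h'
  exact ⟨t + t', by omega, Exec.seq h h'⟩

theorem Runs.ite_true {c : σ → Bool} {p q : Prog α β γ σ} {s s' : σ × St α β γ} {b : ℕ}
    (hc : c s.1 = true) (h : Runs p s s' b) : Runs (.ite c p q) s s' (1 + b) := by
  obtain ⟨t, ht, h⟩ := h
  exact ⟨1 + t, by omega, Exec.ite_true hc h⟩

theorem Runs.ite_false {c : σ → Bool} {p q : Prog α β γ σ} {s s' : σ × St α β γ} {b : ℕ}
    (hc : c s.1 = false) (h : Runs q s s' b) : Runs (.ite c p q) s s' (1 + b) := by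
  obtain ⟨t, ht, h⟩ := h
  exact ⟨1 + t, by omega, Exec.ite_false hc h⟩

theorem Runs.loop_false {c : σ → Bool} {p : Prog α β γ σ} {s : σ × St α β γ}
    (hc : c s.1 = false) : Runs (.loop c p) s s 1 := ⟨1, le_rfl, Exec.loop_false hc⟩

theorem Runs.loop_true {c : σ → Bool} {p : Prog α β γ σ} {s s' s'' : σ × St α β γ} {b b' : ℕ}
    (hc : c s.1 = true) (h : Runs p s s' b) (h' : Runs (.loop c p) s' s'' b') :
    Runs (.loop c p) s s'' (1 + b + b') := by
  obtain ⟨t, ht, h⟩ := h
  obtain ⟨t', ht', h'⟩ := h'
  exact ⟨1 + t + t', by omega, Exec.loop_true hc h h'⟩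

end Pool.Agent.H1.SP
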