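import Mathlib

/-!
# Existence of the universal cover

For a path connected, locally path connected and semilocally simply connected space `X` we
construct the universal cover as the space of homotopy classes of paths starting at a base point.
-/

open Topology Set unitInterval

noncomputable section

namespace Pool.Agent.H1

universe u

variable {X : Type u} [TopologicalSpace X]

/-- Homotopy classes of paths starting at `x₀`. -/
@[ext]
structure UC (x₀ : X) : Type u where
  /-- the end point -/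
  pt : X
  /-- the homotopy class -/
  cls : Path.Homotopic.Quotient x₀ pt

namespace UC

variable {x₀ : X}

/-- The end point of a homotopy class of paths. -/
def proj (e : UC x₀) : X := e.pt

/-- The sheet through `e` over `U`. -/
def sheet (e : UC x₀) (U : Set X) : Set (UC x₀) :=
  {e' | ∃ η : Path e.pt e'.pt, (∀ t, η t ∈ U) ∧
    e'.cls = e.cls.trans (Path.Homotopic.Quotient.mk η)}

theorem mem_sheet_self (e : UC x₀) {U : Set X} (h : e.pt ∈ U) : e ∈ sheet e U :=
  ⟨Path.refl _, fun _ => h, by simp⟩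

theorem sheet_mono (e : UC x₀) {U V : Set X} (h : U ⊆ V) : sheet e U ⊆ sheet e V :=
  fun _ ⟨η, h1, h2⟩ => ⟨η, fun t => h (h1 t), h2⟩

theorem sheet_subset_of_mem {e e' : UC x₀} {U : Set X} (h : e' ∈ sheet e U) :
    sheet e' U ⊆ sheet e U := by
  rintro e'' ⟨η', h1', h2'⟩
  obtain ⟨η, h1, h2⟩ := h
  refine ⟨η.trans η', fun t => ?_, ?_⟩
  · have : (η.trans η') t ∈ range (η.trans η') := ⟨t, rfl⟩
    rw [Path.trans_range] at this
    rcases this with ⟨s, hs⟩ | ⟨s, hs⟩
    · rw [← hs]; exact h1 s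
    · rw [← hs]; exact h1' s
  · rw [h2', h2, Path.Homotopic.Quotient.mk_trans, Path.Homotopic.Quotient.trans_assoc]

theorem pt_mem_of_mem_sheet {e e' : UC x₀} {U : Set X} (h : e' ∈ sheet e U) : e'.pt ∈ U := by
  obtain ⟨η, h1, -⟩ := h
  simpa using h1 1

instance : TopologicalSpace (UC x₀) where
  IsOpen W := ∀ e ∈ W, ∃ U : Set X, IsOpen U ∧ e.pt ∈ U ∧ sheet e U ⊆ W
  isOpen_univ _ _ := ⟨univ, isOpen_univ, mem_univ _, subset_univ _⟩
  isOpen_inter W W' h h' e he := by
    obtain ⟨U, hU, heU, hs⟩ := h e he.1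
    obtain ⟨U', hU', heU', hs'⟩ := h' e he.2
    exact ⟨U ∩ U', hU.inter hU', ⟨heU, heU'⟩, subset_inter
      ((sheet_mono e inter_subset_left).trans hs) ((sheet_mono e inter_subset_right).trans hs')⟩
  isOpen_sUnion S h e he := by
    obtain ⟨W, hW, heW⟩ := he
    obtain ⟨U, hU, heU, hs⟩ := h W hW e heW
    exact ⟨U, hU, heU, hs.trans (subset_sUnion_of_mem hW)⟩

theorem isOpen_iff {W : Set (UC x₀)} :
    IsOpen W ↔ ∀ e ∈ W, ∃ U : Set X, IsOpen U ∧ e.pt ∈ U ∧ sheet e U ⊆ W := Iff.rfl

theorem isOpen_sheet (e : UC x₀) {U : Set X} (hU : IsOpen U) : IsOpen (sheet e U) :=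
  isOpen_iff.2 fun _ he' => ⟨U, hU, pt_mem_of_mem_sheet he', sheet_subset_of_mem he'⟩

theorem continuous_proj : Continuous (proj : UC x₀ → X) :=
  continuous_def.2 fun U hU => isOpen_iff.2 fun _ he =>
    ⟨U, hU, he, fun _ h => pt_mem_of_mem_sheet h⟩

theorem isOpenMap_proj [LocallyPathConnectedSpace X] : IsOpenMap (proj : UC x₀ → X) := by
  intro W hW
  rw [isOpen_iff_mem_nhds]
  rintro _ ⟨e, he, rfl⟩
  obtain ⟨U, hU, heU, hs⟩ := isOpen_iff.1 hW e he
  obtain ⟨V, ⟨hV, hVp⟩, hVU⟩ :=
    (path_connected_basis (X := X) (proj e)).mem_iff.1 (hU.mem_nhds heU)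
  refine Filter.mem_of_superset hV ?_
  intro y hy
  obtain ⟨η, hη⟩ := hVp.joinedIn (proj e) (mem_of_mem_nhds hV) y hy
  exact ⟨⟨y, e.cls.trans (Path.Homotopic.Quotient.mk η)⟩,
    hs ⟨η, fun t => hVU (hη t), rfl⟩, rfl⟩

theorem surjective_proj [PathConnectedSpace X] :
    Function.Surjective (proj : UC x₀ → X) := fun y =>
  ⟨⟨y, Path.Homotopic.Quotient.mk (PathConnectedSpace.somePath x₀ y)⟩, rfl⟩

instance : MulAction (FundamentalGroup X x₀) (UC x₀) where
  smul g e := ⟨e.pt, (Path.Homotopic.Quotient.symm (x₀ := x₀) (x₁ := x₀) g).trans e.cls⟩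
  one_smul e := by
    refine UC.ext rfl (heq_of_eq ?_)
    change (Path.Homotopic.Quotient.symm (Path.Homotopic.Quotient.refl x₀)).trans e.cls = e.cls
    have : (Path.Homotopic.Quotient.symm (Path.Homotopic.Quotient.refl x₀)) =
      Path.Homotopic.Quotient.refl x₀ := by
      rw [← Path.Homotopic.Quotient.mk_refl, ← Path.Homotopic.Quotient.mk_symm, Path.refl_symm]
    rw [this, Path.Homotopic.Quotient.refl_trans]
  mul_smul g h e := by
    refine UC.ext rfl (heq_of_eq ?_)
    have key : ∀ (g h : Path.Homotopic.Quotient x₀ x₀),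
        Path.Homotopic.Quotient.symm (h.trans g) =
          (Path.Homotopic.Quotient.symm g).trans (Path.Homotopic.Quotient.symm h) := by
      intro g h
      induction g with | mk g =>
      induction h with | mk h =>
      rw [← Path.Homotopic.Quotient.mk_trans, ← Path.Homotopic.Quotient.mk_symm,
        Path.trans_symm, Path.Homotopic.Quotient.mk_trans, Path.Homotopic.Quotient.mk_symm,
        Path.Homotopic.Quotient.mk_symm]
    change (Path.Homotopic.Quotient.symm (Path.Homotopic.Quotient.trans _ _)).trans e.cls =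
      (Path.Homotopic.Quotient.symm _).trans ((Path.Homotopic.Quotient.symm _).trans e.cls)
    rw [key, Path.Homotopic.Quotient.trans_assoc]

theorem smul_def (g : FundamentalGroup X x₀) (e : UC x₀) :
    g • e = ⟨e.pt, (Path.Homotopic.Quotient.symm (x₀ := x₀) (x₁ := x₀) g).trans e.cls⟩ := rfl

@[simp] theorem proj_smul (g : FundamentalGroup X x₀) (e : UC x₀) : proj (g • e) = proj e := rfl

theorem smul_mem_sheet (g : FundamentalGroup X x₀) {e e' : UC x₀} {U : Set X}
    (h : e' ∈ sheet e U) : g • e' ∈ sheet (g • e) U := by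
  obtain ⟨η, h1, h2⟩ := h
  refine ⟨η, h1, ?_⟩
  change (Path.Homotopic.Quotient.symm _).trans e'.cls =
    ((Path.Homotopic.Quotient.symm _).trans e.cls).trans _
  rw [h2, Path.Homotopic.Quotient.trans_assoc]

instance : ContinuousConstSMul (FundamentalGroup X x₀) (UC x₀) where
  continuous_const_smul g := by
    refine continuous_def.2 fun W hW => isOpen_iff.2 fun e he => ?_
    obtain ⟨U, hU, heU, hs⟩ := isOpen_iff.1 hW _ he
    exact ⟨U, hU, heU, fun e' he' => hs (smul_mem_sheet g he')⟩

theorem proj_eq_iff {e₁ e₂ : UC x₀} :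
    proj e₁ = proj e₂ ↔ e₁ ∈ MulAction.orbit (FundamentalGroup X x₀) e₂ := by
  constructor
  · intro h
    obtain ⟨y, γ₁⟩ := e₁
    obtain ⟨y', γ₂⟩ := e₂
    obtain rfl : y = y' := h
    refine ⟨(γ₂.trans γ₁.symm : Path.Homotopic.Quotient x₀ x₀), ?_⟩
    refine UC.ext rfl (heq_of_eq ?_)
    change (Path.Homotopic.Quotient.symm (γ₂.trans γ₁.symm)).trans γ₂ = γ₁
    induction γ₁ with | mk γ₁ =>
    induction γ₂ with | mk γ₂ =>
    rw [← Path.Homotopic.Quotient.mk_symm, ← Path.Homotopic.Quotient.mk_trans,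
      ← Path.Homotopic.Quotient.mk_symm, Path.trans_symm, Path.symm_symm,
      Path.Homotopic.Quotient.mk_trans, Path.Homotopic.Quotient.mk_symm,
      Path.Homotopic.Quotient.trans_assoc, Path.Homotopic.Quotient.symm_trans,
      Path.Homotopic.Quotient.trans_refl]
  · rintro ⟨g, rfl⟩
    rfl

/-- Cancellation on the right in the fundamental groupoid. -/
theorem trans_right_cancel {a b c : X} {p q : Path.Homotopic.Quotient a b}
    {r : Path.Homotopic.Quotient b c} (h : p.trans r = q.trans r) : p = q := by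
  have := congrArg (fun s => Path.Homotopic.Quotient.trans s (Path.Homotopic.Quotient.symm r)) h
  simpa [Path.Homotopic.Quotient.trans_assoc] using this

theorem disjoint_aux
    (slsc : ∀ x : X, ∃ U ∈ 𝓝 x, ∀ γ : Path x x, (∀ t, γ t ∈ U) → γ.Homotopic (Path.refl x))
    (e : UC x₀) : ∃ W ∈ 𝓝 e, ∀ g : FundamentalGroup X x₀,
      ((g • ·) '' W ∩ W).Nonempty → g = 1 := by
  obtain ⟨U, hU, hnull⟩ := slsc e.pt
  obtain ⟨V, hVU, hV, heV⟩ := mem_nhds_iff.1 hU
  refine ⟨sheet e V, (isOpen_sheet e hV).mem_nhds (mem_sheet_self e heV), ?_⟩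
  rintro g ⟨_, ⟨e', ⟨η, h1, h2⟩, rfl⟩, hge⟩
  obtain ⟨η', h1', h2'⟩ : ∃ η' : Path e.pt e'.pt, (∀ t, η' t ∈ V) ∧
      (g • e').cls = e.cls.trans (Path.Homotopic.Quotient.mk η') := hge
  have hloop : Path.Homotopic.Quotient.mk (η'.trans η.symm) =
      Path.Homotopic.Quotient.refl e.pt := by
    refine Path.Homotopic.Quotient.eq.2 (hnull (η'.trans η.symm) fun t => hVU ?_)
    have : (η'.trans η.symm) t ∈ range (η'.trans η.symm) := ⟨t, rfl⟩
    rw [Path.trans_range] at this
    rcases this with ⟨s, hs⟩ | ⟨s, hs⟩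
    · rw [← hs]; exact h1' s
    · rw [← hs]; exact h1 _
  have hηη' : Path.Homotopic.Quotient.mk η' = Path.Homotopic.Quotient.mk η := by
    rw [Path.Homotopic.Quotient.mk_trans, Path.Homotopic.Quotient.mk_symm] at hloop
    have := congrArg (fun s => Path.Homotopic.Quotient.trans s
      (Path.Homotopic.Quotient.mk η)) hloop
    simpa [Path.Homotopic.Quotient.trans_assoc] using this
  have h3 : (Path.Homotopic.Quotient.symm (x₀ := x₀) (x₁ := x₀) g).trans e'.cls =
      e.cls.trans (Path.Homotopic.Quotient.mk η') := h2'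
  rw [hηη', ← h2] at h3
  have h4 : Path.Homotopic.Quotient.symm (x₀ := x₀) (x₁ := x₀) g =
      Path.Homotopic.Quotient.refl x₀ := by
    apply trans_right_cancel (r := e'.cls)
    rw [h3, Path.Homotopic.Quotient.refl_trans]
  have h5 : g⁻¹ = 1 := h4
  exact inv_eq_one.1 h5

theorem isQuotientCoveringMap_proj [PathConnectedSpace X] [LocallyPathConnectedSpace X]
    (slsc : ∀ x : X, ∃ U ∈ 𝓝 x, ∀ γ : Path x x, (∀ t, γ t ∈ U) → γ.Homotopic (Path.refl x)) :
    IsQuotientCoveringMap (proj : UC x₀ → X) (FundamentalGroup X x₀) where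
  toIsQuotientMap := (isOpenMap_proj).isQuotientMap continuous_proj surjective_proj
  continuous_const_smul := continuous_const_smul
  apply_eq_iff_mem_orbit := proj_eq_iff
  disjoint := disjoint_aux slsc

/-- The canonical lift of a path `γ`, starting at `e`. -/
def lift (e : UC x₀) {y : X} (γ : Path e.pt y) (t : I) : UC x₀ :=
  ⟨γ t, e.cls.trans ((Path.Homotopic.Quotient.mk (γ.subpath 0 t)).cast γ.source.symm rfl)⟩

theorem lift_zero (e : UC x₀) {y : X} (γ : Path e.pt y) : lift e γ 0 = e := by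
  have h : (lift e γ 0).1 = e.pt := γ.source
  refine UC.ext h ?_
  have key : ∀ (a b : X) (h : b = a) (q : Path.Homotopic.Quotient x₀ a)
      (r : Path b b), r = Path.refl b →
      HEq (q.trans ((Path.Homotopic.Quotient.mk r).cast h.symm rfl)) q := by
    rintro a b rfl q r rfl
    simp
  exact key _ _ γ.source _ _ (by simp)

theorem lift_one (e : UC x₀) {y : X} (γ : Path e.pt y) :
    lift e γ 1 = ⟨y, e.cls.trans (Path.Homotopic.Quotient.mk γ)⟩ := by
  refine UC.ext γ.target ?_
  have key : ∀ (a b c d : X) (h : b = a) (h' : c = d) (q : Path.Homotopic.Quotient x₀ a)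
      (r : Path b c) (s : Path a d), r = s.cast h h' →
      HEq (q.trans ((Path.Homotopic.Quotient.mk r).cast h.symm rfl))
        (q.trans (Path.Homotopic.Quotient.mk s)) := by
    rintro a b c d rfl rfl q r s rfl
    simp
  exact key _ _ _ _ γ.source γ.target _ _ _ (by simp)

theorem lift_mem_sheet (e : UC x₀) {y : X} (γ : Path e.pt y) (s t : I) {U : Set X}
    (h : γ '' uIcc s t ⊆ U) : lift e γ t ∈ sheet (lift e γ s) U := by
  refine ⟨γ.subpath s t, fun r => h ?_, ?_⟩
  · rw [← Path.range_subpath]; exact ⟨r, rfl⟩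
  · have key : ∀ (a b c d : X) (h : b = a) (q : Path.Homotopic.Quotient x₀ a)
      (r : Path b c) (r' : Path c d) (r'' : Path b d), (r.trans r').Homotopic r'' →
      (q.trans ((Path.Homotopic.Quotient.mk r'').cast h.symm rfl)) =
        (q.trans ((Path.Homotopic.Quotient.mk r).cast h.symm rfl)).trans
          (Path.Homotopic.Quotient.mk r') := by
      rintro a b c d rfl q r r' r'' hh
      rw [← Path.Homotopic.Quotient.eq] at hh
      rw [← hh]
      simp [Path.Homotopic.Quotient.trans_assoc]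
    exact key _ _ _ _ γ.source _ _ _ _ ⟨Path.Homotopy.subpathTransSubpath γ 0 s t⟩

theorem continuous_lift (e : UC x₀) {y : X} (γ : Path e.pt y) : Continuous (lift e γ) := by
  rw [continuous_iff_continuousAt]
  intro s
  rw [ContinuousAt, tendsto_nhds]
  intro W hW hs
  obtain ⟨U, hU, heU, hWU⟩ := isOpen_iff.1 hW _ hs
  have hpre : γ ⁻¹' U ∈ 𝓝 s := γ.continuous.continuousAt.preimage_mem_nhds (hU.mem_nhds heU)
  obtain ⟨ε, hε, hball⟩ := Metric.mem_nhds_iff.1 hpre
  refine Filter.mem_of_superset (Metric.ball_mem_nhds s hε) ?_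
  intro t ht
  refine hWU (lift_mem_sheet e γ s t ?_)
  rintro _ ⟨r, hr, rfl⟩
  refine hball ?_
  rw [Metric.mem_ball] at ht ⊢
  have h1 : dist (r : ℝ) (s : ℝ) ≤ dist (t : ℝ) (s : ℝ) := by
    rw [Real.dist_eq, Real.dist_eq]
    rcases le_total s t with hst | hst
    · rw [uIcc_of_le hst] at hr
      have h1 : (s : ℝ) ≤ r := hr.1
      have h2 : (r : ℝ) ≤ t := hr.2
      rw [abs_of_nonneg (by linarith), abs_of_nonneg (by linarith)]
      linarith
    · rw [uIcc_of_ge hst] at hr
      have h1 : (t : ℝ) ≤ r := hr.1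
      have h2 : (r : ℝ) ≤ s := hr.2
      rw [abs_of_nonpos (by linarith), abs_of_nonpos (by linarith)]
      linarith
  exact lt_of_le_of_lt h1 ht

theorem joined_of_mk (e : UC x₀) {y : X} (γ : Path e.pt y) :
    Joined e ⟨y, e.cls.trans (Path.Homotopic.Quotient.mk γ)⟩ :=
  ⟨⟨⟨lift e γ, continuous_lift e γ⟩, lift_zero e γ, lift_one e γ⟩⟩

/-- The base point of the universal cover. -/
def base (x₀ : X) : UC x₀ := ⟨x₀, Path.Homotopic.Quotient.refl x₀⟩

theorem joined_base (e : UC x₀) : Joined (base x₀) e := by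
  obtain ⟨y, γ⟩ := e
  induction γ with | mk γ =>
  have := joined_of_mk (base x₀) (y := y) γ
  simpa [base] using this

instance : PathConnectedSpace (UC x₀) where
  nonempty := ⟨base x₀⟩
  joined e e' := (joined_base e).symm.trans (joined_base e')

theorem simplyConnectedSpace [PathConnectedSpace X] [LocallyPathConnectedSpace X]
    (slsc : ∀ x : X, ∃ U ∈ 𝓝 x, ∀ γ : Path x x, (∀ t, γ t ∈ U) → γ.Homotopic (Path.refl x)) :
    SimplyConnectedSpace (UC x₀) := by
  rw [simply_connected_iff_loops_nullhomotopic]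
  refine ⟨inferInstance, fun e δ => ?_⟩
  have cov : IsCoveringMap (proj : UC x₀ → X) := (isQuotientCoveringMap_proj slsc).isCoveringMap
  have hγ0 : proj e = e.pt := rfl
  let γ : Path e.pt e.pt := δ.map continuous_proj
  have h1 : (δ : I → UC x₀) = lift e γ := by
    refine cov.eq_of_comp_eq δ.continuous (continuous_lift e γ) ?_ 0 ?_
    · funext t; rfl
    · rw [lift_zero]; exact δ.source
  have h2 : e = ⟨e.pt, e.cls.trans (Path.Homotopic.Quotient.mk γ)⟩ := by
    have := congrFun h1 1
    rw [lift_one] at this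
    rw [← this]; exact δ.target.symm
  have h3 : e.cls = e.cls.trans (Path.Homotopic.Quotient.mk γ) := by
    have := UC.ext_iff.1 h2
    exact eq_of_heq this.2
  have h4 : Path.Homotopic.Quotient.mk γ = Path.Homotopic.Quotient.refl e.pt := by
    have := congrArg (fun s => Path.Homotopic.Quotient.trans
      (Path.Homotopic.Quotient.symm e.cls) s) h3
    simp only [← Path.Homotopic.Quotient.trans_assoc, Path.Homotopic.Quotient.symm_trans,
      Path.Homotopic.Quotient.refl_trans] at this
    exact this.symm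
  rw [← Path.Homotopic.Quotient.eq]
  apply cov.injective_path_homotopic_map e e
  change Path.Homotopic.Quotient.mk γ = Path.Homotopic.Quotient.refl e.pt
  exact h4

end UC

/-- Existence of the universal cover. -/
theorem exists_universal_cover (X : Type) [TopologicalSpace X] [PathConnectedSpace X]
    [LocallyPathConnectedSpace X]
    (slsc : ∀ x : X, ∃ U ∈ 𝓝 x, ∀ γ : Path x x, (∀ t, γ t ∈ U) → γ.Homotopic (Path.refl x)) :
    ∃ (E : Type) (_ : TopologicalSpace E) (G : Type) (_ : Group G) (_ : MulAction G E) (p : E → X),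
      IsQuotientCoveringMap p G ∧ SimplyConnectedSpace E := by
  obtain ⟨x₀⟩ := (inferInstance : Nonempty X)
  exact ⟨UC x₀, inferInstance, FundamentalGroup X x₀, inferInstance, inferInstance, UC.proj,
    UC.isQuotientCoveringMap_proj slsc, UC.simplyConnectedSpace slsc⟩

end Pool.Agent.H1
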